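import Pool.Agent.Lib.MP_092512_nt.QC.Defs

/-!
# Av: the averaging operator of a partition

PROOF. `av c` is the conditional expectation with respect to the partition of `Y` in cells `{c = const}`. `av_const`: constant on cells:
`c y = c z → av c g y = av c g z`. Self-adjoint: `∑_y av c f y * g y = ∑_y f y * av c g y` (both are
`∑_Q (∑_Q f)(∑_Q g)/|Q|`; as a double sum `∑_y ∑_{z : c z = c y} f z g y/|cell y|`, exchange and use that the cells of `y` and `z` agree).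
`av_av`: idempotent. `sum_av`: `∑ av = ∑`. `av_abs_le`: `|av c g y| ≤ M` if `|g| ≤ M`. `av_sq_le`: `∑ (av c g)^2 ≤ ∑ g^2` (Jensen).
`nrm_conv`: `nrm c` is a convex quadratic form (Cauchy-Schwarz): `(∑ p_i g_i)` with `p_i ≥ 0`: `nrm c (∑ p_i g_i) ≤ (∑ p_i) ∑ p_i nrm c g_i`.
`nrm_dom`: `0 ≤ f ≤ g` implies `nrm c f ≤ nrm c g`.
-/

set_option autoImplicit false
set_option linter.unusedSectionVars false

open Finset

namespace Pool.Agent.Lib.MP_092512_nt.QC

variable {Y : Type} [Fintype Y]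

theorem mem_cell_self (c : Y → ℕ) (y : Y) : y ∈ cell c y := by
  unfold cell; simp

theorem cell_card_pos (c : Y → ℕ) (y : Y) : 0 < (cell c y).card :=
  card_pos.mpr ⟨y, mem_cell_self c y⟩

theorem cell_eq (c : Y → ℕ) {y z : Y} (h : c y = c z) : cell c y = cell c z := by
  unfold cell; rw [h]

theorem av_congr (c : Y → ℕ) (g : Y → ℝ) {y z : Y} (h : c y = c z) : av c g y = av c g z := by
  unfold av; rw [cell_eq c h]

theorem av_add (c : Y → ℕ) (f g : Y → ℝ) (y : Y) :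
    av c (fun z => f z + g z) y = av c f y + av c g y := by
  unfold av
  rw [sum_add_distrib, add_div]

theorem av_smul (c : Y → ℕ) (a : ℝ) (g : Y → ℝ) (y : Y) :
    av c (fun z => a * g z) y = a * av c g y := by
  unfold av
  rw [← mul_sum, mul_div_assoc]

theorem av_nonneg (c : Y → ℕ) (g : Y → ℝ) (hg : ∀ z, 0 ≤ g z) (y : Y) : 0 ≤ av c g y :=
  div_nonneg (sum_nonneg fun z _ => hg z) (Nat.cast_nonneg _)

private theorem av_cast_pos (c : Y → ℕ) (y : Y) : (0 : ℝ) < ((cell c y).card : ℝ) :=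
  Nat.cast_pos.2 (cell_card_pos c y)

theorem av_abs_le (c : Y → ℕ) (g : Y → ℝ) (M : ℝ) (hg : ∀ z, |g z| ≤ M) (y : Y) :
    |av c g y| ≤ M := by
  unfold av
  have h0 := av_cast_pos c y
  rw [abs_div, abs_of_pos h0, div_le_iff₀ h0]
  calc |∑ z ∈ cell c y, g z| ≤ ∑ z ∈ cell c y, |g z| := abs_sum_le_sum_abs _ _
    _ ≤ ∑ _z ∈ cell c y, M := sum_le_sum fun z _ => hg z
    _ = M * ((cell c y).card : ℝ) := by rw [sum_const, nsmul_eq_mul, mul_comm]

private theorem av_const (c : Y → ℕ) (g : Y → ℝ) (a : ℝ) (y : Y) (h : ∀ z ∈ cell c y, g z = a) :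
    av c g y = a := by
  unfold av
  rw [sum_congr rfl h, sum_const, nsmul_eq_mul]
  exact mul_div_cancel_left₀ a (av_cast_pos c y).ne'

theorem av_av (c : Y → ℕ) (g : Y → ℝ) (y : Y) : av c (av c g) y = av c g y := by
  refine av_const c _ _ y fun z hz => ?_
  unfold cell at hz
  exact av_congr c g (mem_filter.1 hz).2

private theorem av_dbl (c : Y → ℕ) (f g : Y → ℝ) :
    ∑ y, f y * av c g y = ∑ y, ∑ z, if c z = c y then f y * g z / (cell c y).card else 0 := by
  refine sum_congr rfl fun y _ => ?_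
  unfold av
  rw [← sum_filter, ← sum_div, ← mul_sum, mul_div_assoc]
  rfl

theorem sum_av_mul (c : Y → ℕ) (f g : Y → ℝ) :
    ∑ y, av c f y * g y = ∑ y, f y * av c g y := by
  have h1 : ∑ y, av c f y * g y = ∑ y, g y * av c f y := sum_congr rfl fun y _ => mul_comm _ _
  rw [h1, av_dbl, av_dbl, sum_comm]
  refine sum_congr rfl fun y _ => sum_congr rfl fun z _ => ?_
  by_cases h : c y = c z
  · rw [if_pos h, if_pos h.symm, cell_eq c h, mul_comm (g z)]
  · rw [if_neg h, if_neg (fun h' => h h'.symm)]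

theorem sum_av (c : Y → ℕ) (g : Y → ℝ) : ∑ y, av c g y = ∑ y, g y := by
  have h1 := sum_av_mul c g (fun _ => 1)
  have h2 : ∀ y, av c (fun _ => (1 : ℝ)) y = 1 := fun y => av_const c _ _ y fun z _ => rfl
  simpa only [mul_one, h2] using h1

theorem nrm_nonneg (c : Y → ℕ) (g : Y → ℝ) : 0 ≤ nrm c g := by
  unfold nrm
  exact div_nonneg (sum_nonneg fun y _ => sq_nonneg _) (Nat.cast_nonneg _)

theorem nrm_smul (c : Y → ℕ) (a : ℝ) (g : Y → ℝ) : nrm c (fun y => a * g y) = a ^ 2 * nrm c g := by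
  unfold nrm
  rw [← mul_div_assoc, mul_sum]
  congr 1
  refine sum_congr rfl fun y _ => ?_
  rw [av_smul, mul_pow]

theorem nrm_mono (c : Y → ℕ) (f g : Y → ℝ) (hf : ∀ y, 0 ≤ f y) (hfg : ∀ y, f y ≤ g y) :
    nrm c f ≤ nrm c g := by
  unfold nrm
  refine div_le_div_of_nonneg_right (sum_le_sum fun y _ => ?_) (Nat.cast_nonneg _)
  refine pow_le_pow_left₀ (av_nonneg c f hf y) ?_ 2
  unfold av
  exact div_le_div_of_nonneg_right (sum_le_sum fun z _ => hfg z) (Nat.cast_nonneg _)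

/-- Cauchy-Schwarz for a mixture -/
theorem nrm_mix (c : Y → ℕ) {κ : Type} (s : Finset κ) (p : κ → ℝ) (hp : ∀ i ∈ s, 0 ≤ p i)
    (g : κ → Y → ℝ) :
    nrm c (fun y => ∑ i ∈ s, p i * g i y) ≤ (∑ i ∈ s, p i) * ∑ i ∈ s, p i * nrm c (g i) := by
  have h1 : ∀ y, av c (fun y => ∑ i ∈ s, p i * g i y) y = ∑ i ∈ s, p i * av c (g i) y := by
    intro y
    unfold av
    rw [sum_comm, sum_div]
    refine sum_congr rfl fun i _ => ?_
    rw [← mul_sum, mul_div_assoc]
  have h2 : ∀ y, (∑ i ∈ s, p i * av c (g i) y) ^ 2 ≤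
      (∑ i ∈ s, p i) * ∑ i ∈ s, p i * (av c (g i) y) ^ 2 := fun y =>
    sum_sq_le_sum_mul_sum_of_sq_le_mul s hp
      (fun i hi => mul_nonneg (hp i hi) (sq_nonneg _)) (fun i _ => le_of_eq (by ring))
  have h3 : (∑ i ∈ s, p i) * ∑ i ∈ s, p i * nrm c (g i) =
      (∑ y, (∑ i ∈ s, p i) * ∑ i ∈ s, p i * (av c (g i) y) ^ 2) / Fintype.card Y := by
    rw [← mul_sum, mul_div_assoc, sum_comm, sum_div]
    congr 1
    refine sum_congr rfl fun i _ => ?_
    unfold nrm
    rw [← mul_sum, mul_div_assoc]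
  rw [h3]
  unfold nrm
  refine div_le_div_of_nonneg_right (sum_le_sum fun y _ => ?_) (Nat.cast_nonneg _)
  rw [h1]
  exact h2 y

end Pool.Agent.Lib.MP_092512_nt.QC
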