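import Pool.Agent.Lib.MP_092512_nt.KSets

/-!
# ND: definitions of the number theoretic part
-/

set_option autoImplicit false

open Finset

namespace Pool.Agent.Lib.MP_092512_nt.QC

/-- `W/φ(W)`, `W` the product of the primes `≤ w` -/
noncomputable def wf (w : ℕ) : ℝ := (primorial w : ℝ) / (Nat.totient (primorial w) : ℝ)

/-- `1 ≤ n ≤ x` in the class `b` -/
def JJ (x W b : ℕ) : Finset ℕ := (Icc 1 x).filter (fun n => n ≡ b [MOD W])

/-- number of `n ≤ x` in the class with all `n + d` prime -/
def hit (x W b : ℕ) (D : Finset ℕ) : ℕ :=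
  ((JJ x W b).filter (fun n => ∀ d ∈ D, (n + d).Prime)).card

theorem one_le_wf (w : ℕ) : 1 ≤ wf w := by
  unfold wf
  have h0 : 0 < primorial w := primorial_pos w
  have h1 : (0 : ℝ) < Nat.totient (primorial w) := by
    exact_mod_cast Nat.totient_pos.mpr h0
  rw [one_le_div h1]
  exact_mod_cast Nat.totient_le _

end Pool.Agent.Lib.MP_092512_nt.QC
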