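import Pool.Agent.Lib.MP_092512_nt.QC.Defs
import Pool.Agent.Lib.MP_092512_nt.QC.ND

/-!
# Brg: from subsets of a set of integers to tuples in the subtype

`V` a finite set of natural numbers, `Y = {y // y ∈ V}`. PROOF. `im v` is the set of values of the tuple. `pr_eq`: unfold. `sum_inj_le`: the fibre of
`v ↦ im v` over a `j`-subset `D` among injective tuples has at most `j!` elements (injective maps `Fin j → D`, i.e. `Fintype.card_embedding_eq`,
`descFactorial_self`), and `im v ∈ powersetCard j V`. `bad_le`: every `D ∈ powersetCard j (T.image val)` with `P D` is `im v` for some injective `v` with values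
in `T` (enumerate `D`, `Finset.orderEmbOfFin` or `equivFin`), so the map `v ↦ im v` from `{v ∈ BB : ∀ i, v i ∈ T}` covers the bad `D`.
-/

set_option autoImplicit false

open Finset

namespace Pool.Agent.Lib.MP_092512_nt.QC

/-- the points of `V` hit by `n` -/
def RV (V : Finset ℕ) (n : ℕ) : Finset {y // y ∈ V} := univ.filter (fun y => (n + y.1).Prime)

/-- the set of values of a tuple -/
def im {V : Finset ℕ} {α : Type} [Fintype α] (v : α → {y // y ∈ V}) : Finset ℕ :=
  univ.image (fun i => (v i).1)

open Classical in
/-- injective tuples with property `P` of the set of values -/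
noncomputable def bad (V : Finset ℕ) (j : ℕ) (P : Finset ℕ → Prop) :
    Finset (Fin j → {y // y ∈ V}) :=
  univ.filter (fun v => Function.Injective v ∧ P (im v))

theorem im_mem {V : Finset ℕ} {j : ℕ} (v : Fin j → {y // y ∈ V}) (hv : Function.Injective v) :
    im v ∈ powersetCard j V := by
  rw [Finset.mem_powersetCard]
  constructor
  · intro a ha
    unfold im at ha
    rw [Finset.mem_image] at ha
    obtain ⟨i, -, rfl⟩ := ha
    exact (v i).2
  · unfold im
    rw [Finset.card_image_of_injective]
    · simp
    · intro a b hab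
      exact hv (Subtype.ext hab)

theorem im_pair {V : Finset ℕ} (y z : {y // y ∈ V}) : im ![y, z] = {y.1, z.1} := by
  ext a
  simp [im, Fin.exists_fin_two, eq_comm]

theorem pr_eq (V : Finset ℕ) {α : Type} [Fintype α] (x W b : ℕ) (v : α → {y // y ∈ V}) :
    pr (JJ x W b) (RV V) v = (hit x W b (im v) : ℝ) / (JJ x W b).card := by
  have key : ∀ n, (∀ i, v i ∈ RV V n) ↔ ∀ d ∈ im v, (n + d).Prime := by
    intro n
    constructor
    · intro h d hd
      unfold im at hd
      rw [Finset.mem_image] at hd
      obtain ⟨i, -, rfl⟩ := hd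
      have := h i
      unfold RV at this
      exact (Finset.mem_filter.1 this).2
    · intro h i
      unfold RV
      rw [Finset.mem_filter]
      refine ⟨Finset.mem_univ _, h _ ?_⟩
      unfold im
      exact Finset.mem_image_of_mem (fun i => (v i).1) (Finset.mem_univ i)
  unfold pr hit
  congr 2
  refine congrArg Finset.card ?_
  ext n
  simp only [Finset.mem_filter]
  exact and_congr_right fun _ => key n

private theorem brg_fib (V : Finset ℕ) (j : ℕ) (B : Finset (Fin j → {y // y ∈ V}))
    (hB : ∀ v ∈ B, Function.Injective v) (D : Finset ℕ) (hD : D.card = j) :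
    (B.filter (fun v => im v = D)).card ≤ j.factorial := by
  classical
  have h1 : Fintype.card (Fin j ↪ {x // x ∈ D}) = j.factorial := by
    rw [Fintype.card_embedding_eq, Fintype.card_coe, Fintype.card_fin, hD, Nat.descFactorial_self]
  rw [← h1, ← Fintype.card_coe]
  have hmem : ∀ v : {v // v ∈ B.filter (fun v => im v = D)}, ∀ i, (v.1 i).1 ∈ D := by
    intro v i
    have h2 := (Finset.mem_filter.1 v.2).2
    have h3 : (v.1 i).1 ∈ im v.1 := by
      unfold im
      exact Finset.mem_image_of_mem (fun i => (v.1 i).1) (Finset.mem_univ i)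
    exact (Finset.ext_iff.1 h2 _).1 h3
  have hinj : ∀ v : {v // v ∈ B.filter (fun v => im v = D)}, Function.Injective
      (fun i => (⟨(v.1 i).1, hmem v i⟩ : {x // x ∈ D})) := by
    intro v a b hab
    apply hB v.1 (Finset.mem_filter.1 v.2).1
    have h5 := Subtype.ext_iff.1 hab
    exact Subtype.ext h5
  refine Fintype.card_le_of_injective (fun v => (⟨fun i => ⟨(v.1 i).1, hmem v i⟩, hinj v⟩ :
    Fin j ↪ {x // x ∈ D})) ?_
  intro v w hvw
  apply Subtype.ext
  funext i
  apply Subtype.ext
  have h3 := congrArg (fun e : Fin j ↪ {x // x ∈ D} => (e i).1) hvw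
  exact h3

theorem sum_inj_le (V : Finset ℕ) (j : ℕ) (F : Finset ℕ → ℝ) (hF : ∀ D, 0 ≤ F D)
    (B : Finset (Fin j → {y // y ∈ V})) (hB : ∀ v ∈ B, Function.Injective v) :
    ∑ v ∈ B, F (im v) ≤ (j.factorial : ℝ) * ∑ D ∈ powersetCard j V, F D := by
  classical
  rw [← Finset.sum_fiberwise_of_maps_to (s := B) (t := powersetCard j V) (g := im)
    (fun v hv => im_mem v (hB v hv)) (fun v => F (im v)), Finset.mul_sum]
  refine Finset.sum_le_sum fun D hD => ?_
  have h1 : ∑ v ∈ B.filter (fun v => im v = D), F (im v) =
      ((B.filter (fun v => im v = D)).card : ℝ) * F D := by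
    rw [← nsmul_eq_mul, ← Finset.sum_const]
    refine Finset.sum_congr rfl fun v hv => ?_
    rw [(Finset.mem_filter.1 hv).2]
  rw [h1]
  refine mul_le_mul_of_nonneg_right ?_ (hF D)
  exact_mod_cast brg_fib V j B hB D (Finset.mem_powersetCard.1 hD).2

open Classical in
theorem bad_le (V : Finset ℕ) (j : ℕ) (P : Finset ℕ → Prop) (T : Finset {y // y ∈ V}) :
    ((powersetCard j (T.image Subtype.val)).filter P).card ≤ inT (bad V j P) T := by
  have hsub : (powersetCard j (T.image Subtype.val)).filter P ⊆
      ((bad V j P).filter (fun y => ∀ i, y i ∈ T)).image im := by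
    intro D hD
    rw [Finset.mem_filter, Finset.mem_powersetCard] at hD
    obtain ⟨⟨hD1, hD2⟩, hD3⟩ := hD
    have hmem : ∀ i, D.orderEmbOfFin hD2 i ∈ D := fun i => Finset.orderEmbOfFin_mem D hD2 i
    have hT : ∀ i, ∃ y ∈ T, y.1 = D.orderEmbOfFin hD2 i := by
      intro i
      have := hD1 (hmem i)
      rw [Finset.mem_image] at this
      exact this
    choose v hv1 hv2 using hT
    have him : im v = D := by
      ext a
      unfold im
      rw [Finset.mem_image]
      constructor
      · rintro ⟨i, -, rfl⟩
        rw [hv2]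
        exact hmem i
      · intro ha
        have h4 : a ∈ Set.range (D.orderEmbOfFin hD2) := by
          rw [Finset.range_orderEmbOfFin]
          exact ha
        obtain ⟨i, hi⟩ := h4
        exact ⟨i, Finset.mem_univ _, by rw [hv2, hi]⟩
    have hinj : Function.Injective v := by
      intro a b hab
      have h5 : D.orderEmbOfFin hD2 a = D.orderEmbOfFin hD2 b := by
        rw [← hv2, ← hv2, hab]
      exact (D.orderEmbOfFin hD2).injective h5
    rw [Finset.mem_image]
    refine ⟨v, ?_, him⟩
    rw [Finset.mem_filter]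
    refine ⟨?_, hv1⟩
    unfold bad
    rw [Finset.mem_filter]
    exact ⟨Finset.mem_univ _, hinj, by rw [him]; exact hD3⟩
  refine (Finset.card_le_card hsub).trans (Finset.card_image_le.trans (le_of_eq ?_))
  unfold inT
  refine congrArg Finset.card ?_
  ext v
  simp only [Finset.mem_filter]

end Pool.Agent.Lib.MP_092512_nt.QC
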