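import Pool.Agent.Lib.MP_092512_nt.QC.Av

/-!
# Cls: choice of the level of the number of points (1.5 of the text)

Pure real numbers: `s n ≥ 0` (the normalised number of points), `E n ≥ s n ^ 2` (the energy). PROOF. `∑ s n 1[s n < a] ≤ a |J|`,
`∑ s n 1[s n ≥ b] ≤ (1/b) ∑ s n^2 ≤ (C/b)|J|`. So `∑ s n 1[a ≤ s n < b] ≥ (1 - η - a - C/b)|J| ≥ (1 - 3 e)|J|`, Cauchy-Schwarz:
`∑ s n^2 1[a ≤ s n < b] ≥ (1 - 3e)^2 |J|`. Levels `a (1+e)^i ≤ s < a (1+e)^(i+1)`, `i < I0`, with `a (1+e)^I0 ≥ b`; the levels with fewer than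
`p0 |J|` elements contribute `≤ I0 p0 (b (1+e))^2 |J| ≤ e |J|` if `p0 = e/(I0 (b(1+e))^2)`. So the other levels have `∑ s^2 ≥ (1 - 7e)|J|` and
`∑ E ≤ C |J|`: for one of them `∑ E n ≤ (C/(1-7e)) ∑ s n^2`. Choose `a = e/2`, `b = 2 C/e`, `η ≤ e/2` and `e` with
`(1+e)^2/(1 - 7 e) ≤ 1 + ε`: on the level `∑ E n/(s n)^2 ≤ a_i^{-2} ∑ E n ≤ a_i^{-2} (C/(1-7e)) ∑ s^2 ≤ C (1+ε) |J'|`.
-/

set_option autoImplicit false

open Finset

namespace Pool.Agent.Lib.MP_092512_nt.QC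

private theorem cls_fin {ι : Type} (C e a b Bm p0 : ℝ) (I0 : ℕ) (hC : 1 ≤ C) (he : 0 < e)
    (he1 : e ≤ 1 / 20) (ha : 0 < a) (hBm : Bm = a * (1 + e) ^ I0) (hb : b ≤ Bm)
    (hp0 : (I0 : ℝ) * (p0 * Bm ^ 2) ≤ e) (hp00 : 0 ≤ p0) (J : Finset ι) (s E : ι → ℝ) (hJ : J.Nonempty)
    (hs : ∀ n ∈ J, 0 ≤ s n) (hE : ∀ n ∈ J, s n ^ 2 ≤ E n)
    (hmid : (1 - 4 * e) * J.card ≤ ∑ n ∈ J.filter (fun n => a ≤ s n ∧ s n < b), s n ^ 2)
    (hEJ : ∑ n ∈ J, E n ≤ C * J.card) :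
    ∃ (J' : Finset ι) (t : ℝ), J' ⊆ J ∧ p0 * J.card ≤ J'.card ∧ a ≤ t ∧ (∀ n ∈ J', t ≤ s n) ∧
      (∀ n ∈ J', s n ≤ t * (1 + e)) ∧
      (1 - 7 * e) * ∑ n ∈ J', E n ≤ C * ∑ n ∈ J', s n ^ 2 := by
  classical
  set Mid := J.filter (fun n => a ≤ s n ∧ s n < b) with hMid
  set ℓ : ι → ℕ := fun n => Nat.findGreatest (fun i => a * (1 + e) ^ i ≤ s n) I0 with hℓ
  have h1e : 1 ≤ 1 + e := by linarith
  have hMm : ∀ n ∈ Mid, n ∈ J ∧ a ≤ s n ∧ s n < b := by
    intro n hn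
    rw [hMid, Finset.mem_filter] at hn
    exact hn
  have hl1 : ∀ n ∈ Mid, a * (1 + e) ^ ℓ n ≤ s n := by
    intro n hn
    have := Nat.findGreatest_spec (P := fun i => a * (1 + e) ^ i ≤ s n) (m := 0) (n := I0)
      (Nat.zero_le _) (by show a * (1 + e) ^ 0 ≤ s n; rw [pow_zero, mul_one]; exact (hMm n hn).2.1)
    exact this
  have hl2 : ∀ n ∈ Mid, ℓ n < I0 := by
    intro n hn
    have h1 : ℓ n ≤ I0 := Nat.findGreatest_le _
    rcases h1.lt_or_eq with h | h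
    · exact h
    · exfalso
      have h2 := hl1 n hn
      rw [h, ← hBm] at h2
      have h3 := (hMm n hn).2.2
      linarith
  have hl3 : ∀ n ∈ Mid, s n ≤ a * (1 + e) ^ (ℓ n) * (1 + e) := by
    intro n hn
    have h1 := Nat.findGreatest_is_greatest (P := fun i => a * (1 + e) ^ i ≤ s n) (n := I0)
      (k := ℓ n + 1) (Nat.lt_succ_self _) (hl2 n hn)
    have h2 : ¬ a * (1 + e) ^ (ℓ n + 1) ≤ s n := h1
    rw [pow_succ, ← mul_assoc] at h2
    exact (not_le.1 h2).le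
  have hl4 : ∀ n ∈ Mid, s n ≤ Bm := by
    intro n hn
    exact ((hMm n hn).2.2.le).trans hb
  have hJ0 : (0 : ℝ) < J.card := by exact_mod_cast hJ.card_pos
  have hE0 : ∀ n ∈ J, 0 ≤ E n := fun n hn => (sq_nonneg _).trans (hE n hn)
  have hex : ∃ i ∈ Finset.range I0, p0 * J.card ≤ (Mid.filter (fun n => ℓ n = i)).card ∧
      (1 - 7 * e) * ∑ n ∈ Mid.filter (fun n => ℓ n = i), E n ≤
        C * ∑ n ∈ Mid.filter (fun n => ℓ n = i), s n ^ 2 := by
    by_contra hcon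
    push Not at hcon
    have hall : ∀ i ∈ Finset.range I0, C * ∑ n ∈ Mid.filter (fun n => ℓ n = i), s n ^ 2 ≤
        C * (p0 * J.card * Bm ^ 2) + (1 - 7 * e) * ∑ n ∈ Mid.filter (fun n => ℓ n = i), E n := by
      intro i hi
      have hEn : 0 ≤ ∑ n ∈ Mid.filter (fun n => ℓ n = i), E n :=
        Finset.sum_nonneg fun n hn => hE0 n (hMm n (Finset.mem_filter.1 hn).1).1
      by_cases hc : p0 * J.card ≤ (Mid.filter (fun n => ℓ n = i)).card
      · have h1 := hcon i hi hc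
        have h2 : 0 ≤ C * (p0 * J.card * Bm ^ 2) := by positivity
        linarith
      · have h1 : ∑ n ∈ Mid.filter (fun n => ℓ n = i), s n ^ 2 ≤
            ∑ n ∈ Mid.filter (fun n => ℓ n = i), Bm ^ 2 := by
          refine Finset.sum_le_sum fun n hn => ?_
          have hn' := (Finset.mem_filter.1 hn).1
          exact pow_le_pow_left₀ (hs n (hMm n hn').1) (hl4 n hn') 2
        rw [Finset.sum_const, nsmul_eq_mul] at h1
        have h2 : ((Mid.filter (fun n => ℓ n = i)).card : ℝ) * Bm ^ 2 ≤ p0 * J.card * Bm ^ 2 :=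
          mul_le_mul_of_nonneg_right (not_le.1 hc).le (sq_nonneg _)
        have h3 : C * ∑ n ∈ Mid.filter (fun n => ℓ n = i), s n ^ 2 ≤ C * (p0 * J.card * Bm ^ 2) :=
          mul_le_mul_of_nonneg_left (h1.trans h2) (by linarith)
        have h4 : 0 ≤ (1 - 7 * e) * ∑ n ∈ Mid.filter (fun n => ℓ n = i), E n :=
          mul_nonneg (by linarith) hEn
        linarith
    have hsum := Finset.sum_le_sum hall
    have hsL : ∑ i ∈ Finset.range I0, C * ∑ n ∈ Mid.filter (fun n => ℓ n = i), s n ^ 2 =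
        C * ∑ n ∈ Mid, s n ^ 2 := by
      rw [← Finset.mul_sum,
        Finset.sum_fiberwise_of_maps_to (fun n hn => Finset.mem_range.2 (hl2 n hn))]
    have hsR : ∑ i ∈ Finset.range I0, (1 - 7 * e) * ∑ n ∈ Mid.filter (fun n => ℓ n = i), E n =
        (1 - 7 * e) * ∑ n ∈ Mid, E n := by
      rw [← Finset.mul_sum,
        Finset.sum_fiberwise_of_maps_to (fun n hn => Finset.mem_range.2 (hl2 n hn))]
    rw [Finset.sum_add_distrib, hsL, hsR, Finset.sum_const, Finset.card_range,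
      nsmul_eq_mul] at hsum
    have h5 : ∑ n ∈ Mid, E n ≤ C * J.card :=
      (Finset.sum_le_sum_of_subset_of_nonneg (Finset.filter_subset _ _)
        (fun n hn _ => hE0 n hn)).trans hEJ
    have h6 : (I0 : ℝ) * (C * (p0 * J.card * Bm ^ 2)) ≤ C * e * J.card := by
      have : (I0 : ℝ) * (C * (p0 * J.card * Bm ^ 2)) = C * ((I0 : ℝ) * (p0 * Bm ^ 2)) * J.card := by
        ring
      rw [this]
      refine mul_le_mul_of_nonneg_right ?_ hJ0.le
      exact mul_le_mul_of_nonneg_left hp0 (by linarith)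
    have h7 : (1 - 7 * e) * ∑ n ∈ Mid, E n ≤ (1 - 7 * e) * (C * J.card) :=
      mul_le_mul_of_nonneg_left h5 (by linarith)
    have h8 : C * ((1 - 4 * e) * J.card) ≤ C * ∑ n ∈ Mid, s n ^ 2 :=
      mul_le_mul_of_nonneg_left hmid (by linarith)
    have h9 : C * ((1 - 4 * e) * J.card) ≤ C * e * J.card + (1 - 7 * e) * (C * J.card) := by
      linarith
    have h10 : 0 < C * e * J.card := by positivity
    nlinarith
  obtain ⟨i, hi, hi1, hi2⟩ := hex
  refine ⟨Mid.filter (fun n => ℓ n = i), a * (1 + e) ^ i,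
    (Finset.filter_subset _ _).trans (Finset.filter_subset _ _), hi1, ?_, ?_, ?_, hi2⟩
  · exact le_mul_of_one_le_right ha.le (one_le_pow₀ h1e)
  · intro n hn
    obtain ⟨hn1, hn2⟩ := Finset.mem_filter.1 hn
    rw [← hn2]
    exact hl1 n hn1
  · intro n hn
    obtain ⟨hn1, hn2⟩ := Finset.mem_filter.1 hn
    rw [← hn2]
    exact hl3 n hn1

theorem level (C ε : ℝ) (hC : 1 ≤ C) (hε : 0 < ε) : ∃ a p0 η : ℝ, 0 < a ∧ 0 < p0 ∧ 0 < η ∧
    ∀ (ι : Type) (J : Finset ι) (s E : ι → ℝ), J.Nonempty → (∀ n ∈ J, 0 ≤ s n) →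
      (∀ n ∈ J, s n ^ 2 ≤ E n) → (1 - η) * J.card ≤ ∑ n ∈ J, s n → ∑ n ∈ J, E n ≤ C * J.card →
      ∃ J' : Finset ι, J' ⊆ J ∧ p0 * J.card ≤ J'.card ∧ (∀ n ∈ J', a ≤ s n) ∧
        ∑ n ∈ J', E n / s n ^ 2 ≤ C * (1 + ε) * J'.card := by
  obtain ⟨e, he, he1, hee⟩ : ∃ e : ℝ, 0 < e ∧ e ≤ 1 / 20 ∧
      (1 + e) ^ 2 ≤ (1 + ε) * (1 - 7 * e) := by
    refine ⟨min ε 1 / 20, by positivity, ?_, ?_⟩
    · have := min_le_right ε 1
      linarith
    · obtain ⟨m, hm⟩ : ∃ m, m = min ε 1 := ⟨_, rfl⟩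
      rw [← hm]
      have h1 : m ≤ ε := by rw [hm]; exact min_le_left _ _
      have h2 : m ≤ 1 := by rw [hm]; exact min_le_right _ _
      have h3 : 0 < m := by rw [hm]; positivity
      have h4 : (1 + m) * (1 - 7 * (m / 20)) ≤ (1 + ε) * (1 - 7 * (m / 20)) :=
        mul_le_mul_of_nonneg_right (by linarith) (by linarith)
      refine le_trans ?_ h4
      nlinarith
  have hb0 : 0 < 2 * C / e := by positivity
  obtain ⟨I1, hI1⟩ : ∃ I1 : ℕ, 2 * C / e / (e / 2) < (1 + e) ^ I1 :=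
    pow_unbounded_of_one_lt _ (by linarith)
  have hBb : 2 * C / e ≤ e / 2 * (1 + e) ^ (I1 + 1) := by
    have h1 : (1 + e) ^ I1 ≤ (1 + e) ^ (I1 + 1) := pow_le_pow_right₀ (by linarith) (Nat.le_succ _)
    have h2 : 2 * C / e / (e / 2) ≤ (1 + e) ^ (I1 + 1) := hI1.le.trans h1
    rw [div_le_iff₀ (by positivity)] at h2
    linarith
  set Bm := e / 2 * (1 + e) ^ (I1 + 1) with hBm
  have hBm0 : 0 < Bm := by positivity
  have hI0 : (0 : ℝ) < ((I1 + 1 : ℕ) : ℝ) := by exact_mod_cast Nat.succ_pos _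
  refine ⟨e / 2, e / (((I1 + 1 : ℕ) : ℝ) * Bm ^ 2), e / 2, by positivity, by positivity,
    by positivity, ?_⟩
  intro ι J s E hJ hs hE hsum hEJ
  classical
  have hJ0 : (0 : ℝ) < J.card := by exact_mod_cast hJ.card_pos
  have hmid1 : (1 - 2 * e) * J.card ≤
      ∑ n ∈ J.filter (fun n => e / 2 ≤ s n ∧ s n < 2 * C / e), s n := by
    have h1 : ∀ n ∈ J, s n ≤ (if e / 2 ≤ s n ∧ s n < 2 * C / e then s n else 0) + e / 2 +
        s n ^ 2 / (2 * C / e) := by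
      intro n hn
      have h0 := hs n hn
      have h2 : 0 ≤ s n ^ 2 / (2 * C / e) := by positivity
      by_cases hc : e / 2 ≤ s n ∧ s n < 2 * C / e
      · rw [if_pos hc]
        linarith
      · rw [if_neg hc]
        rcases lt_or_ge (s n) (e / 2) with h3 | h3
        · linarith
        · have h4 : 2 * C / e ≤ s n := by
            by_contra h5
            exact hc ⟨h3, not_le.1 h5⟩
          have h5 : s n ≤ s n ^ 2 / (2 * C / e) := by
            rw [le_div_iff₀ hb0, pow_two]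
            exact mul_le_mul_of_nonneg_left h4 h0
          linarith
    have h2 := Finset.sum_le_sum h1
    rw [Finset.sum_add_distrib, Finset.sum_add_distrib, ← Finset.sum_filter, Finset.sum_const,
      nsmul_eq_mul, ← Finset.sum_div] at h2
    have h3 : ∑ n ∈ J, s n ^ 2 ≤ C * J.card := (Finset.sum_le_sum hE).trans hEJ
    have h4 : (∑ n ∈ J, s n ^ 2) / (2 * C / e) ≤ e / 2 * J.card := by
      rw [div_le_iff₀ hb0]
      have : e / 2 * J.card * (2 * C / e) = C * J.card := by field_simp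
      rw [this]
      exact h3
    nlinarith
  have hmid : (1 - 4 * e) * J.card ≤
      ∑ n ∈ J.filter (fun n => e / 2 ≤ s n ∧ s n < 2 * C / e), s n ^ 2 := by
    have h1 := sq_sum_le_card_mul_sum_sq (s := J.filter (fun n => e / 2 ≤ s n ∧ s n < 2 * C / e))
      (f := s)
    have h2 : ((J.filter (fun n => e / 2 ≤ s n ∧ s n < 2 * C / e)).card : ℝ) ≤ J.card := by
      exact_mod_cast Finset.card_filter_le _ _
    have h3 : 0 ≤ ∑ n ∈ J.filter (fun n => e / 2 ≤ s n ∧ s n < 2 * C / e), s n ^ 2 :=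
      Finset.sum_nonneg fun n _ => sq_nonneg _
    have h4 : 0 ≤ (1 - 2 * e) * (J.card : ℝ) := mul_nonneg (by linarith) hJ0.le
    have h5 : ((1 - 2 * e) * (J.card : ℝ)) ^ 2 ≤ J.card *
        ∑ n ∈ J.filter (fun n => e / 2 ≤ s n ∧ s n < 2 * C / e), s n ^ 2 :=
      (pow_le_pow_left₀ h4 hmid1 2).trans (h1.trans (mul_le_mul_of_nonneg_right h2 h3))
    have h6 : (J.card : ℝ) * ((1 - 2 * e) ^ 2 * J.card) ≤ J.card *
        ∑ n ∈ J.filter (fun n => e / 2 ≤ s n ∧ s n < 2 * C / e), s n ^ 2 := by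
      refine le_trans (le_of_eq ?_) h5
      ring
    have h7 := le_of_mul_le_mul_left h6 hJ0
    refine le_trans ?_ h7
    refine mul_le_mul_of_nonneg_right ?_ hJ0.le
    nlinarith [sq_nonneg e]
  obtain ⟨J', t, hJ', hc, hat, ht1, ht2, ht3⟩ := cls_fin C e (e / 2) (2 * C / e) Bm
    (e / (((I1 + 1 : ℕ) : ℝ) * Bm ^ 2)) (I1 + 1) hC he he1 (by positivity) hBm hBb
    (le_of_eq (by field_simp)) (by positivity) J s E hJ hs hE hmid hEJ
  have ht0 : 0 < t := by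
    have : 0 < e / 2 := by positivity
    linarith
  refine ⟨J', hJ', hc, fun n hn => hat.trans (ht1 n hn), ?_⟩
  have hE0 : ∀ n ∈ J', 0 ≤ E n := fun n hn => (sq_nonneg _).trans (hE n (hJ' hn))
  have h1 : ∑ n ∈ J', E n / s n ^ 2 ≤ (∑ n ∈ J', E n) / t ^ 2 := by
    rw [Finset.sum_div]
    refine Finset.sum_le_sum fun n hn => ?_
    exact div_le_div_of_nonneg_left (hE0 n hn) (by positivity)
      (pow_le_pow_left₀ ht0.le (ht1 n hn) 2)
  refine h1.trans ?_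
  rw [div_le_iff₀ (by positivity)]
  have h7e : 0 < 1 - 7 * e := by linarith
  have h2 : ∑ n ∈ J', s n ^ 2 ≤ J'.card * (t * (1 + e)) ^ 2 := by
    rw [← nsmul_eq_mul, ← Finset.sum_const]
    refine Finset.sum_le_sum fun n hn => ?_
    exact pow_le_pow_left₀ (hs n (hJ' hn)) (ht2 n hn) 2
  have h3 : (1 - 7 * e) * ∑ n ∈ J', E n ≤ C * (J'.card * (t * (1 + e)) ^ 2) :=
    ht3.trans (mul_le_mul_of_nonneg_left h2 (by linarith))
  have h4 : C * (J'.card * (t * (1 + e)) ^ 2) ≤ (1 - 7 * e) * (C * (1 + ε) * J'.card * t ^ 2) := by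
    have h5 : (C * J'.card * t ^ 2) * (1 + e) ^ 2 ≤
        (C * J'.card * t ^ 2) * ((1 + ε) * (1 - 7 * e)) :=
      mul_le_mul_of_nonneg_left hee (by positivity)
    nlinarith
  exact le_of_mul_le_mul_left (h3.trans h4) h7e

end Pool.Agent.Lib.MP_092512_nt.QC
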