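import Mathlib

/-!
# Theorem Q: definitions of the finite part

`Y` is a finite set, `R n` (`n ∈ J`) are subsets; `mu J R v` is the probability that a random injective
tuple in `R n` (`n` uniform in `J`) is `v`.
-/

set_option autoImplicit false

open Finset

namespace Pool.Agent.Lib.MP_092512_nt.QC

open Classical in
/-- weight of the tuple `v`: law of a random injective tuple in `R` -/
noncomputable def wt {Y α : Type} [Fintype α] (R : Finset Y) (v : α → Y) : ℝ :=
  if Function.Injective v ∧ ∀ i, v i ∈ R then
    1 / ((R.card.descFactorial (Fintype.card α) : ℕ) : ℝ) else 0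

/-- law of `card α` distinct random points of `R n`, `n` uniform in `J` -/
noncomputable def mu {ι Y α : Type} [Fintype α] (J : Finset ι) (R : ι → Finset Y) (v : α → Y) : ℝ :=
  (∑ n ∈ J, wt (R n) v) / J.card

/-- one more point -/
def sn {Y α : Type} (v : α → Y) (y : Y) : α ⊕ Unit → Y := Sum.elim v (fun _ => y)

/-- conditional law of the next point -/
noncomputable def qq {ι Y α : Type} [Fintype α] (J : Finset ι) (R : ι → Finset Y) (v : α → Y)
    (y : Y) : ℝ := mu J R (sn v y) / mu J R v

/-- its density -/
noncomputable def phi {ι Y α : Type} [Fintype Y] [Fintype α] (J : Finset ι) (R : ι → Finset Y)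
    (v : α → Y) (y : Y) : ℝ := (Fintype.card Y : ℝ) * qq J R v y

/-- relative entropy of the law of `K` points -/
noncomputable def Ent {ι Y : Type} [Fintype Y] (J : Finset ι) (R : ι → Finset Y) (K : ℕ) : ℝ :=
  ∑ v : Fin K → Y, mu J R v * Real.log ((Fintype.card Y : ℝ) ^ K * mu J R v)

/-- entropy increment -/
noncomputable def hh {ι Y : Type} [Fintype Y] (J : Finset ι) (R : ι → Finset Y) (K : ℕ) : ℝ :=
  Ent J R (K + 1) - Ent J R K

/-- square of the `L^2` norm of the density of `K` points -/
noncomputable def GG {ι Y : Type} [Fintype Y] (J : Finset ι) (R : ι → Finset Y) (K : ℕ) : ℝ :=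
  (Fintype.card Y : ℝ) ^ K * ∑ v : Fin K → Y, (mu J R v) ^ 2

/-- the cell of `y` in the partition of `Y` by the values of `c` -/
def cell {Y : Type} [Fintype Y] (c : Y → ℕ) (y : Y) : Finset Y := univ.filter (fun z => c z = c y)

/-- average over the cell -/
noncomputable def av {Y : Type} [Fintype Y] (c : Y → ℕ) (g : Y → ℝ) (y : Y) : ℝ :=
  (∑ z ∈ cell c y, g z) / (cell c y).card

/-- square of the `L^2` norm of the cell averages -/
noncomputable def nrm {Y : Type} [Fintype Y] (c : Y → ℕ) (g : Y → ℝ) : ℝ :=
  (∑ y, (av c g y) ^ 2) / Fintype.card Y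

open Classical in
/-- indicator -/
noncomputable def ind {Y : Type} (B : Finset Y) (y : Y) : ℝ := if y ∈ B then 1 else 0

/-- average over `R` -/
noncomputable def pav {Y : Type} (R : Finset Y) (g : Y → ℝ) : ℝ := (∑ y ∈ R, g y) / R.card

/-- density of the uniform probability on `R` -/
noncomputable def dens {Y : Type} [Fintype Y] (R : Finset Y) (y : Y) : ℝ :=
  ((Fintype.card Y : ℝ) / R.card) * ind R y

/-- number of cells -/
def cells {Y : Type} [Fintype Y] (c : Y → ℕ) : ℕ := (univ.image c).card

open Classical in
/-- probability that the tuple `v` lies in `R n` -/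
noncomputable def pr {ι Y α : Type} (J : Finset ι) (R : ι → Finset Y) (v : α → Y) : ℝ :=
  ((J.filter (fun n => ∀ i, v i ∈ R n)).card : ℝ) / J.card

open Classical in
/-- number of the tuples of `B` with all points in `T` -/
noncomputable def inT {Y : Type} {j : ℕ} (B : Finset (Fin j → Y)) (T : Finset Y) : ℕ :=
  (B.filter (fun y => ∀ i, y i ∈ T)).card

end Pool.Agent.Lib.MP_092512_nt.QC
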