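import Pool.Agent.Lib.MP_092512_nt.QC.Av

/-!
# Enr: energy of a partition from the pair densities

`N = card Y`, `f n y = (N/m) ind (R n) y`. PROOF. `nrm c (f n) = (1/N) ∑_y (av c (f n) y)^2 = (1/N) ∑_y |cell y|^{-2} (N/m)^2 |R n ∩ cell y|^2`
`= (N/m^2) ∑_Q |R n ∩ Q|^2/|Q| = (N/m^2) ∑_{y ∈ Y} ∑_{z ∈ cell y} 1[y,z ∈ R n]/|cell y|`. Average over `n`: the terms `z = y`:
`(N/m^2) ∑_y Pr(y)/|cell y| ≤ (N/m^2) (2 m/N) ∑_y 1/|cell y| = (2/m) cells c`. The terms `z ≠ y`: `Pr(y,z) ≤ C s(y,z) m^2/N^2`: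
`≤ (C/N) ∑_y ∑_{z ∈ cell y} s(y,z)/|cell y| ≤ C + (C/N) ∑_y ∑_{z ∈ cell y, z ≠ y} |s - 1|/|cell y|`, and for each cell `Q` (Cauchy-Schwarz)
`∑_{y ≠ z ∈ Q} |s-1|/|Q| ≤ (∑_{y≠z ∈ Q}(s-1)^2)^(1/2) ≤ η N`; number of cells. Together `≤ C (1 + cells c * η) + 2 cells c/m`.
-/

set_option autoImplicit false

open Finset

namespace Pool.Agent.Lib.MP_092512_nt.QC

variable {ι Y : Type} [Fintype Y]

open Classical in
private theorem enr_pair (J : Finset ι) (hJ : J.Nonempty) (R : ι → Finset Y) (y z : Y) :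
    ∑ n ∈ J, ind (R n) y * ind (R n) z = J.card * pr J R ![y, z] := by
  have hJc : (J.card : ℝ) ≠ 0 := by exact_mod_cast hJ.card_pos.ne'
  unfold pr
  rw [mul_div_cancel₀ _ hJc, ← sum_boole]
  refine sum_congr rfl fun n _ => ?_
  unfold ind
  rw [Fin.forall_fin_two]
  simp only [Matrix.cons_val_zero, Matrix.cons_val_one]
  by_cases h1 : y ∈ R n <;> by_cases h2 : z ∈ R n <;> simp [h1, h2]

open Classical in
private theorem enr_one (J : Finset ι) (hJ : J.Nonempty) (R : ι → Finset Y) (y : Y) :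
    ∑ n ∈ J, ind (R n) y * ind (R n) y = J.card * pr J R (fun _ : Unit => y) := by
  have hJc : (J.card : ℝ) ≠ 0 := by exact_mod_cast hJ.card_pos.ne'
  unfold pr
  rw [mul_div_cancel₀ _ hJc, ← sum_boole]
  refine sum_congr rfl fun n _ => ?_
  unfold ind
  by_cases h1 : y ∈ R n <;> simp [h1]

/-- the norm as a double sum -/
private theorem enr_nrm (c : Y → ℕ) (g : Y → ℝ) :
    nrm c g = (∑ y, ∑ z ∈ cell c y, g y * g z / (cell c y).card) / Fintype.card Y := by
  unfold nrm
  congr 1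
  have h1 : ∑ y, (av c g y) ^ 2 = ∑ y, av c g y * av c g y :=
    sum_congr rfl fun y _ => by ring
  rw [h1, sum_av_mul]
  refine sum_congr rfl fun y _ => ?_
  rw [av_av]
  unfold av
  rw [mul_div_assoc', mul_sum, sum_div]

/-- the sum of the reciprocals of the cell sizes -/
private theorem enr_cells (c : Y → ℕ) : ∑ y, (1 : ℝ) / (cell c y).card = cells c := by
  classical
  rw [← sum_fiberwise_of_maps_to (s := univ) (t := univ.image c) (g := c)
    (fun y _ => mem_image_of_mem c (mem_univ y))]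
  unfold cells
  rw [← nsmul_one, ← sum_const]
  refine sum_congr rfl fun q hq => ?_
  rw [mem_image] at hq
  obtain ⟨y0, -, rfl⟩ := hq
  have h1 : ∀ y ∈ univ.filter (fun y => c y = c y0), (1 : ℝ) / (cell c y).card =
      1 / (cell c y0).card := by
    intro y hy
    rw [mem_filter] at hy
    rw [cell_eq c hy.2]
  rw [sum_congr rfl h1, sum_const, nsmul_eq_mul]
  have h2 : univ.filter (fun y => c y = c y0) = cell c y0 := rfl
  rw [h2]
  have h3 : ((cell c y0).card : ℝ) ≠ 0 := by exact_mod_cast (cell_card_pos c y0).ne'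
  rw [mul_one_div, div_self h3]

open Classical in
/-- the deviations of the pair densities -/
private theorem enr_dev (η : ℝ) (s : Y → Y → ℝ) (hη : 0 ≤ η)
    (hs : ∀ F : Finset (Y × Y), (∀ p ∈ F, p.1 ≠ p.2) →
      ∑ p ∈ F, (s p.1 p.2 - 1) ^ 2 ≤ η ^ 2 * (Fintype.card Y : ℝ) ^ 2) (c : Y → ℕ) :
    ∑ y, ∑ z ∈ cell c y, (if z = y then 0 else |s y z - 1| / (cell c y).card) ≤
      cells c * (η * Fintype.card Y) := by
  rw [← sum_fiberwise_of_maps_to (s := univ) (t := univ.image c) (g := c)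
    (fun y _ => mem_image_of_mem c (mem_univ y))]
  unfold cells
  rw [← nsmul_eq_mul, ← sum_const]
  refine sum_le_sum fun q hq => ?_
  rw [mem_image] at hq
  obtain ⟨y0, -, rfl⟩ := hq
  have h2 : univ.filter (fun y => c y = c y0) = cell c y0 := rfl
  rw [h2]
  set Q := cell c y0 with hQ
  have hQc : (0 : ℝ) < Q.card := by exact_mod_cast cell_card_pos c y0
  have h1 : ∀ y ∈ Q, ∑ z ∈ cell c y, (if z = y then 0 else |s y z - 1| / (cell c y).card) =
      (∑ z ∈ Q, (if z = y then 0 else |s y z - 1|)) / Q.card := by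
    intro y hy
    have h3 : c y = c y0 := by
      rw [hQ] at hy
      unfold cell at hy
      exact (mem_filter.1 hy).2
    rw [cell_eq c h3, sum_div]
    refine sum_congr rfl fun z _ => ?_
    split_ifs
    · rw [zero_div]
    · rfl
  rw [sum_congr rfl h1, ← sum_div, div_le_iff₀ hQc]
  set F : Finset (Y × Y) := (Q ×ˢ Q).filter (fun p => p.1 ≠ p.2) with hF
  have h4 : ∑ y ∈ Q, ∑ z ∈ Q, (if z = y then 0 else |s y z - 1|) =
      ∑ p ∈ F, |s p.1 p.2 - 1| := by
    rw [hF, sum_filter, sum_product]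
    refine sum_congr rfl fun y _ => sum_congr rfl fun z _ => ?_
    by_cases h5 : z = y
    · rw [if_pos h5, if_neg (fun h6 => h6 h5.symm)]
    · rw [if_neg h5, if_pos (fun h6 : y = z => h5 h6.symm)]
  rw [h4]
  have hcs : (∑ p ∈ F, |s p.1 p.2 - 1|) ^ 2 ≤ (F.card : ℝ) * ∑ p ∈ F, |s p.1 p.2 - 1| ^ 2 :=
    sq_sum_le_card_mul_sum_sq
  have h6 : ∑ p ∈ F, |s p.1 p.2 - 1| ^ 2 ≤ η ^ 2 * (Fintype.card Y : ℝ) ^ 2 := by
    refine le_trans (le_of_eq ?_) (hs F (fun p hp => (mem_filter.1 hp).2))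
    exact sum_congr rfl fun p _ => sq_abs _
  have h7 : (F.card : ℝ) ≤ (Q.card : ℝ) ^ 2 := by
    have h8 : F.card ≤ Q.card * Q.card := by
      rw [← card_product]
      exact card_le_card (filter_subset _ _)
    have h9 : (F.card : ℝ) ≤ ((Q.card * Q.card : ℕ) : ℝ) := by exact_mod_cast h8
    push_cast at h9
    nlinarith
  have h10 : (∑ p ∈ F, |s p.1 p.2 - 1|) ^ 2 ≤ (η * Fintype.card Y * Q.card) ^ 2 := by
    refine hcs.trans ?_
    calc (F.card : ℝ) * ∑ p ∈ F, |s p.1 p.2 - 1| ^ 2 ≤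
          (Q.card : ℝ) ^ 2 * (η ^ 2 * (Fintype.card Y : ℝ) ^ 2) :=
          mul_le_mul h7 h6 (sum_nonneg fun p _ => sq_nonneg _) (by positivity)
      _ = (η * Fintype.card Y * Q.card) ^ 2 := by ring
  exact le_of_sq_le_sq h10 (by positivity)

theorem energy_le (J : Finset ι) (hJ : J.Nonempty) (R : ι → Finset Y) (m C η : ℝ) (s : Y → Y → ℝ)
    (hm : 0 < m) (hC : 0 ≤ C) (hη : 0 ≤ η)
    (h1 : ∀ y : Y, pr J R (fun _ : Unit => y) ≤ 2 * m / Fintype.card Y)
    (h2 : ∀ y z : Y, y ≠ z → pr J R ![y, z] ≤ C * s y z * m ^ 2 / (Fintype.card Y : ℝ) ^ 2)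
    (hs : ∀ F : Finset (Y × Y), (∀ p ∈ F, p.1 ≠ p.2) →
      ∑ p ∈ F, (s p.1 p.2 - 1) ^ 2 ≤ η ^ 2 * (Fintype.card Y : ℝ) ^ 2)
    (c : Y → ℕ) :
    ∑ n ∈ J, nrm c (fun y => ((Fintype.card Y : ℝ) / m) * ind (R n) y) ≤
      (C * (1 + cells c * η) + 2 * cells c / m) * J.card := by
  classical
  have hJc : (0 : ℝ) < J.card := by exact_mod_cast hJ.card_pos
  rcases isEmpty_or_nonempty Y with hY | hY
  · have h3 : ∀ n ∈ J, nrm c (fun y => ((Fintype.card Y : ℝ) / m) * ind (R n) y) = 0 := by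
      intro n _
      unfold nrm
      simp
    rw [sum_eq_zero h3]
    positivity
  have hN : (0 : ℝ) < Fintype.card Y := by exact_mod_cast Fintype.card_pos
  set N : ℝ := (Fintype.card Y : ℝ) with hNdef
  have hstep : ∑ n ∈ J, nrm c (fun y => (N / m) * ind (R n) y) =
      ∑ y, ∑ z ∈ cell c y, (N / m ^ 2) * ((∑ n ∈ J, ind (R n) y * ind (R n) z) / (cell c y).card) := by
    have h4 : ∀ n ∈ J, nrm c (fun y => (N / m) * ind (R n) y) =
        ∑ y, ∑ z ∈ cell c y, (N / m ^ 2) * ((ind (R n) y * ind (R n) z) / (cell c y).card) := by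
      intro n _
      rw [enr_nrm, sum_div]
      refine sum_congr rfl fun y _ => ?_
      rw [sum_div]
      refine sum_congr rfl fun z _ => ?_
      have h5 : ((cell c y).card : ℝ) ≠ 0 := by exact_mod_cast (cell_card_pos c y).ne'
      rw [← hNdef]
      field_simp
    rw [sum_congr rfl h4, sum_comm]
    refine sum_congr rfl fun y _ => ?_
    rw [sum_comm]
    refine sum_congr rfl fun z _ => ?_
    rw [← mul_sum, sum_div]
  rw [hstep]
  have hterm : ∀ y : Y, ∀ z ∈ cell c y,
      (N / m ^ 2) * ((∑ n ∈ J, ind (R n) y * ind (R n) z) / (cell c y).card) ≤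
      J.card * ((if z = y then (2 / m) * (1 / (cell c y).card) else 0) +
        C / N * (1 / (cell c y).card + (if z = y then 0 else |s y z - 1| / (cell c y).card))) := by
    intro y z _
    have hcc : (0 : ℝ) < (cell c y).card := by exact_mod_cast cell_card_pos c y
    by_cases hzy : z = y
    · subst hzy
      rw [enr_one J hJ R z, if_pos rfl, if_pos rfl, add_zero]
      have h5 := h1 z
      have h6 : (N / m ^ 2) * ((J.card * pr J R (fun _ : Unit => z)) / (cell c z).card) ≤
          J.card * ((2 / m) * (1 / (cell c z).card)) := by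
        calc (N / m ^ 2) * ((J.card * pr J R (fun _ : Unit => z)) / (cell c z).card)
            ≤ (N / m ^ 2) * ((J.card * (2 * m / N)) / (cell c z).card) := by gcongr
          _ = J.card * ((2 / m) * (1 / (cell c z).card)) := by field_simp
      refine h6.trans (mul_le_mul_of_nonneg_left ?_ hJc.le)
      have : 0 ≤ C / N * (1 / ((cell c z).card : ℝ)) := by positivity
      linarith
    · rw [enr_pair J hJ R y z, if_neg hzy, if_neg hzy, zero_add]
      have h5 := h2 y z (fun h => hzy h.symm)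
      have h7 : C * s y z ≤ C * (1 + |s y z - 1|) := by
        refine mul_le_mul_of_nonneg_left ?_ hC
        have := le_abs_self (s y z - 1)
        linarith
      calc (N / m ^ 2) * ((J.card * pr J R ![y, z]) / (cell c y).card)
          ≤ (N / m ^ 2) * ((J.card * (C * s y z * m ^ 2 / N ^ 2)) / (cell c y).card) := by gcongr
        _ ≤ (N / m ^ 2) * ((J.card * (C * (1 + |s y z - 1|) * m ^ 2 / N ^ 2)) /
              (cell c y).card) := by gcongr
        _ = J.card * (C / N * (1 / (cell c y).card + |s y z - 1| / (cell c y).card)) := by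
              field_simp
  refine (sum_le_sum fun y _ => sum_le_sum fun z hz => hterm y z hz).trans ?_
  have hsplit : ∑ y, ∑ z ∈ cell c y,
      (J.card : ℝ) * ((if z = y then (2 / m) * (1 / ((cell c y).card : ℝ)) else 0) +
        C / N * (1 / (cell c y).card + (if z = y then 0 else |s y z - 1| / (cell c y).card))) =
      J.card * ((2 / m) * ∑ y, (1 : ℝ) / (cell c y).card + C / N * (N +
        ∑ y, ∑ z ∈ cell c y, (if z = y then 0 else |s y z - 1| / (cell c y).card))) := by
    have h8 : ∀ y : Y, ∑ z ∈ cell c y,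
        (J.card : ℝ) * ((if z = y then (2 / m) * (1 / ((cell c y).card : ℝ)) else 0) +
        C / N * (1 / (cell c y).card + (if z = y then 0 else |s y z - 1| / (cell c y).card))) =
        J.card * ((2 / m) * (1 / (cell c y).card) + C / N * (1 +
          ∑ z ∈ cell c y, (if z = y then 0 else |s y z - 1| / (cell c y).card))) := by
      intro y
      have hcc : ((cell c y).card : ℝ) ≠ 0 := by exact_mod_cast (cell_card_pos c y).ne'
      rw [← mul_sum, sum_add_distrib, sum_ite_eq', if_pos (mem_cell_self c y), ← mul_sum,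
        sum_add_distrib, sum_const, nsmul_eq_mul, mul_one_div_cancel hcc]
    rw [sum_congr rfl fun y _ => h8 y, ← mul_sum, sum_add_distrib, ← mul_sum, ← mul_sum,
      sum_add_distrib, sum_const, card_univ, nsmul_eq_mul, mul_one]
  rw [hsplit, enr_cells]
  have hdev := enr_dev η s hη hs c
  calc J.card * ((2 / m) * (cells c : ℝ) + C / N * (N +
        ∑ y, ∑ z ∈ cell c y, (if z = y then 0 else |s y z - 1| / (cell c y).card)))
      ≤ J.card * ((2 / m) * (cells c : ℝ) + C / N * (N + cells c * (η * N))) := by gcongr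
    _ = (C * (1 + cells c * η) + 2 * cells c / m) * J.card := by
        field_simp
        ring

end Pool.Agent.Lib.MP_092512_nt.QC
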