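import Pool.Agent.Lib.MP_092512_nt.QC.ND
import Pool.Agent.Lib.MP_79499b_co.PCPrimes

/-!
# N1: one point: prime number theorem in progressions

`W = primorial w` fixed. PROOF. `hit x W b {y}` is the number of primes `p ∈ (y, x + y]`, `p ≡ b + y (mod W)`. `∑ log p` over these primes is
`x/φ(W) + o(x)` uniformly in `y ≤ c x`: prime number theorem in progressions (library `Pool.Agent.Lib.GT.pnt_ap`
in `MP_7b7e48_nt/GT/PNTAP.lean`, for the finitely many classes modulo `W`, at `x + y` and at `y`; for `y ≤ Y0` trivial; or `SW`), and for `y ≤ c x` the part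
up to `y` is at most `2 c x` (Chebyshev). `log p ≤ log ((1 + c) x)`, and the primes `≤ x^(1-δ)` are negligible: `hit = (1 + O(η)) x/(φ(W) log x)`.
`(JJ x W b).card = x/W + O(1)`.
-/

set_option autoImplicit false

open Finset

namespace Pool.Agent.Lib.MP_092512_nt.QC

/-- number of primes `< x` in the class `a` -/
private noncomputable def N1_P (W a x : ℕ) : ℕ :=
  ((range x).filter (fun p => p.Prime ∧ p % W = a % W)).card

private theorem N1_mono (W a : ℕ) {x y : ℕ} (h : x ≤ y) : N1_P W a x ≤ N1_P W a y := by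
  unfold N1_P
  apply card_le_card
  intro p hp
  rw [mem_filter, mem_range] at hp ⊢
  exact ⟨by omega, hp.2⟩

private theorem N1_mod (W a x : ℕ) : N1_P W (a % W) x = N1_P W a x := by
  unfold N1_P
  rw [Nat.mod_mod]

private theorem N1_JJ (x W b : ℕ) (hW : 0 < W) :
    (x : ℝ) / W - 1 ≤ ((JJ x W b).card : ℝ) ∧ ((JJ x W b).card : ℝ) ≤ (x : ℝ) / W + 1 := by
  have h0 : JJ x W b = (Ioc 0 x).filter (fun n => n ≡ b [MOD W]) := by
    unfold JJ
    congr 1
  have h1 := Nat.Ioc_filter_modEq_card 0 x hW b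
  have hW' : (0 : ℚ) < W := by exact_mod_cast hW
  have h2 := Int.floor_le (((x : ℚ) - b) / W)
  have h3 := Int.lt_floor_add_one (((x : ℚ) - b) / W)
  have h4 := Int.floor_le ((((0 : ℕ) : ℚ) - b) / W)
  have h5 := Int.lt_floor_add_one ((((0 : ℕ) : ℚ) - b) / W)
  rw [← h0] at h1
  have h6 : ((x : ℚ) - b) / W = x / W - b / W := by ring
  have h7 : (((0 : ℕ) : ℚ) - b) / W = - (b / W) := by push_cast; ring
  have h8 : (((JJ x W b).card : ℕ) : ℚ) = max (((⌊((x : ℚ) - b) / W⌋ : ℤ) : ℚ) -
      ((⌊(((0 : ℕ) : ℚ) - b) / W⌋ : ℤ) : ℚ)) 0 := by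
    have := congrArg (Int.cast : ℤ → ℚ) h1
    push_cast at this ⊢
    exact this
  have h9 : (x : ℚ) / W - 1 ≤ ((JJ x W b).card : ℚ) := by
    rw [h8]
    apply le_max_of_le_left
    linarith
  have h10 : ((JJ x W b).card : ℚ) ≤ (x : ℚ) / W + 1 := by
    rw [h8]
    apply max_le
    · linarith
    · positivity
  constructor
  · have h11 := (Rat.cast_le (K := ℝ)).2 h9
    push_cast at h11
    exact h11
  · have h11 := (Rat.cast_le (K := ℝ)).2 h10
    push_cast at h11
    exact h11

private theorem N1_hit (x W b y : ℕ) :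
    hit x W b {y} + N1_P W (b + y) (y + 1) = N1_P W (b + y) (x + y + 1) := by
  unfold hit N1_P
  have h1 : (range (x + y + 1)).filter (fun p => p.Prime ∧ p % W = (b + y) % W) =
      ((JJ x W b).filter (fun n => ∀ d ∈ ({y} : Finset ℕ), (n + d).Prime)).image (fun n => n + y) ∪
        (range (y + 1)).filter (fun p => p.Prime ∧ p % W = (b + y) % W) := by
    ext p
    simp only [mem_filter, mem_range, mem_union, mem_image, JJ, mem_Icc, mem_singleton, forall_eq]
    constructor
    · rintro ⟨hp1, hp2, hp3⟩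
      by_cases hp : p < y + 1
      · exact Or.inr ⟨hp, hp2, hp3⟩
      · left
        refine ⟨p - y, ⟨⟨⟨by omega, by omega⟩, ?_⟩, ?_⟩, by omega⟩
        · have h2 : (p - y) + y ≡ b + y [MOD W] := by
            rw [Nat.sub_add_cancel (by omega)]
            exact hp3
          exact Nat.ModEq.add_right_cancel' y h2
        · rw [Nat.sub_add_cancel (by omega)]
          exact hp2
    · rintro (⟨n, ⟨⟨⟨h1, h2⟩, h3⟩, h4⟩, rfl⟩ | ⟨h1, h2, h3⟩)
      · exact ⟨by omega, h4, h3.add_right y⟩
      · exact ⟨by omega, h2, h3⟩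
  rw [h1, card_union_of_disjoint, card_image_of_injective]
  · exact add_left_injective y
  · rw [disjoint_left]
    intro p hp hp'
    rw [mem_image] at hp
    obtain ⟨n, hn, rfl⟩ := hp
    rw [mem_filter, mem_range] at hp'
    rw [mem_filter, JJ, mem_filter, mem_Icc] at hn
    omega

private theorem N1_pnt (W : ℕ) (hW : 0 < W) (e : ℝ) (he : 0 < e) : ∃ X1 : ℕ, ∀ z : ℕ, X1 ≤ z →
    ∀ a : ℕ, a.Coprime W →
      (1 - e) / (W.totient : ℝ) * ((z : ℝ) / Real.log z) ≤ (N1_P W a z : ℝ) ∧
      (N1_P W a z : ℝ) ≤ (1 + e) / (W.totient : ℝ) * ((z : ℝ) / Real.log z) := by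
  have hφ : 0 < (W.totient : ℝ) := by exact_mod_cast Nat.totient_pos.2 hW
  have h1 : ∀ᶠ z : ℕ in Filter.atTop, ∀ a ∈ range W, a.Coprime W →
      dist ((N1_P W a z : ℝ) * Real.log z / z) (1 / (W.totient : ℝ)) < e / W.totient := by
    rw [Filter.eventually_all_finset]
    intro a _
    by_cases ha : a.Coprime W
    · have h2 := Pool.Agent.Lib.MP_79499b_co.PC.primes_ap hW ha
      filter_upwards [h2.eventually (Metric.ball_mem_nhds _ (div_pos he hφ))] with z hz _
      exact hz
    · exact Filter.Eventually.of_forall fun z h => absurd h ha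
  obtain ⟨X1, hX1⟩ := Filter.eventually_atTop.1 h1
  refine ⟨max X1 2, fun z hz a ha => ?_⟩
  have hz1 : X1 ≤ z := (le_max_left _ _).trans hz
  have hz2 : 2 ≤ z := (le_max_right _ _).trans hz
  have ha' : (a % W).Coprime W := by
    have := (Nat.mod_modEq a W).gcd_eq
    unfold Nat.Coprime
    rw [this]
    exact ha
  have h2 := hX1 z hz1 (a % W) (mem_range.2 (Nat.mod_lt _ hW)) ha'
  rw [N1_mod, Real.dist_eq, abs_lt] at h2
  have hz0 : (0 : ℝ) < z := by positivity
  have hl : 0 < Real.log z := Real.log_pos (by exact_mod_cast hz2)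
  have h3 : (N1_P W a z : ℝ) = ((N1_P W a z : ℝ) * Real.log z / z) * (z / Real.log z) := by
    field_simp
  have h4 : 0 < (z : ℝ) / Real.log z := by positivity
  constructor
  · rw [h3]
    apply mul_le_mul_of_nonneg_right _ h4.le
    have : (1 - e) / (W.totient : ℝ) = 1 / W.totient - e / W.totient := by ring
    rw [this]
    linarith [h2.1]
  · rw [h3]
    apply mul_le_mul_of_nonneg_right _ h4.le
    have : (1 + e) / (W.totient : ℝ) = 1 / W.totient + e / W.totient := by ring
    rw [this]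
    linarith [h2.2]

theorem n1 (w : ℕ) (η : ℝ) (hη : 0 < η) : ∃ c : ℝ, 0 < c ∧ ∃ x0 : ℕ, ∀ x : ℕ, x0 ≤ x →
    ∀ b y : ℕ, (y : ℝ) ≤ c * x → (b + y).Coprime (primorial w) →
      (1 - η) * (wf w / Real.log x) * (JJ x (primorial w) b).card ≤
        (hit x (primorial w) b {y} : ℝ) ∧
      (hit x (primorial w) b {y} : ℝ) ≤
        (1 + η) * (wf w / Real.log x) * (JJ x (primorial w) b).card := by
  obtain ⟨η', hη'⟩ : ∃ η' : ℝ, η' = min η 1 := ⟨_, rfl⟩
  have h0 : 0 < η' := by rw [hη']; exact lt_min hη one_pos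
  have h1 : η' ≤ η := by rw [hη']; exact min_le_left _ _
  have h2 : η' ≤ 1 := by rw [hη']; exact min_le_right _ _
  obtain ⟨c, hc⟩ : ∃ c : ℝ, c = η' / 16 := ⟨_, rfl⟩
  have hc0 : 0 < c := by rw [hc]; positivity
  have hc1 : c ≤ 1 / 16 := by rw [hc]; linarith
  obtain ⟨e, he⟩ : ∃ e : ℝ, e = η' / 8 := ⟨_, rfl⟩
  have he0 : 0 < e := by rw [he]; positivity
  have he1 : e ≤ 1 / 8 := by rw [he]; linarith
  have hW : 0 < primorial w := primorial_pos w
  obtain ⟨W, hWdef⟩ : ∃ W : ℕ, W = primorial w := ⟨_, rfl⟩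
  have hwf : wf w = (W : ℝ) / (W.totient : ℝ) := by rw [hWdef]; rfl
  rw [← hWdef] at hW ⊢
  rw [hwf]
  have hφ : 0 < (W.totient : ℝ) := by exact_mod_cast Nat.totient_pos.2 hW
  have hWr : 0 < (W : ℝ) := by exact_mod_cast hW
  obtain ⟨X1, hX1⟩ := N1_pnt W hW e he0
  refine ⟨c, hc0, ?_⟩
  rw [← Filter.eventually_atTop]
  have hcast : Filter.Tendsto (fun x : ℕ => (x : ℝ)) Filter.atTop Filter.atTop :=
    tendsto_natCast_atTop_atTop
  filter_upwards [Filter.eventually_ge_atTop X1, Filter.eventually_ge_atTop 2,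
    (hcast.const_mul_atTop hc0).eventually_ge_atTop (X1 : ℝ),
    (hcast.const_mul_atTop hc0).eventually_ge_atTop (2 : ℝ),
    (hcast.const_mul_atTop (pow_pos hc0 2)).eventually_ge_atTop (1 : ℝ),
    (hcast.const_mul_atTop h0).eventually_ge_atTop (2 * ((W : ℝ) + 4)),
    (hcast.const_mul_atTop h0).eventually_ge_atTop (4 * (2 + (1 + η) * (W : ℝ)))]
    with x hx1 hx2 hx3 hx4 hx5 hx6 hx7
  intro b y hy hcop
  have hx0 : (0 : ℝ) < x := by positivity
  have hl : 0 < Real.log x := Real.log_pos (by exact_mod_cast hx2)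
  have hJ := N1_JJ x W b hW
  have hhit := N1_hit x W b y
  have hhit' : (hit x W b {y} : ℝ) = (N1_P W (b + y) (x + y + 1) : ℝ) -
      (N1_P W (b + y) (y + 1) : ℝ) := by
    rw [← hhit]
    push_cast
    ring
  have hJ0 : (0 : ℝ) ≤ ((JJ x W b).card : ℝ) := Nat.cast_nonneg _
  have hA : 0 < (W : ℝ) / (W.totient : ℝ) / Real.log x := by positivity
  constructor
  · -- lower bound
    obtain ⟨z, hz⟩ : ∃ z : ℕ, z = ⌊c * x⌋₊ + 1 := ⟨_, rfl⟩
    have hz1 : c * x ≤ (z : ℝ) := by
      rw [hz]
      push_cast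
      exact (Nat.lt_floor_add_one _).le
    have hz2 : (z : ℝ) ≤ c * x + 1 := by
      rw [hz]
      push_cast
      linarith [Nat.floor_le (by positivity : 0 ≤ c * (x : ℝ))]
    have hzX : X1 ≤ z := by
      have : (X1 : ℝ) ≤ z := hx3.trans hz1
      exact_mod_cast this
    have hyz : y + 1 ≤ z := by
      rw [hz]
      have := Nat.le_floor hy
      omega
    have hz0 : (0 : ℝ) < z := by linarith
    have hlz : Real.log x ≤ 2 * Real.log z := by
      have h3 : (x : ℝ) ≤ (z : ℝ) ^ 2 := by
        calc (x : ℝ) = 1 * x := (one_mul _).symm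
          _ ≤ (c ^ 2 * x) * x := mul_le_mul_of_nonneg_right hx5 hx0.le
          _ = (c * x) ^ 2 := by ring
          _ ≤ (z : ℝ) ^ 2 := pow_le_pow_left₀ (by positivity) hz1 2
      have h4 := Real.log_le_log hx0 h3
      rw [Real.log_pow] at h4
      exact_mod_cast h4
    have hlz0 : 0 < Real.log z := by linarith
    have h3 : (N1_P W (b + y) (y + 1) : ℝ) ≤
        (1 + e) / (W.totient : ℝ) * (2 * (c * x + 1) / Real.log x) := by
      calc (N1_P W (b + y) (y + 1) : ℝ) ≤ (N1_P W (b + y) z : ℝ) := by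
            exact_mod_cast N1_mono W (b + y) hyz
        _ ≤ (1 + e) / (W.totient : ℝ) * ((z : ℝ) / Real.log z) := (hX1 z hzX (b + y) hcop).2
        _ ≤ (1 + e) / (W.totient : ℝ) * (2 * (c * x + 1) / Real.log x) := by
            apply mul_le_mul_of_nonneg_left _ (by positivity)
            rw [div_le_div_iff₀ hlz0 hl]
            calc (z : ℝ) * Real.log x ≤ (c * x + 1) * (2 * Real.log z) := by
                  apply mul_le_mul hz2 hlz hl.le (by positivity)
              _ = 2 * (c * x + 1) * Real.log z := by ring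
    have h4 : (1 - e) / (W.totient : ℝ) * ((x : ℝ) / Real.log x) ≤
        (N1_P W (b + y) (x + y + 1) : ℝ) := by
      calc _ ≤ (N1_P W (b + y) x : ℝ) := (hX1 x hx1 (b + y) hcop).1
        _ ≤ _ := by exact_mod_cast N1_mono W (b + y) (by omega)
    calc (1 - η) * ((W : ℝ) / (W.totient : ℝ) / Real.log x) * (JJ x W b).card ≤
          (1 - η') * ((W : ℝ) / (W.totient : ℝ) / Real.log x) * (JJ x W b).card := by
          apply mul_le_mul_of_nonneg_right _ hJ0
          apply mul_le_mul_of_nonneg_right _ hA.le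
          linarith
      _ ≤ (1 - η') * ((W : ℝ) / (W.totient : ℝ) / Real.log x) * ((x : ℝ) / W + 1) := by
          apply mul_le_mul_of_nonneg_left hJ.2
          apply mul_nonneg (by linarith) hA.le
      _ = ((1 - η') * ((x : ℝ) + W)) * (1 / ((W.totient : ℝ) * Real.log x)) := by
          field_simp
      _ ≤ ((1 - e) * x - (1 + e) * (2 * (c * x + 1))) * (1 / ((W.totient : ℝ) * Real.log x)) := by
          apply mul_le_mul_of_nonneg_right _ (by positivity)
          have h5 : (1 + e) * (2 * (c * x + 1)) ≤ 2 * (2 * (c * x + 1)) := by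
            apply mul_le_mul_of_nonneg_right (by linarith) (by positivity)
          have h6 : (1 - η') * (x + W) ≤ (1 - η') * x + W := by
            nlinarith
          rw [he, hc] at *
          linarith
      _ = (1 - e) / (W.totient : ℝ) * ((x : ℝ) / Real.log x) -
          (1 + e) / (W.totient : ℝ) * (2 * (c * x + 1) / Real.log x) := by
          field_simp
      _ ≤ (hit x W b {y} : ℝ) := by
          rw [hhit']
          linarith
  · -- upper bound
    have hz : X1 ≤ x + y + 1 := by omega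
    have h3 := (hX1 (x + y + 1) hz (b + y) hcop).2
    have hl' : Real.log x ≤ Real.log ((x + y + 1 : ℕ) : ℝ) := by
      apply Real.log_le_log hx0
      push_cast
      have : (0 : ℝ) ≤ y := Nat.cast_nonneg _
      linarith
    have hzr : ((x + y + 1 : ℕ) : ℝ) ≤ (1 + c) * x + 1 := by
      push_cast
      linarith
    have hP0 : (0 : ℝ) ≤ (N1_P W (b + y) (y + 1) : ℝ) := Nat.cast_nonneg _
    calc (hit x W b {y} : ℝ) ≤ (N1_P W (b + y) (x + y + 1) : ℝ) := by
          rw [hhit']
          linarith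
      _ ≤ (1 + e) / (W.totient : ℝ) * (((x + y + 1 : ℕ) : ℝ) /
            Real.log ((x + y + 1 : ℕ) : ℝ)) := h3
      _ ≤ (1 + e) / (W.totient : ℝ) * (((1 + c) * x + 1) / Real.log x) := by
          apply mul_le_mul_of_nonneg_left _ (by positivity)
          apply div_le_div₀ (by positivity) hzr hl hl'
      _ = ((1 + e) * ((1 + c) * x + 1)) * (1 / ((W.totient : ℝ) * Real.log x)) := by
          field_simp
      _ ≤ ((1 + η) * ((x : ℝ) - W)) * (1 / ((W.totient : ℝ) * Real.log x)) := by
          apply mul_le_mul_of_nonneg_right _ (by positivity)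
          have h5 : (1 + e) * ((1 + c) * x + 1) = x + (e + c + e * c) * x + (1 + e) := by ring
          have h6 : e + c + e * c ≤ η' / 4 := by
            rw [he, hc]
            nlinarith
          have h7 : (e + c + e * c) * x ≤ η' / 4 * x := mul_le_mul_of_nonneg_right h6 hx0.le
          have h8 : (1 + η) * ((x : ℝ) - W) = x + η * x - (1 + η) * W := by ring
          have h9 : η' * x ≤ η * x := mul_le_mul_of_nonneg_right h1 hx0.le
          rw [h5, h8]
          linarith
      _ = (1 + η) * ((W : ℝ) / (W.totient : ℝ) / Real.log x) * ((x : ℝ) / W - 1) := by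
          field_simp
      _ ≤ (1 + η) * ((W : ℝ) / (W.totient : ℝ) / Real.log x) * (JJ x W b).card := by
          apply mul_le_mul_of_nonneg_left hJ.1 (by positivity)

end Pool.Agent.Lib.MP_092512_nt.QC
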