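import Pool.Agent.Lib.MP_092512_nt.QC.N2b

/-!
# N2: two points: constant 4 from Bombieri-Vinogradov

`W = primorial w`, `y < z ≤ c x`, `h = z - y`, `X = x + y`. PROOF. `hit x W b {y,z} ≤ #{p ≤ X : p ≡ b + y (mod W), p + h prime}` (drop `p > y`).
`n2_theta` with `a = b + y`, `R = ⌊X^(1/4 - ε)⌋`, `ε` small: the primes `p ≤ X^(1-ε)` are at most `X^(1-ε)` and `p + h ≤ R` at most `R`; for the others
`log p ≥ (1-ε) log X`. So `hit ≤ ((1+ε) X/(φ(W) SS R (W h)) + X/log^3 X)/((1-ε) log X) + X^(1-ε) + R`. `n2_main` (`R ≥ R0`):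
`1/SS ≤ (G w h)^2 wf w/((1-ε) log R)`, `log R ≥ (1/4 - 2ε) log X`, `X ≤ (1+c) x`, `(JJ x W b).card ≥ x/W - 1`, `W/φ(W) = wf w`, `1 ≤ G`, `1 ≤ wf`:
the terms `X/log^4 X`, `X^(1-ε)`, `R` are `≤ η (wf/log x)^2 x/W` for `x ≥ x0(w)`.
-/

set_option autoImplicit false

open Finset

namespace Pool.Agent.Lib.MP_092512_nt.QC

open Pool.Agent.Lib.MP_092512_nt.KSets

/-- number of elements of the class -/
theorem n2_card (x W b : ℕ) (hW : 0 < W) : (x : ℝ) / W - 1 ≤ (JJ x W b).card := by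
  unfold JJ
  have h0 : (Icc 1 x) = Ioc 0 x := rfl
  rw [h0]
  have h1 := Nat.Ioc_filter_modEq_card 0 x hW b
  have h2 : ((⌊((x : ℕ) - (b : ℕ) : ℚ) / (W : ℚ)⌋ - ⌊(((0 : ℕ) : ℚ) - (b : ℕ)) / (W : ℚ)⌋ : ℤ)) ≤
      (((Ioc 0 x).filter (fun n => n ≡ b [MOD W])).card : ℤ) := by
    rw [h1]
    exact le_max_left _ _
  have h3 : ((x : ℚ) - b) / W - 1 < (⌊((x : ℕ) - (b : ℕ) : ℚ) / (W : ℚ)⌋ : ℤ) := Int.sub_one_lt_floor _
  have h4 : ((⌊(((0 : ℕ) : ℚ) - (b : ℕ)) / (W : ℚ)⌋ : ℤ) : ℚ) ≤ (((0 : ℕ) : ℚ) - b) / W := Int.floor_le _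
  have h5 : ((⌊((x : ℕ) - (b : ℕ) : ℚ) / (W : ℚ)⌋ - ⌊(((0 : ℕ) : ℚ) - (b : ℕ)) / (W : ℚ)⌋ : ℤ) : ℚ) ≤
      ((((Ioc 0 x).filter (fun n => n ≡ b [MOD W])).card : ℤ) : ℚ) := by exact_mod_cast h2
  have h6 : (x : ℚ) / W - 1 ≤ (((Ioc 0 x).filter (fun n => n ≡ b [MOD W])).card : ℚ) := by
    push_cast at h5 h3 h4
    have h7 : ((x : ℚ) - b) / W - (0 - b) / W = x / W := by ring
    linarith
  have h8 : (((x : ℚ) / W - 1 : ℚ) : ℝ) ≤ ((((Ioc 0 x).filter (fun n => n ≡ b [MOD W])).card : ℚ) : ℝ) := by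
    exact_mod_cast h6
  push_cast at h8
  exact h8

/-- substitution `p = n + y` -/
theorem n2_hit (x W b y z : ℕ) (hyz : y < z) :
    hit x W b {y, z} ≤ ((Icc 1 (x + y)).filter (fun p => p.Prime ∧ p ≡ b + y [MOD W] ∧
      (p + (z - y)).Prime)).card := by
  unfold hit JJ
  apply card_le_card_of_injOn (fun n => n + y)
  · intro n hn
    simp only [coe_filter, mem_filter, mem_Icc, Set.mem_ofPred_eq, mem_insert, mem_singleton,
      forall_eq_or_imp, forall_eq] at hn ⊢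
    obtain ⟨⟨⟨h1, h2⟩, h3⟩, h4, h5⟩ := hn
    refine ⟨⟨by omega, by omega⟩, h4, Nat.ModEq.add_right _ h3, ?_⟩
    have h6 : n + y + (z - y) = n + z := by omega
    rw [h6]
    exact h5
  · intro a _ b _ h
    simpa using h

/-- split of the count -/
theorem n2_split (X W a h R : ℕ) (T : ℝ) (hT : 1 ≤ T) :
    (((Icc 1 X).filter (fun p => p.Prime ∧ p ≡ a [MOD W] ∧ (p + h).Prime)).card : ℝ) * Real.log T ≤
      (T + R) * Real.log T + ∑ p ∈ (Icc 1 X).filter (fun p => p.Prime ∧ p ≡ a [MOD W] ∧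
        (p + h).Prime ∧ R < p + h), Real.log p := by
  have hlT : 0 ≤ Real.log T := Real.log_nonneg hT
  set S := (Icc 1 X).filter (fun p => p.Prime ∧ p ≡ a [MOD W] ∧ (p + h).Prime ∧ R < p + h) with hS
  have h1 : (Icc 1 X).filter (fun p => p.Prime ∧ p ≡ a [MOD W] ∧ (p + h).Prime) ⊆
      (Icc 1 ⌊T⌋₊) ∪ (Icc 1 R ∪ S.filter (fun p : ℕ => T < (p : ℝ))) := by
    intro p hp
    rw [mem_filter, mem_Icc] at hp
    obtain ⟨⟨h1, h2⟩, h3, h4, h5⟩ := hp
    rw [mem_union, mem_union]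
    by_cases hp1 : (p : ℝ) ≤ T
    · left
      rw [mem_Icc]
      exact ⟨h1, Nat.le_floor hp1⟩
    · right
      by_cases hp2 : R < p + h
      · right
        rw [mem_filter, hS, mem_filter, mem_Icc]
        exact ⟨⟨⟨h1, h2⟩, h3, h4, h5, hp2⟩, by push Not at hp1; exact hp1⟩
      · left
        rw [mem_Icc]
        exact ⟨h1, by omega⟩
  have h2 := (card_le_card h1).trans (card_union_le _ _)
  have h3 := card_union_le (Icc 1 R) (S.filter (fun p : ℕ => T < (p : ℝ)))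
  rw [Nat.card_Icc] at h2 h3
  have h4 : ((((Icc 1 X).filter (fun p => p.Prime ∧ p ≡ a [MOD W] ∧ (p + h).Prime)).card : ℕ) : ℝ) ≤
      T + R + (S.filter (fun p : ℕ => T < (p : ℝ))).card := by
    have h5 : ((Icc 1 X).filter (fun p => p.Prime ∧ p ≡ a [MOD W] ∧ (p + h).Prime)).card ≤
      ⌊T⌋₊ + R + (S.filter (fun p : ℕ => T < (p : ℝ))).card := by omega
    have h6 : (⌊T⌋₊ : ℝ) ≤ T := Nat.floor_le (by linarith)
    have h7 : ((((Icc 1 X).filter (fun p => p.Prime ∧ p ≡ a [MOD W] ∧ (p + h).Prime)).card : ℕ) : ℝ) ≤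
      ((⌊T⌋₊ + R + (S.filter (fun p : ℕ => T < (p : ℝ))).card : ℕ) : ℝ) := by exact_mod_cast h5
    push_cast at h7
    linarith
  have h5 : ((S.filter (fun p : ℕ => T < (p : ℝ))).card : ℝ) * Real.log T ≤ ∑ p ∈ S, Real.log p := by
    calc ((S.filter (fun p : ℕ => T < (p : ℝ))).card : ℝ) * Real.log T
        = ∑ p ∈ S.filter (fun p : ℕ => T < (p : ℝ)), Real.log T := by
          rw [sum_const, nsmul_eq_mul]
      _ ≤ ∑ p ∈ S.filter (fun p : ℕ => T < (p : ℝ)), Real.log p := by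
          apply sum_le_sum
          intro p hp
          rw [mem_filter] at hp
          exact Real.log_le_log (by linarith) hp.2.le
      _ ≤ ∑ p ∈ S, Real.log p := by
          apply sum_le_sum_of_subset_of_nonneg (filter_subset _ _)
          intro p _ _
          exact Real.log_natCast_nonneg p
  calc _ ≤ (T + R + (S.filter (fun p : ℕ => T < (p : ℝ))).card) * Real.log T :=
        mul_le_mul_of_nonneg_right h4 hlT
    _ = (T + R) * Real.log T + ((S.filter (fun p : ℕ => T < (p : ℝ))).card : ℝ) * Real.log T := by ring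
    _ ≤ _ := by linarith


/-- `log ⌊X^(1/4-δ)⌋ ≥ (1/4-2δ) log X` -/
theorem n2_logR (δ : ℝ) (hδ : 0 < δ) (hδ1 : δ ≤ 1 / 100) : ∃ X1 : ℕ, ∀ X : ℕ, X1 ≤ X →
    (1 / 4 - 2 * δ) * Real.log X ≤ Real.log (⌊(X : ℝ) ^ (1 / 4 - δ)⌋₊ : ℝ) := by
  have h1 : Filter.Tendsto (fun X : ℕ => (X : ℝ) ^ δ) Filter.atTop Filter.atTop :=
    (tendsto_rpow_atTop hδ).comp tendsto_natCast_atTop_atTop
  have h2 := (h1.eventually (Filter.eventually_ge_atTop 2)).and (Filter.eventually_ge_atTop 1)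
  obtain ⟨X1, hX1⟩ := Filter.eventually_atTop.mp h2
  refine ⟨X1, fun X hX => ?_⟩
  obtain ⟨h3, h4⟩ := hX1 X hX
  have h5 : (1 : ℝ) ≤ X := by exact_mod_cast h4
  have h6 : (1 : ℝ) ≤ (X : ℝ) ^ (1 / 4 - 2 * δ) := Real.one_le_rpow h5 (by linarith)
  have h7 : (X : ℝ) ^ (1 / 4 - δ) = (X : ℝ) ^ (1 / 4 - 2 * δ) * (X : ℝ) ^ δ := by
    rw [← Real.rpow_add (by linarith)]
    ring_nf
  have h8 : (X : ℝ) ^ (1 / 4 - 2 * δ) ≤ (⌊(X : ℝ) ^ (1 / 4 - δ)⌋₊ : ℝ) := by
    have h9 := Nat.sub_one_lt_floor ((X : ℝ) ^ (1 / 4 - δ))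
    have h10 : (X : ℝ) ^ (1 / 4 - δ) ≥ (X : ℝ) ^ (1 / 4 - 2 * δ) * 2 := by
      rw [h7]
      exact mul_le_mul_of_nonneg_left h3 (by linarith)
    linarith
  rw [← Real.log_rpow (by linarith)]
  exact Real.log_le_log (by linarith) h8

/-- the lower order terms -/
theorem n2_small (δ : ℝ) (hδ : 0 < δ) (hδ1 : δ ≤ 1 / 100) (W : ℕ) (hW : 0 < W) : ∃ x1 : ℕ, ∀ x : ℕ,
    x1 ≤ x → 3 ≤ x ∧ 4 * (x : ℝ) ^ (1 - δ) + 4 * x / (Real.log x) ^ 4 ≤ δ * (x / W) / (Real.log x) ^ 2 ∧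
      (x : ℝ) / W ≤ (1 + δ) * (x / W - 1) := by
  have hWr : (0 : ℝ) < W := by exact_mod_cast hW
  have hlog : Filter.Tendsto (fun x : ℕ => Real.log x) Filter.atTop Filter.atTop :=
    Real.tendsto_log_atTop.comp tendsto_natCast_atTop_atTop
  -- first
  have h1 : ∀ᶠ x : ℝ in Filter.atTop, ‖(Real.log x) ^ (2 : ℕ)‖ ≤ (δ / (8 * W)) * ‖x ^ δ‖ := by
    have h2 : (fun x : ℝ => Real.log x ^ (2 : ℝ)) =o[Filter.atTop] fun x => x ^ δ :=
      isLittleO_log_rpow_rpow_atTop 2 hδ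
    have h3 := h2.def (c := δ / (8 * W)) (by positivity)
    filter_upwards [h3, Filter.eventually_ge_atTop 1] with x hx hx1
    have h4 : Real.log x ^ (2 : ℝ) = Real.log x ^ (2 : ℕ) := by
      rw [← Real.rpow_natCast]
      norm_num
    rw [h4] at hx
    exact hx
  have h2 : ∀ᶠ x : ℕ in Filter.atTop, ‖(Real.log x) ^ (2 : ℕ)‖ ≤ (δ / (8 * W)) * ‖(x : ℝ) ^ δ‖ :=
    tendsto_natCast_atTop_atTop.eventually h1
  have h3 : ∀ᶠ x : ℕ in Filter.atTop, 8 * W / δ ≤ Real.log x :=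
    hlog.eventually (Filter.eventually_ge_atTop _)
  have h4 : ∀ᶠ x : ℕ in Filter.atTop, W * (1 + δ) / δ ≤ (x : ℝ) :=
    tendsto_natCast_atTop_atTop.eventually (Filter.eventually_ge_atTop _)
  obtain ⟨x1, hx1⟩ := Filter.eventually_atTop.mp ((h2.and h3).and (h4.and (Filter.eventually_ge_atTop 3)))
  refine ⟨x1, fun x hx => ?_⟩
  obtain ⟨⟨h5, h6⟩, h7, h8⟩ := hx1 x hx
  have hx3 : (3 : ℝ) ≤ x := by exact_mod_cast h8
  have hl1 : 1 ≤ Real.log x := by
    have h9 : (1 : ℝ) = Real.log (Real.exp 1) := by simp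
    rw [h9]
    apply Real.log_le_log (Real.exp_pos 1)
    linarith [Real.exp_one_lt_d9]
  have hl0 : 0 < Real.log x := by linarith
  refine ⟨h8, ?_, ?_⟩
  · have hxd : (0 : ℝ) < (x : ℝ) ^ δ := Real.rpow_pos_of_pos (by linarith) _
    rw [Real.norm_of_nonneg (by positivity), Real.norm_of_nonneg hxd.le] at h5
    have h9 : (x : ℝ) ^ (1 - δ) * (x : ℝ) ^ δ = x := by
      rw [← Real.rpow_add (by linarith)]
      simp
    have hx1d : (0 : ℝ) < (x : ℝ) ^ (1 - δ) := Real.rpow_pos_of_pos (by linarith) _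
    have h10 : 4 * (x : ℝ) ^ (1 - δ) ≤ (δ / 2) * (x / W) / (Real.log x) ^ 2 := by
      rw [le_div_iff₀ (by positivity)]
      calc 4 * (x : ℝ) ^ (1 - δ) * (Real.log x) ^ 2 ≤ 4 * (x : ℝ) ^ (1 - δ) * ((δ / (8 * W)) * (x : ℝ) ^ δ) :=
            mul_le_mul_of_nonneg_left h5 (by positivity)
        _ = 4 * (δ / (8 * W)) * ((x : ℝ) ^ (1 - δ) * (x : ℝ) ^ δ) := by ring
        _ = (δ / 2) * (x / W) := by
            rw [h9]
            field_simp
            ring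
    have h11 : 4 * x / (Real.log x) ^ 4 ≤ (δ / 2) * (x / W) / (Real.log x) ^ 2 := by
      rw [div_le_div_iff₀ (by positivity) (by positivity)]
      have h12 : 8 * W / δ ≤ (Real.log x) ^ 2 := by nlinarith
      have h13 : 4 ≤ (δ / (2 * W)) * (Real.log x) ^ 2 := by
        calc (4 : ℝ) = (δ / (2 * W)) * (8 * W / δ) := by
              field_simp
              ring
          _ ≤ _ := mul_le_mul_of_nonneg_left h12 (by positivity)
      calc 4 * (x : ℝ) * (Real.log x) ^ 2 ≤ ((δ / (2 * W)) * (Real.log x) ^ 2) * x * (Real.log x) ^ 2 := by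
            have : (0 : ℝ) ≤ x * (Real.log x) ^ 2 := by positivity
            nlinarith
        _ = (δ / 2) * (x / W) * (Real.log x) ^ 4 := by
            field_simp
    have h12 : δ * (x / W) / (Real.log x) ^ 2 = (δ / 2) * (x / W) / (Real.log x) ^ 2 +
        (δ / 2) * (x / W) / (Real.log x) ^ 2 := by ring
    linarith
  · rw [div_le_iff₀ hδ] at h7
    have h9 : 1 + δ ≤ δ * (x / W) := by
      rw [mul_div_assoc', le_div_iff₀ hWr]
      linarith
    linarith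

theorem n2_const (δ η A P : ℝ) (hδ : 0 < δ) (hδ1 : δ ≤ 1 / 100) (hη : δ ≤ η / 100) (hA : 0 ≤ A)
    (hP : P * ((1 - δ) ^ 2 * (1 / 4 - 2 * δ)) ≤ (1 + δ) ^ 3 * A) : P + δ * (1 + δ) * A ≤ 4 * (1 + η) * A := by
  have h1 : (1 + δ) ^ 3 ≤ (4 * (1 + 20 * δ)) * ((1 - δ) ^ 2 * (1 / 4 - 2 * δ)) := by
    have h2 : 0 ≤ δ * (1 / 100 - δ) := by nlinarith
    have h3 : 0 ≤ δ ^ 2 * (1 / 100 - δ) := by
      have := sq_nonneg δ
      exact mul_nonneg this (by linarith)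
    have h4 : 0 ≤ δ ^ 3 * (1 / 100 - δ) := mul_nonneg (by positivity) (by linarith)
    nlinarith
  have h5 : 0 < (1 - δ) ^ 2 * (1 / 4 - 2 * δ) := by
    apply mul_pos (pow_pos (by linarith) 2) (by linarith)
  have h6 : P ≤ (4 * (1 + 20 * δ)) * A := by
    by_contra h7
    push Not at h7
    have h8 : (4 * (1 + 20 * δ)) * A * ((1 - δ) ^ 2 * (1 / 4 - 2 * δ)) <
        P * ((1 - δ) ^ 2 * (1 / 4 - 2 * δ)) := mul_lt_mul_of_pos_right h7 h5
    have h9 := mul_le_mul_of_nonneg_right h1 hA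
    nlinarith
  have h7 : δ * (1 + δ) ≤ 2 * δ := by nlinarith
  have h8 : δ * (1 + δ) * A ≤ 2 * δ * A := mul_le_mul_of_nonneg_right h7 hA
  have h9 : (82 * δ) * A ≤ (4 * η) * A := mul_le_mul_of_nonneg_right (by linarith) hA
  nlinarith

theorem n2 (w : ℕ) (hw : 2 ≤ w) (η : ℝ) (hη : 0 < η) : ∃ c : ℝ, 0 < c ∧ ∃ x0 : ℕ,
    ∀ x : ℕ, x0 ≤ x → ∀ b y z : ℕ, y < z → (z : ℝ) ≤ c * x → (b + y).Coprime (primorial w) →
      (b + z).Coprime (primorial w) →
      (hit x (primorial w) b {y, z} : ℝ) ≤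
        4 * (1 + η) * (G w (z - y)) ^ 2 * (wf w / Real.log x) ^ 2 *
          (JJ x (primorial w) b).card := by
  set δ : ℝ := min η 1 / 100 with hδd
  have hδ : 0 < δ := by
    have : 0 < min η 1 := lt_min hη one_pos
    positivity
  have hδ1 : δ ≤ 1 / 100 := by
    have : min η 1 ≤ 1 := min_le_right _ _
    rw [hδd]
    linarith
  have hδη : δ ≤ η / 100 := by
    have : min η 1 ≤ η := min_le_left _ _
    rw [hδd]
    linarith
  have hW : 0 < primorial w := primorial_pos w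
  have hWr : (0 : ℝ) < primorial w := by exact_mod_cast hW
  obtain ⟨X0, hX0⟩ := n2_theta w hw δ δ hδ (by linarith) hδ
  obtain ⟨R0, hR0⟩ := n2_main w hw δ hδ
  obtain ⟨X1, hX1⟩ := n2_logR δ hδ hδ1
  obtain ⟨x1, hx1⟩ := n2_small δ hδ hδ1 (primorial w) hW
  have hfl : Filter.Tendsto (fun X : ℕ => ⌊(X : ℝ) ^ (1 / 4 - δ)⌋₊) Filter.atTop Filter.atTop :=
    tendsto_nat_floor_atTop.comp
      ((tendsto_rpow_atTop (by linarith : 0 < 1 / 4 - δ)).comp tendsto_natCast_atTop_atTop)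
  obtain ⟨X2, hX2⟩ := Filter.eventually_atTop.mp
    (hfl.eventually (Filter.eventually_ge_atTop (max R0 2)))
  refine ⟨δ, hδ, max (max X0 X1) (max x1 X2), ?_⟩
  intro x hx b y z hyz hz hy hzc
  have hxX0 : X0 ≤ x := le_trans (le_trans (le_max_left _ _) (le_max_left _ _)) hx
  have hxX1 : X1 ≤ x := le_trans (le_trans (le_max_right _ _) (le_max_left _ _)) hx
  have hxx1 : x1 ≤ x := le_trans (le_trans (le_max_left _ _) (le_max_right _ _)) hx
  have hxX2 : X2 ≤ x := le_trans (le_trans (le_max_right _ _) (le_max_right _ _)) hx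
  obtain ⟨hx3, hsm, hJx⟩ := hx1 x hxx1
  set W := primorial w with hWd
  set X := x + y with hXd
  set R := ⌊(X : ℝ) ^ (1 / 4 - δ)⌋₊ with hRd
  have hxX : x ≤ X := by omega
  have hRm : max R0 2 ≤ R := hX2 X (hxX2.trans hxX)
  have hRR0 : R0 ≤ R := (le_max_left _ _).trans hRm
  have hR2 : 2 ≤ R := (le_max_right _ _).trans hRm
  have hlR := hX1 X (hxX1.trans hxX)
  rw [← hRd] at hlR
  have hx3r : (3 : ℝ) ≤ x := by exact_mod_cast hx3
  have hX3r : (3 : ℝ) ≤ X := by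
    have : (x : ℝ) ≤ X := by exact_mod_cast hxX
    linarith
  have hl1 : 1 ≤ Real.log x := by
    have h9 : (1 : ℝ) = Real.log (Real.exp 1) := by simp
    rw [h9]
    apply Real.log_le_log (Real.exp_pos 1)
    linarith [Real.exp_one_lt_d9]
  have hlX : Real.log x ≤ Real.log X := by
    apply Real.log_le_log (by linarith)
    exact_mod_cast hxX
  have hXx : (X : ℝ) ≤ (1 + δ) * x := by
    rw [hXd]
    push_cast
    have : (y : ℝ) ≤ z := by exact_mod_cast hyz.le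
    linarith
  set h := z - y with hh
  have hh1 : 1 ≤ h := by omega
  have hRX : (R : ℝ) ≤ (X : ℝ) ^ (1 / 4 - δ) := Nat.floor_le (by positivity)
  have hth := hX0 X (hxX0.trans hxX) R (by omega) hRX (b + y) h hh1 hy (by
    have : b + y + h = b + z := by omega
    rw [this]
    exact hzc)
  have hma := hR0 R hRR0 h hh1
  have hG := one_le_G w h
  have hwf := one_le_wf w
  have hφ : 0 < (Nat.totient W : ℝ) := by
    exact_mod_cast Nat.totient_pos.mpr hW
  -- the sieve sum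
  set S1 := SS R (W * h) with hS1
  set g := G w h with hg
  have hlR0 : 0 < Real.log R := Real.log_pos (by exact_mod_cast (by omega : 1 < R))
  have hS1pos : 0 < S1 := by
    by_contra hcon
    push Not at hcon
    have h1 : g ^ 2 * wf w * S1 ≤ 0 := mul_nonpos_of_nonneg_of_nonpos (by positivity) hcon
    have h2 : 0 < (1 - δ) * Real.log R := mul_pos (by linarith) hlR0
    linarith
  -- the count
  set T : ℝ := (X : ℝ) ^ (1 - δ) with hT
  have hT1 : 1 ≤ T := Real.one_le_rpow (by linarith) (by linarith)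
  have hlT : Real.log T = (1 - δ) * Real.log X := by
    rw [hT, Real.log_rpow (by linarith)]
  have hlT0 : 0 < Real.log T := by
    rw [hlT]
    exact mul_pos (by linarith) (by linarith)
  have hcnt := n2_split X W (b + y) h R T hT1
  have hhit : (hit x W b {y, z} : ℝ) ≤ (((Icc 1 X).filter (fun p => p.Prime ∧ p ≡ b + y [MOD W] ∧
      (p + h).Prime)).card : ℝ) := by
    exact_mod_cast n2_hit x W b y z hyz
  have hRT : (R : ℝ) ≤ T := hRX.trans (Real.rpow_le_rpow_of_exponent_le (by linarith) (by linarith))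
  have hmain : (hit x W b {y, z} : ℝ) * Real.log T ≤ 2 * T * Real.log T +
      ((1 + δ) * X / ((Nat.totient W : ℝ) * S1) + X / (Real.log X) ^ 3) := by
    have h1 := mul_le_mul_of_nonneg_right hhit hlT0.le
    have h2 : (T + R) * Real.log T ≤ 2 * T * Real.log T :=
      mul_le_mul_of_nonneg_right (by linarith) hlT0.le
    linarith
  set l := Real.log x with hl
  set L := Real.log X with hL
  have hl0 : 0 < l := by linarith
  have hL0 : 0 < L := by linarith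
  have hJ := n2_card x W b hW
  set J : ℝ := ((JJ x W b).card : ℝ) with hJd
  have hxW : (x : ℝ) / W ≤ (1 + δ) * J :=
    hJx.trans (mul_le_mul_of_nonneg_left hJ (by linarith))
  have hJ0 : 0 ≤ J := Nat.cast_nonneg _
  set F : ℝ := wf w with hF
  have hφF : 1 / (Nat.totient W : ℝ) = F / W := by
    rw [hF]
    unfold wf
    rw [← hWd]
    field_simp
  set A : ℝ := g ^ 2 * (F / l) ^ 2 * J with hA
  have hA0 : 0 ≤ A := by positivity
  set κ : ℝ := 1 / 4 - 2 * δ with hκ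
  have hκ0 : 0 < κ := by rw [hκ]; linarith
  set P : ℝ := (1 + δ) * X * g ^ 2 * F / ((Nat.totient W : ℝ) * ((1 - δ) ^ 2 * κ) * L ^ 2) with hP
  have h1δ : 0 < 1 - δ := by linarith
  have hS1b : (1 + δ) * X / ((Nat.totient W : ℝ) * S1) ≤ P * Real.log T := by
    rw [hlT, hP, div_mul_eq_mul_div, div_le_div_iff₀ (by positivity) (by positivity)]
    have h1 : (1 - δ) * (κ * L) ≤ g ^ 2 * F * S1 :=
      (mul_le_mul_of_nonneg_left hlR h1δ.le).trans hma
    have h2 : 0 ≤ (1 + δ) * X * (Nat.totient W : ℝ) * ((1 - δ) * L) := by positivity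
    have h3 := mul_le_mul_of_nonneg_left h1 h2
    calc (1 + δ) * X * ((Nat.totient W : ℝ) * ((1 - δ) ^ 2 * κ) * L ^ 2)
        = (1 + δ) * X * (Nat.totient W : ℝ) * ((1 - δ) * L) * ((1 - δ) * (κ * L)) := by ring
      _ ≤ (1 + δ) * X * (Nat.totient W : ℝ) * ((1 - δ) * L) * (g ^ 2 * F * S1) := h3
      _ = _ := by ring
  have hX4 : X / L ^ 3 ≤ (4 * x / l ^ 4) * Real.log T := by
    rw [hlT]
    have h1 : (X : ℝ) ≤ 4 * x * (1 - δ) := by
      have h2 : (1 + δ) ≤ 4 * (1 - δ) := by linarith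
      have h3 : (1 + δ) * x ≤ 4 * (1 - δ) * x := mul_le_mul_of_nonneg_right h2 (by linarith)
      linarith
    calc X / L ^ 3 ≤ (4 * x * (1 - δ)) / L ^ 3 := div_le_div_of_nonneg_right h1 (by positivity)
      _ = (4 * x / L ^ 4) * ((1 - δ) * L) := by
          field_simp
      _ ≤ (4 * x / l ^ 4) * ((1 - δ) * L) := by
          apply mul_le_mul_of_nonneg_right _ (by positivity)
          apply div_le_div_of_nonneg_left (by positivity) (by positivity)
          exact pow_le_pow_left₀ hl0.le hlX 4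
  have hH : (hit x W b {y, z} : ℝ) ≤ P + (2 * T + 4 * x / l ^ 4) := by
    have h1 : (hit x W b {y, z} : ℝ) * Real.log T ≤ (P + (2 * T + 4 * x / l ^ 4)) * Real.log T := by
      have h2 : (P + (2 * T + 4 * x / l ^ 4)) * Real.log T =
        2 * T * Real.log T + (P * Real.log T + (4 * x / l ^ 4) * Real.log T) := by ring
      rw [h2]
      linarith
    exact le_of_mul_le_mul_right h1 hlT0
  have hT2 : 2 * T ≤ 4 * (x : ℝ) ^ (1 - δ) := by
    have h1 : T ≤ (2 * (x : ℝ)) ^ (1 - δ) := by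
      rw [hT]
      apply Real.rpow_le_rpow (by positivity) _ h1δ.le
      have : (1 + δ) * (x : ℝ) ≤ 2 * x := mul_le_mul_of_nonneg_right (by linarith) (by linarith)
      linarith
    have h2 : (2 * (x : ℝ)) ^ (1 - δ) = (2 : ℝ) ^ (1 - δ) * (x : ℝ) ^ (1 - δ) :=
      Real.mul_rpow (by norm_num) (by linarith)
    have h3 : (2 : ℝ) ^ (1 - δ) ≤ 2 := by
      calc (2 : ℝ) ^ (1 - δ) ≤ (2 : ℝ) ^ (1 : ℝ) :=
            Real.rpow_le_rpow_of_exponent_le (by norm_num) (by linarith)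
        _ = 2 := Real.rpow_one 2
    have h4 : (2 : ℝ) ^ (1 - δ) * (x : ℝ) ^ (1 - δ) ≤ 2 * (x : ℝ) ^ (1 - δ) :=
      mul_le_mul_of_nonneg_right h3 (by positivity)
    linarith
  have hgF : 1 ≤ g ^ 2 * F ^ 2 := by
    have h1 : 1 ≤ g ^ 2 := one_le_pow₀ hG
    have h2 : 1 ≤ F ^ 2 := one_le_pow₀ hwf
    nlinarith
  have hsm2 : 2 * T + 4 * x / l ^ 4 ≤ δ * (1 + δ) * A := by
    have h1 : δ * (x / W) / l ^ 2 ≤ δ * (1 + δ) * A := by
      calc δ * (x / W) / l ^ 2 ≤ δ * ((1 + δ) * J) / l ^ 2 := by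
            apply div_le_div_of_nonneg_right _ (by positivity)
            exact mul_le_mul_of_nonneg_left hxW hδ.le
        _ = δ * (1 + δ) * (J / l ^ 2) * 1 := by ring
        _ ≤ δ * (1 + δ) * (J / l ^ 2) * (g ^ 2 * F ^ 2) :=
            mul_le_mul_of_nonneg_left hgF (by positivity)
        _ = δ * (1 + δ) * A := by
            rw [hA]
            ring
    linarith
  have hPA : P * ((1 - δ) ^ 2 * κ) ≤ (1 + δ) ^ 3 * A := by
    have h1 : P * ((1 - δ) ^ 2 * κ) = (1 + δ) * X * g ^ 2 * F * (1 / (Nat.totient W : ℝ)) / L ^ 2 := by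
      rw [hP]
      field_simp
    rw [h1, hφF]
    calc (1 + δ) * X * g ^ 2 * F * (F / W) / L ^ 2
        ≤ (1 + δ) * ((1 + δ) * x) * g ^ 2 * F * (F / W) / l ^ 2 := by
          apply div_le_div₀ (by positivity) _ (by positivity) (pow_le_pow_left₀ hl0.le hlX 2)
          have h2 : 0 ≤ (1 + δ) * (g ^ 2 * F * (F / W)) := by positivity
          have h3 := mul_le_mul_of_nonneg_left hXx h2
          calc (1 + δ) * X * g ^ 2 * F * (F / W) = (1 + δ) * (g ^ 2 * F * (F / W)) * X := by ring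
            _ ≤ (1 + δ) * (g ^ 2 * F * (F / W)) * ((1 + δ) * x) := h3
            _ = _ := by ring
      _ = (1 + δ) ^ 2 * g ^ 2 * (F / l) ^ 2 * (x / W) := by
          field_simp
      _ ≤ (1 + δ) ^ 2 * g ^ 2 * (F / l) ^ 2 * ((1 + δ) * J) :=
          mul_le_mul_of_nonneg_left hxW (by positivity)
      _ = (1 + δ) ^ 3 * A := by
          rw [hA]
          ring
  have hfin := n2_const δ η A P hδ hδ1 hδη hA0 hPA
  calc (hit x W b {y, z} : ℝ) ≤ P + (2 * T + 4 * x / l ^ 4) := hH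
    _ ≤ P + δ * (1 + δ) * A := by linarith
    _ ≤ 4 * (1 + η) * A := hfin
    _ = _ := by
        rw [hA]
        ring

end Pool.Agent.Lib.MP_092512_nt.QC
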