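import Pool.Agent.Lib.Sieve.TupleSieve

/-!
# SvA: Selberg sieve for the forms `W n + h i`, explicit constant

PROOF. Copy of the proof of `Pool.Agent.Lib.Sieve.tuple_sieve` (file Sieve/TupleSieve.lean, the constant found there is exactly
`2 (2 (k+1))^k + (8k)^k`) for the function `f n = ∏ i, (W n + h i)`: it is `PolyLike`; for a prime `p` not dividing `M` (so `p` does not divide `W`) it has exactly
`k` roots modulo `p` (the `h i` are distinct modulo `p`); `n` with some `W n + h i ≤ z` satisfy `n ≤ z`. Everything else is unchanged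
(the sieve uses only the primes not dividing `M`).
-/

set_option autoImplicit false

open Finset ArithmeticFunction

namespace Pool.Agent.Lib.MP_092512_nt.QC

open Pool.Agent.Lib.Sieve

/-- `∏ i, (W n + h i)` -/
private def svaProd {k : ℕ} (W : ℕ) (h : Fin k → ℕ) (n : ℕ) : ℕ := ∏ i, (W * n + h i)

private theorem svaProd_polyLike {k : ℕ} (W : ℕ) (h : Fin k → ℕ) : PolyLike (svaProd W h) := by
  intro m x y hxy
  unfold svaProd
  apply Nat.ModEq.prod
  intro i _
  exact (hxy.mul_left W).add_right _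

private theorem svaProd_strictMono {k W : ℕ} (hk : 1 ≤ k) (hW0 : 1 ≤ W) (h : Fin k → ℕ) {x y : ℕ}
    (hx : 1 ≤ x) (hxy : x < y) : svaProd W h x < svaProd W h y := by
  unfold svaProd
  have h1 : W * x < W * y := (Nat.mul_lt_mul_left hW0).mpr hxy
  have h2 : 0 < W * x := Nat.mul_pos hW0 hx
  apply Finset.prod_lt_prod_of_nonempty
  · intro i _; omega
  · intro i _; omega
  · exact ⟨⟨0, hk⟩, Finset.mem_univ _⟩

private theorem rc_sva_prime {k W : ℕ} (h : Fin k → ℕ) {p : ℕ} (hp : p.Prime) (hpW : ¬ p ∣ W)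
    (hinj : ∀ i j, i ≠ j → (h i : ZMod p) ≠ (h j : ZMod p)) : rc (svaProd W h) p = k := by
  classical
  have : Fact p.Prime := ⟨hp⟩
  have hW : (W : ZMod p) ≠ 0 := fun h0 => hpW ((ZMod.natCast_eq_zero_iff _ _).mp h0)
  unfold rc
  have e : (Finset.range p).filter (fun x => p ∣ svaProd W h x) =
      (Finset.univ : Finset (Fin k)).image (fun i => (-(h i : ZMod p) / (W : ZMod p)).val) := by
    ext x
    rw [Finset.mem_filter, Finset.mem_range, Finset.mem_image]
    constructor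
    · rintro ⟨hx, hd⟩
      unfold svaProd at hd
      obtain ⟨i, _, hi⟩ := (Prime.dvd_finsetProd_iff hp.prime _).mp hd
      refine ⟨i, Finset.mem_univ _, ?_⟩
      have h1 : ((W * x + h i : ℕ) : ZMod p) = 0 := (ZMod.natCast_eq_zero_iff _ _).mpr hi
      push_cast at h1
      have h2 : (x : ZMod p) = -(h i : ZMod p) / (W : ZMod p) := by
        rw [eq_div_iff hW, mul_comm]
        exact eq_neg_of_add_eq_zero_left h1
      rw [← h2, ZMod.val_natCast, Nat.mod_eq_of_lt hx]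
    · rintro ⟨i, _, rfl⟩
      refine ⟨ZMod.val_lt _, ?_⟩
      unfold svaProd
      refine Dvd.dvd.trans ?_ (Finset.dvd_prod_of_mem _ (Finset.mem_univ i))
      rw [← ZMod.natCast_eq_zero_iff]
      push_cast
      rw [ZMod.natCast_zmod_val, mul_div_cancel₀ _ hW]
      ring
  rw [e, Finset.card_image_of_injective, Finset.card_univ, Fintype.card_fin]
  intro i j hij
  by_contra hne
  apply hinj i j hne
  have h1 : -(h i : ZMod p) / (W : ZMod p) = -(h j : ZMod p) / (W : ZMod p) :=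
    ZMod.val_injective p hij
  rw [div_left_inj' hW] at h1
  exact neg_injective h1

/-- the sieve for the tuple `n + h i`, by the primes up to `Z` not dividing `M` -/
private noncomputable def svaSieve (k W : ℕ) (h : Fin k → ℕ) (N Z M : ℕ) (hk : 1 ≤ k)
    (hM : ∀ p, p.Prime → p ≤ k → p ∣ M) : BoundingSieve where
  support := (Finset.Icc 1 N).image (svaProd W h)
  prodPrimes := ∏ p ∈ (Finset.Icc 1 Z).filter (fun p => p.Prime ∧ ¬ p ∣ M), p
  prodPrimes_squarefree := by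
    apply Finset.squarefree_prod_of_pairwise_isCoprime
    · intro p hp q hq hpq
      have hp' := (Finset.mem_filter.mp (Finset.mem_coe.mp hp)).2.1
      have hq' := (Finset.mem_filter.mp (Finset.mem_coe.mp hq)).2.1
      exact Nat.coprime_iff_isRelPrime.mp ((Nat.coprime_primes hp' hq').mpr hpq)
    · intro p hp
      exact (Finset.mem_filter.mp hp).2.1.prime.squarefree
  weights := fun _ => 1
  weights_nonneg := fun _ => zero_le_one
  totalMass := N
  nu := ArithmeticFunction.prodPrimeFactors (fun p => (k : ℝ) / p)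
  nu_mult := ArithmeticFunction.IsMultiplicative.prodPrimeFactors _
  nu_pos_of_prime := by
    intro p hp _
    rw [ArithmeticFunction.prodPrimeFactors_apply hp.ne_zero, hp.primeFactors,
      Finset.prod_singleton]
    have := hp.pos
    positivity
  nu_lt_one_of_prime := by
    intro p hp hdvd
    rw [ArithmeticFunction.prodPrimeFactors_apply hp.ne_zero, hp.primeFactors,
      Finset.prod_singleton]
    have hp0 : (0 : ℝ) < p := by exact_mod_cast hp.pos
    rw [div_lt_one hp0]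
    have h' : p ∣ ∏ p ∈ (Finset.Icc 1 Z).filter (fun p => p.Prime ∧ ¬ p ∣ M), p := hdvd
    obtain ⟨q, hq, hpq⟩ := (Prime.dvd_finsetProd_iff hp.prime _).mp h'
    have hq' := Finset.mem_filter.mp hq
    have e : p = q := (Nat.prime_dvd_prime_iff_eq hp hq'.2.1).mp hpq
    have hpM : ¬ p ∣ M := by rw [e]; exact hq'.2.2
    have : k < p := by
      by_contra hlt
      exact hpM (hM p hp (not_lt.mp hlt))
    exact_mod_cast this

section

variable {k W : ℕ} {h : Fin k → ℕ} {N Z M : ℕ} {hk : 1 ≤ k}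
  {hM : ∀ p, p.Prime → p ≤ k → p ∣ M}

private theorem sva_dvd_prodPrimes {p : ℕ} (hp : p.Prime) (hpZ : p ≤ Z) (hpM : ¬ p ∣ M) :
    p ∣ (svaSieve k W h N Z M hk hM).prodPrimes := by
  have : p ∣ ∏ p ∈ (Finset.Icc 1 Z).filter (fun p => p.Prime ∧ ¬ p ∣ M), p :=
    Finset.dvd_prod_of_mem (fun p => p)
      (Finset.mem_filter.mpr ⟨Finset.mem_Icc.mpr ⟨hp.one_lt.le, hpZ⟩, hp, hpM⟩)
  exact this

private theorem sva_prime_dvd_prodPrimes {p : ℕ} (hp : p.Prime)
    (hd : p ∣ (svaSieve k W h N Z M hk hM).prodPrimes) : p ≤ Z ∧ ¬ p ∣ M := by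
  have h' : p ∣ ∏ p ∈ (Finset.Icc 1 Z).filter (fun p => p.Prime ∧ ¬ p ∣ M), p := hd
  obtain ⟨q, hq, hpq⟩ := (Prime.dvd_finsetProd_iff hp.prime _).mp h'
  have hq' := Finset.mem_filter.mp hq
  have : p = q := (Nat.prime_dvd_prime_iff_eq hp hq'.2.1).mp hpq
  rw [this]
  exact ⟨(Finset.mem_Icc.mp hq'.1).2, hq'.2.2⟩

private theorem svaProd_injOn (hk : 1 ≤ k) (hW0 : 1 ≤ W) (h : Fin k → ℕ) (N : ℕ) :
    Set.InjOn (svaProd W h) ((Finset.Icc 1 N : Finset ℕ) : Set ℕ) := by
  intro x hx y hy hxy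
  have hx := (Finset.mem_Icc.mp (Finset.mem_coe.mp hx)).1
  have hy := (Finset.mem_Icc.mp (Finset.mem_coe.mp hy)).1
  rcases lt_trichotomy x y with h1 | h1 | h1
  · exact absurd hxy (svaProd_strictMono hk hW0 h hx h1).ne
  · exact h1
  · exact absurd hxy.symm (svaProd_strictMono hk hW0 h hy h1).ne

private theorem sva_siftedSum (hW0 : 1 ≤ W) :
    (svaSieve k W h N Z M hk hM).siftedSum =
      (((Finset.Icc 1 N).filter (fun n =>
        (svaSieve k W h N Z M hk hM).prodPrimes.Coprime (svaProd W h n))).card : ℝ) := by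
  unfold BoundingSieve.siftedSum
  change ∑ d ∈ (Finset.Icc 1 N).image (svaProd W h),
    (if (svaSieve k W h N Z M hk hM).prodPrimes.Coprime d then (1 : ℝ) else 0) = _
  rw [Finset.sum_image (svaProd_injOn hk hW0 h N), Finset.card_filter]
  push_cast
  rfl

private theorem sva_multSum (hW0 : 1 ≤ W) (d : ℕ) :
    (svaSieve k W h N Z M hk hM).multSum d =
      (((Finset.Icc 1 N).filter (fun n => d ∣ svaProd W h n)).card : ℝ) := by
  unfold BoundingSieve.multSum
  change ∑ n ∈ (Finset.Icc 1 N).image (svaProd W h), (if d ∣ n then (1 : ℝ) else 0) = _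
  rw [Finset.sum_image (svaProd_injOn hk hW0 h N), Finset.card_filter]
  push_cast
  rfl

private theorem sva_abs_rem_le (hW0 : 1 ≤ W) (hW : ∀ p, p.Prime → p ∣ W → p ∣ M)
    (hinj : ∀ i j, i ≠ j → ∀ p, p.Prime → (h i : ZMod p) = (h j : ZMod p) → p ∣ M) {d : ℕ}
    (hd : d ∣ (svaSieve k W h N Z M hk hM).prodPrimes) :
    |(svaSieve k W h N Z M hk hM).rem d| ≤ d := by
  have hsq : Squarefree d :=
    (svaSieve k W h N Z M hk hM).prodPrimes_squarefree.squarefree_of_dvd hd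
  unfold BoundingSieve.rem
  rw [sva_multSum hW0]
  change |_ - (ArithmeticFunction.prodPrimeFactors (fun p => (k : ℝ) / p)) d * (N : ℝ)| ≤ _
  have hroots : ∀ p, p.Prime → p ∣ d → rc (svaProd W h) p = k := by
    intro p hp hpd
    apply rc_sva_prime h hp (fun hpW =>
      (sva_prime_dvd_prodPrimes hp (hpd.trans hd)).2 (hW p hp hpW))
    intro i j hij heq
    exact (sva_prime_dvd_prodPrimes hp (hpd.trans hd)).2 (hinj i j hij p hp heq)
  have hnu : (ArithmeticFunction.prodPrimeFactors (fun p => (k : ℝ) / p)) d =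
      (rc (svaProd W h) d : ℝ) / d := by
    rw [ArithmeticFunction.prodPrimeFactors_apply hsq.ne_zero,
      rc_squarefree (svaProd_polyLike W h) k hsq hroots]
    have h1 : (d : ℝ) = ∏ p ∈ d.primeFactors, (p : ℝ) := by
      conv_lhs => rw [← Nat.prod_primeFactors_of_squarefree hsq]
      push_cast
      rfl
    conv_rhs => rw [h1]
    rw [← Finset.prod_div_distrib]
  rw [hnu]
  refine (rc_abs_count_sub_le (svaProd_polyLike W h) d N
    (Nat.pos_of_ne_zero hsq.ne_zero)).trans ?_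
  exact_mod_cast rc_le _ d

private theorem sva_selS_ge (T : ℕ) (hM0 : M ≠ 0) :
    (∑ w ∈ Finset.Icc 1 T, (1 : ℝ) / w) ^ k ≤
      ((M : ℝ) / (Nat.totient M : ℝ)) ^ k * selS (svaSieve k W h N (T ^ k) M hk hM) (T ^ k) := by
  have h1 := harmonic_le_coprime M T hM0
  have h0 : 0 ≤ ∑ w ∈ Finset.Icc 1 T, (1 : ℝ) / w := Finset.sum_nonneg fun _ _ => by positivity
  have h2 := pow_le_pow_left₀ h0 h1 k
  refine h2.trans ?_
  rw [mul_pow]
  refine mul_le_mul_of_nonneg_left ?_ (by positivity)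
  refine (sum_ff_ge M T k).trans ?_
  refine sum_le_selS' _ (T ^ k) (fun m => ff k M m) (fun n => ff_nonneg k M n)
    (by rw [ff_one]) (fun m n => ff_mul k M m n) ?_ ?_
  · intro p hp hpZ hf
    apply sva_dvd_prodPrimes hp hpZ
    intro hpM
    apply hf
    rw [ff_prime k M hp, if_pos hpM]
  · intro p hp hpd
    change ff k M p = (ArithmeticFunction.prodPrimeFactors (fun p => (k : ℝ) / p)) p
    rw [ff_prime k M hp, if_neg (sva_prime_dvd_prodPrimes hp hpd).2,
      ArithmeticFunction.prodPrimeFactors_apply hp.ne_zero, hp.primeFactors,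
      Finset.prod_singleton]

end

/-- The sieve bound in terms of the parameter `T`. -/
private theorem sva_count_le (k : ℕ) (hk : 1 ≤ k) (W : ℕ) (hW0 : 1 ≤ W) (h : Fin k → ℕ) (N T M : ℕ) (hT : 1 ≤ T)
    (hM0 : M ≠ 0) (hM : ∀ p, p.Prime → p ≤ k → p ∣ M) (hW : ∀ p, p.Prime → p ∣ W → p ∣ M)
    (hinj : ∀ i j, i ≠ j → ∀ p, p.Prime → (h i : ZMod p) = (h j : ZMod p) → p ∣ M) :
    (((Finset.Icc 1 N).filter (fun n => ∀ i, (W * n + h i).Prime)).card : ℝ) ≤
      (T : ℝ) ^ k + ((M : ℝ) / (Nat.totient M : ℝ)) ^ k * N / (Real.log (T + 1)) ^ k +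
        (T : ℝ) ^ (4 * k) := by
  set s := svaSieve k W h N (T ^ k) M hk hM with hs
  have hZ : 1 ≤ T ^ k := Nat.one_le_pow _ _ hT
  have hsel := selberg_bound s (T ^ k) hZ
  have h1 : (((Finset.Icc 1 N).filter (fun n => ∀ i, (W * n + h i).Prime)).card : ℝ)
      ≤ (T : ℝ) ^ k + s.siftedSum := by
    rw [hs, sva_siftedSum hW0]
    have hsub : (Finset.Icc 1 N).filter (fun n => ∀ i, (W * n + h i).Prime) ⊆
        (Finset.Icc 1 (T ^ k)) ∪ ((Finset.Icc 1 N).filter (fun n =>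
          (svaSieve k W h N (T ^ k) M hk hM).prodPrimes.Coprime (svaProd W h n))) := by
      intro p hp
      have hp' := Finset.mem_filter.mp hp
      have hpI := Finset.mem_Icc.mp hp'.1
      rw [Finset.mem_union]
      by_cases hpW : p ≤ T ^ k
      · exact Or.inl (Finset.mem_Icc.mpr ⟨hpI.1, hpW⟩)
      · right
        refine Finset.mem_filter.mpr ⟨hp'.1, ?_⟩
        unfold svaProd
        apply Nat.Coprime.prod_right
        intro i _
        refine ((Nat.Prime.coprime_iff_not_dvd (hp'.2 i)).mpr fun hd => hpW ?_).symm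
        have h3 := (sva_prime_dvd_prodPrimes (hp'.2 i) hd).1
        have h4 : p ≤ W * p := Nat.le_mul_of_pos_left p hW0
        omega
    have := (Finset.card_le_card hsub).trans (Finset.card_union_le _ _)
    rw [Nat.card_Icc, Nat.add_sub_cancel] at this
    exact_mod_cast this
  have hharm : Real.log ((T : ℝ) + 1) ≤ ∑ w ∈ Finset.Icc 1 T, (1 : ℝ) / w := by
    have h := log_add_one_le_harmonic T
    rw [harmonic_eq_sum_Icc] at h
    push_cast at h
    simpa [one_div] using h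
  have hTr : (1 : ℝ) ≤ T := by exact_mod_cast hT
  have hlog : 0 < Real.log ((T : ℝ) + 1) := Real.log_pos (by linarith)
  have hS := selS_pos s (T ^ k) hZ
  have hSge : (∑ w ∈ Finset.Icc 1 T, (1 : ℝ) / w) ^ k ≤
      ((M : ℝ) / (Nat.totient M : ℝ)) ^ k * selS s (T ^ k) := sva_selS_ge T hM0
  have hmain : s.totalMass / selS s (T ^ k)
      ≤ ((M : ℝ) / (Nat.totient M : ℝ)) ^ k * N / (Real.log (T + 1)) ^ k := by
    change (N : ℝ) / selS s (T ^ k) ≤ _
    rw [div_le_div_iff₀ hS (by positivity)]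
    have h3 : (Real.log ((T : ℝ) + 1)) ^ k
        ≤ ((M : ℝ) / (Nat.totient M : ℝ)) ^ k * selS s (T ^ k) :=
      (pow_le_pow_left₀ hlog.le hharm k).trans hSge
    calc (N : ℝ) * (Real.log ((T : ℝ) + 1)) ^ k
        ≤ (N : ℝ) * (((M : ℝ) / (Nat.totient M : ℝ)) ^ k * selS s (T ^ k)) := by gcongr
      _ = ((M : ℝ) / (Nat.totient M : ℝ)) ^ k * N * selS s (T ^ k) := by ring
  have herr : ∑ d1 ∈ s.prodPrimes.divisors with d1 ≤ T ^ k,
      ∑ d2 ∈ s.prodPrimes.divisors with d2 ≤ T ^ k, |s.rem (d1.lcm d2)| ≤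
        (T : ℝ) ^ (4 * k) := by
    have hterm : ∀ d1 ∈ s.prodPrimes.divisors.filter (fun d => d ≤ T ^ k),
        ∀ d2 ∈ s.prodPrimes.divisors.filter (fun d => d ≤ T ^ k),
        |s.rem (d1.lcm d2)| ≤ (T : ℝ) ^ (2 * k) := by
      intro d1 h1 d2 h2
      have h1' := Finset.mem_filter.mp h1
      have h2' := Finset.mem_filter.mp h2
      have hd1 := Nat.dvd_of_mem_divisors h1'.1
      have hd2 := Nat.dvd_of_mem_divisors h2'.1
      have h10 := Nat.pos_of_mem_divisors h1'.1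
      have h20 := Nat.pos_of_mem_divisors h2'.1
      refine (sva_abs_rem_le hW0 hW hinj (Nat.lcm_dvd hd1 hd2)).trans ?_
      have : d1.lcm d2 ≤ T ^ (2 * k) := by
        calc d1.lcm d2 ≤ d1 * d2 := Nat.le_of_dvd (Nat.mul_pos h10 h20) (Nat.lcm_dvd_mul d1 d2)
          _ ≤ T ^ k * T ^ k := Nat.mul_le_mul h1'.2 h2'.2
          _ = T ^ (2 * k) := by ring
      exact_mod_cast this
    have hcard : ((s.prodPrimes.divisors.filter (fun d => d ≤ T ^ k)).card : ℝ) ≤ (T : ℝ) ^ k := by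
      have : (s.prodPrimes.divisors.filter (fun d => d ≤ T ^ k)).card ≤ T ^ k := by
        have hsub : s.prodPrimes.divisors.filter (fun d => d ≤ T ^ k) ⊆ Finset.Icc 1 (T ^ k) := by
          intro d hd
          have hd' := Finset.mem_filter.mp hd
          exact Finset.mem_Icc.mpr ⟨Nat.pos_of_mem_divisors hd'.1, hd'.2⟩
        exact (Finset.card_le_card hsub).trans (by simp)
      exact_mod_cast this
    calc ∑ d1 ∈ s.prodPrimes.divisors with d1 ≤ T ^ k,
          ∑ d2 ∈ s.prodPrimes.divisors with d2 ≤ T ^ k, |s.rem (d1.lcm d2)|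
        ≤ ∑ d1 ∈ s.prodPrimes.divisors with d1 ≤ T ^ k,
          ∑ d2 ∈ s.prodPrimes.divisors with d2 ≤ T ^ k, (T : ℝ) ^ (2 * k) :=
          Finset.sum_le_sum fun d1 h1 => Finset.sum_le_sum fun d2 h2 => hterm d1 h1 d2 h2
      _ = ((s.prodPrimes.divisors.filter (fun d => d ≤ T ^ k)).card : ℝ)
          * (((s.prodPrimes.divisors.filter (fun d => d ≤ T ^ k)).card : ℝ) *
            (T : ℝ) ^ (2 * k)) := by
          simp only [Finset.sum_const, nsmul_eq_mul]
      _ ≤ (T : ℝ) ^ k * ((T : ℝ) ^ k * (T : ℝ) ^ (2 * k)) := by gcongr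
      _ = (T : ℝ) ^ (4 * k) := by ring
  linarith

theorem sieve_ap (k : ℕ) (hk : 1 ≤ k) (N W : ℕ) (h : Fin k → ℕ) (M : ℕ) (hN : 2 ≤ N)
    (hM0 : M ≠ 0) (hM : ∀ p, p.Prime → p ≤ k → p ∣ M) (hW : ∀ p, p.Prime → p ∣ W → p ∣ M)
    (hW0 : 1 ≤ W)
    (hinj : ∀ i j, i ≠ j → ∀ p, p.Prime → (h i : ZMod p) = (h j : ZMod p) → p ∣ M) :
    (((Finset.Icc 1 N).filter (fun n => ∀ i, (W * n + h i).Prime)).card : ℝ) ≤
      (2 * (2 * (k + 1)) ^ k + (8 * k) ^ k) * ((M : ℝ) / (Nat.totient M : ℝ)) ^ k * N /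
        (Real.log N) ^ k := by
  have hNr : (2 : ℝ) ≤ N := by exact_mod_cast hN
  have hN0 : (0 : ℝ) < N := by linarith
  have hlogN : 0 < Real.log N := Real.log_pos (by linarith)
  have hphi : 1 ≤ ((M : ℝ) / (Nat.totient M : ℝ)) ^ k :=
    one_le_pow₀ (one_le_div_totient M (Nat.pos_of_ne_zero hM0))
  have hkr : (1 : ℝ) ≤ k := by exact_mod_cast hk
  have hsqrt0 : 0 < Real.sqrt N := Real.sqrt_pos.mpr hN0
  have hlog2 := log_pow_le k N (by linarith)
  have hsq : Real.sqrt N ≤ (2 * (k + 1)) ^ k * N / (Real.log N) ^ k := by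
    rw [le_div_iff₀ (by positivity)]
    calc Real.sqrt N * (Real.log N) ^ k ≤ Real.sqrt N * ((2 * (k + 1)) ^ k * Real.sqrt N) := by
          gcongr
      _ = (2 * (k + 1)) ^ k * (Real.sqrt N * Real.sqrt N) := by ring
      _ = (2 * (k + 1)) ^ k * N := by rw [Real.mul_self_sqrt hN0.le]
  set T := ⌊(N : ℝ) ^ (1 / (8 * k) : ℝ)⌋₊ with hTdef
  have hexp : 0 ≤ (1 / (8 * k) : ℝ) := by positivity
  have hpow1 : (1 : ℝ) ≤ (N : ℝ) ^ (1 / (8 * k) : ℝ) := Real.one_le_rpow (by linarith) hexp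
  have hT1 : 1 ≤ T := Nat.one_le_floor_iff _ |>.mpr hpow1
  have hWle : (T : ℝ) ≤ (N : ℝ) ^ (1 / (8 * k) : ℝ) := Nat.floor_le (by positivity)
  have hWlt : (N : ℝ) ^ (1 / (8 * k) : ℝ) < T + 1 := Nat.lt_floor_add_one _
  have hW8 : (T : ℝ) ^ (4 * k) ≤ Real.sqrt N := by
    calc (T : ℝ) ^ (4 * k) ≤ ((N : ℝ) ^ (1 / (8 * k) : ℝ)) ^ (4 * k) := by gcongr
      _ = Real.sqrt N := by
        rw [← Real.rpow_natCast, ← Real.rpow_mul hN0.le, Real.sqrt_eq_rpow]
        congr 1
        push_cast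
        field_simp
        norm_num
  have hTr : (1 : ℝ) ≤ T := by exact_mod_cast hT1
  have hW2 : (T : ℝ) ^ k ≤ (T : ℝ) ^ (4 * k) := pow_le_pow_right₀ hTr (by omega)
  have hlogW : Real.log N / (8 * k) ≤ Real.log ((T : ℝ) + 1) := by
    have : Real.log ((N : ℝ) ^ (1 / (8 * k) : ℝ)) ≤ Real.log ((T : ℝ) + 1) :=
      Real.log_le_log (by positivity) hWlt.le
    rw [Real.log_rpow hN0] at this
    calc Real.log N / (8 * k) = 1 / (8 * k) * Real.log N := by ring
      _ ≤ _ := this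
  have hmain := sva_count_le k hk W hW0 h N T M hT1 hM0 hM hW hinj
  have hm : ((M : ℝ) / (Nat.totient M : ℝ)) ^ k * N / (Real.log ((T : ℝ) + 1)) ^ k
      ≤ (8 * k) ^ k * ((M : ℝ) / (Nat.totient M : ℝ)) ^ k * N / (Real.log N) ^ k := by
    have hl : (Real.log N / (8 * k)) ^ k ≤ (Real.log ((T : ℝ) + 1)) ^ k :=
      pow_le_pow_left₀ (by positivity) hlogW k
    calc ((M : ℝ) / (Nat.totient M : ℝ)) ^ k * N / (Real.log ((T : ℝ) + 1)) ^ k
        ≤ ((M : ℝ) / (Nat.totient M : ℝ)) ^ k * N / (Real.log N / (8 * k)) ^ k := by gcongr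
      _ = (8 * k) ^ k * ((M : ℝ) / (Nat.totient M : ℝ)) ^ k * N / (Real.log N) ^ k := by
        have e : (Real.log N / (8 * k)) ^ k = (Real.log N) ^ k / (8 * k) ^ k := div_pow _ _ _
        rw [e, div_div_eq_mul_div]
        ring
  have herr : 2 * Real.sqrt N ≤
      2 * (2 * (k + 1)) ^ k * ((M : ℝ) / (Nat.totient M : ℝ)) ^ k * N / (Real.log N) ^ k := by
    calc 2 * Real.sqrt N ≤ 2 * ((2 * (k + 1)) ^ k * N / (Real.log N) ^ k) := by gcongr
      _ = 2 * (2 * (k + 1)) ^ k * 1 * N / (Real.log N) ^ k := by ring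
      _ ≤ _ := by gcongr
  have hfin : (2 * (2 * (k + 1)) ^ k + (8 * k) ^ k) * ((M : ℝ) / (Nat.totient M : ℝ)) ^ k * N /
      (Real.log N) ^ k =
      2 * (2 * (k + 1)) ^ k * ((M : ℝ) / (Nat.totient M : ℝ)) ^ k * N / (Real.log N) ^ k +
      (8 * k) ^ k * ((M : ℝ) / (Nat.totient M : ℝ)) ^ k * N / (Real.log N) ^ k := by ring
  rw [hfin]
  linarith

end Pool.Agent.Lib.MP_092512_nt.QC
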