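import Pool.Agent.Lib.MP_092512_nt.QC.ND
import Pool.Agent.Lib.MP_092512_nt.QC.SvA

/-!
# N3: `K` points: Selberg sieve in a class with a constant `(C K)^K`, `C` absolute

PROOF. `sieve_ap` with constant `2 (2 (k+1))^k + (8k)^k ≤ (30 k)^k`: `n = W n' + b0`, `b0 = b % W`, `n' ≤ x/W` (and `n' = 0` separately: at most one `n`), `h i = b0 + d_i`;
`M = W ∏_{pairs} (d' - d)` (nonzero), `M/φ(M) ≤ wf w * ∏_{q ∈ pairs D} G w (q.2 - q.1)`, so `(M/φ(M))^K ≤ (wf w)^K T w D` (`KSets.T`);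
`N = x/W`, `log N ≥ (1/2) log x` for `x ≥ x0(K, w)` costs `2^K`; `(JJ x W b).card ≥ x/(2W)`; the `+1` is absorbed for `x ≥ x0`.
-/

set_option autoImplicit false

open Finset

namespace Pool.Agent.Lib.MP_092512_nt.QC

open Pool.Agent.Lib.MP_092512_nt.KSets

open Pool.Agent.Lib.MP_092512_nt in
private theorem n3_tot (n : ℕ) (hn : n ≠ 0) :
    (n : ℝ) / (Nat.totient n : ℝ) = ∏ p ∈ n.primeFactors, yf p := by
  have h1 : ((Nat.totient n : ℚ) : ℝ) = (((n : ℚ) * ∏ p ∈ n.primeFactors, (1 - (p : ℚ)⁻¹) : ℚ) : ℝ) := by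
    rw [Nat.totient_eq_mul_prod_factors n]
  push_cast at h1
  rw [h1]
  have hn0 : (n : ℝ) ≠ 0 := by exact_mod_cast hn
  have h2 : ∏ p ∈ n.primeFactors, yf p = (∏ p ∈ n.primeFactors, (1 - ((p : ℝ))⁻¹))⁻¹ := by
    rw [← Finset.prod_inv_distrib]
    refine Finset.prod_congr rfl fun p _ => ?_
    unfold yf
    rw [one_div]
  rw [h2, div_mul_eq_div_div, div_self hn0, one_div]

open Pool.Agent.Lib.MP_092512_nt in
private theorem n3_M (w : ℕ) (D : Finset ℕ) :
    (((primorial w * ∏ q ∈ pairs D, (q.2 - q.1) : ℕ) : ℝ) /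
      (Nat.totient (primorial w * ∏ q ∈ pairs D, (q.2 - q.1)) : ℝ)) ≤
      wf w * ∏ q ∈ pairs D, G w (q.2 - q.1) := by
  have hW : primorial w ≠ 0 := primorial_ne_zero w
  have hd : ∀ q ∈ pairs D, q.2 - q.1 ≠ 0 := by
    intro q hq
    unfold pairs at hq
    have := (Finset.mem_filter.1 hq).2
    omega
  have hP : ∏ q ∈ pairs D, (q.2 - q.1) ≠ 0 := Finset.prod_ne_zero_iff.2 hd
  have hM : primorial w * ∏ q ∈ pairs D, (q.2 - q.1) ≠ 0 := mul_ne_zero hW hP
  have hpf : ∀ p ∈ (primorial w * ∏ q ∈ pairs D, (q.2 - q.1)).primeFactors, p.Prime :=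
    fun p hp => Nat.prime_of_mem_primeFactors hp
  rw [n3_tot _ hM, ← Finset.prod_filter_mul_prod_filter_not _ (fun p => p ≤ w)]
  refine mul_le_mul ?_ ?_ (Finset.prod_nonneg fun p hp =>
    (yf_pos (hpf p (Finset.mem_filter.1 hp).1)).le) (zero_le_one.trans (one_le_wf w))
  · unfold wf
    rw [n3_tot _ hW]
    refine prod_le_of_subset ?_ _ (fun p hp => one_le_yf (Nat.prime_of_mem_primeFactors hp))
    intro p hp
    obtain ⟨hp1, hp2⟩ := Finset.mem_filter.1 hp
    have hpp := hpf p hp1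
    exact Nat.mem_primeFactors.2 ⟨hpp, (Nat.Prime.dvd_primorial_iff hpp).2 hp2, hW⟩
  · calc ∏ p ∈ (primorial w * ∏ q ∈ pairs D, (q.2 - q.1)).primeFactors.filter (fun p => ¬ p ≤ w), yf p
        ≤ ∏ p ∈ (primorial w * ∏ q ∈ pairs D, (q.2 - q.1)).primeFactors.filter (fun p => ¬ p ≤ w),
            ∏ q ∈ pairs D, (if p ∣ q.2 - q.1 then yf p else 1) := by
          refine Finset.prod_le_prod (fun p hp =>
            (yf_pos (hpf p (Finset.mem_filter.1 hp).1)).le) (fun p hp => ?_)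
          obtain ⟨hp1, hp2⟩ := Finset.mem_filter.1 hp
          have hpp := hpf p hp1
          have hone : ∀ q ∈ pairs D, (1:ℝ) ≤ (if p ∣ q.2 - q.1 then yf p else 1) := by
            intro q _
            split_ifs
            · exact one_le_yf hpp
            · exact le_rfl
          have h1 : p ∣ ∏ q ∈ pairs D, (q.2 - q.1) := by
            rcases (Nat.Prime.dvd_mul hpp).1 (Nat.dvd_of_mem_primeFactors hp1) with h | h
            · exact absurd ((Nat.Prime.dvd_primorial_iff hpp).1 h) hp2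
            · exact h
          obtain ⟨q, hq, hpq⟩ := (Prime.dvd_finset_prod_iff hpp.prime _).1 h1
          have h2 := single_le_prod (pairs D) (fun q => (if p ∣ q.2 - q.1 then yf p else (1:ℝ))) hone hq
          simp only [if_pos hpq] at h2
          exact h2
      _ = ∏ q ∈ pairs D, ∏ p ∈ (primorial w * ∏ q ∈ pairs D, (q.2 - q.1)).primeFactors.filter
            (fun p => ¬ p ≤ w), (if p ∣ q.2 - q.1 then yf p else 1) := prod_comm
      _ ≤ ∏ q ∈ pairs D, G w (q.2 - q.1) := by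
          apply Finset.prod_le_prod
          · intro q _
            apply prod_nonneg
            intro p hp
            split_ifs
            · exact (yf_pos (hpf p (Finset.mem_filter.1 hp).1)).le
            · exact zero_le_one
          · intro q hq
            rw [← prod_filter]
            unfold G
            apply prod_le_of_subset
            · intro p hp
              obtain ⟨hp1, hp2⟩ := Finset.mem_filter.1 hp
              obtain ⟨hp3, hp4⟩ := Finset.mem_filter.1 hp1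
              rw [mem_filter, Nat.mem_primeFactors]
              exact ⟨⟨hpf p hp3, hp2, hd q hq⟩, not_le.1 hp4⟩
            · intro p hp
              exact one_le_yf (Nat.prime_of_mem_primeFactors (mem_filter.mp hp).1)

private theorem n3_J (x W b : ℕ) (hW : 1 ≤ W) : x / W ≤ (JJ x W b).card := by
  obtain ⟨r, hr1, hr2, hr3⟩ : ∃ r, 1 ≤ r ∧ r ≤ W ∧ r ≡ b [MOD W] := by
    by_cases h : b % W = 0
    · refine ⟨W, hW, le_rfl, ?_⟩
      unfold Nat.ModEq
      rw [Nat.mod_self, h]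
    · exact ⟨b % W, Nat.one_le_iff_ne_zero.2 h, (Nat.mod_lt _ hW).le, Nat.mod_modEq b W⟩
  have h1 : ((range (x / W)).image (fun t => W * t + r)) ⊆ JJ x W b := by
    intro n hn
    rw [Finset.mem_image] at hn
    obtain ⟨t, ht, rfl⟩ := hn
    rw [Finset.mem_range] at ht
    unfold JJ
    rw [Finset.mem_filter, Finset.mem_Icc]
    have h2 : W * (t + 1) ≤ W * (x / W) := Nat.mul_le_mul_left _ ht
    have h3 : W * (x / W) ≤ x := Nat.mul_div_le x W
    refine ⟨⟨by omega, by rw [Nat.mul_add, mul_one] at h2; omega⟩, ?_⟩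
    have h4 : W * t + r ≡ 0 + r [MOD W] := by
      refine Nat.ModEq.add_right r ?_
      exact (Nat.modEq_zero_iff_dvd).2 (dvd_mul_right _ _)
    rw [zero_add] at h4
    exact h4.trans hr3
  have h2 := Finset.card_le_card h1
  rw [Finset.card_image_of_injective, Finset.card_range] at h2
  · exact h2
  · intro s t hst
    have h3 : W * s = W * t := by
      have : W * s + r = W * t + r := hst
      omega
    exact Nat.eq_of_mul_eq_mul_left hW h3

private theorem n3_hit (x W b K : ℕ) (hW : 1 ≤ W) (D : Finset ℕ) (d : Fin K → ℕ)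
    (hd : ∀ a ∈ D, ∃ i, d i = a) (hd' : ∀ i, d i ∈ D) :
    hit x W b D ≤ 1 + ((Finset.Icc 1 (x / W)).filter
      (fun n => ∀ i, (W * n + (b % W + d i)).Prime)).card := by
  have hsub : (JJ x W b).filter (fun n => ∀ d ∈ D, (n + d).Prime) ⊆
      insert (b % W) (((Finset.Icc 1 (x / W)).filter
        (fun n => ∀ i, (W * n + (b % W + d i)).Prime)).image (fun n => W * n + b % W)) := by
    intro n hn
    obtain ⟨h1, h2⟩ := Finset.mem_filter.1 hn
    unfold JJ at h1
    obtain ⟨h3, h4⟩ := Finset.mem_filter.1 h1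
    rw [Finset.mem_Icc] at h3
    have h5 : W * (n / W) + b % W = n := by
      have h6 : n % W = b % W := h4
      rw [← h6]
      exact Nat.div_add_mod n W
    rw [Finset.mem_insert]
    by_cases h0 : n / W = 0
    · left
      rw [h0, mul_zero, zero_add] at h5
      exact h5.symm
    · right
      rw [Finset.mem_image]
      refine ⟨n / W, ?_, h5⟩
      rw [Finset.mem_filter, Finset.mem_Icc]
      refine ⟨⟨Nat.one_le_iff_ne_zero.2 h0, Nat.div_le_div_right h3.2⟩, fun i => ?_⟩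
      have h6 := h2 (d i) (hd' i)
      rw [← add_assoc, h5]
      exact h6
  unfold hit
  refine (Finset.card_le_card hsub).trans ((Finset.card_insert_le _ _).trans ?_)
  rw [add_comm]
  exact Nat.add_le_add_left Finset.card_image_le 1

private theorem n3_log (K W : ℕ) (hW : 1 ≤ W) : ∃ x0 : ℕ, ∀ x : ℕ, x0 ≤ x → 2 ≤ x / W ∧
    Real.log x ^ K ≤ ((x / W : ℕ) : ℝ) ∧ Real.log x ≤ 2 * Real.log ((x / W : ℕ) : ℝ) ∧
    0 < Real.log x := by
  have h1 := (Real.isLittleO_pow_log_id_atTop (n := K)).bound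
    (c := 1 / (2 * (W : ℝ))) (by positivity)
  rw [Filter.eventually_atTop] at h1
  obtain ⟨X, hX⟩ := h1
  obtain ⟨X1, hX1⟩ := exists_nat_ge X
  refine ⟨X1 + 4 * W ^ 2 + 2, fun x hx => ?_⟩
  have hWsq : W ≤ W ^ 2 := by nlinarith
  have hx4 : 4 * W ^ 2 ≤ x := by omega
  have hx2 : 2 ≤ x := by omega
  have h2W : 2 * W ≤ x := by omega
  have h2 : 2 ≤ x / W := by
    rw [Nat.le_div_iff_mul_le hW]
    exact h2W
  have hWr : (1 : ℝ) ≤ W := by exact_mod_cast hW
  have hdiv : (x : ℝ) / (2 * W) ≤ ((x / W : ℕ) : ℝ) := by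
    rw [div_le_iff₀ (by positivity)]
    have h3 : x ≤ (x / W) * (2 * W) := by
      have h4 := Nat.div_add_mod x W
      have h5 := Nat.mod_lt x hW
      have h6 : W * 1 ≤ W * (x / W) := Nat.mul_le_mul_left _ (by omega)
      nlinarith
    exact_mod_cast h3
  have hx0 : (0 : ℝ) < x := by exact_mod_cast (by omega : 0 < x)
  refine ⟨h2, ?_, ?_, ?_⟩
  · have h3 := hX (x : ℝ) (hX1.trans (by exact_mod_cast (by omega : X1 ≤ x)))
    rw [Real.norm_eq_abs, Real.norm_eq_abs] at h3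
    refine (le_abs_self _).trans (h3.trans ?_)
    show 1 / (2 * (W : ℝ)) * |(x : ℝ)| ≤ _
    rw [abs_of_pos hx0]
    refine le_trans (le_of_eq ?_) hdiv
    ring
  · have h3 : (x : ℝ) ≤ ((x / W : ℕ) : ℝ) ^ 2 := by
      have h4 : ((x : ℝ) / (2 * W)) ^ 2 ≤ ((x / W : ℕ) : ℝ) ^ 2 :=
        pow_le_pow_left₀ (by positivity) hdiv 2
      refine le_trans ?_ h4
      rw [div_pow, le_div_iff₀ (by positivity)]
      have h5 : (4 : ℝ) * W ^ 2 ≤ x := by exact_mod_cast hx4
      nlinarith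
    have h4 := Real.log_le_log hx0 h3
    rw [Real.log_pow] at h4
    exact_mod_cast h4
  · exact Real.log_pos (by exact_mod_cast (by omega : 1 < x))

theorem n3 : ∃ C : ℝ, 1 ≤ C ∧ ∀ K w : ℕ, 1 ≤ K → K ≤ w → ∃ x0 : ℕ, ∀ x : ℕ, x0 ≤ x → ∀ b : ℕ,
    ∀ D : Finset ℕ, D.card = K → (∀ d ∈ D, d ≤ x) →
      (hit x (primorial w) b D : ℝ) ≤
        (C * K) ^ K * T w D * (wf w / Real.log x) ^ K * (JJ x (primorial w) b).card := by
  refine ⟨64, by norm_num, fun K w hK hKw => ?_⟩
  have hW1 : 1 ≤ primorial w := primorial_pos w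
  obtain ⟨x0, hx0⟩ := n3_log K (primorial w) hW1
  refine ⟨x0, fun x hx b D hD _ => ?_⟩
  obtain ⟨hN, hlogK, hlog2, hlog0⟩ := hx0 x hx
  set W := primorial w with hW
  set N := x / W with hNd
  set M := W * ∏ q ∈ pairs D, (q.2 - q.1) with hM
  have hdiff : ∀ q ∈ pairs D, q.2 - q.1 ≠ 0 := by
    intro q hq
    unfold pairs at hq
    have := (Finset.mem_filter.1 hq).2
    omega
  have hM0 : M ≠ 0 := mul_ne_zero (by omega) (Finset.prod_ne_zero_iff.2 hdiff)
  have hdj : ∀ i, D.orderEmbOfFin hD i ∈ D := fun i => Finset.orderEmbOfFin_mem D hD i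
  have hpairs : ∀ u v : ℕ, u ∈ D → v ∈ D → u < v → (v - u) ∣ M := by
    intro u v hu hv huv
    refine Dvd.dvd.mul_left ?_ _
    exact Finset.dvd_prod_of_mem (fun q : ℕ × ℕ => q.2 - q.1) (show (u, v) ∈ pairs D by
      unfold pairs
      rw [Finset.mem_filter, Finset.mem_product]
      exact ⟨⟨hu, hv⟩, huv⟩)
  have hinj : ∀ i j : Fin K, i ≠ j → ∀ p, p.Prime →
      ((b % W + D.orderEmbOfFin hD i : ℕ) : ZMod p) = ((b % W + D.orderEmbOfFin hD j : ℕ) : ZMod p) →
      p ∣ M := by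
    intro i j hij p hp hpe
    have hne : D.orderEmbOfFin hD i ≠ D.orderEmbOfFin hD j :=
      fun h => hij ((D.orderEmbOfFin hD).injective h)
    rw [ZMod.natCast_eq_natCast_iff] at hpe
    have h1 : D.orderEmbOfFin hD i ≡ D.orderEmbOfFin hD j [MOD p] := Nat.ModEq.add_left_cancel' _ hpe
    rcases lt_or_gt_of_ne hne with h | h
    · exact ((Nat.modEq_iff_dvd' h.le).1 h1).trans (hpairs _ _ (hdj i) (hdj j) h)
    · exact ((Nat.modEq_iff_dvd' h.le).1 h1.symm).trans (hpairs _ _ (hdj j) (hdj i) h)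
  have hsv := sieve_ap K hK N W (fun i => b % W + D.orderEmbOfFin hD i) M hN hM0
    (fun p hp hpk => (((Nat.Prime.dvd_primorial_iff hp).2 (hpk.trans hKw)).trans
      (dvd_mul_right _ _))) (fun p _ hpW => hpW.trans (dvd_mul_right _ _)) hW1 hinj
  have hhit := n3_hit x W b K hW1 D (fun i => D.orderEmbOfFin hD i) (fun a ha => by
    have h4 : a ∈ Set.range (D.orderEmbOfFin hD) := by
      rw [Finset.range_orderEmbOfFin]
      exact ha
    exact h4) hdj
  have hhit' : (hit x W b D : ℝ) ≤ 1 + (((Finset.Icc 1 N).filter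
      (fun n => ∀ i, (W * n + (b % W + D.orderEmbOfFin hD i)).Prime)).card : ℝ) := by
    exact_mod_cast hhit
  have hJ : (N : ℝ) ≤ (JJ x W b).card := by exact_mod_cast n3_J x W b hW1
  have hMM := n3_M w D
  rw [← hW, ← hM] at hMM
  have hMnn : (0 : ℝ) ≤ (M : ℝ) / (Nat.totient M : ℝ) := by positivity
  have hMK : ((M : ℝ) / (Nat.totient M : ℝ)) ^ K ≤ wf w ^ K * T w D := by
    refine (pow_le_pow_left₀ hMnn hMM K).trans (le_of_eq ?_)
    rw [mul_pow]
    congr 1
    unfold T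
    rw [hD, Finset.prod_pow]
  have hK1 : (1 : ℝ) ≤ K := by exact_mod_cast hK
  have hwf := one_le_wf w
  have hT := one_le_T w D
  have hwT : 1 ≤ wf w ^ K * T w D := one_le_mul_of_one_le_of_one_le (one_le_pow₀ hwf) hT
  have hc : (2 * (2 * ((K : ℝ) + 1)) ^ K + (8 * K) ^ K) ≤ (16 * K) ^ K := by
    have h1 : (2 * ((K : ℝ) + 1)) ^ K ≤ (4 * K) ^ K :=
      pow_le_pow_left₀ (by positivity) (by linarith) K
    have h2 : (2 : ℝ) ≤ 2 ^ K := by
      calc (2 : ℝ) = 2 ^ 1 := by norm_num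
        _ ≤ 2 ^ K := pow_le_pow_right₀ (by norm_num) hK
    have h3 : (2 : ℝ) * (4 * K) ^ K ≤ (8 * K) ^ K := by
      calc (2 : ℝ) * (4 * K) ^ K ≤ 2 ^ K * (4 * K) ^ K :=
            mul_le_mul_of_nonneg_right h2 (by positivity)
        _ = (8 * K) ^ K := by rw [← mul_pow]; ring
    have h4 : (2 : ℝ) * (8 * K) ^ K ≤ (16 * K) ^ K := by
      calc (2 : ℝ) * (8 * K) ^ K ≤ 2 ^ K * (8 * K) ^ K :=
            mul_le_mul_of_nonneg_right h2 (by positivity)
        _ = (16 * K) ^ K := by rw [← mul_pow]; ring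
    linarith
  have hlogN : 0 < Real.log (N : ℝ) := Real.log_pos (by exact_mod_cast (by omega : 1 < N))
  have hNlog : (N : ℝ) / Real.log N ^ K ≤ 2 ^ K * ((JJ x W b).card / Real.log x ^ K) := by
    rw [div_le_iff₀ (by positivity)]
    have h1 : (Real.log x) ^ K ≤ (2 * Real.log N) ^ K := pow_le_pow_left₀ hlog0.le hlog2 K
    have h2 : 2 ^ K * ((JJ x W b).card / Real.log x ^ K) * Real.log N ^ K =
        (JJ x W b).card * ((2 * Real.log N) ^ K / Real.log x ^ K) := by
      rw [mul_pow]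
      ring
    rw [h2]
    have h3 : 1 ≤ (2 * Real.log N) ^ K / Real.log x ^ K := by
      rw [one_le_div (by positivity)]
      exact h1
    calc (N : ℝ) ≤ (JJ x W b).card := hJ
      _ = (JJ x W b).card * 1 := by ring
      _ ≤ _ := mul_le_mul_of_nonneg_left h3 (by positivity)
  have hone : (1 : ℝ) ≤ (JJ x W b).card / Real.log x ^ K := by
    rw [one_le_div (by positivity)]
    exact hlogK.trans hJ
  obtain ⟨Q, hQ⟩ : ∃ Q : ℝ, Q = (JJ x W b).card / Real.log x ^ K := ⟨_, rfl⟩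
  rw [← hQ] at hone hNlog
  have hmain : (((Finset.Icc 1 N).filter
      (fun n => ∀ i, (W * n + (b % W + D.orderEmbOfFin hD i)).Prime)).card : ℝ) ≤
      (32 * K) ^ K * (wf w ^ K * T w D) * Q := by
    refine hsv.trans ?_
    calc (2 * (2 * ((K : ℝ) + 1)) ^ K + (8 * K) ^ K) * ((M : ℝ) / (Nat.totient M : ℝ)) ^ K * N /
          Real.log N ^ K
        = ((2 * (2 * ((K : ℝ) + 1)) ^ K + (8 * K) ^ K) * ((M : ℝ) / (Nat.totient M : ℝ)) ^ K) *
          (N / Real.log N ^ K) := by ring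
      _ ≤ ((16 * K) ^ K * (wf w ^ K * T w D)) * (2 ^ K * Q) := by
          refine mul_le_mul (mul_le_mul hc hMK (by positivity) (by positivity)) hNlog
            (by positivity) (by positivity)
      _ = (32 * K) ^ K * (wf w ^ K * T w D) * Q := by
          have : ((32 : ℝ) * K) ^ K = 2 ^ K * (16 * K) ^ K := by rw [← mul_pow]; ring
          rw [this]
          ring
  have hA : 1 ≤ (32 * (K : ℝ)) ^ K * (wf w ^ K * T w D) * Q :=
    one_le_mul_of_one_le_of_one_le (one_le_mul_of_one_le_of_one_le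
      (one_le_pow₀ (by linarith)) hwT) hone
  calc (hit x W b D : ℝ) ≤ 2 * ((32 * (K : ℝ)) ^ K * (wf w ^ K * T w D) * Q) := by linarith
    _ ≤ 2 ^ K * ((32 * (K : ℝ)) ^ K * (wf w ^ K * T w D) * Q) := by
        refine mul_le_mul_of_nonneg_right ?_ (by linarith)
        calc (2 : ℝ) = 2 ^ 1 := by norm_num
          _ ≤ 2 ^ K := pow_le_pow_right₀ (by norm_num) hK
    _ = (64 * K) ^ K * T w D * (wf w / Real.log x) ^ K * (JJ x W b).card := by
        have : ((64 : ℝ) * K) ^ K = 2 ^ K * (32 * K) ^ K := by rw [← mul_pow]; ring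
        rw [this, hQ, div_pow]
        ring

end Pool.Agent.Lib.MP_092512_nt.QC
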