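import Pool.Agent.Lib.MP_092512_nt.QC.ND
import Pool.Agent.Lib.Sieve.Mertens

/-!
# N4: moments

PROOF. `wf_le`: `wf w = ∏_{p ≤ w} (1 - 1/p)^{-1} ≤ C log w` (Mertens; library `Pool.Agent.Lib.Sieve.Mertens3` or similar, or: `log wf w ≤ ∑_{p ≤ w} 1/p + 1 ≤
log log w + C`). `tendsto_eta_wf`: `eta K j w = exp (4 · 2^m/(w+1)) - 1 = O(1/w)` and `(log w)^K/w → 0`. `sum_T_le`: for `V ⊆ Icc 1 H`:
`∑_{D ∈ powersetCard K V} (T w D)^2 ≤ card V ^ K + eta K 2 w * H^K` (`KSets.sum_T_pow_sub_one_le`, terms `≥ 0`). `sum_G_le`: pairs `y < z` in `V`: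
`((G w (z - y))^2 - 1)^2 ≤ (G w (z-y))^4 - 1 = (T w {y,z})^2 - 1`, sum `≤ eta 2 2 w * H^2`. `sum_S_V`: `KSets.sum_S_le` for subsets.
-/

set_option autoImplicit false

open Finset Filter Topology

namespace Pool.Agent.Lib.MP_092512_nt.QC

open Pool.Agent.Lib.MP_092512_nt.KSets

private theorem n4_wf (w : ℕ) :
    wf w = ∏ p ∈ (Icc 1 w).filter Nat.Prime, (1 - (1 : ℝ) / p)⁻¹ := by
  have hset : (Icc 1 w).filter Nat.Prime = (range (w + 1)).filter Nat.Prime := by
    ext p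
    rw [mem_filter, mem_filter, mem_Icc, mem_range]
    constructor
    · rintro ⟨h1, h2⟩
      exact ⟨by omega, h2⟩
    · rintro ⟨h1, h2⟩
      exact ⟨⟨h2.one_le, by omega⟩, h2⟩
  have hP : ∀ p ∈ (range (w + 1)).filter Nat.Prime, p.Prime := fun p hp => (mem_filter.1 hp).2
  unfold wf
  rw [hset]
  show ((∏ p ∈ (range (w + 1)).filter Nat.Prime, p : ℕ) : ℝ) /
    (Nat.totient (∏ p ∈ (range (w + 1)).filter Nat.Prime, p) : ℝ) = _
  rw [totient_prod _ hP, Nat.cast_prod, ← prod_div_distrib]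
  refine prod_congr rfl fun p hp => ?_
  have h1 : (1 : ℝ) < p := by exact_mod_cast (hP p hp).one_lt
  have h2 : (p : ℝ) ≠ 0 := by linarith
  have h3 : (p : ℝ) - 1 ≠ 0 := by linarith
  field_simp

theorem wf_le : ∃ C : ℝ, 0 < C ∧ ∀ w : ℕ, 2 ≤ w → wf w ≤ C * Real.log w := by
  obtain ⟨C, hC, h⟩ := Pool.Agent.Lib.Sieve.mertens_product_upper
  exact ⟨C, hC, fun w hw => by rw [n4_wf]; exact h w hw⟩

theorem tendsto_eta_wf (K j : ℕ) : Tendsto (fun w : ℕ => eta K j w * (wf w) ^ K) atTop (𝓝 0) := by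
  obtain ⟨C, hC, h⟩ := wf_le
  set c : ℝ := 4 * 2 ^ (mm K j) with hc
  have hc0 : 0 < c := by positivity
  have h1 : Tendsto (fun w : ℕ => (2 * c * C ^ K) * (Real.log w ^ K / (w : ℝ))) atTop (𝓝 0) := by
    have h2 : Tendsto (fun x : ℝ => Real.log x ^ K / x) atTop (𝓝 0) :=
      (Real.isLittleO_pow_log_id_atTop (n := K)).tendsto_div_nhds_zero
    have h3 := (h2.comp tendsto_natCast_atTop_atTop).const_mul (2 * c * C ^ K)
    rw [mul_zero] at h3
    exact h3
  refine squeeze_zero' (Eventually.of_forall fun w => ?_) ?_ h1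
  · exact mul_nonneg (eta_nonneg K j w) (pow_nonneg (zero_le_one.trans (one_le_wf w)) _)
  · filter_upwards [eventually_ge_atTop (max 2 ⌈c⌉₊)] with w hw
    have hw2 : 2 ≤ w := (le_max_left _ _).trans hw
    have hwc : c ≤ w := (Nat.le_ceil c).trans (by exact_mod_cast (le_max_right _ _).trans hw)
    have hwR : (0 : ℝ) < w := by exact_mod_cast (by omega : 0 < w)
    have h2 : wf w ^ K ≤ C ^ K * Real.log w ^ K := by
      rw [← mul_pow]
      exact pow_le_pow_left₀ (zero_le_one.trans (one_le_wf w)) (h w hw2) K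
    have h3 : eta K j w ≤ 2 * c / w := by
      unfold eta
      rw [← hc]
      have h4 : 0 ≤ c / ((w : ℝ) + 1) := by positivity
      have h5 : c / ((w : ℝ) + 1) ≤ 1 := by
        rw [div_le_one (by positivity)]
        linarith
      have h6 := Real.abs_exp_sub_one_le (x := c / ((w : ℝ) + 1)) (by rwa [abs_of_nonneg h4])
      rw [abs_of_nonneg h4] at h6
      have h7 := (le_abs_self _).trans h6
      refine h7.trans ?_
      have h8 : c / ((w : ℝ) + 1) ≤ c / w := div_le_div_of_nonneg_left hc0.le hwR (by linarith)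
      calc 2 * (c / ((w : ℝ) + 1)) ≤ 2 * (c / w) := by linarith
        _ = 2 * c / w := by ring
    calc eta K j w * wf w ^ K ≤ (2 * c / w) * (C ^ K * Real.log w ^ K) := by
          refine mul_le_mul h3 h2 (pow_nonneg (zero_le_one.trans (one_le_wf w)) _) (by positivity)
      _ = _ := by ring

theorem sum_T_V (K w H : ℕ) (V : Finset ℕ) (hV : V ⊆ Icc 1 H) :
    ∑ D ∈ powersetCard K V, (T w D) ^ 2 ≤ (V.card : ℝ) ^ K + eta K 2 w * (H : ℝ) ^ K := by
  have h1 : ∑ D ∈ powersetCard K V, (T w D) ^ 2 =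
      ∑ D ∈ powersetCard K V, ((T w D) ^ 2 - 1) + ((V.card.choose K : ℕ) : ℝ) := by
    rw [sum_sub_distrib, sum_const, card_powersetCard, nsmul_eq_mul, mul_one]
    ring
  have h2 : ∑ D ∈ powersetCard K V, ((T w D) ^ 2 - 1) ≤
      ∑ D ∈ powersetCard K (Icc 1 H), ((T w D) ^ 2 - 1) := by
    refine sum_le_sum_of_subset_of_nonneg (powersetCard_mono hV) fun D _ _ => ?_
    have := one_le_pow₀ (one_le_T w D) (n := 2)
    linarith
  have h3 := sum_T_pow_sub_one_le K 2 w H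
  have h4 := choose_le_pow' V.card K
  rw [h1]
  linarith

theorem sum_G_V (w H : ℕ) (V : Finset ℕ) (hV : V ⊆ Icc 1 H) :
    ∑ y ∈ V, ∑ z ∈ V.filter (fun z => y < z), ((G w (z - y)) ^ 2 - 1) ^ 2 ≤
      eta 2 2 w * (H : ℝ) ^ 2 := by
  classical
  refine le_trans ?_ (sum_T_pow_sub_one_le 2 2 w H)
  have e1 : ∑ y ∈ V, ∑ z ∈ V.filter (fun z => y < z), ((G w (z - y)) ^ 2 - 1) ^ 2 =
      ∑ q ∈ pairs V, ((G w (q.2 - q.1)) ^ 2 - 1) ^ 2 := by
    unfold pairs
    rw [sum_filter, sum_product]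
    refine sum_congr rfl fun y _ => ?_
    rw [sum_filter]
  have hT : ∀ q ∈ pairs V, T w {q.1, q.2} = (G w (q.2 - q.1)) ^ 2 := by
    rintro ⟨a, b⟩ hq
    have hab : a < b := (mem_filter.1 hq).2
    have hp : pairs {a, b} = {(a, b)} := by
      ext ⟨x, y⟩
      unfold pairs
      rw [mem_filter, mem_product, mem_insert, mem_singleton, mem_insert, mem_singleton,
        mem_singleton, Prod.mk.injEq]
      constructor
      · rintro ⟨⟨h1, h2⟩, h3⟩
        simp only at h1 h2 h3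
        omega
      · rintro ⟨rfl, rfl⟩
        exact ⟨⟨Or.inl rfl, Or.inr rfl⟩, hab⟩
    show T w {a, b} = _
    unfold T
    rw [hp, prod_singleton, card_pair hab.ne]
  have hinj : Set.InjOn (fun q : ℕ × ℕ => ({q.1, q.2} : Finset ℕ)) (pairs V) := by
    rintro ⟨a, b⟩ hq ⟨c, d⟩ hq' h
    have hab : a < b := (mem_filter.1 (mem_coe.1 hq)).2
    have hcd : c < d := (mem_filter.1 (mem_coe.1 hq')).2
    have h1 : ({a, b} : Finset ℕ) = {c, d} := h
    have ha : a ∈ ({c, d} : Finset ℕ) := by rw [← h1]; exact mem_insert_self _ _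
    have hb : b ∈ ({c, d} : Finset ℕ) := by
      rw [← h1]; exact mem_insert_of_mem (mem_singleton_self _)
    have hc : c ∈ ({a, b} : Finset ℕ) := by rw [h1]; exact mem_insert_self _ _
    rw [mem_insert, mem_singleton] at ha hb hc
    rw [Prod.mk.injEq]
    omega
  rw [e1]
  calc ∑ q ∈ pairs V, ((G w (q.2 - q.1)) ^ 2 - 1) ^ 2
      ≤ ∑ q ∈ pairs V, ((T w {q.1, q.2}) ^ 2 - 1) := by
        refine sum_le_sum fun q hq => ?_
        rw [hT q hq]
        have h1 := one_le_pow₀ (one_le_G w (q.2 - q.1)) (n := 2)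
        nlinarith
    _ = ∑ D ∈ (pairs V).image (fun q => ({q.1, q.2} : Finset ℕ)), ((T w D) ^ 2 - 1) := by
        rw [sum_image hinj]
    _ ≤ _ := by
        refine sum_le_sum_of_subset_of_nonneg ?_ fun D _ _ => ?_
        · intro D hD
          obtain ⟨⟨a, b⟩, hq, rfl⟩ := mem_image.1 hD
          have hq' := mem_filter.1 hq
          have hq2 := mem_product.1 hq'.1
          rw [mem_powersetCard]
          refine ⟨?_, card_pair (ne_of_lt hq'.2)⟩
          intro x hx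
          rw [mem_insert, mem_singleton] at hx
          rcases hx with rfl | rfl
          · exact hV hq2.1
          · exact hV hq2.2
        · have := one_le_pow₀ (one_le_T w D) (n := 2)
          linarith

theorem sum_S_V (S : Finset ℕ → ℝ) (hS : ∀ D, Tendsto (Sp D) atTop (𝓝 (S D))) (j : ℕ) :
    ∃ H0 : ℕ, ∀ H : ℕ, H0 ≤ H → ∀ V : Finset ℕ, V ⊆ Icc 1 H →
      ∑ D ∈ powersetCard j V, S D ≤ 2 * (H : ℝ) ^ j := by
  obtain ⟨H0, h⟩ := sum_S_le S hS j 1 one_pos
  refine ⟨H0, fun H hH V hV => ?_⟩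
  have h1 : ∑ D ∈ powersetCard j V, S D ≤ ∑ D ∈ powersetCard j (Icc 1 H), S D :=
    sum_le_sum_of_subset_of_nonneg (powersetCard_mono hV) fun D _ _ => lim_nonneg (hS D)
  have h2 := h H hH
  have h3 : (H : ℝ) ^ j / (j.factorial : ℝ) ≤ (H : ℝ) ^ j := by
    refine div_le_self (by positivity) ?_
    exact_mod_cast Nat.succ_le_of_lt (Nat.factorial_pos j)
  linarith

end Pool.Agent.Lib.MP_092512_nt.QC
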