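import Pool.Agent.Lib.MP_092512_nt.QC.ThmB
import Pool.Agent.Lib.MP_092512_nt.QC.N1
import Pool.Agent.Lib.MP_092512_nt.QC.N2
import Pool.Agent.Lib.MP_092512_nt.QC.N3
import Pool.Agent.Lib.MP_092512_nt.QC.N4
import Pool.Agent.Lib.MP_092512_nt.QC.Brg

/-!
# Fin: Theorem Q

PROOF (section 2 of the text). WLOG `ε ≤ 1/8`. `e' = ε/5^k` (or smaller). `thmB k e' C4` with `C4 = ` constant from `n3` (at least `2`): `K0, η, β`.
`w0`: `w ≥ K0, k, 2` and `K! eta K 2 w (wf w/ε)^K ≤ 1` for `1 ≤ K ≤ K0`, `2 eta 2 2 w (wf w/ε)^2 ≤ η^2` (`tendsto_eta_wf`). For `w ≥ w0` choose `A, c, x0`.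
`Y = {y // y ∈ V}`, `N = card V`, `J = JJ x W b`, `R = RV V`, `m = N wf w/log x`. `N ≥ ε H/wf w`, so `m ≥ ε A ≥ 1/η` and `H ≤ N wf w/ε`.
(B1) `n1`, `im (fun _ => y) = {y}`; (B2) `n2` (for `y > z` swap), `s y z = (G w |y - z|)^2`; second moment: `sum_G_V` twice;
(B3) `n3` and `sum_inj_le`, `sum_T_V`; (B4) `BB j = bad V j (fun D => tupleCount x D < c S D x/log^j x)`: `hit x W b D ≤ tupleCount x D`, `sum_S_V`,
`(JJ x W b).card ≥ x/(2W)`. The set `T.image val`, `bad_le`; `e' N^j ≤ ε |T|^j` because `|T| ≥ N/5 `.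
-/

set_option autoImplicit false

open Finset Filter Topology

namespace Pool.Agent.Lib.MP_092512_nt.QC

open Pool.Agent.Lib.MP_092512_nt.KSets

/-- number of `n ≤ x` with all `n + d` prime -/
def tc (x : ℕ) (D : Finset ℕ) : ℕ := ((Icc 1 x).filter (fun n => ∀ d ∈ D, (n + d).Prime)).card

private theorem fin_JJ (x W b : ℕ) (hW : 1 ≤ W) : (x : ℝ) / W - 1 ≤ ((JJ x W b).card : ℝ) := by
  have h1 : x / W ≤ (JJ x W b).card := by
    set r : ℕ := (b + (W - 1)) % W + 1 with hr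
    have hrW : r ≤ W := Nat.mod_lt _ hW
    have hrb : r ≡ b [MOD W] := by
      have h2 : (b + (W - 1)) % W + 1 ≡ b + (W - 1) + 1 [MOD W] :=
        (Nat.mod_modEq _ _).add_right 1
      have h3 : b + (W - 1) + 1 = b + W := by omega
      rw [h3] at h2
      exact h2.trans (by simp [Nat.ModEq])
    have h4 : ((range (x / W)).image (fun i => W * i + r)) ⊆ JJ x W b := by
      intro n hn
      rw [mem_image] at hn
      obtain ⟨i, hi, rfl⟩ := hn
      rw [mem_range] at hi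
      unfold JJ
      rw [mem_filter, mem_Icc]
      refine ⟨⟨by omega, ?_⟩, ?_⟩
      · calc W * i + r ≤ W * i + W := by omega
          _ = W * (i + 1) := by ring
          _ ≤ W * (x / W) := Nat.mul_le_mul_left _ hi
          _ ≤ x := Nat.mul_div_le x W
      · have h5 : W * i + r ≡ 0 + r [MOD W] :=
          Nat.ModEq.add_right _ (by simp [Nat.ModEq])
        rw [zero_add] at h5
        exact h5.trans hrb
    have h6 : ((range (x / W)).image (fun i => W * i + r)).card = x / W := by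
      rw [card_image_of_injective, card_range]
      intro a a' h
      have h7 : W * a = W * a' := by
        have : W * a + r = W * a' + r := h
        omega
      exact Nat.eq_of_mul_eq_mul_left hW h7
    rw [← h6]
    exact card_le_card h4
  have h8 : (x : ℝ) / W < (x / W : ℕ) + 1 := by
    have hW0 : (0 : ℝ) < W := by exact_mod_cast hW
    rw [div_lt_iff₀ hW0]
    have h9 := Nat.lt_div_mul_add hW (a := x)
    have h10 : (x : ℝ) < (x / W : ℕ) * W + W := by exact_mod_cast h9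
    linarith
  have h11 : ((x / W : ℕ) : ℝ) ≤ ((JJ x W b).card : ℝ) := by exact_mod_cast h1
  linarith

private theorem fin_pairs (V : Finset ℕ) (f : ℕ → ℕ → ℝ) (hf0 : ∀ y z, 0 ≤ f y z)
    (hsym : ∀ y z, f y z = f z y) (F : Finset ({y // y ∈ V} × {y // y ∈ V}))
    (hF : ∀ p ∈ F, p.1 ≠ p.2) :
    ∑ p ∈ F, f p.1.1 p.2.1 ≤ 2 * ∑ y ∈ V, ∑ z ∈ V.filter (fun z => y < z), f y z := by
  set g : ℕ → ℕ → ℝ := fun y z => if y < z then f y z else 0 with hg
  have hg0 : ∀ y z, 0 ≤ g y z := by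
    intro y z
    rw [hg]
    dsimp only
    split_ifs
    · exact hf0 y z
    · exact le_rfl
  have h1 : ∑ p ∈ F, f p.1.1 p.2.1 ≤ ∑ p ∈ F, (g p.1.1 p.2.1 + g p.2.1 p.1.1) := by
    refine sum_le_sum fun p hp => ?_
    have hne : p.1.1 ≠ p.2.1 := fun h => hF p hp (Subtype.ext h)
    rcases lt_or_gt_of_ne hne with h | h
    · have e1 : g p.1.1 p.2.1 = f p.1.1 p.2.1 := if_pos h
      have e2 := hg0 p.2.1 p.1.1
      linarith
    · have e1 : g p.2.1 p.1.1 = f p.2.1 p.1.1 := if_pos h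
      have e2 := hg0 p.1.1 p.2.1
      rw [hsym]
      linarith
  have h2 : ∑ p ∈ F, (g p.1.1 p.2.1 + g p.2.1 p.1.1) ≤
      ∑ p : {y // y ∈ V} × {y // y ∈ V}, (g p.1.1 p.2.1 + g p.2.1 p.1.1) :=
    sum_le_sum_of_subset_of_nonneg (subset_univ _)
      fun p _ _ => add_nonneg (hg0 _ _) (hg0 _ _)
  have h3 : ∑ p : {y // y ∈ V} × {y // y ∈ V}, g p.1.1 p.2.1 = ∑ y ∈ V, ∑ z ∈ V, g y z := by
    rw [Fintype.sum_prod_type]
    rw [← Finset.sum_coe_sort V (fun y => ∑ z ∈ V, g y z)]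
    refine sum_congr rfl fun y _ => ?_
    rw [← Finset.sum_coe_sort V (fun z => g y.1 z)]
  have h4 : ∑ p : {y // y ∈ V} × {y // y ∈ V}, g p.2.1 p.1.1 = ∑ y ∈ V, ∑ z ∈ V, g y z := by
    rw [Fintype.sum_prod_type, Finset.sum_comm]
    rw [← Finset.sum_coe_sort V (fun y => ∑ z ∈ V, g y z)]
    refine sum_congr rfl fun y _ => ?_
    rw [← Finset.sum_coe_sort V (fun z => g y.1 z)]
  have h5 : ∑ y ∈ V, ∑ z ∈ V, g y z = ∑ y ∈ V, ∑ z ∈ V.filter (fun z => y < z), f y z := by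
    refine sum_congr rfl fun y _ => ?_
    rw [sum_filter]
  have e : ∑ p : {y // y ∈ V} × {y // y ∈ V}, (g p.1.1 p.2.1 + g p.2.1 p.1.1) =
      2 * ∑ y ∈ V, ∑ z ∈ V.filter (fun z => y < z), f y z := by
    rw [sum_add_distrib, h3, h4, h5]
    ring
  linarith

/-- the sum of the squares of the majorants over injective tuples -/
private theorem fin_T (V : Finset ℕ) (K w H : ℕ) (hV : V ⊆ Icc 1 H)
    (F : Finset (Fin K → {y // y ∈ V})) (hF : ∀ v ∈ F, Function.Injective v) :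
    ∑ v ∈ F, (T w (im v)) ^ 2 ≤
      (V.card : ℝ) ^ K + (K.factorial : ℝ) * (eta K 2 w * (H : ℝ) ^ K) := by
  have h0 : ∀ D : Finset ℕ, 0 ≤ (T w D) ^ 2 - 1 := fun D => by
    have := one_le_pow₀ (one_le_T w D) (n := 2)
    linarith
  have h1 := sum_inj_le V K (fun D => (T w D) ^ 2 - 1) h0 F hF
  have h2 : ∑ D ∈ powersetCard K V, ((T w D) ^ 2 - 1) ≤
      ∑ D ∈ powersetCard K (Icc 1 H), ((T w D) ^ 2 - 1) :=
    sum_le_sum_of_subset_of_nonneg (powersetCard_mono hV) fun D _ _ => h0 D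
  have h3 := sum_T_pow_sub_one_le K 2 w H
  have h4 : ((F.card : ℕ) : ℝ) ≤ (V.card : ℝ) ^ K := by
    have h5 := card_le_univ F
    rw [Fintype.card_fun, Fintype.card_fin, Fintype.card_coe] at h5
    exact_mod_cast h5
  rw [sum_sub_distrib, sum_const, nsmul_eq_mul, mul_one] at h1
  have h6 : (K.factorial : ℝ) * ∑ D ∈ powersetCard K V, ((T w D) ^ 2 - 1) ≤
      (K.factorial : ℝ) * (eta K 2 w * (H : ℝ) ^ K) :=
    mul_le_mul_of_nonneg_left (h2.trans h3) (Nat.cast_nonneg _)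
  linarith

private theorem hit_le_tc (x W b : ℕ) (D : Finset ℕ) : hit x W b D ≤ tc x D := by
  unfold hit tc JJ
  refine card_le_card ?_
  intro n hn
  rw [mem_filter, mem_filter] at hn
  exact mem_filter.mpr ⟨hn.1.1, hn.2⟩

private theorem fin_B3 (V : Finset ℕ) (K w H x b : ℕ) (C q u : ℝ)
    (hV : V ⊆ Icc 1 H) (hHx : H ≤ x)
    (hn : ∀ D : Finset ℕ, D.card = K → (∀ d ∈ D, d ≤ x) →
      (hit x (primorial w) b D : ℝ) ≤
        (C * K) ^ K * T w D * u ^ K * (JJ x (primorial w) b).card)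
    (hJ : 0 < ((JJ x (primorial w) b).card : ℝ))
    (hH : (H : ℝ) ≤ V.card * q) (hη : (K.factorial : ℝ) * eta K 2 w * q ^ K ≤ 1)
    (F : Finset (Fin K → {y // y ∈ V})) (hF : ∀ v ∈ F, Function.Injective v) :
    (V.card : ℝ) ^ K * ∑ v ∈ F, (pr (JJ x (primorial w) b) (RV V) v) ^ 2 ≤
      2 * (C * K) ^ (2 * K) * (V.card * u) ^ (2 * K) := by
  have h1 : ∀ v ∈ F, (pr (JJ x (primorial w) b) (RV V) v) ^ 2 ≤
      ((C * K) ^ K * u ^ K) ^ 2 * (T w (im v)) ^ 2 := by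
    intro v hv
    have h2 := im_mem v (hF v hv)
    rw [mem_powersetCard] at h2
    have h3 := hn (im v) h2.2 (fun d hd => ((mem_Icc.mp (hV (h2.1 hd))).2).trans hHx)
    have h4 : pr (JJ x (primorial w) b) (RV V) v ≤ (C * K) ^ K * T w (im v) * u ^ K := by
      rw [pr_eq, div_le_iff₀ hJ]
      exact h3
    have h5 : 0 ≤ pr (JJ x (primorial w) b) (RV V) v := by
      rw [pr_eq]
      positivity
    calc (pr (JJ x (primorial w) b) (RV V) v) ^ 2 ≤ ((C * K) ^ K * T w (im v) * u ^ K) ^ 2 :=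
          pow_le_pow_left₀ h5 h4 2
      _ = ((C * K) ^ K * u ^ K) ^ 2 * (T w (im v)) ^ 2 := by ring
  have h6 : ∑ v ∈ F, (pr (JJ x (primorial w) b) (RV V) v) ^ 2 ≤
      ((C * K) ^ K * u ^ K) ^ 2 * ∑ v ∈ F, (T w (im v)) ^ 2 := by
    rw [mul_sum]
    exact sum_le_sum h1
  have h7 := fin_T V K w H hV F hF
  have h8 : (K.factorial : ℝ) * (eta K 2 w * (H : ℝ) ^ K) ≤ (V.card : ℝ) ^ K := by
    have h9 : (H : ℝ) ^ K ≤ (V.card * q) ^ K := pow_le_pow_left₀ (Nat.cast_nonneg _) hH K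
    have h10 := eta_nonneg K 2 w
    calc (K.factorial : ℝ) * (eta K 2 w * (H : ℝ) ^ K)
        ≤ (K.factorial : ℝ) * (eta K 2 w * (V.card * q) ^ K) := by gcongr
      _ = ((K.factorial : ℝ) * eta K 2 w * q ^ K) * (V.card : ℝ) ^ K := by rw [mul_pow]; ring
      _ ≤ 1 * (V.card : ℝ) ^ K := mul_le_mul_of_nonneg_right hη (by positivity)
      _ = (V.card : ℝ) ^ K := one_mul _
  calc (V.card : ℝ) ^ K * ∑ v ∈ F, (pr (JJ x (primorial w) b) (RV V) v) ^ 2
      ≤ (V.card : ℝ) ^ K * (((C * K) ^ K * u ^ K) ^ 2 * (2 * (V.card : ℝ) ^ K)) := by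
        refine mul_le_mul_of_nonneg_left (h6.trans ?_) (by positivity)
        refine mul_le_mul_of_nonneg_left ?_ (by positivity)
        linarith
    _ = 2 * (C * K) ^ (2 * K) * (V.card * u) ^ (2 * K) := by
        ring

open Classical in
private theorem fin_B4 (S : Finset ℕ → ℝ) (hS0 : ∀ D, 0 ≤ S D) (V : Finset ℕ)
    (j k x W b H : ℕ) (c L β e m : ℝ) (hc : 0 ≤ c) (hL : 0 < L) (hW : 1 ≤ W) (hx : 2 * W ≤ x)
    (hjk : j ≤ k) (hsum : ∑ D ∈ powersetCard j V, S D ≤ 2 * (H : ℝ) ^ j)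
    (he : 0 < e) (he1 : e ≤ 1) (hβ : 0 ≤ β)
    (hcβ : 4 * W * c * k.factorial ≤ β * e ^ k) (hm : e * H / L ≤ m)
    (P : Finset ℕ → Prop) (hP : ∀ D, P D → (tc x D : ℝ) < c * S D * (x / L ^ j)) :
    ∑ v ∈ bad V j P, pr (JJ x W b) (RV V) v ≤ β * m ^ j := by
  have hW0 : (0 : ℝ) < W := by exact_mod_cast hW
  have hx2 : 2 * (W : ℝ) ≤ x := by exact_mod_cast hx
  have hx0 : (0 : ℝ) < x := by linarith
  have hJ1 : (x : ℝ) / (2 * W) ≤ ((JJ x W b).card : ℝ) := by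
    have h1 := fin_JJ x W b hW
    have h2 : (x : ℝ) / W = 2 * (x / (2 * W)) := by field_simp
    have h3 : (1 : ℝ) ≤ x / (2 * W) := by
      rw [le_div_iff₀ (by positivity)]
      linarith
    linarith
  have hJ0 : (0 : ℝ) < ((JJ x W b).card : ℝ) := lt_of_lt_of_le (by positivity) hJ1
  have h1 : ∀ v ∈ bad V j P, pr (JJ x W b) (RV V) v ≤ (2 * W * c / L ^ j) * S (im v) := by
    intro v hv
    unfold bad at hv
    rw [mem_filter] at hv
    have h2 := hP _ hv.2.2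
    have h3 : (hit x W b (im v) : ℝ) ≤ tc x (im v) := by exact_mod_cast hit_le_tc x W b (im v)
    rw [pr_eq, div_le_iff₀ hJ0]
    have h4 : 0 ≤ (2 * W * c / L ^ j) * S (im v) := mul_nonneg (by positivity) (hS0 _)
    calc (hit x W b (im v) : ℝ) ≤ c * S (im v) * (x / L ^ j) := h3.trans h2.le
      _ = (2 * W * c / L ^ j) * S (im v) * (x / (2 * W)) := by field_simp
      _ ≤ (2 * W * c / L ^ j) * S (im v) * (JJ x W b).card :=
          mul_le_mul_of_nonneg_left hJ1 h4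
  have h5 := sum_inj_le V j (fun D => (2 * W * c / L ^ j) * S D)
    (fun D => mul_nonneg (by positivity) (hS0 _)) (bad V j P) (fun v hv => by
      unfold bad at hv
      exact (mem_filter.mp hv).2.1)
  have h6 : ∑ D ∈ powersetCard j V, (2 * W * c / L ^ j) * S D ≤
      (2 * W * c / L ^ j) * (2 * (H : ℝ) ^ j) := by
    rw [← mul_sum]
    exact mul_le_mul_of_nonneg_left hsum (by positivity)
  have h7 : 4 * W * c * (j.factorial : ℝ) ≤ β * e ^ j := by
    have h8 : (j.factorial : ℝ) ≤ (k.factorial : ℝ) := by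
      exact_mod_cast Nat.factorial_le hjk
    have h9 : e ^ k ≤ e ^ j := pow_le_pow_of_le_one he.le he1 hjk
    calc 4 * W * c * (j.factorial : ℝ) ≤ 4 * W * c * (k.factorial : ℝ) :=
          mul_le_mul_of_nonneg_left h8 (by positivity)
      _ ≤ β * e ^ k := hcβ
      _ ≤ β * e ^ j := mul_le_mul_of_nonneg_left h9 hβ
  calc ∑ v ∈ bad V j P, pr (JJ x W b) (RV V) v
      ≤ ∑ v ∈ bad V j P, (2 * W * c / L ^ j) * S (im v) := sum_le_sum h1
    _ ≤ (j.factorial : ℝ) * ∑ D ∈ powersetCard j V, (2 * W * c / L ^ j) * S D := h5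
    _ ≤ (j.factorial : ℝ) * ((2 * W * c / L ^ j) * (2 * (H : ℝ) ^ j)) :=
        mul_le_mul_of_nonneg_left h6 (by positivity)
    _ = (4 * W * c * (j.factorial : ℝ)) * ((H : ℝ) / L) ^ j := by
        rw [div_pow]
        ring
    _ ≤ (β * e ^ j) * ((H : ℝ) / L) ^ j := mul_le_mul_of_nonneg_right h7 (by positivity)
    _ = β * (e * H / L) ^ j := by
        rw [mul_div_assoc, mul_pow]
        ring
    _ ≤ β * m ^ j := mul_le_mul_of_nonneg_left (pow_le_pow_left₀ (by positivity) hm j) hβ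

open Classical in
private theorem fin_core (S : Finset ℕ → ℝ) (hS : ∀ D, Tendsto (Sp D) atTop (𝓝 (S D))) (k : ℕ)
    (hk : 1 ≤ k) (e : ℝ) (he : 0 < e) (he8 : e ≤ 1 / 8) :
    ∃ w0 : ℕ, ∀ w : ℕ, w0 ≤ w → ∃ A c : ℝ, 0 < A ∧ 0 < c ∧ ∃ x0 : ℕ, ∀ x : ℕ, x0 ≤ x → ∀ H : ℕ,
      A * Real.log x ≤ H → (H : ℝ) ≤ c * x → ∀ b : ℕ, ∀ V : Finset ℕ, V ⊆ Icc 1 H →
      (∀ v ∈ V, (b + v).Coprime (primorial w)) → e * H ≤ V.card * wf w →
      ∃ T ⊆ V, (1 / 4 - e) * (V.card : ℝ) ≤ T.card ∧ ∀ j : ℕ, 1 ≤ j → j ≤ k →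
        (((powersetCard j T).filter (fun D => (tc x D : ℝ) <
          c * S D * (x / (Real.log x) ^ j))).card : ℝ) ≤ e * (T.card : ℝ) ^ j := by
  obtain ⟨C, hC1, hC⟩ := n3
  have he5 : 0 < e / 5 ^ k := by positivity
  have he51 : e / 5 ^ k ≤ 1 / 40 := by
    have h5 : (5 : ℝ) ≤ 5 ^ k := by
      calc (5 : ℝ) = 5 ^ 1 := (pow_one _).symm
        _ ≤ 5 ^ k := pow_le_pow_right₀ (by norm_num) hk
    rw [div_le_iff₀ (by positivity)]
    linarith
  obtain ⟨K0, η, β, hη, hβ, hB⟩ := thmB k hk (e / 5 ^ k) (2 * C) he5 (by linarith) (by linarith)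
  have hev1 : ∀ K : ℕ, ∀ᶠ w : ℕ in atTop, (K.factorial : ℝ) * eta K 2 w * (wf w / e) ^ K ≤ 1 := by
    intro K
    have h1 := (tendsto_eta_wf K 2).const_mul ((K.factorial : ℝ) / e ^ K)
    rw [mul_zero] at h1
    filter_upwards [h1.eventually_lt_const one_pos] with w hw
    have h2 : (K.factorial : ℝ) * eta K 2 w * (wf w / e) ^ K =
        (K.factorial : ℝ) / e ^ K * (eta K 2 w * wf w ^ K) := by
      rw [div_pow]
      ring
    rw [h2]
    exact hw.le
  have hev2 : ∀ᶠ w : ℕ in atTop, 2 * eta 2 2 w * (wf w / e) ^ 2 ≤ η ^ 2 := by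
    have h1 := (tendsto_eta_wf 2 2).const_mul (2 / e ^ 2)
    rw [mul_zero] at h1
    filter_upwards [h1.eventually_lt_const (by positivity : 0 < η ^ 2)] with w hw
    have h2 : 2 * eta 2 2 w * (wf w / e) ^ 2 = 2 / e ^ 2 * (eta 2 2 w * wf w ^ 2) := by
      rw [div_pow]
      ring
    rw [h2]
    exact hw.le
  have hev3 : ∀ᶠ w : ℕ in atTop, ∀ K ∈ Icc 1 K0,
      (K.factorial : ℝ) * eta K 2 w * (wf w / e) ^ K ≤ 1 :=
    (eventually_all_finset (Icc 1 K0)).mpr fun K _ => hev1 K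
  obtain ⟨w0, hw0⟩ := eventually_atTop.mp
    ((eventually_ge_atTop K0).and ((eventually_ge_atTop 2).and (hev2.and hev3)))
  refine ⟨w0, fun w hw => ?_⟩
  obtain ⟨hwK, hw2, hwη, hwK2⟩ := hw0 w hw
  obtain ⟨c1, hc1, x1, hx1⟩ := n1 w η hη
  obtain ⟨c2, hc2, x2, hx2⟩ := n2 w hw2 η hη
  have hn3 : ∀ K : ℕ, ∃ x3 : ℕ, K ∈ Icc 1 K0 → ∀ x : ℕ, x3 ≤ x → ∀ b : ℕ,
      ∀ D : Finset ℕ, D.card = K → (∀ d ∈ D, d ≤ x) →
      (hit x (primorial w) b D : ℝ) ≤
        (C * K) ^ K * T w D * (wf w / Real.log x) ^ K * (JJ x (primorial w) b).card := by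
    intro K
    by_cases hK : K ∈ Icc 1 K0
    · obtain ⟨x3, hx3⟩ := hC K w (mem_Icc.mp hK).1 ((mem_Icc.mp hK).2.trans hwK)
      exact ⟨x3, fun _ => hx3⟩
    · exact ⟨0, fun h => absurd h hK⟩
  choose x3 hx3 using hn3
  choose H4 hH4 using sum_S_V S hS
  have hW1 : 1 ≤ primorial w := primorial_pos w
  have hW0 : (0 : ℝ) < (primorial w : ℝ) := by exact_mod_cast hW1
  have hwf0 : 0 < wf w := by
    unfold wf
    have h1 : 0 < Nat.totient (primorial w) := Nat.totient_pos.mpr (primorial_pos w)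
    have h2 : (0 : ℝ) < (Nat.totient (primorial w) : ℝ) := by exact_mod_cast h1
    exact div_pos hW0 h2
  have hA0 : 0 < 1 / (e * η) := by positivity
  have hkf : (0 : ℝ) < (k.factorial : ℝ) := by exact_mod_cast Nat.factorial_pos k
  set c : ℝ := min (min c1 c2) (min 1 (β * e ^ k / (4 * (primorial w : ℝ) * k.factorial))) with hc
  have hc0 : 0 < c := by
    rw [hc]
    exact lt_min (lt_min hc1 hc2) (lt_min one_pos (by positivity))
  have hcc1 : c ≤ c1 := (min_le_left _ _).trans (min_le_left _ _)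
  have hcc2 : c ≤ c2 := (min_le_left _ _).trans (min_le_right _ _)
  have hcc3 : c ≤ 1 := (min_le_right _ _).trans (min_le_left _ _)
  have hcc4 : 4 * (primorial w : ℝ) * c * k.factorial ≤ β * e ^ k := by
    have h1 : c ≤ β * e ^ k / (4 * (primorial w : ℝ) * k.factorial) :=
      (min_le_right _ _).trans (min_le_right _ _)
    rw [le_div_iff₀ (by positivity)] at h1
    linarith
  have hlog : Tendsto (fun x : ℕ => 1 / (e * η) * Real.log x) atTop atTop :=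
    Tendsto.const_mul_atTop hA0 (Real.tendsto_log_atTop.comp tendsto_natCast_atTop_atTop)
  obtain ⟨x5, hx5⟩ := eventually_atTop.mp
    (hlog.eventually_ge_atTop ((∑ j ∈ Icc 1 k, H4 j : ℕ) : ℝ))
  refine ⟨1 / (e * η), c, hA0, hc0, x1 + x2 + ∑ K ∈ Icc 1 K0, x3 K + x5 + 2 * primorial w + 3, ?_⟩
  intro x hx H hAH hHc b V hV hcop hVe
  have hxx1 : x1 ≤ x := by omega
  have hxx2 : x2 ≤ x := by omega
  have hxx5 : x5 ≤ x := by omega
  have hxW : 2 * primorial w ≤ x := by omega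
  have hxx3 : ∀ K ∈ Icc 1 K0, x3 K ≤ x := by
    intro K hK
    have h1 : x3 K ≤ ∑ K ∈ Icc 1 K0, x3 K := single_le_sum (fun _ _ => Nat.zero_le _) hK
    omega
  have hx0 : (0 : ℝ) < x := by exact_mod_cast (by omega : 0 < x)
  have hL : 0 < Real.log x := Real.log_pos (by exact_mod_cast (by omega : 1 < x))
  have hH0 : (0 : ℝ) < H := lt_of_lt_of_le (by positivity) hAH
  have hHx : H ≤ x := by
    have h1 : (H : ℝ) ≤ x := hHc.trans (by
      calc c * (x : ℝ) ≤ 1 * x := mul_le_mul_of_nonneg_right hcc3 hx0.le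
        _ = x := one_mul _)
    exact_mod_cast h1
  have hH4' : ∀ j, 1 ≤ j → j ≤ k → H4 j ≤ H := by
    intro j hj1 hjk
    have h1 : H4 j ≤ ∑ j ∈ Icc 1 k, H4 j :=
      single_le_sum (f := H4) (fun _ _ => Nat.zero_le _) (mem_Icc.mpr ⟨hj1, hjk⟩)
    have h2 : ((∑ j ∈ Icc 1 k, H4 j : ℕ) : ℝ) ≤ H := (hx5 x hxx5).trans hAH
    have h3 : (∑ j ∈ Icc 1 k, H4 j : ℕ) ≤ H := by exact_mod_cast h2
    exact h1.trans h3
  have hN0 : (0 : ℝ) < V.card := by
    have h1 : 0 < (V.card : ℝ) * wf w := lt_of_lt_of_le (by positivity) hVe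
    exact pos_of_mul_pos_left h1 hwf0.le
  have hNpos : 0 < V.card := by exact_mod_cast hN0
  have : Nonempty {y // y ∈ V} := (card_pos.mp hNpos).to_subtype
  have hcard : Fintype.card {y // y ∈ V} = V.card := Fintype.card_coe V
  have hHq : (H : ℝ) ≤ V.card * (wf w / e) := by
    rw [← mul_div_assoc, le_div_iff₀ he]
    linarith
  set L : ℝ := Real.log x with hLdef
  have hu0 : 0 < wf w / L := by positivity
  set m : ℝ := V.card * (wf w / L) with hm
  have hm1 : e * H / L ≤ m := by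
    rw [hm, ← mul_div_assoc]
    exact div_le_div_of_nonneg_right hVe hL.le
  have hm2 : 1 / η ≤ m := by
    refine le_trans ?_ hm1
    rw [le_div_iff₀ hL]
    calc 1 / η * L = e * (1 / (e * η) * L) := by field_simp
      _ ≤ e * H := mul_le_mul_of_nonneg_left hAH he.le
  have hJ0 : (0 : ℝ) < ((JJ x (primorial w) b).card : ℝ) := by
    have h1 := fin_JJ x (primorial w) b hW1
    have h2 : (1 : ℝ) < x / (primorial w : ℝ) := by
      rw [lt_div_iff₀ hW0]
      have h3 : 2 * (primorial w : ℝ) ≤ x := by exact_mod_cast hxW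
      linarith
    linarith
  have hJne : (JJ x (primorial w) b).Nonempty := card_pos.mp (by exact_mod_cast hJ0)
  have hmN : m / (V.card : ℝ) = wf w / L := by
    rw [hm]
    field_simp
  have hyx : ∀ y : {y // y ∈ V}, (y.1 : ℝ) ≤ c * x := by
    intro y
    have h1 : y.1 ≤ H := (mem_Icc.mp (hV y.2)).2
    have h2 : (y.1 : ℝ) ≤ H := by exact_mod_cast h1
    exact h2.trans hHc
  have hB1 : ∀ y : {y // y ∈ V}, (1 - η) * m / Fintype.card {y // y ∈ V} ≤
      pr (JJ x (primorial w) b) (RV V) (fun _ : Unit => y) ∧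
      pr (JJ x (primorial w) b) (RV V) (fun _ : Unit => y) ≤
        (1 + η) * m / Fintype.card {y // y ∈ V} := by
    intro y
    have h1 := hx1 x hxx1 b y.1 ((hyx y).trans (mul_le_mul_of_nonneg_right hcc1 hx0.le))
      (hcop y.1 y.2)
    have h2 : im (fun _ : Unit => y) = {y.1} := by
      unfold im
      ext z
      simp
    have h0 : ∀ a : ℝ, a * m / (V.card : ℝ) = a * (wf w / L) := fun a => by
      rw [mul_div_assoc, hmN]
    rw [hcard, pr_eq, h2, h0, h0, le_div_iff₀ hJ0, div_le_iff₀ hJ0]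
    exact h1
  have hB2 : ∀ y z : {y // y ∈ V}, y ≠ z → pr (JJ x (primorial w) b) (RV V) ![y, z] ≤
      4 * (1 + η) * (G w (y.1 - z.1 + (z.1 - y.1))) ^ 2 * m ^ 2 /
        (Fintype.card {y // y ∈ V} : ℝ) ^ 2 := by
    intro y z hyz
    have h0 : (4 * (1 + η) * (G w (y.1 - z.1 + (z.1 - y.1))) ^ 2 * m ^ 2 /
        (Fintype.card {y // y ∈ V} : ℝ) ^ 2) =
        4 * (1 + η) * (G w (y.1 - z.1 + (z.1 - y.1))) ^ 2 * (wf w / L) ^ 2 := by
      rw [hcard, mul_div_assoc, ← div_pow, hmN]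
    rw [h0, pr_eq, im_pair, div_le_iff₀ hJ0]
    have hne : y.1 ≠ z.1 := fun h => hyz (Subtype.ext h)
    rcases lt_or_gt_of_ne hne with h | h
    · have h1 := hx2 x hxx2 b y.1 z.1 h ((hyx z).trans (mul_le_mul_of_nonneg_right hcc2 hx0.le))
        (hcop y.1 y.2) (hcop z.1 z.2)
      have h2 : y.1 - z.1 + (z.1 - y.1) = z.1 - y.1 := by omega
      rw [h2]
      exact h1
    · have h1 := hx2 x hxx2 b z.1 y.1 h ((hyx y).trans (mul_le_mul_of_nonneg_right hcc2 hx0.le))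
        (hcop z.1 z.2) (hcop y.1 y.2)
      have h2 : y.1 - z.1 + (z.1 - y.1) = y.1 - z.1 := by omega
      rw [h2, pair_comm]
      exact h1
  have hB3 : ∀ F : Finset ({y // y ∈ V} × {y // y ∈ V}), (∀ p ∈ F, p.1 ≠ p.2) →
      ∑ p ∈ F, ((G w (p.1.1 - p.2.1 + (p.2.1 - p.1.1))) ^ 2 - 1) ^ 2 ≤
        η ^ 2 * (Fintype.card {y // y ∈ V} : ℝ) ^ 2 := by
    intro F hF
    have h1 := fin_pairs V (fun y z => ((G w (y - z + (z - y))) ^ 2 - 1) ^ 2)
      (fun _ _ => sq_nonneg _) (fun y z => by rw [add_comm]) F hF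
    have h2 : ∑ y ∈ V, ∑ z ∈ V.filter (fun z => y < z),
        ((G w (y - z + (z - y))) ^ 2 - 1) ^ 2 =
        ∑ y ∈ V, ∑ z ∈ V.filter (fun z => y < z), ((G w (z - y)) ^ 2 - 1) ^ 2 := by
      refine sum_congr rfl fun y _ => sum_congr rfl fun z hz => ?_
      have h3 : y < z := (mem_filter.mp hz).2
      have h4 : y - z + (z - y) = z - y := by omega
      rw [h4]
    have h3 := sum_G_V w H V hV
    have h4 : (H : ℝ) ^ 2 ≤ (V.card * (wf w / e)) ^ 2 := pow_le_pow_left₀ hH0.le hHq 2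
    have h5 := eta_nonneg 2 2 w
    rw [hcard]
    calc ∑ p ∈ F, ((G w (p.1.1 - p.2.1 + (p.2.1 - p.1.1))) ^ 2 - 1) ^ 2
        ≤ 2 * ∑ y ∈ V, ∑ z ∈ V.filter (fun z => y < z), ((G w (z - y)) ^ 2 - 1) ^ 2 := by
          rw [← h2]
          exact h1
      _ ≤ 2 * (eta 2 2 w * (H : ℝ) ^ 2) := mul_le_mul_of_nonneg_left h3 (by norm_num)
      _ ≤ 2 * (eta 2 2 w * (V.card * (wf w / e)) ^ 2) := by gcongr
      _ = (2 * eta 2 2 w * (wf w / e) ^ 2) * (V.card : ℝ) ^ 2 := by ring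
      _ ≤ η ^ 2 * (V.card : ℝ) ^ 2 := mul_le_mul_of_nonneg_right hwη (by positivity)
  have hB4 : ∀ K : ℕ, 1 ≤ K → K ≤ K0 → ∀ F : Finset (Fin K → {y // y ∈ V}),
      (∀ v ∈ F, Function.Injective v) →
      (Fintype.card {y // y ∈ V} : ℝ) ^ K *
        ∑ v ∈ F, (pr (JJ x (primorial w) b) (RV V) v) ^ 2 ≤
        2 * C * (2 * C * K) ^ (2 * K) * m ^ (2 * K) := by
    intro K hK1 hK2 F hF
    have hK : K ∈ Icc 1 K0 := mem_Icc.mpr ⟨hK1, hK2⟩
    have h1 := fin_B3 V K w H x b C (wf w / e) (wf w / L) hV hHx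
      (hx3 K hK x (hxx3 K hK) b) hJ0 hHq (hwK2 K hK) F hF
    rw [hcard]
    refine h1.trans ?_
    rw [← hm]
    have h2 : (C * (K : ℝ)) ^ (2 * K) ≤ (2 * C * K) ^ (2 * K) := by
      have h3 : 0 ≤ C * (K : ℝ) := by positivity
      exact pow_le_pow_left₀ h3 (by nlinarith) _
    have h4 : 0 ≤ (C * (K : ℝ)) ^ (2 * K) := by positivity
    have h5 : 2 * (C * (K : ℝ)) ^ (2 * K) ≤ 2 * C * (2 * C * K) ^ (2 * K) := by
      calc 2 * (C * (K : ℝ)) ^ (2 * K) ≤ 2 * (2 * C * K) ^ (2 * K) := by linarith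
        _ = 2 * 1 * (2 * C * K) ^ (2 * K) := by ring
        _ ≤ 2 * C * (2 * C * K) ^ (2 * K) := by gcongr
    exact mul_le_mul_of_nonneg_right h5 (by positivity)
  have hB5 : ∀ j, 1 ≤ j → j ≤ k →
      (∀ v ∈ bad V j (fun D => (tc x D : ℝ) < c * S D * (x / L ^ j)), Function.Injective v) ∧
      ∑ v ∈ bad V j (fun D => (tc x D : ℝ) < c * S D * (x / L ^ j)),
        pr (JJ x (primorial w) b) (RV V) v ≤ β * m ^ j := by
    intro j hj1 hjk
    refine ⟨fun v hv => ?_, ?_⟩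
    · unfold bad at hv
      exact (mem_filter.mp hv).2.1
    · exact fin_B4 S (fun D => lim_nonneg (hS D)) V j k x (primorial w) b H c L β e m hc0.le hL
        hW1 hxW hjk (hH4 j H (hH4' j hj1 hjk) V hV) he (by linarith) hβ.le hcc4 hm1 _
        (fun D h => h)
  obtain ⟨T', hT1, hT2⟩ := hB ℕ {y // y ∈ V} (JJ x (primorial w) b) (RV V) m
    (fun y z => (G w (y.1 - z.1 + (z.1 - y.1))) ^ 2)
    (fun j => bad V j (fun D => (tc x D : ℝ) < c * S D * (x / L ^ j))) hJne hm2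
    hB1 hB2 hB3 hB4 hB5
  rw [hcard] at hT1 hT2
  have hTc : (T'.image Subtype.val).card = T'.card :=
    card_image_of_injective _ Subtype.val_injective
  have hNT : (V.card : ℝ) ≤ 5 * T'.card := by
    have h1 : (1 / 5 : ℝ) * V.card ≤ (1 / 4 - e / 5 ^ k) * V.card :=
      mul_le_mul_of_nonneg_right (by linarith) hN0.le
    linarith
  refine ⟨T'.image Subtype.val, ?_, ?_, ?_⟩
  · intro y hy
    rw [mem_image] at hy
    obtain ⟨z, _, rfl⟩ := hy
    exact z.2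
  · rw [hTc]
    refine le_trans ?_ hT1
    refine mul_le_mul_of_nonneg_right ?_ hN0.le
    have h1 : e / 5 ^ k ≤ e := div_le_self he.le (one_le_pow₀ (by norm_num))
    linarith
  · intro j hj1 hjk
    rw [hTc]
    have h1 := hT2 j hj1 hjk
    have h2 : ((((powersetCard j (T'.image Subtype.val)).filter (fun D => (tc x D : ℝ) <
          c * S D * (x / L ^ j))).card : ℕ) : ℝ) ≤
        (inT (bad V j (fun D => (tc x D : ℝ) < c * S D * (x / L ^ j))) T' : ℝ) := by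
      exact_mod_cast bad_le V j (fun D => (tc x D : ℝ) < c * S D * (x / L ^ j)) T'
    refine le_trans ?_ (h2.trans (h1.trans ?_))
    · exact le_of_eq (by congr)
    · calc e / 5 ^ k * (V.card : ℝ) ^ j ≤ e / 5 ^ k * (5 * T'.card) ^ j := by gcongr
        _ = e * (T'.card : ℝ) ^ j * (5 ^ j / 5 ^ k) := by
            rw [mul_pow]
            ring
        _ ≤ e * (T'.card : ℝ) ^ j * 1 := by
            refine mul_le_mul_of_nonneg_left ?_ (by positivity)
            rw [div_le_one (by positivity)]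
            exact pow_le_pow_right₀ (by norm_num) hjk
        _ = e * (T'.card : ℝ) ^ j := mul_one _

open Classical in
theorem thmQ (S : Finset ℕ → ℝ) (hS : ∀ D, Tendsto (Sp D) atTop (𝓝 (S D))) (k : ℕ) (hk : 1 ≤ k)
    (ε : ℝ) (hε : 0 < ε) :
    ∃ w0 : ℕ, ∀ w : ℕ, w0 ≤ w → ∃ A c : ℝ, 0 < A ∧ 0 < c ∧ ∃ x0 : ℕ, ∀ x : ℕ, x0 ≤ x → ∀ H : ℕ,
      A * Real.log x ≤ H → (H : ℝ) ≤ c * x → ∀ b : ℕ, ∀ V : Finset ℕ, V ⊆ Icc 1 H →
      (∀ v ∈ V, (b + v).Coprime (primorial w)) →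
      ε * ((Nat.totient (primorial w) : ℝ) / (primorial w : ℝ)) * H ≤ V.card →
      ∃ T ⊆ V, (1 / 4 - ε) * (V.card : ℝ) ≤ T.card ∧ ∀ j : ℕ, 1 ≤ j → j ≤ k →
        (((powersetCard j T).filter (fun D => (tc x D : ℝ) <
          c * S D * (x / (Real.log x) ^ j))).card : ℝ) ≤ ε * (T.card : ℝ) ^ j := by
  have he : 0 < min ε (1 / 8) := lt_min hε (by norm_num)
  have heε : min ε (1 / 8) ≤ ε := min_le_left _ _
  obtain ⟨w0, hw0⟩ := fin_core S hS k hk (min ε (1 / 8)) he (min_le_right _ _)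
  refine ⟨w0, fun w hw => ?_⟩
  obtain ⟨A, c, hA, hc, x0, hx0⟩ := hw0 w hw
  refine ⟨A, c, hA, hc, x0, fun x hx H hAH hHc b V hV hcop hVe => ?_⟩
  have hφ : (0 : ℝ) < (Nat.totient (primorial w) : ℝ) := by
    exact_mod_cast Nat.totient_pos.mpr (primorial_pos w)
  have hW : (0 : ℝ) < (primorial w : ℝ) := by exact_mod_cast primorial_pos w
  have h1 : min ε (1 / 8) * H ≤ V.card * wf w := by
    have h2 : min ε (1 / 8) * (H : ℝ) ≤ ε * H :=
      mul_le_mul_of_nonneg_right heε (Nat.cast_nonneg _)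
    have h3 : ε * (H : ℝ) = (ε * ((Nat.totient (primorial w) : ℝ) / (primorial w : ℝ)) * H) *
        wf w := by
      unfold wf
      field_simp
    have h4 : 0 ≤ wf w := by
      unfold wf
      positivity
    calc min ε (1 / 8) * (H : ℝ) ≤ ε * H := h2
      _ = (ε * ((Nat.totient (primorial w) : ℝ) / (primorial w : ℝ)) * H) * wf w := h3
      _ ≤ V.card * wf w := mul_le_mul_of_nonneg_right hVe h4
  obtain ⟨T, hT, hT1, hT2⟩ := hx0 x hx H hAH hHc b V hV hcop h1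
  refine ⟨T, hT, ?_, fun j hj1 hjk => ?_⟩
  · refine le_trans ?_ hT1
    exact mul_le_mul_of_nonneg_right (by linarith) (Nat.cast_nonneg _)
  · refine (hT2 j hj1 hjk).trans ?_
    exact mul_le_mul_of_nonneg_right heε (by positivity)

end Pool.Agent.Lib.MP_092512_nt.QC
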