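import Mathlib

/-!
# Pin: Pinsker inequality and Jensen for the logarithm, finite form
-/

set_option autoImplicit false

open Finset

namespace Pool.Agent.Lib.MP_092512_nt.QC

private theorem pin_hasDeriv (t : ℝ) (ht : 0 < t) :
    HasDerivAt (fun t : ℝ => Real.log t - (t - 1) * (5 * t + 1) / (2 * t * (t + 2)))
      ((t - 1) ^ 3 / (t ^ 2 * (t + 2) ^ 2)) t := by
  have h1 : HasDerivAt (fun t : ℝ => Real.log t) (t⁻¹) t := Real.hasDerivAt_log ht.ne'
  have h2 : HasDerivAt (fun t : ℝ => (t - 1) * (5 * t + 1)) (1 * (5 * t + 1) + (t - 1) * (5 * 1)) t := by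
    have ha : HasDerivAt (fun t : ℝ => t - 1) 1 t := (hasDerivAt_id' t).sub_const 1
    have hb : HasDerivAt (fun t : ℝ => 5 * t + 1) (5 * 1) t := ((hasDerivAt_id' t).const_mul 5).add_const 1
    exact ha.mul hb
  have h3 : HasDerivAt (fun t : ℝ => 2 * t * (t + 2)) (2 * 1 * (t + 2) + 2 * t * 1) t := by
    have ha : HasDerivAt (fun t : ℝ => 2 * t) (2 * 1) t := (hasDerivAt_id' t).const_mul 2
    have hb : HasDerivAt (fun t : ℝ => t + 2) 1 t := (hasDerivAt_id' t).add_const 2
    exact ha.mul hb
  have hne : (2 * t * (t + 2)) ≠ 0 := by positivity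
  have h4 := h1.sub (h2.div h3 hne)
  refine h4.congr_deriv ?_
  have h5 : t + 2 ≠ 0 := by positivity
  have h6 : t ≠ 0 := ht.ne'
  field_simp
  ring

private theorem pin_log (t : ℝ) (ht : 0 < t) :
    (t - 1) * (5 * t + 1) / (2 * t * (t + 2)) ≤ Real.log t := by
  set h : ℝ → ℝ := fun t : ℝ => Real.log t - (t - 1) * (5 * t + 1) / (2 * t * (t + 2)) with hh
  have h1 : h 1 = 0 := by simp [hh]
  suffices h1' : h 1 ≤ h t by
    rw [h1] at h1'
    simp only [hh] at h1'
    linarith
  rcases le_total 1 t with h2 | h2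
  · have hm : MonotoneOn h (Set.Ici 1) := by
      refine monotoneOn_of_deriv_nonneg (convex_Ici 1) ?_ ?_ ?_
      · intro x hx
        have hx0 : (0 : ℝ) < x := lt_of_lt_of_le one_pos hx
        exact (pin_hasDeriv x hx0).continuousAt.continuousWithinAt
      · intro x hx
        rw [interior_Ici] at hx
        have hx0 : (0 : ℝ) < x := lt_trans one_pos hx
        exact (pin_hasDeriv x hx0).differentiableAt.differentiableWithinAt
      · intro x hx
        rw [interior_Ici] at hx
        have hx1 : (1 : ℝ) < x := hx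
        have hx0 : (0 : ℝ) < x := lt_trans one_pos hx
        rw [(pin_hasDeriv x hx0).deriv]
        have : 0 ≤ x - 1 := by linarith
        positivity
    exact hm (Set.mem_Ici.mpr le_rfl) (Set.mem_Ici.mpr h2) h2
  · have hm : AntitoneOn h (Set.Ioc 0 1) := by
      refine antitoneOn_of_deriv_nonpos (convex_Ioc 0 1) ?_ ?_ ?_
      · intro x hx
        exact (pin_hasDeriv x hx.1).continuousAt.continuousWithinAt
      · intro x hx
        rw [interior_Ioc] at hx
        exact (pin_hasDeriv x hx.1).differentiableAt.differentiableWithinAt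
      · intro x hx
        rw [interior_Ioc] at hx
        rw [(pin_hasDeriv x hx.1).deriv]
        have h3 : (x - 1) ^ 3 ≤ 0 := by
          have h4 : x - 1 ≤ 0 := by linarith [hx.2]
          exact Odd.pow_nonpos (by decide) h4
        exact div_nonpos_of_nonpos_of_nonneg h3 (by positivity)
    exact hm ⟨ht, h2⟩ ⟨one_pos, le_rfl⟩ h2

theorem pin_scalar (t : ℝ) (ht : 0 < t) :
    3 * (t - 1) ^ 2 ≤ (4 + 2 * t) * (t * Real.log t - t + 1) := by
  have h1 := pin_log t ht
  have hne : 0 < 2 * t * (t + 2) := by positivity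
  rw [div_le_iff₀ hne] at h1
  nlinarith [h1]

theorem pinsker {X : Type} [Fintype X] (P Q : X → ℝ) (hP : ∀ x, 0 ≤ P x) (hQ : ∀ x, 0 ≤ Q x)
    (hPQ : ∀ x, Q x = 0 → P x = 0) (hP1 : ∑ x, P x = 1) (hQ1 : ∑ x, Q x = 1) :
    (∑ x, |P x - Q x|) ^ 2 ≤ 2 * ∑ x, P x * Real.log (P x / Q x) := by
  classical
  set f : X → ℝ := fun x => (4 * Q x + 2 * P x) / 3 with hf
  set g : X → ℝ := fun x => P x * Real.log (P x / Q x) - P x + Q x with hg
  have hf0 : ∀ x, 0 ≤ f x := fun x => by
    have := hP x
    have := hQ x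
    simp only [hf]
    positivity
  have key : ∀ x, 0 ≤ g x ∧ |P x - Q x| ^ 2 ≤ f x * g x := by
    intro x
    rcases (hQ x).eq_or_lt with h0 | h0
    · have h1 := hPQ x h0.symm
      simp only [hf, hg, h1, ← h0]
      simp
    rcases (hP x).eq_or_lt with h2 | h2
    · simp only [hf, hg, ← h2, sq_abs]
      constructor
      · simp [h0.le]
      · nlinarith [h0]
    · obtain ⟨t, htd⟩ : ∃ t : ℝ, P x / Q x = t := ⟨_, rfl⟩
      have ht : 0 < t := by
        rw [← htd]
        exact div_pos h2 h0
      have hs := pin_scalar t ht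
      have hl : 1 - t⁻¹ ≤ Real.log t := Real.one_sub_inv_le_log_of_pos ht
      have hPt : P x = t * Q x := by
        rw [← htd]
        field_simp
      simp only [hf, hg, htd, sq_abs]
      rw [hPt]
      constructor
      · have h3 : t * (1 - t⁻¹) ≤ t * Real.log t := mul_le_mul_of_nonneg_left hl ht.le
        have h4 : t * (1 - t⁻¹) = t - 1 := by field_simp
        have h5 : 0 ≤ t * Real.log t - t + 1 := by linarith
        have h6 : t * Q x * Real.log t - t * Q x + Q x = (t * Real.log t - t + 1) * Q x := by ring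
        rw [h6]
        exact mul_nonneg h5 h0.le
      · have h5 : (t * Q x - Q x) ^ 2 = Q x ^ 2 * (t - 1) ^ 2 := by ring
        have h6 : (4 * Q x + 2 * (t * Q x)) / 3 * (t * Q x * Real.log t - t * Q x + Q x) =
            Q x ^ 2 * ((4 + 2 * t) * (t * Real.log t - t + 1) / 3) := by ring
        rw [h5, h6]
        apply mul_le_mul_of_nonneg_left _ (sq_nonneg _)
        linarith
  have hcs : (∑ x, |P x - Q x|) ^ 2 ≤ (∑ x, f x) * ∑ x, g x := by
    apply Finset.sum_sq_le_sum_mul_sum_of_sq_le_mul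
    · intro x _
      exact hf0 x
    · intro x _
      exact (key x).1
    · intro x _
      exact (key x).2
  have hfs : ∑ x, f x = 2 := by
    simp only [hf]
    rw [← Finset.sum_div, Finset.sum_add_distrib, ← Finset.mul_sum, ← Finset.mul_sum, hP1, hQ1]
    norm_num
  have hgs : ∑ x, g x = ∑ x, P x * Real.log (P x / Q x) := by
    simp only [hg]
    rw [Finset.sum_add_distrib, Finset.sum_sub_distrib, hP1, hQ1]
    ring
  rw [hfs, hgs] at hcs
  exact hcs

theorem pin_jensen {X : Type} [Fintype X] (P : X → ℝ) (c : ℝ) (hc : 0 < c) (hP : ∀ x, 0 ≤ P x)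
    (hP1 : ∑ x, P x = 1) :
    ∑ x, P x * Real.log (c * P x) ≤ Real.log (c * ∑ x, (P x) ^ 2) := by
  classical
  set S : ℝ := ∑ x, (P x) ^ 2 with hS
  have hSpos : 0 < S := by
    by_contra hcon
    have h0 : S = 0 := le_antisymm (not_lt.mp hcon) (Finset.sum_nonneg fun x _ => sq_nonneg _)
    have h1 : ∀ x, P x = 0 := by
      intro x
      have h2 := (Finset.sum_eq_zero_iff_of_nonneg (fun x _ => sq_nonneg (P x))).mp h0 x (Finset.mem_univ x)
      exact pow_eq_zero_iff (two_ne_zero) |>.mp h2
    have h3 : ∑ x, P x = 0 := Finset.sum_eq_zero fun x _ => h1 x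
    rw [hP1] at h3
    exact one_ne_zero h3
  have hs : 0 < c * S := mul_pos hc hSpos
  have key : ∀ x, P x * Real.log (c * P x) ≤ (P x) ^ 2 / S + P x * (Real.log (c * S) - 1) := by
    intro x
    rcases (hP x).eq_or_lt with h0 | h0
    · rw [← h0]
      simp
    · have h1 : 0 < c * P x := mul_pos hc h0
      have h2 : Real.log (c * P x / (c * S)) ≤ c * P x / (c * S) - 1 :=
        Real.log_le_sub_one_of_pos (div_pos h1 hs)
      rw [Real.log_div h1.ne' hs.ne'] at h2
      have h3 : c * P x / (c * S) = P x / S := by field_simp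
      rw [h3] at h2
      have h4 : Real.log (c * P x) ≤ P x / S + (Real.log (c * S) - 1) := by linarith
      calc P x * Real.log (c * P x) ≤ P x * (P x / S + (Real.log (c * S) - 1)) :=
            mul_le_mul_of_nonneg_left h4 h0.le
        _ = _ := by ring
  calc ∑ x, P x * Real.log (c * P x) ≤ ∑ x, ((P x) ^ 2 / S + P x * (Real.log (c * S) - 1)) :=
        Finset.sum_le_sum fun x _ => key x
    _ = Real.log (c * S) := by
        rw [Finset.sum_add_distrib, ← Finset.sum_div, ← Finset.sum_mul, hP1, ← hS, div_self hSpos.ne']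
        ring

end Pool.Agent.Lib.MP_092512_nt.QC
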