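import Pool.Agent.Lib.MP_092512_nt.QC.Law
import Pool.Agent.Lib.MP_092512_nt.QC.Pin

/-!
# Inc: entropy increments (identity (3) and inequality (4b) of the text)

PROOF. Put `N = card Y > 0` (some `R n` is nonempty), `K = card α`.
`inc_one`: `N * qq v y = N^(K+1) mu (sn v y)/(N^K mu v)`, so the sum is `∑ mu (sn v y) log (N^(K+1) mu (sn v y)) - ∑ mu (sn v y) log (N^K mu v)`
(terms with `mu (sn v y) = 0` vanish; if `mu (sn v y) ≠ 0` then `mu v ≠ 0`); the first is `Ent (K+1)` (`Ent_eq` for `α ⊕ Unit`, sum over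
`α ⊕ Unit → Y` as a double sum: `Equiv.sumArrowEquivProdArrow`, `Fintype.sum_equiv`), the second `Ent K` by `sum_mu_sn` and `Ent_eq`.
`tv_b`: `pinsker` on `X = (α → Y) × (β → Y) × Y`, `P (v,u,y) = mu (sn (Sum.elim v u) y)`, `Q (v,u,y) = mu (Sum.elim v u) * qq v y`. `∑ Q = 1`: `sum_qq`
(if `mu (Sum.elim v u) ≠ 0` then `mu v ≠ 0` by `mu_elim_le`). `Q = 0 → P = 0`: if `qq v y = 0` then `mu (sn v y) = 0`, and
`mu (sn (Sum.elim v u) y) ≤ mu (sn v y)` (`mu_comp` with the equivalence `(α ⊕ Unit) ⊕ β ≃ (α ⊕ β) ⊕ Unit`, `mu_elim_le`). `∑ P log (P/Q)` =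
`∑ P log (N qq (Sum.elim v u) y) - ∑ P log (N qq v y) = hh (K + L) - hh K`: the first is `inc_one` for `α ⊕ β`; in the second the sum over `u` gives
`mu (sn v y)` (consistency), then `inc_one` for `α`.
-/

set_option autoImplicit false
set_option linter.unusedSectionVars false

open Finset

namespace Pool.Agent.Lib.MP_092512_nt.QC

variable {ι Y α β : Type} [Fintype Y] [Fintype α] [Fintype β] [DecidableEq α] [DecidableEq β]

private def inc_e (α Y : Type) : (α ⊕ Unit → Y) ≃ (α → Y) × Y where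
  toFun w := (fun a => w (Sum.inl a), w (Sum.inr ()))
  invFun x := sn x.1 x.2
  left_inv w := by
    funext a
    rcases a with a | a
    · rfl
    · rfl
  right_inv x := rfl

private theorem inc_sum_sn (f : (α ⊕ Unit → Y) → ℝ) :
    ∑ w, f w = ∑ v : α → Y, ∑ y : Y, f (sn v y) := by
  rw [← Fintype.sum_prod_type']
  refine Fintype.sum_equiv (inc_e α Y) _ _ fun w => ?_
  exact congrArg f ((inc_e α Y).left_inv w).symm

private theorem inc_sum_elim (f : (α ⊕ β → Y) → ℝ) :
    ∑ w, f w = ∑ v : α → Y, ∑ u : β → Y, f (Sum.elim v u) := by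
  rw [← Fintype.sum_prod_type']
  refine Fintype.sum_equiv (Equiv.sumArrowEquivProdArrow α β Y) _ _ fun w => ?_
  exact congrArg f ((Equiv.sumArrowEquivProdArrow α β Y).left_inv w).symm

theorem inc_one (J : Finset ι) (hJ : J.Nonempty) (R : ι → Finset Y)
    (h : ∀ n ∈ J, Fintype.card α + 1 ≤ (R n).card) :
    ∑ v : α → Y, ∑ y : Y, mu J R (sn v y) * Real.log (Fintype.card Y * qq J R v y) =
      hh J R (Fintype.card α) := by
  have h0 : ∀ n ∈ J, Fintype.card α + 1 ≤ (R n).card := h
  have key : ∀ (v : α → Y) (y : Y), mu J R (sn v y) * Real.log (Fintype.card Y * qq J R v y) =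
      mu J R (sn v y) * Real.log ((Fintype.card Y : ℝ) ^ (Fintype.card α + 1) * mu J R (sn v y)) -
      mu J R (sn v y) * Real.log ((Fintype.card Y : ℝ) ^ (Fintype.card α) * mu J R v) := by
    intro v y
    by_cases hz : mu J R (sn v y) = 0
    · rw [hz]; simp
    · have hN : (Fintype.card Y : ℝ) ≠ 0 := by
        have : 0 < Fintype.card Y := Fintype.card_pos_iff.2 ⟨y⟩
        exact_mod_cast this.ne'
      have hv : mu J R v ≠ 0 := by
        intro hv
        apply hz
        rw [mu_sn J R h v y, hv, zero_mul]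
      rw [← mul_sub, ← Real.log_div (mul_ne_zero (pow_ne_zero _ hN) hz)
        (mul_ne_zero (pow_ne_zero _ hN) hv)]
      congr 2
      unfold qq
      field_simp
      ring
  have e1 : ∑ v : α → Y, ∑ y : Y, mu J R (sn v y) *
      Real.log ((Fintype.card Y : ℝ) ^ (Fintype.card α + 1) * mu J R (sn v y)) =
      Ent J R (Fintype.card α + 1) := by
    have h1 := Ent_eq (α := α ⊕ Unit) J R
    have hc : Fintype.card (α ⊕ Unit) = Fintype.card α + 1 := by simp
    rw [inc_sum_sn] at h1
    rw [hc] at h1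
    exact h1
  have e2 : ∑ v : α → Y, ∑ y : Y, mu J R (sn v y) *
      Real.log ((Fintype.card Y : ℝ) ^ (Fintype.card α) * mu J R v) =
      Ent J R (Fintype.card α) := by
    rw [← Ent_eq (α := α) J R]
    refine sum_congr rfl fun v _ => ?_
    rw [← sum_mul, sum_mu_sn J R h v]
  unfold hh
  rw [← e1, ← e2, ← sum_sub_distrib]
  refine sum_congr rfl fun v _ => ?_
  rw [← sum_sub_distrib]
  exact sum_congr rfl fun y _ => key v y

private def inc_r (α β : Type) : (α ⊕ Unit) ⊕ β ≃ (α ⊕ β) ⊕ Unit where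
  toFun x := match x with
    | Sum.inl (Sum.inl a) => Sum.inl (Sum.inl a)
    | Sum.inl (Sum.inr u) => Sum.inr u
    | Sum.inr b => Sum.inl (Sum.inr b)
  invFun x := match x with
    | Sum.inl (Sum.inl a) => Sum.inl (Sum.inl a)
    | Sum.inl (Sum.inr b) => Sum.inr b
    | Sum.inr u => Sum.inl (Sum.inr u)
  left_inv x := by rcases x with (a | u) | b <;> rfl
  right_inv x := by rcases x with (a | b) | u <;> rfl

private theorem inc_swap (J : Finset ι) (R : ι → Finset Y) (v : α → Y) (u : β → Y) (y : Y) :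
    mu J R (sn (Sum.elim v u) y) = mu J R (Sum.elim (sn v y) u) := by
  rw [← mu_comp J R (inc_r α β) (sn (Sum.elim v u) y)]
  congr 1
  funext x
  rcases x with (a | a) | b <;> rfl

theorem tv_b (J : Finset ι) (hJ : J.Nonempty) (R : ι → Finset Y)
    (h : ∀ n ∈ J, Fintype.card α + Fintype.card β + 1 ≤ (R n).card) :
    (∑ v : α → Y, ∑ u : β → Y, ∑ y : Y,
      |mu J R (sn (Sum.elim v u) y) - mu J R (Sum.elim v u) * qq J R v y|) ^ 2 ≤
      2 * (hh J R (Fintype.card α + Fintype.card β) - hh J R (Fintype.card α)) := by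
  have hc1 : ∀ n ∈ J, Fintype.card α + 1 ≤ (R n).card := fun n hn => by
    have := h n hn; omega
  have hc2 : ∀ n ∈ J, Fintype.card α + Fintype.card β ≤ (R n).card := fun n hn => by
    have := h n hn; omega
  have hc3 : ∀ n ∈ J, Fintype.card (α ⊕ β) + 1 ≤ (R n).card := fun n hn => by
    have := h n hn
    rw [Fintype.card_sum]; omega
  have hc4 : ∀ n ∈ J, Fintype.card (α ⊕ Unit) + Fintype.card β ≤ (R n).card := fun n hn => by
    have := h n hn
    rw [Fintype.card_sum, Fintype.card_unit]; omega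
  have hc5 : ∀ n ∈ J, Fintype.card α ≤ (R n).card := fun n hn => by
    have := h n hn; omega
  -- facts on P
  have hPy : ∀ (v : α → Y) (u : β → Y), ∑ y : Y, mu J R (sn (Sum.elim v u) y) =
      mu J R (Sum.elim v u) := fun v u => sum_mu_sn J R hc3 _
  have hPu : ∀ (v : α → Y) (y : Y), ∑ u : β → Y, mu J R (sn (Sum.elim v u) y) =
      mu J R (sn v y) := fun v y => by
    rw [← sum_mu_elim (β := β) J R hc4 (sn v y)]
    exact sum_congr rfl fun u _ => inc_swap J R v u y
  have hle : ∀ (v : α → Y) (u : β → Y) (y : Y), mu J R (sn (Sum.elim v u) y) ≤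
      mu J R (sn v y) := fun v u y => by
    rw [inc_swap]
    exact mu_elim_le J R hc4 _ _
  let P : (α → Y) × (β → Y) × Y → ℝ := fun x => mu J R (sn (Sum.elim x.1 x.2.1) x.2.2)
  let Q : (α → Y) × (β → Y) × Y → ℝ := fun x => mu J R (Sum.elim x.1 x.2.1) * qq J R x.1 x.2.2
  have hP : ∀ x, 0 ≤ P x := fun x => mu_nonneg _ _ _
  have hQ : ∀ x, 0 ≤ Q x := fun x => mul_nonneg (mu_nonneg _ _ _) (qq_nonneg _ _ _ _)
  have hPQ : ∀ x, Q x = 0 → P x = 0 := by
    rintro ⟨v, u, y⟩ hx
    have hx' : mu J R (Sum.elim v u) * qq J R v y = 0 := hx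
    show mu J R (sn (Sum.elim v u) y) = 0
    rcases mul_eq_zero.1 hx' with h1 | h1
    · rw [mu_sn J R hc3, h1, zero_mul]
    · refine le_antisymm ?_ (mu_nonneg _ _ _)
      refine (hle v u y).trans_eq ?_
      rw [mu_sn J R hc1, h1, mul_zero]
  have hsum : ∑ v : α → Y, ∑ u : β → Y, mu J R (Sum.elim v u) = 1 := by
    rw [← sum_mu J hJ R hc5]
    exact sum_congr rfl fun v _ => sum_mu_elim J R hc2 v
  have hP1 : ∑ x, P x = 1 := by
    rw [← hsum, Fintype.sum_prod_type]
    refine sum_congr rfl fun v _ => ?_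
    rw [Fintype.sum_prod_type]
    exact sum_congr rfl fun u _ => hPy v u
  have hQ1 : ∑ x, Q x = 1 := by
    rw [← hsum, Fintype.sum_prod_type]
    refine sum_congr rfl fun v _ => ?_
    rw [Fintype.sum_prod_type]
    refine sum_congr rfl fun u _ => ?_
    show ∑ y : Y, mu J R (Sum.elim v u) * qq J R v y = _
    rw [← mul_sum]
    by_cases hz : mu J R (Sum.elim v u) = 0
    · rw [hz, zero_mul]
    · have hv : mu J R v ≠ 0 := by
        intro hv
        apply hz
        refine le_antisymm ?_ (mu_nonneg _ _ _)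
        rw [← hv]
        exact mu_elim_le J R hc2 v u
      rw [sum_qq J R hc1 v hv, mul_one]
  have hpin := pinsker P Q hP hQ hPQ hP1 hQ1
  have hL : ∑ x, |P x - Q x| = ∑ v : α → Y, ∑ u : β → Y, ∑ y : Y,
      |mu J R (sn (Sum.elim v u) y) - mu J R (Sum.elim v u) * qq J R v y| := by
    rw [Fintype.sum_prod_type]
    refine sum_congr rfl fun v _ => ?_
    rw [Fintype.sum_prod_type]
  have key : ∀ (v : α → Y) (u : β → Y) (y : Y), P (v, u, y) * Real.log (P (v, u, y) / Q (v, u, y)) =
      mu J R (sn (Sum.elim v u) y) * Real.log (Fintype.card Y * qq J R (Sum.elim v u) y) -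
      mu J R (sn (Sum.elim v u) y) * Real.log (Fintype.card Y * qq J R v y) := by
    intro v u y
    show mu J R (sn (Sum.elim v u) y) * Real.log (mu J R (sn (Sum.elim v u) y) /
      (mu J R (Sum.elim v u) * qq J R v y)) = _
    by_cases hz : mu J R (sn (Sum.elim v u) y) = 0
    · rw [hz]; simp
    · have hN : (Fintype.card Y : ℝ) ≠ 0 := by
        have : 0 < Fintype.card Y := Fintype.card_pos_iff.2 ⟨y⟩
        exact_mod_cast this.ne'
      have h1 := mu_sn J R hc3 (Sum.elim v u) y
      have hw : mu J R (Sum.elim v u) ≠ 0 := by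
        intro hw
        apply hz
        rw [h1, hw, zero_mul]
      have hq : qq J R (Sum.elim v u) y ≠ 0 := by
        intro hw
        apply hz
        rw [h1, hw, mul_zero]
      have hqv : qq J R v y ≠ 0 := by
        intro hw
        apply hz
        refine le_antisymm ?_ (mu_nonneg _ _ _)
        refine (hle v u y).trans_eq ?_
        rw [mu_sn J R hc1, hw, mul_zero]
      rw [← mul_sub, ← Real.log_div (mul_ne_zero hN hq) (mul_ne_zero hN hqv)]
      congr 2
      rw [h1]
      field_simp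
  have hR : ∑ x, P x * Real.log (P x / Q x) =
      hh J R (Fintype.card α + Fintype.card β) - hh J R (Fintype.card α) := by
    have e1 : ∑ v : α → Y, ∑ u : β → Y, ∑ y : Y, mu J R (sn (Sum.elim v u) y) *
        Real.log (Fintype.card Y * qq J R (Sum.elim v u) y) =
        hh J R (Fintype.card α + Fintype.card β) := by
      have h1 := inc_one (α := α ⊕ β) J hJ R hc3
      rw [inc_sum_elim, Fintype.card_sum] at h1
      exact h1
    have e2 : ∑ v : α → Y, ∑ u : β → Y, ∑ y : Y, mu J R (sn (Sum.elim v u) y) *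
        Real.log (Fintype.card Y * qq J R v y) = hh J R (Fintype.card α) := by
      rw [← inc_one (α := α) J hJ R hc1]
      refine sum_congr rfl fun v _ => ?_
      rw [sum_comm]
      refine sum_congr rfl fun y _ => ?_
      rw [← sum_mul, hPu v y]
    rw [← e1, ← e2, ← sum_sub_distrib, Fintype.sum_prod_type]
    refine sum_congr rfl fun v _ => ?_
    rw [← sum_sub_distrib, Fintype.sum_prod_type]
    refine sum_congr rfl fun u _ => ?_
    rw [← sum_sub_distrib]
    exact sum_congr rfl fun y _ => key v u y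
  rw [hL, hR] at hpin
  exact hpin

end Pool.Agent.Lib.MP_092512_nt.QC
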