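import Pool.Agent.Lib.MP_092512_nt.QC.IncL

/-!
# Inc2: monotone increments, bound of the entropy, pigeonhole

PROOF. `hh_mono`: `tv_b` for `α = Fin K`, `β = Unit` (a square is nonnegative). `hh_nonneg`: `hh_mono` and `hh 0 ≥ 0`: `hh 0 = Ent 1 - Ent 0`,
`Ent 0 = 0` (one tuple, `mu = 1` by `sum_mu`), `Ent 1 = ∑ P log(N P) ≥ 0` (`pinsker` with the uniform law, or Gibbs).
`Ent_le`: `pin_jensen` with `c = N^K`. `tv_l'`: `Ent(K+l) - Ent K = ∑_{i<l} hh (K+i) ≤ l hh(K+l)`.
`pigeon`: `h` monotone on `[0, 2 L l]`, nonnegative. If `h (i l + l) - h (i l) > δ` for all `i < L` then `h (L l) > L δ`, so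
`∑_{K < 2 L l} h K ≥ L l · L δ`, while it is `≤ C1 (2Ll) log(2Ll+1) + C1`; for `L` large (depending on `l, δ, C1`) this is absurd:
`log` is `o` of the identity.
-/

set_option autoImplicit false
set_option linter.unusedSectionVars false

open Finset

namespace Pool.Agent.Lib.MP_092512_nt.QC

variable {ι Y α β : Type} [Fintype Y] [Fintype α] [Fintype β] [DecidableEq α] [DecidableEq β]

theorem hh_mono (J : Finset ι) (hJ : J.Nonempty) (R : ι → Finset Y) (K : ℕ)
    (h : ∀ n ∈ J, K + 2 ≤ (R n).card) : hh J R K ≤ hh J R (K + 1) := by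
  have h1 := tv_b (α := Fin K) (β := Unit) J hJ R (by
    intro n hn
    rw [Fintype.card_fin, Fintype.card_unit]
    exact h n hn)
  rw [Fintype.card_fin, Fintype.card_unit] at h1
  have h2 := (sq_nonneg _).trans h1
  linarith

private theorem inc2_pos (J : Finset ι) (hJ : J.Nonempty) (R : ι → Finset Y)
    (h : ∀ n ∈ J, 1 ≤ (R n).card) : (0 : ℝ) < Fintype.card Y := by
  obtain ⟨n, hn⟩ := hJ
  obtain ⟨y, hy⟩ := card_pos.1 (h n hn)
  exact Nat.cast_pos.2 (Fintype.card_pos_iff.2 ⟨y⟩)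

private theorem inc2_Ent_nonneg (J : Finset ι) (hJ : J.Nonempty) (R : ι → Finset Y) (K : ℕ)
    (h : ∀ n ∈ J, K + 1 ≤ (R n).card) : 0 ≤ Ent J R K := by
  have hN := inc2_pos J hJ R (fun n hn => by have := h n hn; omega)
  have hNK : (0 : ℝ) < (Fintype.card Y : ℝ) ^ K := pow_pos hN K
  have h1 := pinsker (X := Fin K → Y) (fun v => mu J R v) (fun _ => 1 / (Fintype.card Y : ℝ) ^ K)
    (fun v => mu_nonneg J R v) (fun v => by positivity)
    (fun v hv => absurd hv (by positivity))
    (sum_mu J hJ R (by intro n hn; rw [Fintype.card_fin]; have := h n hn; omega))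
    (by
      rw [sum_const, card_univ, Fintype.card_fun, Fintype.card_fin, nsmul_eq_mul, Nat.cast_pow]
      exact mul_one_div_cancel hNK.ne')
  have h2 : ∑ v : Fin K → Y, mu J R v * Real.log (mu J R v / (1 / (Fintype.card Y : ℝ) ^ K)) =
      Ent J R K := by
    unfold Ent
    refine sum_congr rfl fun v _ => ?_
    rw [div_div_eq_mul_div, div_one, mul_comm (mu J R v) ((Fintype.card Y : ℝ) ^ K)]
  rw [h2] at h1
  have h3 := (sq_nonneg _).trans h1
  linarith

theorem Ent_zero (J : Finset ι) (hJ : J.Nonempty) (R : ι → Finset Y) : Ent J R 0 = 0 := by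
  have h1 := sum_mu (α := Fin 0) J hJ R (fun n _ => by rw [Fintype.card_fin]; exact Nat.zero_le _)
  unfold Ent
  rw [Fintype.sum_unique] at h1 ⊢
  rw [h1, pow_zero, one_mul, one_mul, Real.log_one]

theorem hh_nonneg (J : Finset ι) (hJ : J.Nonempty) (R : ι → Finset Y) (K : ℕ)
    (h : ∀ n ∈ J, K + 1 ≤ (R n).card) : 0 ≤ hh J R K := by
  induction K with
  | zero =>
    by_cases h2 : ∀ n ∈ J, 2 ≤ (R n).card
    · have h1 := inc2_Ent_nonneg J hJ R 1 h2
      unfold hh
      rw [Ent_zero J hJ R, sub_zero]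
      exact h1
    · unfold hh
      rw [Ent_zero J hJ R, sub_zero]
      have hN := inc2_pos J hJ R h
      have h1 := pinsker (X := Fin 1 → Y) (fun v => mu J R v)
        (fun _ => 1 / (Fintype.card Y : ℝ) ^ 1)
        (fun v => mu_nonneg J R v) (fun v => by positivity)
        (fun v hv => absurd hv (by positivity))
        (sum_mu J hJ R (by intro n hn; rw [Fintype.card_fin]; exact h n hn))
        (by
          rw [sum_const, card_univ, Fintype.card_fun, Fintype.card_fin, nsmul_eq_mul, Nat.cast_pow]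
          exact mul_one_div_cancel (pow_pos hN 1).ne')
      have h2 : ∑ v : Fin 1 → Y, mu J R v * Real.log (mu J R v / (1 / (Fintype.card Y : ℝ) ^ 1)) =
          Ent J R 1 := by
        unfold Ent
        refine sum_congr rfl fun v _ => ?_
        rw [div_div_eq_mul_div, div_one, mul_comm (mu J R v) ((Fintype.card Y : ℝ) ^ 1)]
      rw [h2] at h1
      have h3 := (sq_nonneg _).trans h1
      simp only [zero_add]
      linarith
  | succ K ih =>
    exact (ih fun n hn => by have := h n hn; omega).trans (hh_mono J hJ R K h)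

theorem Ent_le (J : Finset ι) (hJ : J.Nonempty) (R : ι → Finset Y) (K : ℕ)
    (h : ∀ n ∈ J, K + 1 ≤ (R n).card) : Ent J R K ≤ Real.log (GG J R K) := by
  have hN := inc2_pos J hJ R (fun n hn => by have := h n hn; omega)
  exact pin_jensen (X := Fin K → Y) (fun v => mu J R v) _ (pow_pos hN K)
    (fun v => mu_nonneg J R v)
    (sum_mu J hJ R (by intro n hn; rw [Fintype.card_fin]; have := h n hn; omega))

private theorem inc2_tel (J : Finset ι) (R : ι → Finset Y) (K l : ℕ) :
    ∑ i ∈ range l, hh J R (K + i) = Ent J R (K + l) - Ent J R K := by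
  have h1 := sum_range_sub (fun i => Ent J R (K + i)) l
  simpa only [add_zero, hh, add_assoc] using h1

private theorem inc2_mono (J : Finset ι) (hJ : J.Nonempty) (R : ι → Finset Y) (K j : ℕ)
    (h : ∀ n ∈ J, K + j + 1 ≤ (R n).card) : hh J R K ≤ hh J R (K + j) := by
  induction j with
  | zero => exact le_refl _
  | succ j ih =>
    exact (ih fun n hn => by have := h n hn; omega).trans
      (hh_mono J hJ R (K + j) fun n hn => by have := h n hn; omega)

/-- (4a) -/
theorem tv_prod (J : Finset ι) (hJ : J.Nonempty) (R : ι → Finset Y) (l : ℕ) (δ : ℝ)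
    (h : ∀ n ∈ J, Fintype.card α + l + 2 ≤ (R n).card)
    (hδ : hh J R (Fintype.card α + l) - hh J R (Fintype.card α) ≤ δ) :
    ∑ v : α → Y, ∑ u : Fin l → Y,
      |mu J R (Sum.elim v u) - mu J R v * ∏ i, qq J R v (u i)| ≤ √(2 * l * δ) := by
  refine (le_abs_self _).trans (Real.abs_le_sqrt ?_)
  refine (tv_l J hJ R l (fun n hn => by have := h n hn; omega)).trans ?_
  rw [← inc2_tel]
  have h1 : ∑ i ∈ range l, hh J R (Fintype.card α + i) ≤
      ∑ _i ∈ range l, (hh J R (Fintype.card α) + δ) := by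
    refine sum_le_sum fun i hi => ?_
    rw [mem_range] at hi
    have h2 := inc2_mono J hJ R (Fintype.card α + i) (l - i)
      (fun n hn => by have := h n hn; omega)
    have h3 : Fintype.card α + i + (l - i) = Fintype.card α + l := by omega
    rw [h3] at h2
    linarith
  rw [sum_const, card_range, nsmul_eq_mul] at h1
  nlinarith [h1]

/-- (4b) -/
theorem tv_next (J : Finset ι) (hJ : J.Nonempty) (R : ι → Finset Y) (δ : ℝ)
    (h : ∀ n ∈ J, Fintype.card α + Fintype.card β + 1 ≤ (R n).card)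
    (hδ : hh J R (Fintype.card α + Fintype.card β) - hh J R (Fintype.card α) ≤ δ) :
    ∑ v : α → Y, ∑ u : β → Y, ∑ y : Y,
      |mu J R (sn (Sum.elim v u) y) - mu J R (Sum.elim v u) * qq J R v y| ≤ √(2 * δ) := by
  refine (le_abs_self _).trans (Real.abs_le_sqrt ?_)
  refine (tv_b J hJ R h).trans ?_
  linarith

theorem pigeon_real (C1 δ : ℝ) (hδ : 0 < δ) (l : ℕ) (hl : 1 ≤ l) :
    ∃ L : ℕ, 1 ≤ L ∧ ∀ h : ℕ → ℝ, (∀ K < 2 * L * l, h K ≤ h (K + 1)) → 0 ≤ h 0 →
      (∑ K ∈ range (2 * L * l), h K ≤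
        C1 * ((2 * L * l : ℕ) : ℝ) * Real.log ((2 * L * l : ℕ) + 1) + C1) →
      ∃ K : ℕ, K ≤ L * l ∧ h (K + l) - h K ≤ δ := by
  obtain ⟨m, hm⟩ := exists_nat_gt (8 * (|C1| + 1) / δ)
  have ha : 0 ≤ |C1| := abs_nonneg C1
  have hm0 : (0 : ℝ) < m := lt_of_le_of_lt (by positivity) hm
  have hm1 : 1 ≤ m := by
    have : 0 < m := by exact_mod_cast hm0
    omega
  rw [div_lt_iff₀ hδ] at hm
  refine ⟨3 * l * m ^ 2, by nlinarith [Nat.one_le_pow 2 m hm1, Nat.mul_le_mul hl (Nat.one_le_pow 2 m hm1)], fun h hmon h0 hsum => ?_⟩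
  by_contra hcon
  push Not at hcon
  set L : ℕ := 3 * l * m ^ 2 with hL
  -- values at the multiples of `l`
  have h1 : ∀ i : ℕ, i ≤ L → (i : ℝ) * δ ≤ h (i * l) := by
    intro i
    induction i with
    | zero => intro _; simpa using h0
    | succ i ih =>
      intro hi
      have h2 := hcon (i * l) (Nat.mul_le_mul_right l (by omega))
      have h3 := ih (by omega)
      have h4 : (i + 1) * l = i * l + l := by ring
      rw [h4, Nat.cast_succ]
      linarith
  have h2 : ∀ j K : ℕ, K + j ≤ 2 * L * l → h K ≤ h (K + j) := by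
    intro j
    induction j with
    | zero => intro K _; exact le_refl _
    | succ j ih =>
      intro K hK
      exact (ih K (by omega)).trans (hmon (K + j) (by omega))
  have h3 : ∀ K ∈ range (2 * L * l), (if L * l ≤ K then (L : ℝ) * δ else 0) ≤ h K := by
    intro K hK
    rw [mem_range] at hK
    split_ifs with h4
    · have h5 := h2 (K - L * l) (L * l) (by omega)
      have h6 : L * l + (K - L * l) = K := by omega
      rw [h6] at h5
      exact (h1 L le_rfl).trans h5
    · have h5 := h2 K 0 (by omega)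
      rw [zero_add] at h5
      exact h0.trans h5
  have h4 : ((L : ℝ) * l) * ((L : ℝ) * δ) ≤ ∑ K ∈ range (2 * L * l), h K := by
    refine le_trans ?_ (sum_le_sum h3)
    rw [← sum_filter, sum_const, nsmul_eq_mul]
    have h5 : (range (2 * L * l)).filter (fun K => L * l ≤ K) = Ico (L * l) (2 * L * l) := by
      ext K
      simp only [mem_filter, mem_range, mem_Ico]
      tauto
    have h6 : 2 * L * l - L * l = L * l := by
      have : 2 * L * l = L * l + L * l := by ring
      omega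
    rw [h5, Nat.card_Ico, h6]
    exact le_of_eq (by rw [Nat.cast_mul L l])
  -- numerical estimate
  have hl1 : (1 : ℝ) ≤ l := by exact_mod_cast hl
  have hm1' : (1 : ℝ) ≤ m := by exact_mod_cast hm1
  have hLr : (L : ℝ) = 3 * l * (m : ℝ) ^ 2 := by rw [hL]; push_cast; ring
  have hlog : Real.log ((2 * L * l : ℕ) + 1) ≤ 6 * l * m := by
    have h5 : ((2 * L * l : ℕ) : ℝ) + 1 ≤ (3 * l * m) ^ 2 := by
      push_cast
      rw [hLr]
      have h6 : (1 : ℝ) ≤ (l : ℝ) ^ 2 * (m : ℝ) ^ 2 := by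
        have := one_le_pow₀ (n := 2) hl1
        have := one_le_pow₀ (n := 2) hm1'
        nlinarith
      nlinarith [h6]
    have h7 : (0 : ℝ) < 3 * l * m := by positivity
    have h8 : Real.log ((2 * L * l : ℕ) + 1) ≤ Real.log ((3 * l * m) ^ 2) :=
      Real.log_le_log (by positivity) h5
    rw [Real.log_pow] at h8
    have h9 := Real.log_le_sub_one_of_pos h7
    push_cast at h8
    push_cast
    linarith
  have hlog0 : 0 ≤ Real.log ((2 * L * l : ℕ) + 1) :=
    Real.log_nonneg (by have : (0 : ℝ) ≤ ((2 * L * l : ℕ) : ℝ) := Nat.cast_nonneg _; linarith)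
  set A : ℝ := ((2 * L * l : ℕ) : ℝ) with hA
  have hA' : A = 6 * (l : ℝ) ^ 2 * (m : ℝ) ^ 2 := by rw [hA]; push_cast; rw [hLr]; ring
  have hA0 : 0 ≤ A := Nat.cast_nonneg _
  have h5 : C1 * A * Real.log (A + 1) + C1 ≤ |C1| * A * (6 * l * m) + |C1| := by
    have h6 : C1 * A * Real.log (A + 1) ≤ |C1| * A * Real.log (A + 1) :=
      mul_le_mul_of_nonneg_right (mul_le_mul_of_nonneg_right (le_abs_self C1) hA0) hlog0
    have h7 : |C1| * A * Real.log (A + 1) ≤ |C1| * A * (6 * l * m) :=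
      mul_le_mul_of_nonneg_left hlog (mul_nonneg ha hA0)
    have h8 := le_abs_self C1
    linarith
  have h6 : ((L : ℝ) * l) * ((L : ℝ) * δ) ≤ |C1| * A * (6 * l * m) + |C1| :=
    h4.trans (hsum.trans h5)
  have h7 : (1 : ℝ) ≤ A * (6 * l * m) := by
    rw [hA']
    have e1 := one_le_pow₀ (n := 2) hl1
    have e2 := one_le_pow₀ (n := 2) hm1'
    have e3 : (1 : ℝ) ≤ (l : ℝ) ^ 2 * (m : ℝ) ^ 2 := by nlinarith
    have e4 : (1 : ℝ) ≤ (l : ℝ) * m := by nlinarith
    have e5 : (1 : ℝ) ≤ ((l : ℝ) ^ 2 * (m : ℝ) ^ 2) * ((l : ℝ) * m) := by nlinarith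
    nlinarith [e5]
  have h8 : |C1| * A * (6 * l * m) + |C1| ≤ 2 * (|C1| + 1) * (A * (6 * l * m)) - 1 := by
    nlinarith [h7, ha, mul_nonneg ha (by linarith : (0 : ℝ) ≤ A * (6 * l * m) - 1)]
  have h9 : ((L : ℝ) * l) * ((L : ℝ) * δ) = (A * (6 * l * m)) * (m * δ) / 4 := by
    rw [hA', hLr]
    ring
  rw [h9] at h6
  have h10 : (A * (6 * l * m)) * (8 * (|C1| + 1)) ≤ (A * (6 * l * m)) * (m * δ) :=
    mul_le_mul_of_nonneg_left hm.le (by linarith)
  nlinarith [h6, h8, h10]

/-- pigeonhole (6) -/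
theorem pigeon (C1 δ : ℝ) (hδ : 0 < δ) (l : ℕ) (hl : 1 ≤ l) :
    ∃ L : ℕ, 1 ≤ L ∧ ∀ (ι Y : Type) [Fintype Y] (J : Finset ι) (R : ι → Finset Y), J.Nonempty →
      (∀ n ∈ J, 2 * L * l + 2 ≤ (R n).card) →
      GG J R (2 * L * l) ≤
        Real.exp (C1 * ((2 * L * l : ℕ) : ℝ) * Real.log ((2 * L * l : ℕ) + 1) + C1) →
      ∃ K : ℕ, K ≤ L * l ∧ hh J R (K + l) - hh J R K ≤ δ := by
  obtain ⟨L, hL, h1⟩ := pigeon_real C1 δ hδ l hl
  refine ⟨L, hL, fun ι Y _ J R hJ hc hG => h1 (hh J R) (fun K hK => ?_) ?_ ?_⟩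
  · exact hh_mono J hJ R K fun n hn => by have := hc n hn; omega
  · exact hh_nonneg J hJ R 0 fun n hn => by have := hc n hn; omega
  · have h2 := inc2_tel J R 0 (2 * L * l)
    simp only [zero_add] at h2
    rw [h2, Ent_zero J hJ R, sub_zero]
    refine (Ent_le J hJ R _ fun n hn => by have := hc n hn; omega).trans ?_
    have hN := inc2_pos J hJ R (fun n hn => by have := hc n hn; omega)
    have hpos : 0 < GG J R (2 * L * l) := by
      unfold GG
      refine mul_pos (pow_pos hN _) (lt_of_le_of_ne (sum_nonneg fun v _ => sq_nonneg _) ?_)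
      intro h3
      have h4 := (sum_eq_zero_iff_of_nonneg (fun v _ => sq_nonneg (mu J R v))).1 h3.symm
      have h5 := sum_mu (α := Fin (2 * L * l)) J hJ R (by
        intro n hn
        rw [Fintype.card_fin]
        have := hc n hn
        omega)
      rw [sum_congr rfl fun v hv => pow_eq_zero_iff (two_ne_zero) |>.1 (h4 v hv)] at h5
      simp at h5
    exact (Real.log_le_iff_le_exp hpos).2 hG

end Pool.Agent.Lib.MP_092512_nt.QC
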