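import Pool.Agent.Lib.MP_092512_nt.QC.Inc

/-!
# IncL: several conditionally independent points (identity (2) and inequality (4a) of the text)

PROOF. `N = card Y > 0`, `K = card α`. `pinsker` on `X = (α → Y) × (Fin l → Y)`, `P (v,u) = mu (Sum.elim v u)`, `Q (v,u) = mu v * ∏ i, qq v (u i)`.
`∑ Q = 1`: `Finset.prod_univ_sum`/`Fintype.piFinset` (`∑_u ∏_i qq v (u i) = (∑_y qq v y)^l`), `sum_qq`, `sum_mu`. `Q = 0 → P = 0`: if `mu v = 0` by `mu_elim_le`;
if `qq v (u i) = 0` then `mu (sn v (u i)) = 0`, and `mu (Sum.elim v u) ≤ mu (sn v (u i))` (`mu_comp`, `mu_elim_le`, an equivalence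
`Fin l ≃ Unit ⊕ {j // j ≠ i}`). `∑ P log(P/Q) = ∑ P log(N^(K+l) P) - ∑ P log (N^K mu v) - ∑_i ∑ P log(N qq v (u i))`
`= Ent(K+l) - Ent K - l * hh K`: first `Ent_eq` for `α ⊕ Fin l`; second: sum over `u` (`sum_mu_elim`); third: for each `i` the law of `(v, u i)` under `P` is
`mu (sn v y)` (sum over the other coordinates, exchangeability), then `inc_one`. Terms with `P = 0` vanish.
-/

set_option autoImplicit false
set_option linter.unusedSectionVars false

open Finset

namespace Pool.Agent.Lib.MP_092512_nt.QC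

variable {ι Y α β : Type} [Fintype Y] [Fintype α] [Fintype β] [DecidableEq α] [DecidableEq β]

private theorem incl_sum_elim (f : (α ⊕ β → Y) → ℝ) :
    ∑ w, f w = ∑ v : α → Y, ∑ u : β → Y, f (Sum.elim v u) := by
  rw [← Fintype.sum_prod_type']
  refine Fintype.sum_equiv (Equiv.sumArrowEquivProdArrow α β Y) _ _ fun w => ?_
  exact congrArg f ((Equiv.sumArrowEquivProdArrow α β Y).left_inv w).symm

private def incl_f {m : ℕ} (i : Fin (m + 1)) : Unit ⊕ Fin m ≃ Fin (m + 1) :=
  ((Equiv.sumComm Unit (Fin m)).trans (Equiv.optionEquivSumPUnit (Fin m)).symm).trans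
    (finSuccEquiv' i).symm

private theorem incl_f_inl {m : ℕ} (i : Fin (m + 1)) (x : Unit) : incl_f i (Sum.inl x) = i := by
  simp [incl_f]

private theorem incl_f_inr {m : ℕ} (i : Fin (m + 1)) (j : Fin m) :
    incl_f i (Sum.inr j) = i.succAbove j := by
  simp [incl_f]

private def incl_e (α : Type) {m : ℕ} (i : Fin (m + 1)) : (α ⊕ Unit) ⊕ Fin m ≃ α ⊕ Fin (m + 1) :=
  (Equiv.sumAssoc α Unit (Fin m)).trans (Equiv.sumCongr (Equiv.refl α) (incl_f i))

private theorem incl_swap (J : Finset ι) (R : ι → Finset Y) {m : ℕ} (i : Fin (m + 1)) (v : α → Y)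
    (y : Y) (w : Fin m → Y) :
    mu J R (Sum.elim v (Fin.insertNth (α := fun _ => Y) i y w)) =
      mu J R (Sum.elim (sn v y) w) := by
  rw [← mu_comp J R (incl_e α i) (Sum.elim v (Fin.insertNth (α := fun _ => Y) i y w))]
  congr 1
  funext x
  rcases x with (a | a) | b
  · rfl
  · show Fin.insertNth (α := fun _ => Y) i y w (incl_f i (Sum.inl a)) = y
    rw [incl_f_inl, Fin.insertNth_apply_same]
  · show Fin.insertNth (α := fun _ => Y) i y w (incl_f i (Sum.inr b)) = w b
    rw [incl_f_inr, Fin.insertNth_apply_succAbove]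

private theorem incl_marg (J : Finset ι) (R : ι → Finset Y) (l : ℕ)
    (h : ∀ n ∈ J, Fintype.card α + l ≤ (R n).card) (i : Fin l) (v : α → Y) (g : Y → ℝ) :
    ∑ u : Fin l → Y, mu J R (Sum.elim v u) * g (u i) = ∑ y : Y, mu J R (sn v y) * g y := by
  cases l with
  | zero => exact i.elim0
  | succ m =>
    have hc : ∀ n ∈ J, Fintype.card (α ⊕ Unit) + Fintype.card (Fin m) ≤ (R n).card := fun n hn => by
      have := h n hn
      rw [Fintype.card_sum, Fintype.card_unit, Fintype.card_fin]; omega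
    rw [← (Fin.insertNthEquiv (fun _ => Y) i).sum_comp, Fintype.sum_prod_type]
    refine sum_congr rfl fun y _ => ?_
    have e1 : ∀ w : Fin m → Y,
        mu J R (Sum.elim v ((Fin.insertNthEquiv (fun _ => Y) i) (y, w))) *
          g ((Fin.insertNthEquiv (fun _ => Y) i) (y, w) i) = mu J R (Sum.elim (sn v y) w) * g y := by
      intro w
      show mu J R (Sum.elim v (Fin.insertNth (α := fun _ => Y) i y w)) *
          g (Fin.insertNth (α := fun _ => Y) i y w i) = _
      rw [incl_swap, Fin.insertNth_apply_same]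
    rw [sum_congr rfl fun w _ => e1 w, ← sum_mul, sum_mu_elim (β := Fin m) J R hc (sn v y)]

private theorem incl_le (J : Finset ι) (R : ι → Finset Y) (l : ℕ)
    (h : ∀ n ∈ J, Fintype.card α + l ≤ (R n).card) (i : Fin l) (v : α → Y) (u : Fin l → Y) :
    mu J R (Sum.elim v u) ≤ mu J R (sn v (u i)) := by
  cases l with
  | zero => exact i.elim0
  | succ m =>
    have hc : ∀ n ∈ J, Fintype.card (α ⊕ Unit) + Fintype.card (Fin m) ≤ (R n).card := fun n hn => by
      have := h n hn
      rw [Fintype.card_sum, Fintype.card_unit, Fintype.card_fin]; omega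
    have e1 := incl_swap J R i v (u i) (fun j => u (i.succAbove j))
    have e2 : Fin.insertNth (α := fun _ => Y) i (u i) (fun j => u (i.succAbove j)) = u := by
      funext j
      rcases Fin.eq_self_or_eq_succAbove i j with rfl | ⟨k, rfl⟩
      · rw [Fin.insertNth_apply_same]
      · rw [Fin.insertNth_apply_succAbove]
    rw [e2] at e1
    rw [e1]
    exact mu_elim_le J R hc _ _

theorem tv_l (J : Finset ι) (hJ : J.Nonempty) (R : ι → Finset Y) (l : ℕ)
    (h : ∀ n ∈ J, Fintype.card α + l + 1 ≤ (R n).card) :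
    (∑ v : α → Y, ∑ u : Fin l → Y,
      |mu J R (Sum.elim v u) - mu J R v * ∏ i, qq J R v (u i)|) ^ 2 ≤
      2 * (Ent J R (Fintype.card α + l) - Ent J R (Fintype.card α) -
        l * hh J R (Fintype.card α)) := by
  set K := Fintype.card α with hK
  have hc1 : ∀ n ∈ J, Fintype.card α + 1 ≤ (R n).card := fun n hn => by
    have := h n hn; omega
  have hc0 : ∀ n ∈ J, Fintype.card α + l ≤ (R n).card := fun n hn => by
    have := h n hn; omega
  have hc2 : ∀ n ∈ J, Fintype.card α + Fintype.card (Fin l) ≤ (R n).card := fun n hn => by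
    have := h n hn
    rw [Fintype.card_fin]; omega
  have hc5 : ∀ n ∈ J, Fintype.card α ≤ (R n).card := fun n hn => by
    have := h n hn; omega
  have hN : (Fintype.card Y : ℝ) ≠ 0 := by
    obtain ⟨n, hn⟩ := hJ
    have h0 : 0 < (R n).card := by
      have := h n hn; omega
    obtain ⟨y, _⟩ := card_pos.1 h0
    have : 0 < Fintype.card Y := Fintype.card_pos_iff.2 ⟨y⟩
    exact_mod_cast this.ne'
  let P : (α → Y) × (Fin l → Y) → ℝ := fun x => mu J R (Sum.elim x.1 x.2)
  let Q : (α → Y) × (Fin l → Y) → ℝ := fun x => mu J R x.1 * ∏ i, qq J R x.1 (x.2 i)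
  have hP : ∀ x, 0 ≤ P x := fun x => mu_nonneg _ _ _
  have hQ : ∀ x, 0 ≤ Q x := fun x =>
    mul_nonneg (mu_nonneg _ _ _) (prod_nonneg fun i _ => qq_nonneg _ _ _ _)
  have hvz : ∀ (v : α → Y) (u : Fin l → Y), mu J R (Sum.elim v u) ≠ 0 → mu J R v ≠ 0 := by
    intro v u hz hv
    apply hz
    refine le_antisymm ?_ (mu_nonneg _ _ _)
    rw [← hv]
    exact mu_elim_le J R hc2 v u
  have hqz : ∀ (v : α → Y) (u : Fin l → Y), mu J R (Sum.elim v u) ≠ 0 →
      ∀ i, qq J R v (u i) ≠ 0 := by
    intro v u hz i hq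
    apply hz
    refine le_antisymm ?_ (mu_nonneg _ _ _)
    refine (incl_le J R l hc0 i v u).trans_eq ?_
    rw [mu_sn J R hc1, hq, mul_zero]
  have hPQ : ∀ x, Q x = 0 → P x = 0 := by
    rintro ⟨v, u⟩ hx
    have hx' : mu J R v * ∏ i, qq J R v (u i) = 0 := hx
    show mu J R (Sum.elim v u) = 0
    by_contra hz
    rcases mul_eq_zero.1 hx' with h1 | h1
    · exact hvz v u hz h1
    · obtain ⟨i, _, hi⟩ := prod_eq_zero_iff.1 h1
      exact hqz v u hz i hi
  have hP1 : ∑ x, P x = 1 := by
    rw [Fintype.sum_prod_type, ← sum_mu (α := α) J hJ R hc5]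
    exact sum_congr rfl fun v _ => sum_mu_elim J R hc2 v
  have hQ1 : ∑ x, Q x = 1 := by
    rw [Fintype.sum_prod_type, ← sum_mu (α := α) J hJ R hc5]
    refine sum_congr rfl fun v _ => ?_
    show ∑ u : Fin l → Y, mu J R v * ∏ i, qq J R v (u i) = _
    rw [← mul_sum]
    by_cases hv : mu J R v = 0
    · rw [hv, zero_mul]
    · have e1 : ∑ u : Fin l → Y, ∏ i, qq J R v (u i) = (∑ y, qq J R v y) ^ l := by
        rw [← Fintype.sum_pow]
      rw [e1, sum_qq J R hc1 v hv, one_pow, mul_one]
  have hpin := pinsker P Q hP hQ hPQ hP1 hQ1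
  have hL : ∑ x, |P x - Q x| = ∑ v : α → Y, ∑ u : Fin l → Y,
      |mu J R (Sum.elim v u) - mu J R v * ∏ i, qq J R v (u i)| := by
    rw [Fintype.sum_prod_type]
  have key : ∀ (v : α → Y) (u : Fin l → Y), P (v, u) * Real.log (P (v, u) / Q (v, u)) =
      mu J R (Sum.elim v u) *
        Real.log ((Fintype.card Y : ℝ) ^ (K + l) * mu J R (Sum.elim v u)) -
      mu J R (Sum.elim v u) * Real.log ((Fintype.card Y : ℝ) ^ K * mu J R v) -
      ∑ i : Fin l, mu J R (Sum.elim v u) * Real.log (Fintype.card Y * qq J R v (u i)) := by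
    intro v u
    show mu J R (Sum.elim v u) * Real.log (mu J R (Sum.elim v u) /
      (mu J R v * ∏ i, qq J R v (u i))) = _
    by_cases hz : mu J R (Sum.elim v u) = 0
    · rw [hz]; simp
    · have hv := hvz v u hz
      have hq := hqz v u hz
      have hpr : ∏ i, qq J R v (u i) ≠ 0 := prod_ne_zero_iff.2 fun i _ => hq i
      have hlp : Real.log (∏ i, qq J R v (u i)) = ∑ i, Real.log (qq J R v (u i)) :=
        Real.log_prod fun i _ => hq i
      have hs : ∑ i : Fin l, Real.log (Fintype.card Y * qq J R v (u i)) =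
          l * Real.log (Fintype.card Y) + ∑ i, Real.log (qq J R v (u i)) := by
        rw [sum_congr rfl fun i _ => Real.log_mul hN (hq i), sum_add_distrib, sum_const, card_univ,
          Fintype.card_fin, nsmul_eq_mul]
      rw [← mul_sum, ← mul_sub, ← mul_sub, hs, Real.log_div hz (mul_ne_zero hv hpr),
        Real.log_mul hv hpr, hlp, Real.log_mul (pow_ne_zero _ hN) hz,
        Real.log_mul (pow_ne_zero _ hN) hv, Real.log_pow, Real.log_pow]
      push_cast
      ring
  have hR : ∑ x, P x * Real.log (P x / Q x) =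
      Ent J R (K + l) - Ent J R K - l * hh J R K := by
    have e1 : ∑ v : α → Y, ∑ u : Fin l → Y, mu J R (Sum.elim v u) *
        Real.log ((Fintype.card Y : ℝ) ^ (K + l) * mu J R (Sum.elim v u)) =
        Ent J R (K + l) := by
      have h1 := Ent_eq (α := α ⊕ Fin l) J R
      have hc : Fintype.card (α ⊕ Fin l) = K + l := by
        rw [Fintype.card_sum, Fintype.card_fin]
      rw [incl_sum_elim, hc] at h1
      exact h1
    have e2 : ∑ v : α → Y, ∑ u : Fin l → Y, mu J R (Sum.elim v u) *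
        Real.log ((Fintype.card Y : ℝ) ^ K * mu J R v) = Ent J R K := by
      rw [hK, ← Ent_eq (α := α) J R]
      refine sum_congr rfl fun v _ => ?_
      rw [← sum_mul, sum_mu_elim J R hc2 v]
    have e3 : ∑ v : α → Y, ∑ u : Fin l → Y, ∑ i : Fin l, mu J R (Sum.elim v u) *
        Real.log (Fintype.card Y * qq J R v (u i)) = l * hh J R K := by
      have e4 : ∀ i : Fin l, ∑ v : α → Y, ∑ u : Fin l → Y, mu J R (Sum.elim v u) *
          Real.log (Fintype.card Y * qq J R v (u i)) = hh J R K := by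
        intro i
        rw [hK, ← inc_one (α := α) J hJ R hc1]
        refine sum_congr rfl fun v _ => ?_
        exact incl_marg J R l hc0 i v (fun y => Real.log (Fintype.card Y * qq J R v y))
      have e5 : ∑ v : α → Y, ∑ u : Fin l → Y, ∑ i : Fin l, mu J R (Sum.elim v u) *
          Real.log (Fintype.card Y * qq J R v (u i)) =
          ∑ i : Fin l, ∑ v : α → Y, ∑ u : Fin l → Y, mu J R (Sum.elim v u) *
          Real.log (Fintype.card Y * qq J R v (u i)) := by
        refine (sum_congr rfl fun v _ => sum_comm).trans ?_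
        exact sum_comm
      rw [e5, sum_congr rfl fun i _ => e4 i, sum_const, card_univ, Fintype.card_fin, nsmul_eq_mul]
    rw [← e1, ← e2, ← e3, ← sum_sub_distrib, ← sum_sub_distrib, Fintype.sum_prod_type]
    refine sum_congr rfl fun v _ => ?_
    rw [← sum_sub_distrib, ← sum_sub_distrib]
    exact sum_congr rfl fun u _ => key v u
  rw [hL, hR] at hpin
  exact hpin

end Pool.Agent.Lib.MP_092512_nt.QC
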