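import Pool.Agent.Lib.MP_092512_nt.QC.Defs

/-!
# Law: the sampling laws `mu` are probabilities, exchangeable and consistent

PROOF. `wt R v` is the law of a uniform injective tuple in `R`: the number of injective `v : α → Y` with values in `R` is
`R.card.descFactorial (card α)` (`Fintype.card_embedding_eq`), which is positive if `card α ≤ R.card`
(`Nat.descFactorial_pos` or `Nat.pos_of_ne_zero`/`Nat.descFactorial_eq_zero_iff_lt`).
`mu_comp`: injectivity and membership are invariant under an equivalence, `Fintype.card` too.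
`sum_wt_elim`: for fixed injective `v` with values in `R` the `u` with `Sum.elim v u` injective with values in `R` are the injective
tuples in `R \ image v`, their number is `(R.card - card α).descFactorial (card β)`, and
`R.card.descFactorial (card α + card β) = R.card.descFactorial (card α) * (R.card - card α).descFactorial (card β)`
(`Nat.descFactorial_mul_descFactorial` or similar); if `v` is not injective or not in `R` both sides are `0`. Average over `n`.
`mu_sn`: if `mu v = 0` then by `sum_mu_elim` and nonnegativity `mu (sn v y) = 0`.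
-/

set_option autoImplicit false
set_option linter.unusedSectionVars false

open Finset

namespace Pool.Agent.Lib.MP_092512_nt.QC

variable {ι Y α β : Type} [Fintype Y] [Fintype α] [Fintype β] [DecidableEq α] [DecidableEq β]

theorem wt_nonneg (R : Finset Y) (v : α → Y) : 0 ≤ wt R v := by
  unfold wt
  split_ifs <;> positivity

theorem mu_nonneg (J : Finset ι) (R : ι → Finset Y) (v : α → Y) : 0 ≤ mu J R v := by
  unfold mu
  exact div_nonneg (sum_nonneg fun n _ => wt_nonneg _ _) (Nat.cast_nonneg _)

omit [DecidableEq β] [DecidableEq α] in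
private theorem wt_comp (R : Finset Y) (e : β ≃ α) (v : α → Y) : wt R (v ∘ e) = wt R v := by
  unfold wt
  have h1 : (Function.Injective (v ∘ e) ∧ ∀ i, (v ∘ e) i ∈ R) ↔
      (Function.Injective v ∧ ∀ i, v i ∈ R) := by
    constructor
    · rintro ⟨h1, h2⟩
      exact ⟨(e.injective_comp v).1 h1, fun i => by have := h2 (e.symm i); simpa using this⟩
    · rintro ⟨h1, h2⟩
      exact ⟨(e.injective_comp v).2 h1, fun i => h2 (e i)⟩
  rw [Fintype.card_congr e]
  by_cases h : Function.Injective v ∧ ∀ i, v i ∈ R
  · rw [if_pos h, if_pos (h1.2 h)]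
  · rw [if_neg h, if_neg (fun h2 => h (h1.1 h2))]

theorem mu_comp (J : Finset ι) (R : ι → Finset Y) (e : β ≃ α) (v : α → Y) :
    mu J R (v ∘ e) = mu J R v := by
  unfold mu
  rw [sum_congr rfl fun n _ => wt_comp (R n) e v]

open Classical in
private theorem law_cnt (S : Finset Y) :
    (univ.filter (fun u : β → Y => Function.Injective u ∧ ∀ b, u b ∈ S)).card =
      S.card.descFactorial (Fintype.card β) := by
  rw [← Fintype.card_subtype]
  have e : {u : β → Y // Function.Injective u ∧ ∀ b, u b ∈ S} ≃ (β ↪ S) :=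
    { toFun := fun u => ⟨fun b => ⟨u.1 b, u.2.2 b⟩, fun a b h => u.2.1 (congrArg Subtype.val h)⟩
      invFun := fun f => ⟨fun b => (f b).1, fun a b h => f.2 (Subtype.ext h), fun b => (f b).2⟩
      left_inv := fun u => rfl
      right_inv := fun f => rfl }
  rw [Fintype.card_congr e, Fintype.card_embedding_eq, Fintype.card_coe]

open Classical in
private theorem law_sum (S : Finset Y) (x : ℝ) :
    ∑ u : β → Y, (if Function.Injective u ∧ ∀ b, u b ∈ S then x else 0) =
      ((S.card.descFactorial (Fintype.card β) : ℕ) : ℝ) * x := by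
  rw [← sum_filter, sum_const, nsmul_eq_mul, law_cnt]

theorem sum_wt_elim (R : Finset Y) (h : Fintype.card α + Fintype.card β ≤ R.card) (v : α → Y) :
    ∑ u : β → Y, wt R (Sum.elim v u) = wt R v := by
  classical
  by_cases hv : Function.Injective v ∧ ∀ i, v i ∈ R
  · have h1 : ∀ u : β → Y, wt R (Sum.elim v u) =
        if Function.Injective u ∧ ∀ b, u b ∈ R \ univ.image v then
          1 / ((R.card.descFactorial (Fintype.card (α ⊕ β)) : ℕ) : ℝ) else 0 := by
      intro u
      unfold wt
      have h2 : (Function.Injective (Sum.elim v u) ∧ ∀ i, (Sum.elim v u) i ∈ R) ↔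
          (Function.Injective u ∧ ∀ b, u b ∈ R \ univ.image v) := by
        constructor
        · rintro ⟨h2, h3⟩
          refine ⟨fun a b hab => ?_, fun b => ?_⟩
          · have := @h2 (Sum.inr a) (Sum.inr b) hab
            exact Sum.inr_injective this
          · rw [mem_sdiff, mem_image]
            refine ⟨h3 (Sum.inr b), ?_⟩
            rintro ⟨a, -, hab⟩
            have := @h2 (Sum.inl a) (Sum.inr b) hab
            cases this
        · rintro ⟨h2, h3⟩
          refine ⟨?_, ?_⟩
          · rintro (a | a) (b | b) hab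
            · exact congrArg _ (hv.1 hab)
            · exfalso
              have h4 := h3 b
              rw [mem_sdiff, mem_image] at h4
              exact h4.2 ⟨a, mem_univ _, hab⟩
            · exfalso
              have h4 := h3 a
              rw [mem_sdiff, mem_image] at h4
              exact h4.2 ⟨b, mem_univ _, hab.symm⟩
            · exact congrArg _ (h2 hab)
          · rintro (a | b)
            · exact hv.2 a
            · exact (mem_sdiff.1 (h3 b)).1
      by_cases h3 : Function.Injective u ∧ ∀ b, u b ∈ R \ univ.image v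
      · rw [if_pos h3, if_pos (h2.2 h3)]
      · rw [if_neg h3, if_neg (fun h4 => h3 (h2.1 h4))]
    rw [sum_congr rfl fun u _ => h1 u, law_sum]
    have h2 : (R \ univ.image v).card = R.card - Fintype.card α := by
      rw [card_sdiff_of_subset (by
        intro y hy
        obtain ⟨a, -, rfl⟩ := mem_image.1 hy
        exact hv.2 a), card_image_of_injective _ hv.1, card_univ]
    have h3 : R.card.descFactorial (Fintype.card (α ⊕ β)) =
        (R.card - Fintype.card α).descFactorial (Fintype.card β) *
          R.card.descFactorial (Fintype.card α) := by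
      rw [Fintype.card_sum, ← Nat.descFactorial_mul_descFactorial
        (Nat.le_add_right (Fintype.card α) (Fintype.card β)), Nat.add_sub_cancel_left]
    have h4 : (R.card - Fintype.card α).descFactorial (Fintype.card β) ≠ 0 := by
      rw [Ne, Nat.descFactorial_eq_zero_iff_lt]
      omega
    have h5 : R.card.descFactorial (Fintype.card α) ≠ 0 := by
      rw [Ne, Nat.descFactorial_eq_zero_iff_lt]
      omega
    unfold wt
    rw [if_pos hv, h2, h3, Nat.cast_mul]
    have h4' : (((R.card - Fintype.card α).descFactorial (Fintype.card β) : ℕ) : ℝ) ≠ 0 :=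
      Nat.cast_ne_zero.2 h4
    have h5' : ((R.card.descFactorial (Fintype.card α) : ℕ) : ℝ) ≠ 0 := Nat.cast_ne_zero.2 h5
    field_simp
  · have h1 : ∀ u : β → Y, wt R (Sum.elim v u) = 0 := by
      intro u
      unfold wt
      rw [if_neg]
      rintro ⟨h2, h3⟩
      refine hv ⟨fun a b hab => ?_, fun a => h3 (Sum.inl a)⟩
      have := @h2 (Sum.inl a) (Sum.inl b) hab
      exact Sum.inl_injective this
    rw [sum_congr rfl fun u _ => h1 u, sum_const_zero]
    unfold wt
    rw [if_neg hv]

theorem sum_wt (R : Finset Y) (h : Fintype.card α ≤ R.card) : ∑ v : α → Y, wt R v = 1 := by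
  classical
  unfold wt
  rw [law_sum]
  have h5 : R.card.descFactorial (Fintype.card α) ≠ 0 := by
    rw [Ne, Nat.descFactorial_eq_zero_iff_lt]
    omega
  have h5' : ((R.card.descFactorial (Fintype.card α) : ℕ) : ℝ) ≠ 0 := Nat.cast_ne_zero.2 h5
  exact mul_one_div_cancel h5'

theorem sum_mu_elim (J : Finset ι) (R : ι → Finset Y)
    (h : ∀ n ∈ J, Fintype.card α + Fintype.card β ≤ (R n).card) (v : α → Y) :
    ∑ u : β → Y, mu J R (Sum.elim v u) = mu J R v := by
  unfold mu
  rw [← sum_div, sum_comm, sum_congr rfl fun n hn => sum_wt_elim (R n) (h n hn) v]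

theorem sum_mu (J : Finset ι) (hJ : J.Nonempty) (R : ι → Finset Y)
    (h : ∀ n ∈ J, Fintype.card α ≤ (R n).card) : ∑ v : α → Y, mu J R v = 1 := by
  unfold mu
  rw [← sum_div, sum_comm, sum_congr rfl fun n hn => sum_wt (R n) (h n hn), sum_const,
    nsmul_eq_mul, mul_one]
  exact div_self (Nat.cast_ne_zero.2 (card_ne_zero.2 hJ))

theorem mu_elim_le (J : Finset ι) (R : ι → Finset Y)
    (h : ∀ n ∈ J, Fintype.card α + Fintype.card β ≤ (R n).card) (v : α → Y) (u : β → Y) :
    mu J R (Sum.elim v u) ≤ mu J R v := by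
  rw [← sum_mu_elim J R h v]
  exact single_le_sum (f := fun u : β → Y => mu J R (Sum.elim v u))
    (fun u _ => mu_nonneg J R _) (mem_univ u)

/-- consistency for one more point -/
theorem sum_mu_sn (J : Finset ι) (R : ι → Finset Y)
    (h : ∀ n ∈ J, Fintype.card α + 1 ≤ (R n).card) (v : α → Y) :
    ∑ y : Y, mu J R (sn v y) = mu J R v := by
  rw [← sum_mu_elim (β := Unit) J R (by simpa using h) v]
  symm
  exact Fintype.sum_equiv (Equiv.funUnique Unit Y) _ _ (fun u => rfl)

theorem qq_nonneg (J : Finset ι) (R : ι → Finset Y) (v : α → Y) (y : Y) : 0 ≤ qq J R v y :=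
  div_nonneg (mu_nonneg _ _ _) (mu_nonneg _ _ _)

theorem phi_nonneg (J : Finset ι) (R : ι → Finset Y) (v : α → Y) (y : Y) : 0 ≤ phi J R v y :=
  mul_nonneg (Nat.cast_nonneg _) (qq_nonneg _ _ _ _)

theorem mu_sn (J : Finset ι) (R : ι → Finset Y)
    (h : ∀ n ∈ J, Fintype.card α + 1 ≤ (R n).card) (v : α → Y) (y : Y) :
    mu J R (sn v y) = mu J R v * qq J R v y := by
  unfold qq
  by_cases hv : mu J R v = 0
  · rw [hv, zero_mul]
    refine le_antisymm ?_ (mu_nonneg _ _ _)
    rw [← hv]
    exact mu_elim_le (β := Unit) J R (by simpa using h) v (fun _ => y)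
  · rw [mul_div_cancel₀ _ hv]

theorem sum_qq (J : Finset ι) (R : ι → Finset Y)
    (h : ∀ n ∈ J, Fintype.card α + 1 ≤ (R n).card) (v : α → Y) (hv : mu J R v ≠ 0) :
    ∑ y : Y, qq J R v y = 1 := by
  unfold qq
  rw [← sum_div, sum_mu_sn J R h v, div_self hv]

/-- the mass of a set of tuples of new points -/
theorem sum_mu_filter (J : Finset ι) (R : ι → Finset Y)
    (h : ∀ n ∈ J, Fintype.card α + Fintype.card β ≤ (R n).card) (B : Finset (β → Y)) :
    ∑ v : α → Y, ∑ u ∈ B, mu J R (Sum.elim v u) = ∑ u ∈ B, mu J R u := by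
  rw [sum_comm]
  refine sum_congr rfl fun u _ => ?_
  rw [← sum_mu_elim (β := α) J R (fun n hn => by rw [add_comm]; exact h n hn) u]
  refine sum_congr rfl fun v _ => ?_
  rw [← mu_comp J R (Equiv.sumComm α β) (Sum.elim u v)]
  congr 1
  funext x
  rcases x with a | b <;> rfl

private theorem law_tr (f : ℝ → ℝ) (J : Finset ι) (R : ι → Finset Y) :
    ∑ v : α → Y, f (mu J R v) = ∑ v : Fin (Fintype.card α) → Y, f (mu J R v) := by
  refine Fintype.sum_equiv (Equiv.arrowCongr (Fintype.equivFin α) (Equiv.refl Y)) _ _ fun v => ?_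
  show f (mu J R v) = f (mu J R (v ∘ (Fintype.equivFin α).symm))
  rw [mu_comp]

theorem Ent_eq (J : Finset ι) (R : ι → Finset Y) :
    ∑ v : α → Y, mu J R v * Real.log ((Fintype.card Y : ℝ) ^ (Fintype.card α) * mu J R v) =
      Ent J R (Fintype.card α) :=
  law_tr (fun x => x * Real.log ((Fintype.card Y : ℝ) ^ (Fintype.card α) * x)) J R

theorem GG_eq (J : Finset ι) (R : ι → Finset Y) :
    (Fintype.card Y : ℝ) ^ (Fintype.card α) * ∑ v : α → Y, (mu J R v) ^ 2 =
      GG J R (Fintype.card α) := by
  unfold GG
  rw [law_tr (fun x => x ^ 2) J R]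

end Pool.Agent.Lib.MP_092512_nt.QC
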