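import Pool.Agent.Lib.MP_092512_nt.QC.Law
import Pool.Agent.Lib.MP_092512_nt.QC.Av

/-!
# LemG: the conditional law sees a fixed test function as the average over `n` does
-/

set_option autoImplicit false
set_option linter.unusedSectionVars false

open Finset

namespace Pool.Agent.Lib.MP_092512_nt.QC

variable {ι Y α β : Type} [Fintype Y] [Fintype α] [Fintype β] [DecidableEq α] [DecidableEq β]

/-- the average of `g` under the conditional law of the next point -/
noncomputable def Gv (J : Finset ι) (R : ι → Finset Y) (v : β → Y) (g : Y → ℝ) : ℝ :=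
  ∑ y, qq J R v y * g y

open Classical in
private theorem lemG_wt (R : Finset Y) (h : Fintype.card β + 1 ≤ R.card) (v : β → Y) (y : Y) :
    wt R (sn v y) = wt R v * (if y ∈ R ∧ ∀ i, v i ≠ y then
      1 / ((R.card : ℝ) - Fintype.card β) else 0) := by
  have hinj : Function.Injective (sn v y) ↔ Function.Injective v ∧ ∀ i, v i ≠ y := by
    constructor
    · intro hi
      refine ⟨fun a b hab => ?_, fun i hiy => ?_⟩
      · have := @hi (Sum.inl a) (Sum.inl b) (by simpa [sn] using hab)
        exact Sum.inl_injective this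
      · have := @hi (Sum.inl i) (Sum.inr ()) (by simpa [sn] using hiy)
        exact absurd this (by simp)
    · rintro ⟨h1, h2⟩ a b hab
      rcases a with a | a <;> rcases b with b | b
      · simp only [sn, Sum.elim_inl] at hab
        rw [h1 hab]
      · exact absurd (by simpa [sn] using hab) (h2 a)
      · exact absurd (by simpa [sn] using hab.symm) (h2 b)
      · rfl
  have hmem : (∀ i, sn v y i ∈ R) ↔ (∀ i, v i ∈ R) ∧ y ∈ R := by
    constructor
    · intro hi
      exact ⟨fun i => hi (Sum.inl i), hi (Sum.inr ())⟩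
    · rintro ⟨h1, h2⟩ i
      rcases i with i | i
      · exact h1 i
      · exact h2
  have hcard : Fintype.card (β ⊕ Unit) = Fintype.card β + 1 := by simp
  have hd : ((R.card.descFactorial (Fintype.card β + 1) : ℕ) : ℝ) =
      ((R.card : ℝ) - Fintype.card β) * ((R.card.descFactorial (Fintype.card β) : ℕ) : ℝ) := by
    rw [Nat.descFactorial_succ, Nat.cast_mul, Nat.cast_sub (by omega)]
  unfold wt
  rw [hcard, hd]
  by_cases h1 : Function.Injective v ∧ ∀ i, v i ∈ R
  · by_cases h2 : y ∈ R ∧ ∀ i, v i ≠ y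
    · rw [if_pos ⟨hinj.mpr ⟨h1.1, h2.2⟩, hmem.mpr ⟨h1.2, h2.1⟩⟩, if_pos h1, if_pos h2]
      rw [one_div_mul_one_div, mul_comm]
    · rw [if_neg, if_pos h1, if_neg h2, mul_zero]
      rintro ⟨h3, h4⟩
      exact h2 ⟨(hmem.mp h4).2, (hinj.mp h3).2⟩
  · rw [if_neg, if_neg h1, zero_mul]
    rintro ⟨h3, h4⟩
    exact h1 ⟨(hinj.mp h3).1, (hmem.mp h4).1⟩

open Classical in
private theorem lemG_sum (R : Finset Y) (v : β → Y) (g : Y → ℝ) (hg : ∀ y, |g y| ≤ 2) :
    |∑ y, (if y ∈ R ∧ ∀ i, v i ≠ y then g y else 0)| ≤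
      |∑ y ∈ R, g y| + 2 * Fintype.card β := by
  have e1 : ∑ y, (if y ∈ R ∧ ∀ i, v i ≠ y then g y else 0) =
      ∑ y ∈ R, g y - ∑ y ∈ R.filter (fun y => ¬ ∀ i, v i ≠ y), g y := by
    rw [eq_sub_iff_add_eq, ← sum_filter]
    have : (univ.filter (fun y => y ∈ R ∧ ∀ i, v i ≠ y)) = R.filter (fun y => ∀ i, v i ≠ y) := by
      ext y
      simp
    rw [this]
    exact sum_filter_add_sum_filter_not R _ _
  rw [e1]
  have e2 : |∑ y ∈ R.filter (fun y => ¬ ∀ i, v i ≠ y), g y| ≤ 2 * Fintype.card β := by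
    calc |∑ y ∈ R.filter (fun y => ¬ ∀ i, v i ≠ y), g y|
        ≤ ∑ y ∈ R.filter (fun y => ¬ ∀ i, v i ≠ y), |g y| := abs_sum_le_sum_abs _ _
      _ ≤ ∑ y ∈ R.filter (fun y => ¬ ∀ i, v i ≠ y), (2 : ℝ) := sum_le_sum fun y _ => hg y
      _ = 2 * ((R.filter (fun y => ¬ ∀ i, v i ≠ y)).card : ℝ) := by
          rw [sum_const, nsmul_eq_mul, mul_comm]
      _ ≤ 2 * Fintype.card β := by
          have : (R.filter (fun y => ¬ ∀ i, v i ≠ y)).card ≤ Fintype.card β := by
            calc (R.filter (fun y => ¬ ∀ i, v i ≠ y)).card ≤ (univ.image v).card := by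
                  apply card_le_card
                  intro y hy
                  simp only [mem_filter, not_forall, not_not] at hy
                  obtain ⟨_, i, hi⟩ := hy
                  exact mem_image.mpr ⟨i, mem_univ _, hi⟩
              _ ≤ (univ : Finset β).card := card_image_le
              _ = Fintype.card β := card_univ
          have h2 : ((R.filter (fun y => ¬ ∀ i, v i ≠ y)).card : ℝ) ≤ Fintype.card β := by
            exact_mod_cast this
          linarith
  have := abs_sub (∑ y ∈ R, g y) (∑ y ∈ R.filter (fun y => ¬ ∀ i, v i ≠ y), g y)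
  linarith

theorem lemL_G (J : Finset ι) (hJ : J.Nonempty) (R : ι → Finset Y) (c : Y → ℕ) (τ m0 : ℝ)
    (hm0 : 1 ≤ m0) (h1 : ∀ n ∈ J, m0 ≤ (R n).card)
    (h2 : ∀ n ∈ J, 2 * Fintype.card β + 1 ≤ (R n).card)
    (hP : ∀ B : Finset Y, ∑ n ∈ J, (pav (R n) (fun y => ind B y - av c (ind B) y)) ^ 2 ≤
      τ ^ 2 * J.card) (B : Finset Y) :
    ∑ v : β → Y, mu J R v * (Gv J R v (fun y => 2 * (ind B y - av c (ind B) y))) ^ 2 ≤
      32 * τ ^ 2 + 32 * (Fintype.card β : ℝ) ^ 2 / m0 ^ 2 := by
  classical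
  have hJc : (0 : ℝ) < J.card := by exact_mod_cast hJ.card_pos
  set K : ℝ := (Fintype.card β : ℝ) with hK
  have hK0 : 0 ≤ K := Nat.cast_nonneg _
  set g : Y → ℝ := fun y => 2 * (ind B y - av c (ind B) y) with hgdef
  -- bound of g
  have hg : ∀ y, |g y| ≤ 2 := by
    intro y
    have a1 : 0 ≤ ind B y ∧ ind B y ≤ 1 := by
      unfold ind; split_ifs <;> norm_num
    have a2 : 0 ≤ av c (ind B) y := av_nonneg c _ (fun z => by unfold ind; split_ifs <;> norm_num) y
    have a3 : |av c (ind B) y| ≤ 1 := av_abs_le c _ 1 (fun z => by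
      unfold ind; split_ifs <;> norm_num) y
    have a4 : av c (ind B) y ≤ 1 := (abs_le.mp a3).2
    rw [hgdef]
    simp only
    rw [abs_le]
    constructor <;> linarith [a1.1, a1.2]
  -- the inner average
  set a : ι → (β → Y) → ℝ := fun n v =>
    (∑ y, (if y ∈ R n ∧ ∀ i, v i ≠ y then g y else 0)) / (((R n).card : ℝ) - K) with ha
  have hcardle : ∀ n ∈ J, Fintype.card β + 1 ≤ (R n).card := fun n hn => by
    have := h2 n hn; omega
  -- formula
  have hform : ∀ v : β → Y, mu J R v * Gv J R v g = (∑ n ∈ J, wt (R n) v * a n v) / J.card := by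
    intro v
    unfold Gv
    rw [mul_sum]
    have e1 : ∀ y ∈ (univ : Finset Y), mu J R v * (qq J R v y * g y) =
        (∑ n ∈ J, wt (R n) (sn v y) * g y) / J.card := by
      intro y _
      rw [← mul_assoc, ← mu_sn J R hcardle v y]
      unfold mu
      rw [div_mul_eq_mul_div, sum_mul]
    rw [sum_congr rfl e1, ← sum_div, sum_comm]
    congr 1
    refine sum_congr rfl fun n hn => ?_
    rw [ha]
    simp only
    rw [← mul_div_assoc, mul_sum, sum_div]
    refine sum_congr rfl fun y _ => ?_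
    rw [lemG_wt (R n) (hcardle n hn) v y]
    split_ifs
    · rw [hK]; ring
    · simp
  -- bound of a
  have hRpos : ∀ n ∈ J, (0 : ℝ) < (R n).card := fun n hn => by
    have := h1 n hn; linarith
  have habd : ∀ n ∈ J, ∀ v : β → Y, (a n v) ^ 2 ≤
      32 * (pav (R n) (fun y => ind B y - av c (ind B) y)) ^ 2 + 32 * K ^ 2 / m0 ^ 2 := by
    intro n hn v
    have hr := hRpos n hn
    have hr2 : 2 * K + 1 ≤ ((R n).card : ℝ) := by
      have := h2 n hn
      rw [hK]; exact_mod_cast this
    have hden : ((R n).card : ℝ) / 2 ≤ ((R n).card : ℝ) - K := by linarith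
    have hden0 : 0 < ((R n).card : ℝ) - K := by linarith
    have hs := lemG_sum (R n) v g hg
    have hpav : ∑ y ∈ R n, g y = 2 * (pav (R n) (fun y => ind B y - av c (ind B) y)) *
        (R n).card := by
      unfold pav
      rw [hgdef]
      simp only
      rw [← mul_sum]
      field_simp
    set P := pav (R n) (fun y => ind B y - av c (ind B) y) with hPdef
    have hab : |a n v| ≤ 4 * |P| + 4 * K / m0 := by
      rw [ha]
      simp only
      rw [abs_div, abs_of_pos hden0]
      calc |∑ y, (if y ∈ R n ∧ ∀ i, v i ≠ y then g y else 0)| / (((R n).card : ℝ) - K)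
          ≤ (|∑ y ∈ R n, g y| + 2 * K) / (((R n).card : ℝ) / 2) := by
            apply div_le_div₀ _ hs (by linarith) hden
            positivity
        _ = 4 * |P| + 4 * K / (R n).card := by
            rw [hpav, abs_mul, abs_mul, abs_of_pos hr, abs_of_pos (by norm_num : (0:ℝ) < 2)]
            field_simp
            ring
        _ ≤ 4 * |P| + 4 * K / m0 := by
            gcongr
            exact h1 n hn
    have h3 : (a n v) ^ 2 ≤ (4 * |P| + 4 * K / m0) ^ 2 := by
      rw [← sq_abs (a n v)]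
      exact pow_le_pow_left₀ (abs_nonneg _) hab 2
    have h4 : (4 * |P| + 4 * K / m0) ^ 2 ≤ 32 * P ^ 2 + 32 * K ^ 2 / m0 ^ 2 := by
      have e : 32 * P ^ 2 + 32 * K ^ 2 / m0 ^ 2 - (4 * |P| + 4 * K / m0) ^ 2 =
          (4 * |P| - 4 * K / m0) ^ 2 := by
        rw [← sq_abs P]
        field_simp
        ring
      nlinarith [sq_nonneg (4 * |P| - 4 * K / m0)]
    linarith
  -- Cauchy Schwarz
  have hCS : ∀ v : β → Y, mu J R v * (Gv J R v g) ^ 2 ≤
      (∑ n ∈ J, wt (R n) v * (a n v) ^ 2) / J.card := by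
    intro v
    have hmu0 := mu_nonneg J R v
    rcases hmu0.lt_or_eq with hpos | hz
    · have h5 : (mu J R v * Gv J R v g) ^ 2 ≤ mu J R v *
          ((∑ n ∈ J, wt (R n) v * (a n v) ^ 2) / J.card) := by
        rw [hform v]
        have cs := sum_mul_sq_le_sq_mul_sq J (fun n => Real.sqrt (wt (R n) v))
          (fun n => Real.sqrt (wt (R n) v) * a n v)
        have f1 : ∀ n ∈ J, Real.sqrt (wt (R n) v) * (Real.sqrt (wt (R n) v) * a n v) =
            wt (R n) v * a n v := fun n _ => by
          rw [← mul_assoc, Real.mul_self_sqrt (wt_nonneg _ _)]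
        have f2 : ∀ n ∈ J, Real.sqrt (wt (R n) v) ^ 2 = wt (R n) v := fun n _ => by
          rw [Real.sq_sqrt (wt_nonneg _ _)]
        have f3 : ∀ n ∈ J, (Real.sqrt (wt (R n) v) * a n v) ^ 2 = wt (R n) v * (a n v) ^ 2 :=
          fun n _ => by
            rw [mul_pow, Real.sq_sqrt (wt_nonneg _ _)]
        rw [sum_congr rfl f1, sum_congr rfl f2, sum_congr rfl f3] at cs
        unfold mu
        rw [div_pow, div_mul_div_comm, ← sq]
        exact div_le_div_of_nonneg_right cs (by positivity)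
      have h6 : mu J R v * (mu J R v * (Gv J R v g) ^ 2) ≤ mu J R v *
          ((∑ n ∈ J, wt (R n) v * (a n v) ^ 2) / J.card) := by
        calc mu J R v * (mu J R v * (Gv J R v g) ^ 2) = (mu J R v * Gv J R v g) ^ 2 := by ring
          _ ≤ _ := h5
      exact le_of_mul_le_mul_left h6 hpos
    · rw [← hz, zero_mul]
      exact div_nonneg (sum_nonneg fun n _ => mul_nonneg (wt_nonneg _ _) (sq_nonneg _)) hJc.le
  calc ∑ v : β → Y, mu J R v * (Gv J R v g) ^ 2
      ≤ ∑ v : β → Y, (∑ n ∈ J, wt (R n) v * (a n v) ^ 2) / J.card := sum_le_sum fun v _ => hCS v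
    _ = (∑ n ∈ J, ∑ v : β → Y, wt (R n) v * (a n v) ^ 2) / J.card := by
        rw [← sum_div, sum_comm]
    _ ≤ (∑ n ∈ J, (32 * (pav (R n) (fun y => ind B y - av c (ind B) y)) ^ 2 +
          32 * K ^ 2 / m0 ^ 2)) / J.card := by
        apply div_le_div_of_nonneg_right _ hJc.le
        refine sum_le_sum fun n hn => ?_
        calc ∑ v : β → Y, wt (R n) v * (a n v) ^ 2
            ≤ ∑ v : β → Y, wt (R n) v *
              (32 * (pav (R n) (fun y => ind B y - av c (ind B) y)) ^ 2 + 32 * K ^ 2 / m0 ^ 2) :=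
              sum_le_sum fun v _ => mul_le_mul_of_nonneg_left (habd n hn v) (wt_nonneg _ _)
          _ = _ := by
              rw [← sum_mul, sum_wt (R n) (by have := hcardle n hn; omega), one_mul]
    _ ≤ 32 * τ ^ 2 + 32 * K ^ 2 / m0 ^ 2 := by
        rw [sum_add_distrib, ← mul_sum, sum_const, nsmul_eq_mul, div_le_iff₀ hJc]
        have := hP B
        nlinarith

end Pool.Agent.Lib.MP_092512_nt.QC
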