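import Pool.Agent.Lib.MP_092512_nt.QC.Inc2
import Pool.Agent.Lib.MP_092512_nt.QC.LemG

/-!
# LemL: the conditional density is close to its cell averages (Lemma L of the text)

`N = card Y`, `K1 = card α`, `K2 = card β`. PROOF. `D u y = phi u y - av c (phi u) y`, `B u = {y : D u y ≥ 0}`, `b u = 2 ind (B u) - 1` (the sign),
`g u y = b u y - av c (b u) y = 2 (ind (B u) y - av c (ind (B u)) y)`, `|g u| ≤ 2`. `(1/N) ∑_y |D u y| = (1/N) ∑_y D u y b u y = (1/N) ∑_y phi u y g u y`
(`sum_av_mul`), times `mu u`: `∑_y mu (sn u y) g u y` (`mu_sn`). Sum over `u`, insert `v : β → Y` (consistency and `mu_comp`: `mu (sn u y)` is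
`∑_v mu (sn (Sum.elim v u) y)`): `= ∑_{v,u,y} mu (sn (Sum.elim v u) y) g u y`. By `tv_next` (roles: base `β`, extra `α`) this is
`≤ ∑_{v,u} mu (Sum.elim v u) |Gv v (g u)| + 2 √(2 δ)`. Last: the `v` with `N^K2 mu v < δ2` contribute `≤ 2 δ2` (`|Gv| ≤ 2`, sum over `u` first, there are
`N^K2` tuples `v`); for the others Cauchy-Schwarz: `≤ (∑ mu(v,u)^2)^(1/2) (∑_u ∑_{v : N^K2 mu v ≥ δ2} (Gv v (g u))^2)^(1/2)` and
`∑_v [..] (Gv)^2 ≤ (N^K2/δ2) ∑_v mu v (Gv)^2 ≤ N^K2 θ/δ2` (`lemL_G`, `B = B u` fixed), sum over `u`: factor `N^K1`; together `(GG (K1+K2) θ/δ2)^(1/2)` (`GG_eq`).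
-/

set_option autoImplicit false
set_option linter.unusedSectionVars false

open Finset

namespace Pool.Agent.Lib.MP_092512_nt.QC

variable {ι Y α β : Type} [Fintype Y] [Fintype α] [Fintype β] [DecidableEq α] [DecidableEq β]

private theorem leml_ind0 (B : Finset Y) (z : Y) : 0 ≤ ind B z := by
  unfold ind
  split_ifs <;> norm_num

private theorem leml_ind1 (B : Finset Y) (z : Y) : ind B z ≤ 1 := by
  unfold ind
  split_ifs <;> norm_num

private theorem leml_bound (c : Y → ℕ) (B : Finset Y) (y : Y) :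
    |2 * (ind B y - av c (ind B) y)| ≤ 2 := by
  have h2 := av_nonneg c (ind B) (leml_ind0 B) y
  have h3 := av_abs_le c (ind B) 1 (fun z => by
    rw [abs_of_nonneg (leml_ind0 B z)]; exact leml_ind1 B z) y
  have h4 := le_abs_self (av c (ind B) y)
  have h5 := leml_ind0 B y
  have h6 := leml_ind1 B y
  rw [abs_le]
  constructor <;> linarith

private theorem leml_abs (c : Y → ℕ) (f : Y → ℝ) : ∃ B : Finset Y,
    ∑ y, |f y - av c f y| = ∑ y, f y * (2 * (ind B y - av c (ind B) y)) := by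
  classical
  refine ⟨univ.filter (fun y => 0 ≤ f y - av c f y), ?_⟩
  set B := univ.filter (fun y => 0 ≤ f y - av c f y) with hB
  have h1 : ∀ y, |f y - av c f y| = 2 * (f y * ind B y) - 2 * (av c f y * ind B y) -
      (f y - av c f y) := by
    intro y
    by_cases h : 0 ≤ f y - av c f y
    · have h2 : ind B y = 1 := by
        unfold ind
        rw [if_pos (by rw [hB, mem_filter]; exact ⟨mem_univ _, h⟩)]
      rw [abs_of_nonneg h, h2]
      ring
    · have h2 : ind B y = 0 := by
        unfold ind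
        rw [if_neg (by rw [hB, mem_filter]; exact fun h3 => h h3.2)]
      rw [abs_of_neg (not_le.mp h), h2]
      ring
  rw [sum_congr rfl fun y _ => h1 y, sum_sub_distrib, sum_sub_distrib, sum_sub_distrib, sum_av,
    sub_self, sub_zero, ← mul_sum, ← mul_sum, sum_av_mul, ← mul_sub, ← sum_sub_distrib, mul_sum]
  refine sum_congr rfl fun y _ => ?_
  ring

/-- the equivalence of the index sets -/
private def lemlE (α β : Type) : (β ⊕ α) ⊕ Unit ≃ (α ⊕ Unit) ⊕ β :=
  (Equiv.sumAssoc β α Unit).trans (Equiv.sumComm β (α ⊕ Unit))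

private theorem leml_cons (J : Finset ι) (R : ι → Finset Y)
    (h : ∀ n ∈ J, Fintype.card α + Fintype.card β + 1 ≤ (R n).card) (u : α → Y) (y : Y) :
    ∑ v : β → Y, mu J R (sn (Sum.elim v u) y) = mu J R (sn u y) := by
  rw [← sum_mu_elim (β := β) J R (by
    intro n hn
    rw [Fintype.card_sum, Fintype.card_unit]
    have := h n hn
    omega) (sn u y)]
  refine sum_congr rfl fun v _ => ?_
  rw [← mu_comp J R (lemlE α β) (Sum.elim (sn u y) v)]
  congr 1
  funext x
  rcases x with (b | a) | t <;> rfl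

private theorem leml_q (J : Finset ι) (R : ι → Finset Y)
    (h : ∀ n ∈ J, Fintype.card β + 1 ≤ (R n).card) (v : β → Y) (g : Y → ℝ)
    (hg : ∀ y, |g y| ≤ 2) : |Gv J R v g| ≤ 2 := by
  have h1 : ∑ y, qq J R v y ≤ 1 := by
    by_cases hv : mu J R v = 0
    · have h2 : ∀ y, qq J R v y = 0 := fun y => by unfold qq; rw [hv, div_zero]
      rw [sum_congr rfl fun y _ => h2 y, sum_const_zero]
      exact zero_le_one
    · rw [sum_qq J R h v hv]
  unfold Gv
  calc |∑ y, qq J R v y * g y| ≤ ∑ y, |qq J R v y * g y| := abs_sum_le_sum_abs _ _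
    _ ≤ ∑ y, qq J R v y * 2 := by
        refine sum_le_sum fun y _ => ?_
        rw [abs_mul, abs_of_nonneg (qq_nonneg J R v y)]
        exact mul_le_mul_of_nonneg_left (hg y) (qq_nonneg J R v y)
    _ = (∑ y, qq J R v y) * 2 := by rw [sum_mul]
    _ ≤ 1 * 2 := mul_le_mul_of_nonneg_right h1 zero_le_two
    _ = 2 := one_mul 2

private theorem leml_sq (J : Finset ι) (R : ι → Finset Y) (hY : 0 < (Fintype.card Y : ℝ)) :
    ∑ v : β → Y, ∑ u : α → Y, (mu J R (Sum.elim v u)) ^ 2 =
      GG J R (Fintype.card α + Fintype.card β) /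
        (Fintype.card Y : ℝ) ^ (Fintype.card α + Fintype.card β) := by
  have h1 := GG_eq (α := β ⊕ α) J R
  rw [Fintype.card_sum, add_comm (Fintype.card β) (Fintype.card α)] at h1
  rw [← h1, mul_div_cancel_left₀ _ (pow_pos hY _).ne', ← Fintype.sum_prod_type']
  exact (Fintype.sum_equiv (Equiv.sumArrowEquivProdArrow β α Y) _ _ (fun w => by
    congr 2
    funext x
    rcases x with x | x <;> rfl)).symm

private theorem leml_main (J : Finset ι) (R : ι → Finset Y) (δ2 θ : ℝ) (hδ2 : 0 < δ2)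
    (h1 : ∀ n ∈ J, Fintype.card β + Fintype.card α ≤ (R n).card)
    (h2 : ∀ n ∈ J, Fintype.card β + 1 ≤ (R n).card) (hY : 0 < (Fintype.card Y : ℝ))
    (g : (α → Y) → Y → ℝ) (hg : ∀ u y, |g u y| ≤ 2)
    (hθ : ∀ u, ∑ v : β → Y, mu J R v * (Gv J R v (g u)) ^ 2 ≤ θ) :
    ∑ v : β → Y, ∑ u : α → Y, mu J R (Sum.elim v u) * |Gv J R v (g u)| ≤
      2 * δ2 + √(GG J R (Fintype.card α + Fintype.card β) * θ / δ2) := by
  classical
  set N : ℝ := (Fintype.card Y : ℝ) with hN
  set V : Finset (β → Y) := univ.filter (fun v => N ^ Fintype.card β * mu J R v < δ2) with hV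
  have hcard : ((Fintype.card (β → Y) : ℕ) : ℝ) = N ^ Fintype.card β := by
    rw [Fintype.card_fun, Nat.cast_pow]
  have hcard' : ((Fintype.card (α → Y) : ℕ) : ℝ) = N ^ Fintype.card α := by
    rw [Fintype.card_fun, Nat.cast_pow]
  have hNb : 0 < N ^ Fintype.card β := pow_pos hY _
  have hNa : 0 < N ^ Fintype.card α := pow_pos hY _
  rw [← sum_add_sum_compl V]
  refine add_le_add ?_ ?_
  · calc ∑ v ∈ V, ∑ u : α → Y, mu J R (Sum.elim v u) * |Gv J R v (g u)|
        ≤ ∑ v ∈ V, ∑ u : α → Y, mu J R (Sum.elim v u) * 2 := by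
          refine sum_le_sum fun v _ => sum_le_sum fun u _ => ?_
          exact mul_le_mul_of_nonneg_left (leml_q J R h2 v (g u) (hg u)) (mu_nonneg _ _ _)
      _ = ∑ v ∈ V, mu J R v * 2 := by
          refine sum_congr rfl fun v _ => ?_
          rw [← sum_mul, sum_mu_elim J R h1 v]
      _ ≤ ∑ v ∈ V, δ2 / N ^ Fintype.card β * 2 := by
          refine sum_le_sum fun v hv => ?_
          have h3 : N ^ Fintype.card β * mu J R v < δ2 := (mem_filter.1 hv).2
          refine mul_le_mul_of_nonneg_right ?_ zero_le_two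
          rw [le_div_iff₀ hNb, mul_comm]
          exact h3.le
      _ ≤ ∑ v : β → Y, δ2 / N ^ Fintype.card β * 2 := by
          refine sum_le_sum_of_subset_of_nonneg (subset_univ V) fun v _ _ => by positivity
      _ = 2 * δ2 := by
          rw [sum_const, nsmul_eq_mul, card_univ, hcard]
          field_simp
  · have e1 : ∑ v ∈ Vᶜ, ∑ u : α → Y, mu J R (Sum.elim v u) * |Gv J R v (g u)| =
        ∑ p ∈ Vᶜ ×ˢ (univ : Finset (α → Y)), mu J R (Sum.elim p.1 p.2) * |Gv J R p.1 (g p.2)| := by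
      rw [sum_product]
    have e2 : ∑ p ∈ Vᶜ ×ˢ (univ : Finset (α → Y)), (mu J R (Sum.elim p.1 p.2)) ^ 2 ≤
        GG J R (Fintype.card α + Fintype.card β) / N ^ (Fintype.card α + Fintype.card β) := by
      rw [← leml_sq J R hY, sum_product]
      exact sum_le_sum_of_subset_of_nonneg (subset_univ _) fun v _ _ =>
        sum_nonneg fun u _ => sq_nonneg _
    have e3 : ∑ p ∈ Vᶜ ×ˢ (univ : Finset (α → Y)), |Gv J R p.1 (g p.2)| ^ 2 ≤
        N ^ (Fintype.card α + Fintype.card β) * θ / δ2 := by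
      rw [sum_product_right]
      calc ∑ u : α → Y, ∑ v ∈ Vᶜ, |Gv J R v (g u)| ^ 2
          ≤ ∑ u : α → Y, N ^ Fintype.card β / δ2 * θ := by
            refine sum_le_sum fun u _ => ?_
            calc ∑ v ∈ Vᶜ, |Gv J R v (g u)| ^ 2
                ≤ ∑ v ∈ Vᶜ, N ^ Fintype.card β / δ2 * (mu J R v * (Gv J R v (g u)) ^ 2) := by
                  refine sum_le_sum fun v hv => ?_
                  have h3 : δ2 ≤ N ^ Fintype.card β * mu J R v := by
                    by_contra h4
                    exact (mem_compl.1 hv) (mem_filter.2 ⟨mem_univ _, not_le.1 h4⟩)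
                  rw [sq_abs]
                  calc (Gv J R v (g u)) ^ 2 = δ2 / δ2 * (Gv J R v (g u)) ^ 2 := by
                        rw [div_self hδ2.ne', one_mul]
                    _ ≤ N ^ Fintype.card β * mu J R v / δ2 * (Gv J R v (g u)) ^ 2 := by
                        gcongr
                    _ = _ := by ring
              _ ≤ ∑ v : β → Y, N ^ Fintype.card β / δ2 * (mu J R v * (Gv J R v (g u)) ^ 2) := by
                  refine sum_le_sum_of_subset_of_nonneg (subset_univ _) fun v _ _ => ?_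
                  have := mu_nonneg J R v
                  positivity
              _ = N ^ Fintype.card β / δ2 * ∑ v : β → Y, mu J R v * (Gv J R v (g u)) ^ 2 := by
                  rw [mul_sum]
              _ ≤ N ^ Fintype.card β / δ2 * θ :=
                  mul_le_mul_of_nonneg_left (hθ u) (by positivity)
        _ = N ^ (Fintype.card α + Fintype.card β) * θ / δ2 := by
            rw [sum_const, nsmul_eq_mul, card_univ, hcard', pow_add]
            ring
    rw [e1]
    refine Real.le_sqrt_of_sq_le ?_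
    have hnn : (0 : ℝ) ≤ ∑ p ∈ Vᶜ ×ˢ (univ : Finset (α → Y)), |Gv J R p.1 (g p.2)| ^ 2 :=
      sum_nonneg fun p _ => sq_nonneg _
    have hgg : 0 ≤ GG J R (Fintype.card α + Fintype.card β) := by
      unfold GG
      exact mul_nonneg (pow_nonneg hY.le _) (sum_nonneg fun v _ => sq_nonneg _)
    calc (∑ p ∈ Vᶜ ×ˢ (univ : Finset (α → Y)),
          mu J R (Sum.elim p.1 p.2) * |Gv J R p.1 (g p.2)|) ^ 2
        ≤ (∑ p ∈ Vᶜ ×ˢ (univ : Finset (α → Y)), (mu J R (Sum.elim p.1 p.2)) ^ 2) *
          ∑ p ∈ Vᶜ ×ˢ (univ : Finset (α → Y)), |Gv J R p.1 (g p.2)| ^ 2 :=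
          sum_mul_sq_le_sq_mul_sq _ _ _
      _ ≤ (GG J R (Fintype.card α + Fintype.card β) / N ^ (Fintype.card α + Fintype.card β)) *
          (N ^ (Fintype.card α + Fintype.card β) * θ / δ2) :=
          mul_le_mul e2 e3 hnn (div_nonneg hgg (pow_nonneg hY.le _))
      _ = GG J R (Fintype.card α + Fintype.card β) * θ / δ2 := by
          have h3 : N ^ (Fintype.card α + Fintype.card β) ≠ 0 := (pow_pos hY _).ne'
          field_simp

theorem lemL (J : Finset ι) (hJ : J.Nonempty) (R : ι → Finset Y) (c : Y → ℕ) (τ m0 δ δ2 : ℝ)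
    (hδ2 : 0 < δ2) (hm0 : 1 ≤ m0) (h1 : ∀ n ∈ J, m0 ≤ (R n).card)
    (h2 : ∀ n ∈ J, Fintype.card α + 2 * Fintype.card β + 2 ≤ (R n).card)
    (hδ : hh J R (Fintype.card β + Fintype.card α) - hh J R (Fintype.card β) ≤ δ)
    (hP : ∀ B : Finset Y, ∑ n ∈ J, (pav (R n) (fun y => ind B y - av c (ind B) y)) ^ 2 ≤
      τ ^ 2 * J.card) :
    ∑ u : α → Y, mu J R u *
      ((∑ y, |phi J R u y - av c (phi J R u) y|) / Fintype.card Y) ≤
      2 * √(2 * δ) + 2 * δ2 +
        √(GG J R (Fintype.card α + Fintype.card β) *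
          (32 * τ ^ 2 + 32 * (Fintype.card β : ℝ) ^ 2 / m0 ^ 2) / δ2) := by
  classical
  have hY : 0 < (Fintype.card Y : ℝ) := by
    obtain ⟨n, hn⟩ := hJ
    have h3 := h2 n hn
    have h4 : (R n).card ≤ Fintype.card Y := card_le_univ _
    have h5 : 0 < Fintype.card Y := by omega
    exact_mod_cast h5
  choose B hB using fun u : α → Y => leml_abs c (phi J R u)
  set g : (α → Y) → Y → ℝ := fun u y => 2 * (ind (B u) y - av c (ind (B u)) y) with hg
  have hgb : ∀ u y, |g u y| ≤ 2 := fun u y => leml_bound c (B u) y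
  have e1 : ∀ u : α → Y, mu J R u *
      ((∑ y, |phi J R u y - av c (phi J R u) y|) / Fintype.card Y) =
      ∑ y, mu J R (sn u y) * g u y := by
    intro u
    rw [hB u, sum_div, mul_sum]
    refine sum_congr rfl fun y _ => ?_
    rw [mu_sn J R (fun n hn => by have := h2 n hn; omega) u y]
    show mu J R u * (phi J R u y * g u y / Fintype.card Y) = _
    unfold phi
    field_simp
  have e2 : ∑ u : α → Y, ∑ y, mu J R (sn u y) * g u y =
      ∑ v : β → Y, ∑ u : α → Y, ∑ y, mu J R (sn (Sum.elim v u) y) * g u y := by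
    rw [sum_comm (s := (univ : Finset (β → Y)))]
    refine sum_congr rfl fun u _ => ?_
    rw [sum_comm]
    refine sum_congr rfl fun y _ => ?_
    rw [← sum_mul, leml_cons J R (fun n hn => by have := h2 n hn; omega) u y]
  have e3 := tv_next (α := β) (β := α) J hJ R δ (fun n hn => by have := h2 n hn; omega) hδ
  have e4 : ∀ (v : β → Y) (u : α → Y), ∑ y, mu J R (sn (Sum.elim v u) y) * g u y ≤
      mu J R (Sum.elim v u) * |Gv J R v (g u)| +
        2 * ∑ y, |mu J R (sn (Sum.elim v u) y) - mu J R (Sum.elim v u) * qq J R v y| := by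
    intro v u
    calc ∑ y, mu J R (sn (Sum.elim v u) y) * g u y
        ≤ ∑ y, (mu J R (Sum.elim v u) * (qq J R v y * g u y) +
          2 * |mu J R (sn (Sum.elim v u) y) - mu J R (Sum.elim v u) * qq J R v y|) := by
          refine sum_le_sum fun y _ => ?_
          have h3 : (mu J R (sn (Sum.elim v u) y) - mu J R (Sum.elim v u) * qq J R v y) *
              g u y ≤ |mu J R (sn (Sum.elim v u) y) - mu J R (Sum.elim v u) * qq J R v y| * 2 := by
            refine (le_abs_self _).trans ?_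
            rw [abs_mul]
            exact mul_le_mul_of_nonneg_left (hgb u y) (abs_nonneg _)
          linarith
      _ = mu J R (Sum.elim v u) * Gv J R v (g u) +
          2 * ∑ y, |mu J R (sn (Sum.elim v u) y) - mu J R (Sum.elim v u) * qq J R v y| := by
          rw [sum_add_distrib, ← mul_sum, ← mul_sum]
          rfl
      _ ≤ _ := by
          have h3 := mul_le_mul_of_nonneg_left (le_abs_self (Gv J R v (g u)))
            (mu_nonneg J R (Sum.elim v u))
          linarith
  have e5 := leml_main (α := α) (β := β) J R δ2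
    (32 * τ ^ 2 + 32 * (Fintype.card β : ℝ) ^ 2 / m0 ^ 2) hδ2
    (fun n hn => by have := h2 n hn; omega) (fun n hn => by have := h2 n hn; omega) hY g hgb
    (fun u => lemL_G J hJ R c τ m0 hm0 h1 (fun n hn => by have := h2 n hn; omega) hP (B u))
  rw [sum_congr rfl fun u _ => e1 u, e2]
  calc ∑ v : β → Y, ∑ u : α → Y, ∑ y, mu J R (sn (Sum.elim v u) y) * g u y
      ≤ ∑ v : β → Y, ∑ u : α → Y, (mu J R (Sum.elim v u) * |Gv J R v (g u)| +
        2 * ∑ y, |mu J R (sn (Sum.elim v u) y) - mu J R (Sum.elim v u) * qq J R v y|) :=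
        sum_le_sum fun v _ => sum_le_sum fun u _ => e4 v u
    _ = ∑ v : β → Y, ∑ u : α → Y, mu J R (Sum.elim v u) * |Gv J R v (g u)| +
        2 * ∑ v : β → Y, ∑ u : α → Y,
          ∑ y, |mu J R (sn (Sum.elim v u) y) - mu J R (Sum.elim v u) * qq J R v y| := by
        simp only [sum_add_distrib, mul_sum]
    _ ≤ _ := by linarith

end Pool.Agent.Lib.MP_092512_nt.QC
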