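import Pool.Agent.Lib.MP_092512_nt.QC.Law
import Pool.Agent.Lib.MP_092512_nt.QC.Av

/-!
# LemM: second moment of the cell averages of the conditional density (Lemma M of the text)

PROOF. `mu u * phi u y = N mu (sn u y) = ∑_n (wt (R n) u/|J|) (N/(|R n| - K1)) 1[y ∈ R n, y ∉ image u]`
(`descFactorial (K1+1) = (|R n| - K1) descFactorial K1`). So `phi u = ∑_n p_n g_n` with `p_n = wt (R n) u/(|J| mu u)`, `∑ p_n = 1`,
`0 ≤ g_n ≤ (|R n|/(|R n| - K1)) dens (R n) ≤ (m0/(m0-K1)) dens (R n)`. `nrm_mix`, `nrm_mono`, `nrm_smul`: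
`mu u nrm c (phi u) ≤ (m0/(m0-K1))^2 (1/|J|) ∑_n wt (R n) u nrm c (dens (R n))`; sum over `u` with `sum_wt`.
-/

set_option autoImplicit false
set_option linter.unusedSectionVars false

open Finset

namespace Pool.Agent.Lib.MP_092512_nt.QC

variable {ι Y α : Type} [Fintype Y] [Fintype α] [DecidableEq α]

private theorem lemM_wt (R : Finset Y) (h : Fintype.card α + 1 ≤ R.card) (u : α → Y) (y : Y) :
    wt R (sn u y) ≤ wt R u * (ind R y / ((R.card : ℝ) - Fintype.card α)) := by
  classical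
  have hpos : (0 : ℝ) < (R.card : ℝ) - Fintype.card α := by
    have : ((Fintype.card α + 1 : ℕ) : ℝ) ≤ (R.card : ℝ) := by exact_mod_cast h
    push_cast at this
    linarith
  have hwt : ∀ v : α → Y, 0 ≤ wt R v := fun v => wt_nonneg R v
  have hind : 0 ≤ ind R y := by unfold ind; split_ifs <;> norm_num
  by_cases hv : Function.Injective (sn u y) ∧ ∀ i, sn u y i ∈ R
  · have h1 : Function.Injective u := fun a b hab => by
      have := hv.1 (a₁ := Sum.inl a) (a₂ := Sum.inl b) hab
      exact Sum.inl_injective this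
    have h2 : ∀ i, u i ∈ R := fun i => hv.2 (Sum.inl i)
    have h3 : y ∈ R := hv.2 (Sum.inr ())
    have hc : Fintype.card (α ⊕ Unit) = Fintype.card α + 1 := by simp
    have hd : ((R.card.descFactorial (Fintype.card α + 1) : ℕ) : ℝ) =
        ((R.card : ℝ) - Fintype.card α) * ((R.card.descFactorial (Fintype.card α) : ℕ) : ℝ) := by
      rw [Nat.descFactorial_succ, Nat.cast_mul, Nat.cast_sub (by omega)]
    unfold wt ind
    rw [if_pos hv, if_pos ⟨h1, h2⟩, if_pos h3, hc, hd]
    rw [one_div_mul_one_div_rev]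
  · have h0 : wt R (sn u y) = 0 := by unfold wt; rw [if_neg hv]
    rw [h0]
    exact mul_nonneg (hwt u) (div_nonneg hind hpos.le)

private theorem lemM_pt (J : Finset ι) (hJ : J.Nonempty) (R : ι → Finset Y) (c : Y → ℕ) (m0 : ℝ)
    (hm0 : (Fintype.card α : ℝ) < m0) (h1 : ∀ n ∈ J, m0 ≤ (R n).card) (u : α → Y) :
    mu J R u * nrm c (phi J R u) ≤ (m0 / (m0 - Fintype.card α)) ^ 2 *
      ((∑ n ∈ J, wt (R n) u * nrm c (dens (R n))) / J.card) := by
  have hJ0 : (0 : ℝ) < J.card := by exact_mod_cast card_pos.2 hJ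
  have hK0 : (0 : ℝ) ≤ (Fintype.card α : ℝ) := Nat.cast_nonneg _
  have hk0 : (0 : ℝ) < m0 - Fintype.card α := by linarith
  set κ : ℝ := m0 / (m0 - Fintype.card α) with hκ
  have hκ0 : 0 ≤ κ := div_nonneg (by linarith) hk0.le
  have hsum0 : 0 ≤ ∑ n ∈ J, wt (R n) u * nrm c (dens (R n)) :=
    sum_nonneg fun n _ => mul_nonneg (wt_nonneg _ _) (nrm_nonneg _ _)
  rcases (mu_nonneg J R u).eq_or_lt with hm | hm
  · rw [← hm, zero_mul]
    positivity
  set m : ℝ := mu J R u with hmd
  have hcard : ∀ n ∈ J, Fintype.card α + 1 ≤ (R n).card := by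
    intro n hn
    have h2 : (Fintype.card α : ℝ) < (R n).card := lt_of_lt_of_le hm0 (h1 n hn)
    have h3 : Fintype.card α < (R n).card := by exact_mod_cast h2
    omega
  have hsum : ∑ n ∈ J, wt (R n) u = m * J.card := by
    rw [hmd]
    unfold mu
    field_simp
  -- pointwise bound of the density
  have hphi : ∀ y, phi J R u y ≤ ∑ n ∈ J, (wt (R n) u / (J.card * m)) * (κ * dens (R n) y) := by
    intro y
    have e1 : phi J R u y = ∑ n ∈ J, (Fintype.card Y : ℝ) * wt (R n) (sn u y) / (J.card * m) := by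
      unfold phi qq
      rw [← hmd]
      unfold mu
      rw [← sum_div, ← mul_sum]
      field_simp
    rw [e1]
    refine sum_le_sum fun n hn => ?_
    have e2 := lemM_wt (R n) (hcard n hn) u y
    have e3 : (Fintype.card Y : ℝ) * (ind (R n) y / (((R n).card : ℝ) - Fintype.card α)) ≤
        κ * dens (R n) y := by
      have hR : m0 ≤ (R n).card := h1 n hn
      have hR0 : (0 : ℝ) < ((R n).card : ℝ) := by linarith
      have hR1 : (0 : ℝ) < ((R n).card : ℝ) - Fintype.card α := by linarith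
      have hi : 0 ≤ ind (R n) y := by unfold ind; split_ifs <;> norm_num
      unfold dens
      have e4 : 1 / (((R n).card : ℝ) - Fintype.card α) ≤ κ / ((R n).card : ℝ) := by
        rw [hκ, div_div, div_le_div_iff₀ hR1 (by positivity)]
        nlinarith
      have e5 : (Fintype.card Y : ℝ) * (ind (R n) y / (((R n).card : ℝ) - Fintype.card α)) =
          (Fintype.card Y : ℝ) * ind (R n) y * (1 / (((R n).card : ℝ) - Fintype.card α)) := by ring
      have e6 : κ * ((Fintype.card Y : ℝ) / ((R n).card : ℝ) * ind (R n) y) =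
          (Fintype.card Y : ℝ) * ind (R n) y * (κ / ((R n).card : ℝ)) := by ring
      rw [e5, e6]
      exact mul_le_mul_of_nonneg_left e4 (by positivity)
    have hw : 0 ≤ wt (R n) u := wt_nonneg _ _
    have e7 : (Fintype.card Y : ℝ) * wt (R n) (sn u y) ≤ wt (R n) u * (κ * dens (R n) y) := by
      calc (Fintype.card Y : ℝ) * wt (R n) (sn u y)
          ≤ (Fintype.card Y : ℝ) * (wt (R n) u * (ind (R n) y / (((R n).card : ℝ) - Fintype.card α))) :=
            mul_le_mul_of_nonneg_left e2 (Nat.cast_nonneg _)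
        _ = wt (R n) u * ((Fintype.card Y : ℝ) * (ind (R n) y / (((R n).card : ℝ) - Fintype.card α))) := by
            ring
        _ ≤ _ := mul_le_mul_of_nonneg_left e3 hw
    rw [div_mul_eq_mul_div]
    exact div_le_div_of_nonneg_right e7 (by positivity)
  have hp0 : ∀ n ∈ J, 0 ≤ wt (R n) u / (J.card * m) := fun n _ =>
    div_nonneg (wt_nonneg _ _) (by positivity)
  have hp1 : ∑ n ∈ J, wt (R n) u / (J.card * m) = 1 := by
    rw [← sum_div, hsum]
    field_simp
  have h2 := (nrm_mono c _ _ (phi_nonneg J R u) hphi).trans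
    (nrm_mix c J (fun n => wt (R n) u / (J.card * m)) hp0 (fun n y => κ * dens (R n) y))
  rw [hp1, one_mul] at h2
  have h3 : m * ∑ n ∈ J, wt (R n) u / (J.card * m) * nrm c (fun y => κ * dens (R n) y) =
      κ ^ 2 * ((∑ n ∈ J, wt (R n) u * nrm c (dens (R n))) / J.card) := by
    rw [mul_sum, sum_div, mul_sum]
    refine sum_congr rfl fun n _ => ?_
    rw [nrm_smul]
    field_simp
  rw [← h3]
  exact mul_le_mul_of_nonneg_left h2 hm.le

theorem lemM (J : Finset ι) (hJ : J.Nonempty) (R : ι → Finset Y) (c : Y → ℕ) (m0 E : ℝ)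
    (hm0 : (Fintype.card α : ℝ) < m0) (h1 : ∀ n ∈ J, m0 ≤ (R n).card)
    (hE : ∑ n ∈ J, nrm c (dens (R n)) ≤ E * J.card) :
    ∑ u : α → Y, mu J R u * nrm c (phi J R u) ≤ (m0 / (m0 - Fintype.card α)) ^ 2 * E := by
  have hJ0 : (0 : ℝ) < J.card := by exact_mod_cast card_pos.2 hJ
  have hcard : ∀ n ∈ J, Fintype.card α ≤ (R n).card := by
    intro n hn
    have h2 : (Fintype.card α : ℝ) < (R n).card := lt_of_lt_of_le hm0 (h1 n hn)
    have h3 : Fintype.card α < (R n).card := by exact_mod_cast h2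
    omega
  refine (sum_le_sum fun u _ => lemM_pt J hJ R c m0 hm0 h1 u).trans ?_
  rw [← mul_sum, ← sum_div, sum_comm]
  refine mul_le_mul_of_nonneg_left ?_ (sq_nonneg _)
  rw [div_le_iff₀ hJ0]
  refine le_trans (le_of_eq (sum_congr rfl fun n hn => ?_)) hE
  rw [← sum_mul, sum_wt (R n) (hcard n hn), one_mul]

end Pool.Agent.Lib.MP_092512_nt.QC
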