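import Pool.Agent.Lib.MP_092512_nt.QC.Defs

/-!
# MuPr: bound of the sampling law on a subfamily

PROOF. `wt (R n) v ≤ 1[v ⊆ R n] * (2/(a m))^K`: `descFactorial r K ≥ (r - K + 1)^K ≥ (r/2)^K ≥ (a m/2)^K` if `2 K ≤ a m ≤ r`
(`Nat.pow_sub_le_descFactorial`: `(n + 1 - k)^k ≤ n.descFactorial k`). `∑_{n ∈ J'} 1[v ⊆ R n] ≤ ∑_{n ∈ J} .. = pr J R v * |J|` and `|J|/|J'| ≤ 1/p0`.
-/

set_option autoImplicit false

open Finset

namespace Pool.Agent.Lib.MP_092512_nt.QC

/-- lower bound of the falling factorial -/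
private theorem mupr_desc {r K : ℕ} {x : ℝ} (hx : 0 < x) (hr : x ≤ r) (hK : 2 * (K : ℝ) ≤ x) :
    (x / 2) ^ K ≤ ((r.descFactorial K : ℕ) : ℝ) := by
  have h1 : (r + 1 - K) ^ K ≤ r.descFactorial K := Nat.pow_sub_le_descFactorial r K
  have hKr : K ≤ r + 1 := by
    have : (K : ℝ) ≤ r := by
      have : (0 : ℝ) ≤ K := Nat.cast_nonneg K
      linarith
    have : K ≤ r := by exact_mod_cast this
    omega
  have h2 : (((r + 1 - K) ^ K : ℕ) : ℝ) ≤ ((r.descFactorial K : ℕ) : ℝ) := by exact_mod_cast h1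
  refine le_trans ?_ h2
  rw [Nat.cast_pow, Nat.cast_sub hKr]
  push_cast
  refine pow_le_pow_left₀ (by positivity) ?_ K
  linarith

/-- the class: bounds of `mu` on a subfamily -/
theorem mu_le_pr {ι Y α : Type} [Fintype Y] [Fintype α] [DecidableEq α] (J J' : Finset ι)
    (hJ : J' ⊆ J) (R : ι → Finset Y) (p0 a m : ℝ) (hp0 : 0 < p0) (ha : 0 < a) (hm : 0 < m)
    (hp : p0 * J.card ≤ J'.card) (hJ' : J'.Nonempty) (h : ∀ n ∈ J', a * m ≤ (R n).card)
    (hK : 2 * (Fintype.card α : ℝ) ≤ a * m) (v : α → Y) :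
    mu J' R v ≤ pr J R v * (2 / (a * m)) ^ Fintype.card α / p0 := by
  classical
  have ham : 0 < a * m := mul_pos ha hm
  have hJ'c : (0 : ℝ) < J'.card := by exact_mod_cast hJ'.card_pos
  have hJc : (0 : ℝ) < J.card := by exact_mod_cast (hJ'.mono hJ).card_pos
  set K := Fintype.card α with hKdef
  have hpos : (0 : ℝ) ≤ (2 / (a * m)) ^ K := by positivity
  have hwt : ∀ n ∈ J', wt (R n) v ≤ if ∀ i, v i ∈ R n then (2 / (a * m)) ^ K else 0 := by
    intro n hn
    unfold wt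
    by_cases h1 : ∀ i, v i ∈ R n
    · rw [if_pos h1]
      by_cases h2 : Function.Injective v
      · rw [if_pos ⟨h2, h1⟩]
        have h3 := mupr_desc (r := (R n).card) (K := K) ham (h n hn) hK
        have h4 : (0 : ℝ) < (a * m / 2) ^ K := by positivity
        calc 1 / ((((R n).card.descFactorial K : ℕ)) : ℝ) ≤ 1 / (a * m / 2) ^ K :=
              one_div_le_one_div_of_le h4 h3
          _ = (2 / (a * m)) ^ K := by
              rw [one_div, ← inv_pow, inv_div]
      · rw [if_neg (fun h3 => h2 h3.1)]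
        exact hpos
    · rw [if_neg h1, if_neg (fun h3 => h1 h3.2)]
  have hsum : ∑ n ∈ J', wt (R n) v ≤
      ((J.filter (fun n => ∀ i, v i ∈ R n)).card : ℝ) * (2 / (a * m)) ^ K := by
    refine (sum_le_sum hwt).trans ?_
    rw [← sum_filter, sum_const, nsmul_eq_mul]
    refine mul_le_mul_of_nonneg_right ?_ hpos
    exact_mod_cast card_le_card (filter_subset_filter _ hJ)
  have hpr : pr J R v * J.card = ((J.filter (fun n => ∀ i, v i ∈ R n)).card : ℝ) := by
    unfold pr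
    rw [div_mul_cancel₀ _ hJc.ne']
    refine congrArg (fun s : Finset ι => (s.card : ℝ)) ?_
    ext n
    simp only [mem_filter]
  rw [← hpr] at hsum
  have hpr0 : 0 ≤ pr J R v := by
    unfold pr
    positivity
  unfold mu
  rw [div_le_iff₀ hJ'c, div_mul_eq_mul_div, le_div_iff₀ hp0]
  calc (∑ n ∈ J', wt (R n) v) * p0 ≤ (pr J R v * J.card * (2 / (a * m)) ^ K) * p0 :=
        mul_le_mul_of_nonneg_right hsum hp0.le
    _ = (pr J R v * (2 / (a * m)) ^ K) * (p0 * J.card) := by ring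
    _ ≤ (pr J R v * (2 / (a * m)) ^ K) * J'.card :=
        mul_le_mul_of_nonneg_left hp (mul_nonneg hpr0 hpos)

theorem mu_not_inj {ι Y α : Type} [Fintype α] (J : Finset ι) (R : ι → Finset Y) (v : α → Y)
    (hv : ¬ Function.Injective v) : mu J R v = 0 := by
  unfold mu
  rw [sum_eq_zero, zero_div]
  intro n _
  unfold wt
  rw [if_neg (fun h => hv h.1)]

end Pool.Agent.Lib.MP_092512_nt.QC
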