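import Pool.Agent.Lib.MP_092512_nt.QC.ND
import Pool.Agent.Lib.MP_092512_nt.P3.C0b

/-!
# N2a: the Selberg main term of dimension one

`h ≥ 1`, `w ≥ 2`, `W = primorial w`. `SS R (W h) = ∑ μ²(d) ∏_{p|d} 1/(p-2)` over `d ≤ R` prime to `W h`. PROOF of `n2_main`:
with `h'` the product of the primes `p > w` dividing `h`, the `d` are those prime to `W h'`, `1/(p-2) ≥ 1/(p-1)`, so
`SS ≥ Sd w h' R ≥ (φ(h')/h') Sd w 1 R ≥ (1 / G w h) (φ(W)/W) log R` (library `P3.C0`, `P3.C0b`), and `G w h ≥ 1`.
-/

set_option autoImplicit false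

open Finset

namespace Pool.Agent.Lib.MP_092512_nt.QC

open Pool.Agent.Lib.MP_092512_nt.KSets

/-- `∑ μ²(d) ∏_{p|d} 1/(p-2)` over `d ≤ R` prime to `M` -/
noncomputable def SS (R M : ℕ) : ℝ :=
  ∑ d ∈ (Icc 1 R).filter (fun d => Squarefree d ∧ d.Coprime M), ∏ p ∈ d.primeFactors, 1 / ((p : ℝ) - 2)

/-- the product of the primes `p > w` dividing `h` -/
private def N2a_h (w h : ℕ) : ℕ := ∏ p ∈ h.primeFactors with w < p, p

private theorem N2a_prime {w h p : ℕ} (hp : p ∈ h.primeFactors.filter fun p => w < p) : p.Prime :=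
  Nat.prime_of_mem_primeFactors (mem_filter.mp hp).1

private theorem N2a_factors (w h : ℕ) : (N2a_h w h).primeFactors = h.primeFactors.filter fun p => w < p :=
  Nat.primeFactors_prod fun _ hp => N2a_prime hp

private theorem N2a_sq (w h : ℕ) : Squarefree (N2a_h w h) := by
  unfold N2a_h
  refine Finset.squarefree_prod_of_pairwise_isCoprime ?_ ?_
  · intro p hp q hq hpq
    rw [Function.onFun, ← Nat.coprime_iff_isRelPrime]
    exact (Nat.coprime_primes (N2a_prime hp) (N2a_prime hq)).mpr hpq
  · intro p hp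
    exact (N2a_prime hp).squarefree

private theorem N2a_rough (w h : ℕ) : (N2a_h w h).Coprime (primorial w) := by
  unfold N2a_h
  refine Nat.Coprime.prod_left fun p hp => ?_
  rw [Nat.Prime.coprime_iff_not_dvd (N2a_prime hp)]
  intro hd
  have h1 : p ≤ w := by
    unfold primorial at hd
    obtain ⟨q, hq, hpq⟩ := (Nat.Prime.prime (N2a_prime hp)).exists_mem_finset_dvd hd
    rw [mem_filter, mem_range] at hq
    have := (Nat.prime_dvd_prime_iff_eq (N2a_prime hp) hq.2).mp hpq
    omega
  have h2 := (mem_filter.mp hp).2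
  omega

private theorem N2a_G (w h : ℕ) : (N2a_h w h : ℝ) / (Nat.totient (N2a_h w h) : ℝ) = G w h := by
  have h0 : N2a_h w h ≠ 0 := (N2a_sq w h).ne_zero
  rw [Pool.Agent.Lib.Sieve.div_totient_eq_prod_inv _ h0, N2a_factors]
  unfold G yf
  rfl

theorem n2_main (w : ℕ) (hw : 2 ≤ w) (η : ℝ) (hη : 0 < η) : ∃ R0 : ℕ, ∀ R : ℕ, R0 ≤ R →
    ∀ h : ℕ, 1 ≤ h → (1 - η) * Real.log R ≤ (G w h) ^ 2 * wf w * SS R (primorial w * h) := by
  refine ⟨1, fun R hR h hh => ?_⟩
  have hlog : 0 ≤ Real.log R := Real.log_natCast_nonneg R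
  have hR1 : (1 : ℝ) ≤ R := by exact_mod_cast hR
  have hG := one_le_G w h
  have hwf := one_le_wf w
  -- comparison with `Sd`
  have h1 : P3.Sd w (N2a_h w h) (R : ℝ) ≤ SS R (primorial w * h) := by
    unfold P3.Sd SS
    rw [Nat.floor_natCast]
    have hfil : (Icc 1 R).filter (fun k => Squarefree k ∧ Nat.Coprime k (N2a_h w h * primorial w)) =
        (Icc 1 R).filter (fun d => Squarefree d ∧ d.Coprime (primorial w * h)) := by
      refine filter_congr fun d hd => and_congr_right fun hs => ?_
      rw [Nat.coprime_mul_iff_right, Nat.coprime_mul_iff_right, and_comm]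
      refine and_congr_right fun hc => ?_
      constructor
      · intro hc2
        rw [Nat.coprime_iff_gcd_eq_one] at *
        by_contra hne
        obtain ⟨p, hp, hpd⟩ := Nat.exists_prime_and_dvd hne
        have hp1 : p ∣ d := hpd.trans (Nat.gcd_dvd_left _ _)
        have hp2 : p ∣ h := hpd.trans (Nat.gcd_dvd_right _ _)
        rcases le_or_gt p w with hpw | hpw
        · have h3 : p ∣ primorial w := (hp.dvd_primorial_iff).mpr hpw
          have h4 := Nat.dvd_gcd hp1 h3
          rw [hc] at h4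
          exact hp.one_lt.ne' (Nat.dvd_one.mp h4)
        · have h3 : p ∣ N2a_h w h :=
            dvd_prod_of_mem _ (mem_filter.mpr ⟨Nat.mem_primeFactors.mpr ⟨hp, hp2, by omega⟩, hpw⟩)
          have h4 := Nat.dvd_gcd hp1 h3
          rw [hc2] at h4
          exact hp.one_lt.ne' (Nat.dvd_one.mp h4)
      · intro hc2
        unfold N2a_h
        refine Nat.Coprime.prod_right fun p hp => ?_
        exact hc2.coprime_dvd_right (Nat.dvd_of_mem_primeFactors (mem_filter.mp hp).1)
    rw [hfil]
    refine sum_le_sum fun d hd => ?_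
    rw [mem_filter] at hd
    obtain ⟨-, hs, hc⟩ := hd
    have hodd : ∀ p ∈ d.primeFactors, 3 ≤ p := by
      intro p hp
      have hp' := Nat.prime_of_mem_primeFactors hp
      have h3 : p ≠ 2 := by
        rintro rfl
        have h4 : 2 ∣ primorial w := (hp'.dvd_primorial_iff).mpr hw
        have h5 := Nat.dvd_gcd (Nat.dvd_of_mem_primeFactors hp) (h4.mul_right h)
        rw [hc] at h5
        norm_num at h5
      have := hp'.two_le
      omega
    have htot : (1 : ℝ) / (d.totient : ℝ) = ∏ p ∈ d.primeFactors, 1 / ((p : ℝ) - 1) := by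
      rw [prod_div_distrib, prod_const_one]
      congr 1
      rw [Nat.totient_eq_prod_factorization hs.ne_zero, Finsupp.prod, Nat.support_factorization]
      push_cast
      refine prod_congr rfl fun p hp => ?_
      rw [Nat.factorization_eq_one_of_squarefree hs (Nat.prime_of_mem_primeFactors hp)
        (Nat.dvd_of_mem_primeFactors hp)]
      simp [(Nat.prime_of_mem_primeFactors hp).one_le]
    rw [htot]
    refine prod_le_prod (fun p hp => ?_) fun p hp => ?_
    · have h3 : (3 : ℝ) ≤ p := by exact_mod_cast hodd p hp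
      have : (0 : ℝ) < (p : ℝ) - 1 := by linarith
      positivity
    · have h3 : (3 : ℝ) ≤ p := by exact_mod_cast hodd p hp
      exact one_div_le_one_div_of_le (by linarith) (by linarith)
  have h2 := P3.C0_Sd_lower_coprime w (N2a_h w h) (N2a_sq w h) (N2a_rough w h) (R : ℝ) (by linarith)
  have h3 := P3.C0_Sd_lower w (R : ℝ) hR1
  rw [N2a_G] at h2
  have hS0 : 0 ≤ SS R (primorial w * h) := (P3.C0_Sd_nonneg _ _ _).trans h1
  have hV : Pool.Agent.Lib.SW.Vz w * wf w = 1 := by
    unfold Pool.Agent.Lib.SW.Vz wf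
    have h4 : (0 : ℝ) < primorial w := by exact_mod_cast primorial_pos w
    have h5 : (0 : ℝ) < Nat.totient (primorial w) := by exact_mod_cast Nat.totient_pos.mpr (primorial_pos w)
    field_simp
  have h4 : Real.log R ≤ G w h * wf w * SS R (primorial w * h) := by
    calc Real.log R = (Pool.Agent.Lib.SW.Vz w * Real.log R) * wf w := by linear_combination (-Real.log R) * hV
      _ ≤ (G w h * SS R (primorial w * h)) * wf w := by
          refine mul_le_mul_of_nonneg_right ?_ (by linarith)
          exact (h3.trans h2).trans (mul_le_mul_of_nonneg_left h1 (by linarith))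
      _ = _ := by ring
  have h5 : G w h * wf w * SS R (primorial w * h) ≤ (G w h) ^ 2 * wf w * SS R (primorial w * h) := by
    refine mul_le_mul_of_nonneg_right (mul_le_mul_of_nonneg_right ?_ (by linarith)) hS0
    nlinarith
  nlinarith

end Pool.Agent.Lib.MP_092512_nt.QC
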