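import Pool.Agent.Lib.MP_092512_nt.QC.N2a
import Pool.Agent.Lib.BV.Main
import Pool.Agent.Lib.Sieve.Selberg
import Pool.Agent.Lib.Sieve.Lower

/-!
# N2b: Selberg sieve with Bombieri-Vinogradov, weighted form

`W = primorial w`. PROOF. `BoundingSieve` (as `btSieve` in Lib/SW/PM/PM5a.lean) with support `{p + h : p ≤ X prime, p ≡ a (mod W)}`, weight `log p`,
`prodPrimes = ∏` of the primes `≤ R` not dividing `W h`, `nu d = 1/φ(d)`, `totalMass = θ'/φ(W)`, `θ' = ∑_{p ≤ X, p ∤ W} log p`.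
For `d | prodPrimes`: `multSum d = ∑ log p` over `p ≤ X`, `p ≡ a (W)`, `p ≡ -h (d)`, i.e. `p ≡ a_d (mod W d)` with `a_d` prime to `W d`
(`(d, h) = 1`, `(a, W) = 1`; Chinese remainder), so `rem d = EE th X (W d) (a_d) + (1/φ(W d)) (∑_{p ≤ X, p ∤ W d} log p) - (1/φ(d)) θ'/φ(W)`, the last difference is at
most `(1/φ(Wd)) ∑_{p | W d} log p ≤ log (W d)`. `Pool.Agent.Lib.Sieve.selberg_bound` with `Z = R`: `siftedSum ≤ totalMass/selS + ∑_{d1,d2 ≤ R} |rem [d1,d2]|`,
the error is `≤ ∑_{q ≤ W R^2} 3^ω(q) |EE th X q a(q)| + R^2 log(W R^2) ≤ X/log^3 X` (`BV.bvp 4 3 ε'`; for each squarefree `l` the number of pairs with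
`[d1,d2] = l` is `3^ω(l)`; `W R^2 ≤ X^(1/2 - ε')`), and `selS = SS R (W h)` (`selbergTerms l = ∏ 1/(p-2)`, for `l` prime to `W h`, `l ≤ R`, squarefree; `w ≥ 2`).
If `p + h > R` is prime it is prime to `prodPrimes`, so it is counted in `siftedSum`. `θ' ≤ (1+η) X` (prime number theorem; e.g. `SW.pnt 1`).
-/

set_option autoImplicit false

open Finset

namespace Pool.Agent.Lib.MP_092512_nt.QC

open ArithmeticFunction in
/-- local densities of the sieve for shifted primes -/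
private noncomputable def n2bNu : ArithmeticFunction ℝ :=
  ArithmeticFunction.prodPrimeFactors (fun p => (1 : ℝ) / ((p : ℝ) - 1))

private theorem n2bNu_prime {p : ℕ} (hp : p.Prime) : n2bNu p = (1 : ℝ) / ((p : ℝ) - 1) := by
  unfold n2bNu
  rw [ArithmeticFunction.prodPrimeFactors_apply hp.ne_zero, hp.primeFactors, Finset.prod_singleton]

private theorem n2b_totient {l : ℕ} (hl : Squarefree l) :
    l.totient = ∏ p ∈ l.primeFactors, (p - 1) := by
  have h := Nat.totient_mul_prod_primeFactors l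
  rw [Nat.prod_primeFactors_of_squarefree hl] at h
  have h0 : 0 < l := Nat.pos_of_ne_zero hl.ne_zero
  rw [Nat.mul_comm] at h
  exact Nat.eq_of_mul_eq_mul_left h0 h

private theorem n2bNu_squarefree {l : ℕ} (hl : Squarefree l) :
    n2bNu l = (1 : ℝ) / (l.totient : ℝ) := by
  unfold n2bNu
  rw [ArithmeticFunction.prodPrimeFactors_apply hl.ne_zero]
  have h : (l.totient : ℝ) = ∏ p ∈ l.primeFactors, ((p : ℝ) - 1) := by
    rw [n2b_totient hl]
    push_cast
    refine Finset.prod_congr rfl fun p hp => ?_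
    rw [Nat.cast_sub (Nat.prime_of_mem_primeFactors hp).one_lt.le, Nat.cast_one]
  rw [h, Finset.prod_div_distrib]
  simp

/-- the product of the sieving primes -/
private def n2bP (R M : ℕ) : ℕ := ∏ p ∈ (Icc 1 R).filter (fun p => p.Prime ∧ ¬ p ∣ M), p

private theorem n2bP_squarefree (R M : ℕ) : Squarefree (n2bP R M) := by
  apply Finset.squarefree_prod_of_pairwise_isCoprime
  · intro p hp q hq hpq
    have hp' := (Finset.mem_filter.mp (Finset.mem_coe.mp hp)).2.1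
    have hq' := (Finset.mem_filter.mp (Finset.mem_coe.mp hq)).2.1
    exact Nat.coprime_iff_isRelPrime.mp ((Nat.coprime_primes hp' hq').mpr hpq)
  · intro p hp
    exact (Finset.mem_filter.mp hp).2.1.prime.squarefree

private theorem n2b_prime_dvd {R M p : ℕ} (hp : p.Prime) (h : p ∣ n2bP R M) :
    p ≤ R ∧ ¬ p ∣ M := by
  obtain ⟨q, hq, hpq⟩ := (Prime.dvd_finsetProd_iff hp.prime _).mp h
  have hq' := Finset.mem_filter.mp hq
  have : p = q := (Nat.prime_dvd_prime_iff_eq hp hq'.2.1).mp hpq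
  rw [this]
  exact ⟨(Finset.mem_Icc.mp hq'.1).2, hq'.2.2⟩

private theorem n2b_dvd_iff {R M l : ℕ} (hlR : l ≤ R) :
    l ∣ n2bP R M ↔ Squarefree l ∧ l.Coprime M := by
  constructor
  · intro h
    refine ⟨(n2bP_squarefree R M).squarefree_of_dvd h, ?_⟩
    by_contra hc
    obtain ⟨p, hp, h1, h2⟩ := Nat.Prime.not_coprime_iff_dvd.mp hc
    exact (n2b_prime_dvd hp (h1.trans h)).2 h2
  · rintro ⟨h1, h2⟩
    rw [← Nat.prod_primeFactors_of_squarefree h1]
    refine Finset.prod_dvd_prod_of_subset _ _ _ fun p hp => ?_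
    have hpp := Nat.prime_of_mem_primeFactors hp
    rw [mem_filter, mem_Icc]
    refine ⟨⟨hpp.one_lt.le, (Nat.le_of_mem_primeFactors hp).trans hlR⟩, hpp, fun h3 => ?_⟩
    have h4 : p ∣ Nat.gcd l M := Nat.dvd_gcd (Nat.dvd_of_mem_primeFactors hp) h3
    rw [h2] at h4
    exact hpp.one_lt.ne' (Nat.dvd_one.mp h4)

private theorem n2b_coprime {R M l : ℕ} (h : l ∣ n2bP R M) : l.Coprime M := by
  by_contra hc
  obtain ⟨p, hp, h1, h2⟩ := Nat.Prime.not_coprime_iff_dvd.mp hc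
  exact (n2b_prime_dvd hp (h1.trans h)).2 h2

private theorem n2b_three {R M p : ℕ} (h2 : 2 ∣ M) (hp : p.Prime) (h : p ∣ n2bP R M) : 3 ≤ p := by
  have h1 := (n2b_prime_dvd hp h).2
  have h3 := hp.two_le
  have h4 : p ≠ 2 := by
    rintro rfl
    exact h1 h2
  omega

/-- the sieve for the shifted primes `p + h`, `p ≤ X`, `p ≡ a (mod M)` -/
private noncomputable def n2bS (M X R a h : ℕ) (h2 : 2 ∣ M) : BoundingSieve where
  support := ((Icc 1 X).filter (fun p => p.Prime ∧ p ≡ a [MOD M])).image (fun p => p + h)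
  prodPrimes := n2bP R (M * h)
  prodPrimes_squarefree := n2bP_squarefree R (M * h)
  weights := fun n => Real.log ((n - h : ℕ) : ℝ)
  weights_nonneg := fun n => Real.log_natCast_nonneg _
  totalMass := (∑ n ∈ (Icc 1 X).filter (fun n => n.Coprime M), BV.th n) / (M.totient : ℝ)
  nu := n2bNu
  nu_mult := by
    unfold n2bNu
    exact ArithmeticFunction.IsMultiplicative.prodPrimeFactors _
  nu_pos_of_prime := by
    intro p hp h
    rw [n2bNu_prime hp]
    have h3 : (3 : ℝ) ≤ p := by exact_mod_cast n2b_three (h2.mul_right _) hp h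
    have h4 : (0 : ℝ) < p - 1 := by linarith
    positivity
  nu_lt_one_of_prime := by
    intro p hp h
    rw [n2bNu_prime hp]
    have h3 : (3 : ℝ) ≤ p := by exact_mod_cast n2b_three (h2.mul_right _) hp h
    rw [div_lt_one (by linarith)]
    linarith

/-- `selS` of the sieve -/
private theorem n2b_selS (w X R a h : ℕ) (h2 : 2 ∣ primorial w) :
    Sieve.selS (n2bS (primorial w) X R a h h2) R = SS R (primorial w * h) := by
  unfold Sieve.selS SS
  have hset : (n2bS (primorial w) X R a h h2).prodPrimes.divisors.filter (fun l => l ≤ R) =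
      (Icc 1 R).filter (fun d => Squarefree d ∧ d.Coprime (primorial w * h)) := by
    ext l
    rw [mem_filter, mem_filter, Nat.mem_divisors, mem_Icc]
    constructor
    · rintro ⟨⟨h3, h4⟩, h5⟩
      have h6 : 1 ≤ l := Nat.pos_of_dvd_of_pos h3 (Nat.pos_of_ne_zero h4)
      exact ⟨⟨h6, h5⟩, (n2b_dvd_iff h5).mp h3⟩
    · rintro ⟨⟨h3, h4⟩, h5⟩
      exact ⟨⟨(n2b_dvd_iff h4).mpr h5, (n2bP_squarefree _ _).ne_zero⟩, h4⟩
  rw [hset]
  refine Finset.sum_congr rfl fun l hl => ?_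
  rw [mem_filter, mem_Icc] at hl
  have hlP : l ∣ (n2bS (primorial w) X R a h h2).prodPrimes := (n2b_dvd_iff hl.1.2).mpr hl.2
  rw [Sieve.selbergTerms_eq_prod _ hlP]
  refine Finset.prod_congr rfl fun p hp => ?_
  have hpp := Nat.prime_of_mem_primeFactors hp
  have h3 : (3 : ℝ) ≤ p := by
    exact_mod_cast n2b_three (h2.mul_right _) hpp ((Nat.dvd_of_mem_primeFactors hp).trans hlP)
  change n2bNu p / (1 - n2bNu p) = _
  rw [n2bNu_prime hpp]
  have h4 : (p : ℝ) - 1 ≠ 0 := by linarith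
  have h5 : (p : ℝ) - 2 ≠ 0 := by linarith
  have h6 : 1 - 1 / ((p : ℝ) - 1) = (p - 2) / (p - 1) := by
    field_simp
    ring
  rw [h6]
  field_simp

/-- the sifted sum -/
private theorem n2b_sifted (M X R a h : ℕ) (h2 : 2 ∣ M) :
    ∑ p ∈ (Icc 1 X).filter (fun p => p.Prime ∧ p ≡ a [MOD M] ∧ (p + h).Prime ∧ R < p + h),
      Real.log p ≤ (n2bS M X R a h h2).siftedSum := by
  unfold BoundingSieve.siftedSum
  change _ ≤ ∑ n ∈ ((Icc 1 X).filter (fun p => p.Prime ∧ p ≡ a [MOD M])).image (fun p => p + h),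
    (if (n2bP R (M * h)).Coprime n then Real.log ((n - h : ℕ) : ℝ) else 0)
  rw [Finset.sum_image (fun x _ y _ hxy => Nat.add_right_cancel hxy)]
  rw [← Finset.sum_filter]
  have h1 : ∑ p ∈ ((Icc 1 X).filter (fun p => p.Prime ∧ p ≡ a [MOD M])).filter
      (fun p => (n2bP R (M * h)).Coprime (p + h)), Real.log ((p + h - h : ℕ) : ℝ) =
      ∑ p ∈ ((Icc 1 X).filter (fun p => p.Prime ∧ p ≡ a [MOD M])).filter
      (fun p => (n2bP R (M * h)).Coprime (p + h)), Real.log (p : ℝ) :=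
    Finset.sum_congr rfl fun p _ => by rw [Nat.add_sub_cancel]
  rw [h1]
  refine Finset.sum_le_sum_of_subset_of_nonneg ?_ ?_
  · intro p hp
    rw [mem_filter] at hp
    rw [mem_filter, mem_filter]
    refine ⟨⟨hp.1, hp.2.1, hp.2.2.1⟩, ?_⟩
    refine ((Nat.Prime.coprime_iff_not_dvd hp.2.2.2.1).mpr fun hd => ?_).symm
    have := (n2b_prime_dvd hp.2.2.2.1 hd).1
    omega
  · intro p _ _
    exact Real.log_natCast_nonneg _

/-- the class modulo `M l` -/
private theorem n2b_class (M a h l : ℕ) (hl : 1 ≤ l) (hlM : l.Coprime (M * h))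
    (ha : a.Coprime M) :
    ∃ c : ℕ, c.Coprime (M * l) ∧ ∀ n : ℕ, n ≡ c [MOD M * l] ↔ (n ≡ a [MOD M] ∧ l ∣ n + h) := by
  have co : M.Coprime l := (Nat.Coprime.coprime_mul_right_right hlM).symm
  have coh : h.Coprime l := (Nat.Coprime.coprime_mul_left_right hlM).symm
  obtain ⟨c, hc1, hc2⟩ := Nat.chineseRemainder co a (h * (l - 1))
  have hb : h * (l - 1) + h = h * l := by
    obtain ⟨k, rfl⟩ := Nat.exists_eq_add_of_le hl
    rw [Nat.add_sub_cancel_left]
    ring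
  refine ⟨c, ?_, fun n => ?_⟩
  · refine Nat.Coprime.mul_right ?_ ?_
    · have := hc1.gcd_eq
      unfold Nat.Coprime
      rw [this]
      exact ha
    · have := hc2.gcd_eq
      unfold Nat.Coprime
      rw [this]
      refine Nat.Coprime.mul_left coh ?_
      rw [Nat.coprime_comm]
      obtain ⟨k, rfl⟩ := Nat.exists_eq_add_of_le hl
      rw [Nat.add_sub_cancel_left]
      simp
  · rw [← Nat.modEq_and_modEq_iff_modEq_mul co]
    have h1 : n ≡ c [MOD M] ↔ n ≡ a [MOD M] := ⟨fun h => h.trans hc1, fun h => h.trans hc1.symm⟩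
    have h2 : n ≡ c [MOD l] ↔ l ∣ n + h := by
      have h3 : n ≡ c [MOD l] ↔ n ≡ h * (l - 1) [MOD l] :=
        ⟨fun h => h.trans hc2, fun h => h.trans hc2.symm⟩
      rw [h3, ← Nat.modEq_zero_iff_dvd]
      have h4 : h * (l - 1) + h ≡ 0 [MOD l] := by
        rw [hb, Nat.modEq_zero_iff_dvd]
        exact Nat.dvd_mul_left _ _
      constructor
      · intro h5
        exact (h5.add_right h).trans h4
      · intro h5
        exact Nat.ModEq.add_right_cancel' h (h5.trans h4.symm)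
    rw [h1, h2]

private theorem n2b_T (M l X : ℕ) (hl : 1 ≤ l) :
    ∑ n ∈ (Icc 1 X).filter (fun n => n.Coprime M), BV.th n ≤
      ∑ n ∈ (Icc 1 X).filter (fun n => n.Coprime (M * l)), BV.th n + Real.log l := by
  rw [← Finset.sum_filter_add_sum_filter_not ((Icc 1 X).filter (fun n => n.Coprime M))
    (fun n => n.Coprime l)]
  refine add_le_add (le_of_eq ?_) ?_
  · rw [Finset.filter_filter]
    refine Finset.sum_congr (Finset.filter_congr fun n _ => ?_) fun _ _ => rfl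
    exact (Nat.coprime_mul_iff_right).symm
  · have h1 : Real.log (∏ p ∈ l.primeFactors, (p : ℝ)) ≤ Real.log l := by
      refine Real.log_le_log ?_ ?_
      · refine Finset.prod_pos fun p hp => ?_
        exact_mod_cast (Nat.prime_of_mem_primeFactors hp).pos
      · rw [← Nat.cast_prod]
        exact Nat.cast_le.mpr (Nat.le_of_dvd hl (Nat.prod_primeFactors_dvd l))
    refine le_trans ?_ h1
    rw [Real.log_prod (fun p hp => by
      exact_mod_cast (Nat.prime_of_mem_primeFactors hp).ne_zero)]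
    unfold BV.th
    rw [← Finset.sum_filter]
    refine Finset.sum_le_sum_of_subset_of_nonneg ?_ fun p _ _ => Real.log_natCast_nonneg _
    intro p hp
    rw [mem_filter, mem_filter, mem_filter] at hp
    have hp1 := hp.2
    have hp2 := hp.1.2
    rw [Nat.Prime.coprime_iff_not_dvd hp1, not_not] at hp2
    exact Nat.mem_primeFactors.mpr ⟨hp1, hp2, by omega⟩

private theorem n2b_T' (M l X : ℕ) :
    ∑ n ∈ (Icc 1 X).filter (fun n => n.Coprime (M * l)), BV.th n ≤
      ∑ n ∈ (Icc 1 X).filter (fun n => n.Coprime M), BV.th n := by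
  refine Finset.sum_le_sum_of_subset_of_nonneg ?_ fun p _ _ => BV.th_nonneg p
  intro n hn
  rw [mem_filter] at hn ⊢
  exact ⟨hn.1, Nat.Coprime.coprime_mul_right_right hn.2⟩

private theorem n2b_mult (M X R a h l c : ℕ) (h2 : 2 ∣ M)
    (hc : ∀ n : ℕ, n ≡ c [MOD M * l] ↔ (n ≡ a [MOD M] ∧ l ∣ n + h)) :
    (n2bS M X R a h h2).multSum l =
      ∑ n ∈ (Icc 1 X).filter (fun n => n ≡ c [MOD M * l]), BV.th n := by
  unfold BoundingSieve.multSum
  change ∑ n ∈ ((Icc 1 X).filter (fun p => p.Prime ∧ p ≡ a [MOD M])).image (fun p => p + h),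
    (if l ∣ n then Real.log ((n - h : ℕ) : ℝ) else 0) = _
  rw [Finset.sum_image (fun x _ y _ hxy => Nat.add_right_cancel hxy)]
  unfold BV.th
  rw [← Finset.sum_filter, ← Finset.sum_filter, Finset.filter_filter, Finset.filter_filter]
  refine Finset.sum_congr (Finset.filter_congr fun n _ => ?_) fun n _ => ?_
  · rw [hc]
    tauto
  · rw [Nat.add_sub_cancel]

private theorem n2b_rem (M X R a h l c : ℕ) (h2 : 2 ∣ M) (hM : 1 ≤ M) (hl : 1 ≤ l)
    (hlP : l ∣ n2bP R (M * h))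
    (hc : ∀ n : ℕ, n ≡ c [MOD M * l] ↔ (n ≡ a [MOD M] ∧ l ∣ n + h)) :
    |(n2bS M X R a h h2).rem l| ≤ |BV.EE BV.th X (M * l) c| + Real.log l := by
  unfold BoundingSieve.rem
  rw [n2b_mult M X R a h l c h2 hc]
  change |_ - n2bNu l * ((∑ n ∈ (Icc 1 X).filter (fun n => n.Coprime M), BV.th n) /
    (M.totient : ℝ))| ≤ _
  have hsq : Squarefree l := (n2bP_squarefree R (M * h)).squarefree_of_dvd hlP
  rw [n2bNu_squarefree hsq]
  unfold BV.EE
  have co : M.Coprime l := (Nat.Coprime.coprime_mul_right_right (n2b_coprime hlP)).symm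
  rw [Nat.totient_mul co]
  have hφM : (1 : ℝ) ≤ M.totient := by exact_mod_cast Nat.totient_pos.mpr hM
  have hφl : (1 : ℝ) ≤ l.totient := by exact_mod_cast Nat.totient_pos.mpr hl
  have h3 := n2b_T M l X hl
  have h4 := n2b_T' M l X
  set S := ∑ n ∈ (Icc 1 X).filter (fun n => n ≡ c [MOD M * l]), BV.th n
  set T1 := ∑ n ∈ (Icc 1 X).filter (fun n => n.Coprime M), BV.th n
  set T2 := ∑ n ∈ (Icc 1 X).filter (fun n => n.Coprime (M * l)), BV.th n
  have h5 : S - 1 / (l.totient : ℝ) * (T1 / (M.totient : ℝ)) =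
      (S - 1 / ((M.totient * l.totient : ℕ) : ℝ) * T2) -
        (T1 - T2) / ((M.totient * l.totient : ℕ) : ℝ) := by
    push_cast
    field_simp
    ring
  rw [h5]
  refine (abs_sub _ _).trans (add_le_add le_rfl ?_)
  have h6 : (1 : ℝ) ≤ ((M.totient * l.totient : ℕ) : ℝ) := by
    push_cast
    nlinarith
  rw [abs_of_nonneg (by
    refine div_nonneg (by linarith) (by linarith))]
  rw [div_le_iff₀ (by linarith)]
  have h7 : 0 ≤ Real.log l := Real.log_natCast_nonneg l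
  nlinarith

private theorem n2b_card_div {l : ℕ} (hl : Squarefree l) :
    l.divisors.card = 2 ^ l.primeFactors.card := by
  rw [Nat.card_divisors hl.ne_zero]
  rw [Finset.prod_congr rfl (fun p hp => by
    have h1 : l.factorization p ≤ 1 := Squarefree.natFactorization_le_one p hl
    have h2 : 0 < l.factorization p :=
      (Nat.prime_of_mem_primeFactors hp).factorization_pos_of_dvd hl.ne_zero
        (Nat.dvd_of_mem_primeFactors hp)
    rw [show l.factorization p + 1 = 2 by omega]), Finset.prod_const]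

/-- pairs with the same lcm -/
private theorem n2b_pairs (R P : ℕ) (hP : Squarefree P) (f : ℕ → ℝ) (hf : ∀ m, 0 ≤ f m) :
    ∑ d1 ∈ P.divisors with d1 ≤ R, ∑ d2 ∈ P.divisors with d2 ≤ R, f (Nat.lcm d1 d2) ≤
      ∑ l ∈ (Icc 1 (R ^ 2)).filter (fun l => l ∣ P), (4 : ℝ) ^ l.primeFactors.card * f l := by
  rw [← Finset.sum_product' (f := fun q1 q2 => f (Nat.lcm q1 q2))]
  have h1 : ∀ x ∈ (P.divisors.filter (fun d => d ≤ R)) ×ˢ (P.divisors.filter (fun d => d ≤ R)),
      Nat.lcm x.1 x.2 ∈ (Icc 1 (R ^ 2)).filter (fun l => l ∣ P) := by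
    intro x hx
    rw [mem_product, mem_filter, mem_filter, Nat.mem_divisors, Nat.mem_divisors] at hx
    obtain ⟨⟨⟨h2, h3⟩, h4⟩, ⟨h5, _⟩, h6⟩ := hx
    have h7 : 0 < x.1 := Nat.pos_of_dvd_of_pos h2 (Nat.pos_of_ne_zero h3)
    have h8 : 0 < x.2 := Nat.pos_of_dvd_of_pos h5 (Nat.pos_of_ne_zero h3)
    rw [mem_filter, mem_Icc]
    refine ⟨⟨Nat.pos_of_ne_zero (Nat.lcm_ne_zero h7.ne' h8.ne'), ?_⟩, Nat.lcm_dvd h2 h5⟩
    refine (Nat.le_of_dvd (Nat.mul_pos h7 h8) (Nat.lcm_dvd_mul x.1 x.2)).trans ?_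
    rw [pow_two]
    exact Nat.mul_le_mul h4 h6
  rw [← Finset.sum_fiberwise_of_maps_to h1]
  refine Finset.sum_le_sum fun m hm => ?_
  rw [mem_filter, mem_Icc] at hm
  rw [Finset.sum_congr rfl (fun x hx => by rw [(mem_filter.mp hx).2]), Finset.sum_const,
    nsmul_eq_mul]
  refine mul_le_mul_of_nonneg_right ?_ (hf m)
  have h2 : ((P.divisors.filter (fun d => d ≤ R)) ×ˢ (P.divisors.filter (fun d => d ≤ R))).filter
      (fun x => Nat.lcm x.1 x.2 = m) ⊆ m.divisors ×ˢ m.divisors := by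
    intro x hx
    rw [mem_filter] at hx
    rw [mem_product, Nat.mem_divisors, Nat.mem_divisors]
    refine ⟨⟨?_, by omega⟩, ?_, by omega⟩
    · rw [← hx.2]; exact Nat.dvd_lcm_left _ _
    · rw [← hx.2]; exact Nat.dvd_lcm_right _ _
  have h3 := Finset.card_le_card h2
  rw [Finset.card_product, n2b_card_div (hP.squarefree_of_dvd hm.2), ← mul_pow] at h3
  norm_num at h3
  exact_mod_cast h3

/-- the error term -/
private theorem n2b_err (M X R a h : ℕ) (h2 : 2 ∣ M) (hM : 1 ≤ M) (hR : 1 ≤ R)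
    (ha : a.Coprime M) (E : ℝ)
    (hE : ∀ c : ℕ → ℕ, (∀ q ∈ Icc 1 (M * R ^ 2), (c q).Coprime q) →
      ∑ q ∈ Icc 1 (M * R ^ 2), (4 : ℝ) ^ q.primeFactors.card * |BV.EE BV.th X q (c q)| ≤ E) :
    ∑ d1 ∈ (n2bS M X R a h h2).prodPrimes.divisors with d1 ≤ R,
      ∑ d2 ∈ (n2bS M X R a h h2).prodPrimes.divisors with d2 ≤ R,
        |(n2bS M X R a h h2).rem (d1.lcm d2)| ≤ E + (R : ℝ) ^ 2 * (2 * Real.log R) := by
  classical
  have hex : ∀ l : ℕ, ∃ c : ℕ, (1 ≤ l ∧ l ∣ n2bP R (M * h)) → (c.Coprime (M * l) ∧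
      ∀ n : ℕ, n ≡ c [MOD M * l] ↔ (n ≡ a [MOD M] ∧ l ∣ n + h)) := by
    intro l
    by_cases hl : 1 ≤ l ∧ l ∣ n2bP R (M * h)
    · obtain ⟨c, hc⟩ := n2b_class M a h l hl.1 (n2b_coprime hl.2) ha
      exact ⟨c, fun _ => hc⟩
    · exact ⟨0, fun h => absurd h hl⟩
  choose c hc using hex
  set g : ℕ → ℝ := fun l => |BV.EE BV.th X (M * l) (c l)| with hg
  have hg0 : ∀ l, 0 ≤ g l := fun l => abs_nonneg _
  have hPne : n2bP R (M * h) ≠ 0 := (n2bP_squarefree R (M * h)).ne_zero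
  -- pointwise
  have hterm : ∀ d1 ∈ (n2bP R (M * h)).divisors.filter (fun d => d ≤ R),
      ∀ d2 ∈ (n2bP R (M * h)).divisors.filter (fun d => d ≤ R),
      |(n2bS M X R a h h2).rem (d1.lcm d2)| ≤ g (d1.lcm d2) + 2 * Real.log R := by
    intro d1 h1 d2 h3
    rw [mem_filter, Nat.mem_divisors] at h1 h3
    have h4 : 0 < d1 := Nat.pos_of_dvd_of_pos h1.1.1 (Nat.pos_of_ne_zero hPne)
    have h5 : 0 < d2 := Nat.pos_of_dvd_of_pos h3.1.1 (Nat.pos_of_ne_zero hPne)
    have h6 : d1.lcm d2 ∣ n2bP R (M * h) := Nat.lcm_dvd h1.1.1 h3.1.1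
    have h7 : 1 ≤ d1.lcm d2 := Nat.pos_of_ne_zero (Nat.lcm_ne_zero h4.ne' h5.ne')
    refine (n2b_rem M X R a h (d1.lcm d2) (c (d1.lcm d2)) h2 hM h7 h6 (hc _ ⟨h7, h6⟩).2).trans ?_
    refine add_le_add le_rfl ?_
    have h8 : d1.lcm d2 ≤ R ^ 2 := by
      refine (Nat.le_of_dvd (Nat.mul_pos h4 h5) (Nat.lcm_dvd_mul d1 d2)).trans ?_
      rw [pow_two]
      exact Nat.mul_le_mul h1.2 h3.2
    have h9 : Real.log ((d1.lcm d2 : ℕ) : ℝ) ≤ Real.log ((R : ℝ) ^ 2) := by
      refine Real.log_le_log (by exact_mod_cast h7) (by exact_mod_cast h8)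
    rw [Real.log_pow] at h9
    exact_mod_cast h9
  have hcard : (((n2bP R (M * h)).divisors.filter (fun d => d ≤ R)).card : ℝ) ≤ (R : ℝ) := by
    have hsub : (n2bP R (M * h)).divisors.filter (fun d => d ≤ R) ⊆ Finset.Icc 1 R := by
      intro d hd
      have hd' := Finset.mem_filter.mp hd
      exact Finset.mem_Icc.mpr ⟨Nat.pos_of_mem_divisors hd'.1, hd'.2⟩
    have h3 := Finset.card_le_card hsub
    rw [Nat.card_Icc, Nat.add_sub_cancel] at h3
    exact_mod_cast h3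
  have hlogR : 0 ≤ Real.log R := Real.log_natCast_nonneg R
  change ∑ d1 ∈ (n2bP R (M * h)).divisors with d1 ≤ R,
      ∑ d2 ∈ (n2bP R (M * h)).divisors with d2 ≤ R, |(n2bS M X R a h h2).rem (d1.lcm d2)| ≤ _
  have hstep1 : ∑ d1 ∈ (n2bP R (M * h)).divisors with d1 ≤ R,
      ∑ d2 ∈ (n2bP R (M * h)).divisors with d2 ≤ R, |(n2bS M X R a h h2).rem (d1.lcm d2)| ≤
      ∑ d1 ∈ (n2bP R (M * h)).divisors with d1 ≤ R,
      ∑ d2 ∈ (n2bP R (M * h)).divisors with d2 ≤ R, (g (d1.lcm d2) + 2 * Real.log R) :=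
    Finset.sum_le_sum fun d1 h1 => Finset.sum_le_sum fun d2 h3 => hterm d1 h1 d2 h3
  have hstep2 : ∑ d1 ∈ (n2bP R (M * h)).divisors with d1 ≤ R,
      ∑ d2 ∈ (n2bP R (M * h)).divisors with d2 ≤ R, (g (d1.lcm d2) + 2 * Real.log R) =
      ∑ d1 ∈ (n2bP R (M * h)).divisors with d1 ≤ R,
      ∑ d2 ∈ (n2bP R (M * h)).divisors with d2 ≤ R, g (d1.lcm d2) +
      (((n2bP R (M * h)).divisors.filter (fun d => d ≤ R)).card : ℝ) *
        ((((n2bP R (M * h)).divisors.filter (fun d => d ≤ R)).card : ℝ) * (2 * Real.log R)) := by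
    simp only [Finset.sum_add_distrib, Finset.sum_const, nsmul_eq_mul]
  have hstep3 := n2b_pairs R (n2bP R (M * h)) (n2bP_squarefree R (M * h)) g hg0
  -- transfer to Icc 1 (M R^2)
  set cc : ℕ → ℕ := fun q => if M ∣ q ∧ q / M ∣ n2bP R (M * h) ∧ 1 ≤ q / M then c (q / M) else 1
    with hcc
  have hcc1 : ∀ q ∈ Icc 1 (M * R ^ 2), (cc q).Coprime q := by
    intro q _
    rw [hcc]
    dsimp only
    split_ifs with hq
    · obtain ⟨⟨k, rfl⟩, h3, h4⟩ := hq
      rw [Nat.mul_div_cancel_left k hM] at h3 h4 ⊢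
      exact (hc k ⟨h4, h3⟩).1
    · exact Nat.coprime_one_left q
  have hE' := hE cc hcc1
  have hstep4 : ∑ l ∈ (Icc 1 (R ^ 2)).filter (fun l => l ∣ n2bP R (M * h)),
      (4 : ℝ) ^ l.primeFactors.card * g l ≤
      ∑ q ∈ Icc 1 (M * R ^ 2), (4 : ℝ) ^ q.primeFactors.card * |BV.EE BV.th X q (cc q)| := by
    have h3 : ∑ l ∈ (Icc 1 (R ^ 2)).filter (fun l => l ∣ n2bP R (M * h)),
        (4 : ℝ) ^ l.primeFactors.card * g l ≤
        ∑ l ∈ (Icc 1 (R ^ 2)).filter (fun l => l ∣ n2bP R (M * h)),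
        (4 : ℝ) ^ (M * l).primeFactors.card * |BV.EE BV.th X (M * l) (cc (M * l))| := by
      refine Finset.sum_le_sum fun l hl => ?_
      rw [mem_filter, mem_Icc] at hl
      have h4 : cc (M * l) = c l := by
        rw [hcc]
        dsimp only
        rw [if_pos ⟨Nat.dvd_mul_right _ _, by
          rw [Nat.mul_div_cancel_left l hM]
          exact ⟨hl.2, hl.1.1⟩⟩, Nat.mul_div_cancel_left l hM]
      rw [h4]
      refine mul_le_mul_of_nonneg_right ?_ (hg0 l)
      refine pow_le_pow_right₀ (by norm_num) (Finset.card_le_card ?_)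
      exact Nat.primeFactors_mono (Nat.dvd_mul_left _ _) (by
        have := hl.1.1
        positivity)
    refine h3.trans ?_
    rw [← Finset.sum_image (s := (Icc 1 (R ^ 2)).filter (fun l => l ∣ n2bP R (M * h)))
      (g := fun l => M * l) (f := fun q => (4 : ℝ) ^ q.primeFactors.card *
        |BV.EE BV.th X q (cc q)|)
      (fun x _ y _ hxy => Nat.eq_of_mul_eq_mul_left hM hxy)]
    refine Finset.sum_le_sum_of_subset_of_nonneg ?_ fun q _ _ => by positivity
    intro q hq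
    obtain ⟨l, hl, rfl⟩ := mem_image.mp hq
    rw [mem_filter, mem_Icc] at hl
    rw [mem_Icc]
    exact ⟨Nat.mul_pos hM hl.1.1, Nat.mul_le_mul_left M hl.1.2⟩
  have hR0 : (0 : ℝ) ≤ R := Nat.cast_nonneg R
  have hstep5 : (((n2bP R (M * h)).divisors.filter (fun d => d ≤ R)).card : ℝ) *
        ((((n2bP R (M * h)).divisors.filter (fun d => d ≤ R)).card : ℝ) * (2 * Real.log R)) ≤
      (R : ℝ) ^ 2 * (2 * Real.log R) := by
    rw [pow_two, mul_assoc]
    gcongr
  linarith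

private theorem n2b_theta_le (M : ℕ) (η : ℝ) (hη : 0 < η) : ∃ X0 : ℕ, ∀ X : ℕ, X0 ≤ X →
    ∑ n ∈ (Icc 1 X).filter (fun n => n.Coprime M), BV.th n ≤ (1 + η) * X := by
  obtain ⟨C, hC, h⟩ := SW.pnt 1
  have h1 : ∀ᶠ X : ℕ in Filter.atTop, C / η ≤ Real.log X :=
    (Real.tendsto_log_atTop.comp tendsto_natCast_atTop_atTop).eventually_ge_atTop _
  obtain ⟨X1, h1⟩ := Filter.eventually_atTop.mp h1
  refine ⟨max 2 X1, fun X hX => ?_⟩
  have hX2 : 2 ≤ X := (le_max_left _ _).trans hX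
  have hX1 := h1 X ((le_max_right _ _).trans hX)
  have hXr : (2 : ℝ) ≤ X := by exact_mod_cast hX2
  have h2 := h X hXr
  rw [Nat.floor_natCast, pow_one] at h2
  have h3 := (abs_le.mp h2).2
  have hlog : 0 < Real.log X := Real.log_pos (by linarith)
  have h4 : C * X / Real.log X ≤ η * X := by
    rw [div_le_iff₀ hlog]
    rw [div_le_iff₀ hη] at hX1
    nlinarith
  have h5 : ∑ n ∈ (Icc 1 X).filter (fun n => n.Coprime M), BV.th n ≤
      ∑ n ∈ Icc 1 X, ArithmeticFunction.vonMangoldt n := by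
    refine (Finset.sum_le_sum_of_subset_of_nonneg (Finset.filter_subset _ _)
      fun n _ _ => BV.th_nonneg n).trans ?_
    refine Finset.sum_le_sum fun n _ => ?_
    unfold BV.th
    split_ifs with hp
    · rw [ArithmeticFunction.vonMangoldt_apply_prime hp]
    · exact ArithmeticFunction.vonMangoldt_nonneg
  linarith

theorem n2_theta (w : ℕ) (hw : 2 ≤ w) (ε η : ℝ) (hε : 0 < ε) (hε1 : ε < 1 / 8) (hη : 0 < η) :
    ∃ X0 : ℕ, ∀ X : ℕ, X0 ≤ X → ∀ R : ℕ, 1 ≤ R → (R : ℝ) ≤ (X : ℝ) ^ (1 / 4 - ε) →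
      ∀ a h : ℕ, 1 ≤ h → a.Coprime (primorial w) → (a + h).Coprime (primorial w) →
        ∑ p ∈ (Icc 1 X).filter (fun p => p.Prime ∧ p ≡ a [MOD primorial w] ∧ (p + h).Prime ∧
          R < p + h), Real.log p ≤
          (1 + η) * X / ((Nat.totient (primorial w) : ℝ) * SS R (primorial w * h)) +
            X / (Real.log X) ^ 3 := by
  classical
  set M := primorial w with hMdef
  have hM : 1 ≤ M := primorial_pos w
  have h2 : 2 ∣ M := by
    rw [hMdef]
    unfold primorial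
    refine Finset.dvd_prod_of_mem (fun p => p) ?_
    rw [mem_filter, mem_range]
    exact ⟨by omega, Nat.prime_two⟩
  obtain ⟨X1, h1⟩ := BV.bvp 4 4 ε hε
  obtain ⟨X2, h3⟩ := n2b_theta_le M η hη
  have e1 : ∀ᶠ X : ℕ in Filter.atTop, (M : ℝ) ≤ (X : ℝ) ^ ε :=
    ((tendsto_rpow_atTop hε).comp tendsto_natCast_atTop_atTop).eventually_ge_atTop _
  have e2 : ∀ᶠ X : ℕ in Filter.atTop, (2 : ℝ) ≤ Real.log X :=
    (Real.tendsto_log_atTop.comp tendsto_natCast_atTop_atTop).eventually_ge_atTop _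
  have e3 : ∀ᶠ X : ℕ in Filter.atTop, 4 * Real.log X ^ 4 ≤ (X : ℝ) ^ (1 / 2 : ℝ) := by
    have h4 := (isLittleO_log_rpow_rpow_atTop 4 (show (0 : ℝ) < 1 / 2 by norm_num)).bound
      (show (0 : ℝ) < 1 / 4 by norm_num)
    have h5 := tendsto_natCast_atTop_atTop (R := ℝ) |>.eventually h4
    filter_upwards [h5, e2] with X h6 h7
    rw [Real.norm_of_nonneg (by positivity), Real.norm_of_nonneg (by positivity)] at h6
    have h8 : Real.log X ^ (4 : ℝ) = Real.log X ^ 4 := by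
      exact_mod_cast Real.rpow_natCast (Real.log X) 4
    rw [h8] at h6
    linarith
  obtain ⟨X3, h4⟩ := Filter.eventually_atTop.mp (e1.and (e2.and e3))
  refine ⟨max 2 (max X1 (max X2 X3)), fun X hX R hR hRX a h _ ha _ => ?_⟩
  simp only [max_le_iff] at hX
  obtain ⟨hX2, hX1, hX2', hX3⟩ := hX
  obtain ⟨f1, f2, f3⟩ := h4 X hX3
  have hXr : (2 : ℝ) ≤ X := by exact_mod_cast hX2
  have hX0 : (0 : ℝ) < X := by linarith
  have hRr : (1 : ℝ) ≤ R := by exact_mod_cast hR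
  have hR2 : (R : ℝ) ^ 2 ≤ (X : ℝ) ^ (1 / 2 - 2 * ε) := by
    calc (R : ℝ) ^ 2 ≤ ((X : ℝ) ^ (1 / 4 - ε)) ^ 2 := by gcongr
      _ = (X : ℝ) ^ (1 / 2 - 2 * ε) := by
        rw [← Real.rpow_natCast, ← Real.rpow_mul hX0.le]
        congr 1
        push_cast
        ring
  have hQ : ((M * R ^ 2 : ℕ) : ℝ) ≤ (X : ℝ) ^ (1 / 2 - ε) := by
    push_cast
    calc (M : ℝ) * (R : ℝ) ^ 2 ≤ (X : ℝ) ^ ε * (X : ℝ) ^ (1 / 2 - 2 * ε) := by gcongr
      _ = (X : ℝ) ^ (1 / 2 - ε) := by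
        rw [← Real.rpow_add hX0]
        congr 1
        ring
  have herr := n2b_err M X R a h h2 hM hR ha (X / Real.log X ^ 4)
    (fun c hc => h1 X hX1 (M * R ^ 2) hQ c hc)
  have hsel := Sieve.selberg_bound (n2bS M X R a h h2) R hR
  have hsift := n2b_sifted M X R a h h2
  rw [n2b_selS w X R a h h2] at hsel
  have hSS : 0 < SS R (M * h) := by
    have := Sieve.selS_pos (n2bS M X R a h h2) R hR
    rwa [n2b_selS w X R a h h2] at this
  have hφ : (0 : ℝ) < M.totient := by exact_mod_cast Nat.totient_pos.mpr hM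
  have hmain : (n2bS M X R a h h2).totalMass / SS R (M * h) ≤
      (1 + η) * X / ((Nat.totient M : ℝ) * SS R (M * h)) := by
    change (∑ n ∈ (Icc 1 X).filter (fun n => n.Coprime M), BV.th n) / (M.totient : ℝ) /
      SS R (M * h) ≤ _
    rw [div_div]
    have := h3 X hX2'
    gcongr
  have hlog0 : 0 < Real.log X := by linarith
  have hRX' : (R : ℝ) ≤ X := by
    refine hRX.trans ?_
    calc (X : ℝ) ^ (1 / 4 - ε) ≤ (X : ℝ) ^ (1 : ℝ) :=
          Real.rpow_le_rpow_of_exponent_le (by linarith) (by linarith)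
      _ = X := Real.rpow_one _
  have hlogR : Real.log R ≤ Real.log X := Real.log_le_log (by linarith) hRX'
  have hlogR0 : 0 ≤ Real.log R := Real.log_natCast_nonneg R
  have hR3 : (R : ℝ) ^ 2 ≤ (X : ℝ) ^ (1 / 2 : ℝ) :=
    hR2.trans (Real.rpow_le_rpow_of_exponent_le (by linarith) (by linarith))
  have hX12 : (X : ℝ) ^ (1 / 2 : ℝ) * (X : ℝ) ^ (1 / 2 : ℝ) = X := by
    rw [← Real.rpow_add hX0]; norm_num
  have hp0 : (0 : ℝ) < (X : ℝ) ^ (1 / 2 : ℝ) := by positivity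
  have herr2 : X / Real.log X ^ 4 + (R : ℝ) ^ 2 * (2 * Real.log R) ≤ X / Real.log X ^ 3 := by
    have g1 : (R : ℝ) ^ 2 * (2 * Real.log R) ≤ (X : ℝ) ^ (1 / 2 : ℝ) * (2 * Real.log X) := by
      gcongr
    have g2 : (X : ℝ) ^ (1 / 2 : ℝ) * (2 * Real.log X) * (2 * Real.log X ^ 3) ≤ X := by
      calc (X : ℝ) ^ (1 / 2 : ℝ) * (2 * Real.log X) * (2 * Real.log X ^ 3)
          = (X : ℝ) ^ (1 / 2 : ℝ) * (4 * Real.log X ^ 4) := by ring
        _ ≤ (X : ℝ) ^ (1 / 2 : ℝ) * (X : ℝ) ^ (1 / 2 : ℝ) := by gcongr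
        _ = X := hX12
    have g3 : X / Real.log X ^ 4 ≤ (1 / 2) * (X / Real.log X ^ 3) := by
      rw [div_le_iff₀ (by positivity)]
      have : (1 / 2) * (X / Real.log X ^ 3) * Real.log X ^ 4 = (1 / 2) * X * Real.log X := by
        field_simp
      rw [this]
      nlinarith
    have g4 : (X : ℝ) ^ (1 / 2 : ℝ) * (2 * Real.log X) ≤ (1 / 2) * (X / Real.log X ^ 3) := by
      have g5 : (1 / 2) * (X / Real.log X ^ 3) = X / (2 * Real.log X ^ 3) := by
        field_simp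
      rw [g5, le_div_iff₀ (by positivity)]
      exact g2
    linarith
  linarith

end Pool.Agent.Lib.MP_092512_nt.QC
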