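import Pool.Agent.Lib.MP_092512_nt.QC.Law
import Pool.Agent.Lib.MP_092512_nt.QC.Av

/-!
# Pick: choice of the sample `u` and of the set `T`

`N = card Y`. PROOF. Under the probability `mu` on `α → Y` (Markov): `P(nrm c (phi u) > C2 (1+e)) ≤ (1+e/8)/(1+e) ≤ 1 - 7e/16`,
`P((1/N)∑|..| > e) ≤ e/16`, `P(∑_{BB j} ∏ qq > κ) ≤ e/(16 (k+1))` for each `1 ≤ j ≤ k`; the sum of the probabilities is `< 1`, so some `u` with `mu u > 0` has
none of these events. `T = {y : δ1 ≤ phi u y}`. `∑_y phi u y = N` (`sum_qq`), `∑_{y ∉ T} phi u y ≤ δ1 N`, so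
`(1 - δ1) N ≤ ∑_T phi ≤ ∑_T av c phi + e N ≤ (|T| ∑ (av c phi)^2)^(1/2) + e N ≤ N (|T|/N)^(1/2) (C2 (1+e))^(1/2) + e N`, hence
`(1 - δ1 - e)^2 ≤ (|T|/N) C2 (1+e)` (`h1e`). For `y ∈ BB j` with all `y i ∈ T`: `∏ qq u (y i) ≥ (δ1/N)^j`, so `inT (BB j) T * (δ1/N)^j ≤ κ`.
-/

set_option autoImplicit false
set_option linter.unusedSectionVars false

open Finset

namespace Pool.Agent.Lib.MP_092512_nt.QC

private theorem pick_exists {X : Type} [Fintype X] (p S : X → ℝ) (hp : ∀ x, 0 ≤ p x)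
    (h1 : ∑ x, p x = 1) (hS : ∑ x, p x * S x < 1) : ∃ x, p x ≠ 0 ∧ S x < 1 := by
  by_contra hcon
  push Not at hcon
  have h2 : ∑ x, p x ≤ ∑ x, p x * S x := by
    refine sum_le_sum fun x _ => ?_
    by_cases h0 : p x = 0
    · rw [h0, zero_mul]
    · exact le_mul_of_one_le_right (hp x) (hcon x h0)
  linarith

private theorem pick_markov {X : Type} [Fintype X] (p A L : X → ℝ) (B : ℕ → X → ℝ) (k : ℕ)
    (C2 e κ : ℝ) (hp : ∀ x, 0 ≤ p x) (h1 : ∑ x, p x = 1) (hA0 : ∀ x, 0 ≤ A x)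
    (hL0 : ∀ x, 0 ≤ L x) (hB0 : ∀ j x, 0 ≤ B j x) (hC2 : 1 ≤ C2) (he : 0 < e) (he1 : e ≤ 1)
    (hκ : 0 < κ) (hA : ∑ x, p x * A x ≤ C2 * (1 + e / 8)) (hL : ∑ x, p x * L x ≤ e * (e / 16))
    (hB : ∀ j, 1 ≤ j → j ≤ k → ∑ x, p x * B j x ≤ κ * (e / (16 * (k + 1)))) :
    ∃ x, p x ≠ 0 ∧ A x ≤ C2 * (1 + e) ∧ L x ≤ e ∧ ∀ j, 1 ≤ j → j ≤ k → B j x ≤ κ := by
  have hD : 0 < C2 * (1 + e) := mul_pos (by linarith) (by linarith)
  have hk1 : (0 : ℝ) < (k : ℝ) + 1 := by positivity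
  have hsum : ∑ x, p x * (A x / (C2 * (1 + e)) + L x / e + ∑ j ∈ Icc 1 k, B j x / κ) =
      (∑ x, p x * A x) / (C2 * (1 + e)) + (∑ x, p x * L x) / e +
        ∑ j ∈ Icc 1 k, (∑ x, p x * B j x) / κ := by
    simp only [mul_add, sum_add_distrib, sum_div, mul_sum, mul_div_assoc]
    congr 1
    exact sum_comm
  have e1 : (∑ x, p x * A x) / (C2 * (1 + e)) ≤ 1 - 7 * e / 16 := by
    rw [div_le_iff₀ hD]
    refine hA.trans ?_
    have h2 : (1 - 7 * e / 16) * (C2 * (1 + e)) - C2 * (1 + e / 8) = C2 * (7 / 16 * (e * (1 - e))) := by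
      ring
    have h3 : 0 ≤ C2 * (7 / 16 * (e * (1 - e))) := by
      apply mul_nonneg (by linarith)
      apply mul_nonneg (by norm_num)
      exact mul_nonneg he.le (by linarith)
    linarith
  have e2 : (∑ x, p x * L x) / e ≤ e / 16 := by
    rw [div_le_iff₀ he]
    linarith
  have e3 : ∑ j ∈ Icc 1 k, (∑ x, p x * B j x) / κ ≤ e / 16 := by
    have h2 : ∀ j ∈ Icc 1 k, (∑ x, p x * B j x) / κ ≤ e / (16 * (k + 1)) := by
      intro j hj
      rw [mem_Icc] at hj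
      rw [div_le_iff₀ hκ]
      have := hB j hj.1 hj.2
      linarith
    refine (sum_le_sum h2).trans ?_
    rw [sum_const, Nat.card_Icc, nsmul_eq_mul, Nat.add_sub_cancel]
    have h3 : (k : ℝ) * (e / (16 * (k + 1))) = e / 16 * (k / (k + 1)) := by
      field_simp
    rw [h3]
    have h4 : (k : ℝ) / (k + 1) ≤ 1 := by
      rw [div_le_one hk1]
      linarith
    have h5 : 0 ≤ e / 16 := by positivity
    nlinarith
  obtain ⟨x, hx0, hx⟩ := pick_exists p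
    (fun x => A x / (C2 * (1 + e)) + L x / e + ∑ j ∈ Icc 1 k, B j x / κ) hp h1 (by
      rw [hsum]
      linarith)
  have hx' : A x / (C2 * (1 + e)) + L x / e + ∑ j ∈ Icc 1 k, B j x / κ < 1 := hx
  have t1 : 0 ≤ A x / (C2 * (1 + e)) := div_nonneg (hA0 x) hD.le
  have t2 : 0 ≤ L x / e := div_nonneg (hL0 x) he.le
  have t3 : 0 ≤ ∑ j ∈ Icc 1 k, B j x / κ := sum_nonneg fun j _ => div_nonneg (hB0 j x) hκ.le
  refine ⟨x, hx0, ?_, ?_, ?_⟩
  · have h2 : A x / (C2 * (1 + e)) ≤ 1 := by linarith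
    rwa [div_le_one hD] at h2
  · have h2 : L x / e ≤ 1 := by linarith
    rwa [div_le_one he] at h2
  · intro j hj1 hj2
    have h2 : B j x / κ ≤ ∑ j ∈ Icc 1 k, B j x / κ :=
      single_le_sum (f := fun j => B j x / κ) (fun j _ => div_nonneg (hB0 j x) hκ.le)
        (mem_Icc.2 ⟨hj1, hj2⟩)
    have h3 : B j x / κ ≤ 1 := by linarith
    rwa [div_le_one hκ] at h3

private theorem pick_last {Y : Type} {j : ℕ} (B : Finset (Fin j → Y)) (T : Finset Y) (q : Y → ℝ)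
    (N δ1 κ : ℝ) (hN : 0 < N) (hδ1 : 0 < δ1) (hq0 : ∀ y, 0 ≤ q y) (hq : ∀ y ∈ T, δ1 / N ≤ q y)
    (h : ∑ y ∈ B, ∏ i, q (y i) ≤ κ) : δ1 ^ j * (inT B T : ℝ) ≤ κ * N ^ j := by
  classical
  have h1 : (inT B T : ℝ) = ∑ _y ∈ B.filter (fun y => ∀ i, y i ∈ T), (1 : ℝ) := by
    rw [sum_const, nsmul_eq_mul, mul_one]
    unfold inT
    rfl
  have h2 : ∀ y ∈ B.filter (fun y => ∀ i, y i ∈ T), (δ1 / N) ^ j * 1 ≤ ∏ i, q (y i) := by
    intro y hy
    have hy' := (mem_filter.1 hy).2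
    have h4 : (δ1 / N) ^ j = ∏ _i : Fin j, (δ1 / N) := by
      rw [prod_const, card_univ, Fintype.card_fin]
    rw [mul_one, h4]
    exact prod_le_prod (fun i _ => (div_pos hδ1 hN).le) fun i _ => hq _ (hy' i)
  have h3 : (δ1 / N) ^ j * (inT B T : ℝ) ≤ κ := by
    rw [h1, mul_sum]
    refine (sum_le_sum h2).trans (le_trans ?_ h)
    exact sum_le_sum_of_subset_of_nonneg (filter_subset _ _)
      fun y _ _ => prod_nonneg fun i _ => hq0 _
  have h4 : 0 < N ^ j := pow_pos hN j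
  rw [div_pow, div_mul_eq_mul_div, div_le_iff₀ h4] at h3
  exact h3

variable {ι Y α : Type} [Fintype Y] [Fintype α] [DecidableEq α]

/-- choice of `u` and construction of `T` -/
theorem pick (J : Finset ι) (hJ : J.Nonempty) (R : ι → Finset Y) (c : Y → ℕ) (k : ℕ)
    (C2 e κ δ1 : ℝ) (hC2 : 1 ≤ C2) (he : 0 < e) (he1 : e ≤ 1) (hδ1 : 0 < δ1) (hκ : 0 < κ) (h1e : δ1 + e ≤ 1)
    (h : ∀ n ∈ J, Fintype.card α + 1 ≤ (R n).card)
    (hM : ∑ u : α → Y, mu J R u * nrm c (phi J R u) ≤ C2 * (1 + e / 8))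
    (hL : ∑ u : α → Y, mu J R u * ((∑ y, |phi J R u y - av c (phi J R u) y|) / Fintype.card Y) ≤
      e * (e / 16))
    (BB : (j : ℕ) → Finset (Fin j → Y))
    (hB : ∀ j, 1 ≤ j → j ≤ k → ∑ u : α → Y, mu J R u * ∑ y ∈ BB j, ∏ i, qq J R u (y i) ≤
      κ * (e / (16 * (k + 1)))) :
    ∃ T : Finset Y, (1 - δ1 - e) ^ 2 / (C2 * (1 + e)) * Fintype.card Y ≤ T.card ∧
      ∀ j, 1 ≤ j → j ≤ k →
        δ1 ^ j * (inT (BB j) T : ℝ) ≤
          κ * (Fintype.card Y : ℝ) ^ j := by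
  classical
  obtain ⟨n, hn⟩ := hJ
  have hN : 0 < Fintype.card Y := by
    have h2 := h n hn
    have h3 : (R n).card ≤ Fintype.card Y := card_le_univ _
    omega
  have hN' : (0 : ℝ) < (Fintype.card Y : ℝ) := by exact_mod_cast hN
  obtain ⟨u, hu0, hu1, hu2, hu3⟩ := pick_markov (fun u : α → Y => mu J R u)
    (fun u => nrm c (phi J R u))
    (fun u => (∑ y, |phi J R u y - av c (phi J R u) y|) / Fintype.card Y)
    (fun j u => ∑ y ∈ BB j, ∏ i, qq J R u (y i)) k C2 e κ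
    (fun u => mu_nonneg J R u)
    (sum_mu J ⟨n, hn⟩ R fun n hn => (Nat.le_succ _).trans (h n hn))
    (fun u => nrm_nonneg _ _)
    (fun u => div_nonneg (sum_nonneg fun y _ => abs_nonneg _) (Nat.cast_nonneg _))
    (fun j u => sum_nonneg fun y _ => prod_nonneg fun i _ => qq_nonneg _ _ _ _)
    hC2 he he1 hκ hM hL hB
  have hu0 : mu J R u ≠ 0 := hu0
  have hu1 : nrm c (phi J R u) ≤ C2 * (1 + e) := hu1
  have hu2 : (∑ y, |phi J R u y - av c (phi J R u) y|) / Fintype.card Y ≤ e := hu2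
  have hu3 : ∀ j, 1 ≤ j → j ≤ k → ∑ y ∈ BB j, ∏ i, qq J R u (y i) ≤ κ := hu3
  have hsum : ∑ y, phi J R u y = Fintype.card Y := by
    unfold phi
    rw [← mul_sum, sum_qq J R h u hu0, mul_one]
  have hD : 0 < C2 * (1 + e) := mul_pos (by linarith) (by linarith)
  refine ⟨univ.filter fun y => δ1 ≤ phi J R u y, ?_, ?_⟩
  · obtain ⟨T, hT⟩ : ∃ T, T = univ.filter fun y => δ1 ≤ phi J R u y := ⟨_, rfl⟩
    rw [← hT]
    have h2 : ∑ y ∈ T, phi J R u y + ∑ y ∈ univ.filter (fun y => ¬ δ1 ≤ phi J R u y), phi J R u y =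
        Fintype.card Y := by
      rw [hT, sum_filter_add_sum_filter_not, hsum]
    have h3 : ∑ y ∈ univ.filter (fun y => ¬ δ1 ≤ phi J R u y), phi J R u y ≤
        δ1 * Fintype.card Y := by
      have h4 : ∑ y ∈ univ.filter (fun y => ¬ δ1 ≤ phi J R u y), phi J R u y ≤
          ∑ _y ∈ univ.filter (fun y => ¬ δ1 ≤ phi J R u y), δ1 :=
        sum_le_sum fun y hy => (not_le.1 (mem_filter.1 hy).2).le
      refine h4.trans ?_
      rw [sum_const, nsmul_eq_mul, mul_comm]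
      apply mul_le_mul_of_nonneg_left _ hδ1.le
      exact_mod_cast card_le_univ _
    have h4 : ∑ y ∈ T, phi J R u y ≤ ∑ y ∈ T, av c (phi J R u) y +
        ∑ y ∈ T, |phi J R u y - av c (phi J R u) y| := by
      rw [← sum_add_distrib]
      refine sum_le_sum fun y _ => ?_
      have := le_abs_self (phi J R u y - av c (phi J R u) y)
      linarith
    have h5 : ∑ y ∈ T, |phi J R u y - av c (phi J R u) y| ≤ e * Fintype.card Y := by
      rw [div_le_iff₀ hN'] at hu2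
      refine le_trans ?_ hu2
      exact sum_le_sum_of_subset_of_nonneg (subset_univ _) fun y _ _ => abs_nonneg _
    have h6 : (∑ y ∈ T, av c (phi J R u) y) ^ 2 ≤
        T.card * (C2 * (1 + e) * Fintype.card Y) := by
      refine (sq_sum_le_card_mul_sum_sq).trans ?_
      apply mul_le_mul_of_nonneg_left _ (Nat.cast_nonneg _)
      refine (sum_le_sum_of_subset_of_nonneg (subset_univ _) fun y _ _ => sq_nonneg _).trans ?_
      unfold nrm at hu1
      rwa [div_le_iff₀ hN'] at hu1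
    have h7 : (1 - δ1 - e) * Fintype.card Y ≤ ∑ y ∈ T, av c (phi J R u) y := by linarith
    have h8 : 0 ≤ (1 - δ1 - e) * Fintype.card Y := mul_nonneg (by linarith) hN'.le
    have h9 : ((1 - δ1 - e) * Fintype.card Y) ^ 2 ≤ T.card * (C2 * (1 + e) * Fintype.card Y) :=
      (pow_le_pow_left₀ h8 h7 2).trans h6
    rw [div_mul_eq_mul_div, div_le_iff₀ hD]
    have h10 : ((1 - δ1 - e) ^ 2 * Fintype.card Y) * Fintype.card Y ≤
        (T.card * (C2 * (1 + e))) * Fintype.card Y := by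
      calc ((1 - δ1 - e) ^ 2 * Fintype.card Y) * Fintype.card Y
          = ((1 - δ1 - e) * Fintype.card Y) ^ 2 := by ring
        _ ≤ T.card * (C2 * (1 + e) * Fintype.card Y) := h9
        _ = (T.card * (C2 * (1 + e))) * Fintype.card Y := by ring
    exact le_of_mul_le_mul_right h10 hN'
  · intro j hj1 hj2
    refine pick_last (BB j) _ (qq J R u) _ δ1 κ hN' hδ1 (fun y => qq_nonneg _ _ _ _) ?_
      (hu3 j hj1 hj2)
    intro y hy
    have h3 := (mem_filter.1 hy).2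
    unfold phi at h3
    rw [div_le_iff₀ hN', mul_comm]
    exact h3

end Pool.Agent.Lib.MP_092512_nt.QC
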