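import Pool.Agent.Lib.MP_092512_nt.QC.ND
import Pool.Agent.Lib.MP_092512_nt.P3.G1

/-!
# Pos: the singular series of an admissible set is positive
-/

set_option autoImplicit false

open Finset Filter Topology

namespace Pool.Agent.Lib.MP_092512_nt.QC

open Pool.Agent.Lib.MP_092512_nt.KSets

/-- the singular series of an admissible set is positive -/
theorem S_pos (S : Finset ℕ → ℝ) (hS : ∀ D, Tendsto (Sp D) atTop (𝓝 (S D))) (D : Finset ℕ)
    (hD : ∀ p : ℕ, p.Prime → nu D p < p) : 0 < S D := by
  classical
  set h : Fin D.card → ℕ := fun i => D.orderEmbOfFin rfl i with hh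
  have hinj : Function.Injective h := (D.orderEmbOfFin rfl).injective
  have him : (univ : Finset (Fin D.card)).image h = D := by
    ext d
    rw [mem_image]
    constructor
    · rintro ⟨i, _, rfl⟩
      exact D.orderEmbOfFin_mem rfl i
    · intro hd
      have h1 : d ∈ Set.range (D.orderEmbOfFin rfl) := by
        rw [Finset.range_orderEmbOfFin]
        exact hd
      obtain ⟨i, hi⟩ := h1
      exact ⟨i, mem_univ _, hi⟩
  have hnu : ∀ p : ℕ, P3.nuh h univ p = nu D p := by
    intro p
    have h0 : nu D p = nu ((univ : Finset (Fin D.card)).image h) p := by rw [him]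
    rw [h0]
    unfold P3.nuh nu
    rw [image_image]
    rfl
  obtain ⟨S', hS', hlim⟩ := P3.sing h hinj (fun p hp => by rw [hnu]; exact hD p hp)
  have h1 : Tendsto (fun z => Sp D (z + 1)) atTop (𝓝 (S D)) :=
    (hS D).comp (tendsto_add_atTop_nat 1)
  have h2 : (fun z => Sp D (z + 1)) = P3.SgR h := by
    funext z
    unfold Sp P3.SgR fac
    have h3 : Nat.primesBelow (z + 1) = (Icc 1 z).filter Nat.Prime := by
      ext p
      rw [Nat.mem_primesBelow, mem_filter, mem_Icc]
      constructor
      · rintro ⟨h4, h5⟩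
        exact ⟨⟨h5.one_lt.le, by omega⟩, h5⟩
      · rintro ⟨⟨_, h4⟩, h5⟩
        exact ⟨by omega, h5⟩
    rw [h3]
    apply prod_congr rfl
    intro p _
    rw [hnu]
  rw [h2] at h1
  rw [tendsto_nhds_unique h1 hlim]
  exact hS'

/-- a set of positions prime to the small primes is admissible -/
theorem adm_of (w b : ℕ) (D : Finset ℕ) (hc : D.card ≤ w)
    (h : ∀ d ∈ D, (b + d).Coprime (primorial w)) (p : ℕ) (hp : p.Prime) : nu D p < p := by
  by_cases hpw : p ≤ w
  · have hdvd : p ∣ primorial w := by
      unfold primorial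
      exact dvd_prod_of_mem _ (mem_filter.mpr ⟨mem_range.mpr (by omega), hp⟩)
    unfold nu
    have h1 : D.image (fun d => d % p) ⊆ (range p).erase ((p - b % p) % p) := by
      intro r hr
      rw [mem_image] at hr
      obtain ⟨d, hd, rfl⟩ := hr
      rw [mem_erase, mem_range]
      refine ⟨fun h2 => ?_, Nat.mod_lt _ hp.pos⟩
      have h3 : p ∣ b + d := by
        rw [Nat.dvd_iff_mod_eq_zero, Nat.add_mod, h2]
        have h4 : b % p < p := Nat.mod_lt _ hp.pos
        rcases Nat.eq_zero_or_pos (b % p) with h0 | h0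
        · rw [h0]
          simp
        · rw [Nat.mod_eq_of_lt (by omega : p - b % p < p),
            show b % p + (p - b % p) = p by omega, Nat.mod_self]
      have h5 := Nat.dvd_gcd h3 hdvd
      have h6 : Nat.gcd (b + d) (primorial w) = 1 := h d hd
      rw [h6] at h5
      exact hp.one_lt.ne' (Nat.dvd_one.mp h5)
    have h2 := card_le_card h1
    have h3 : ((range p).erase ((p - b % p) % p)).card = p - 1 := by
      rw [card_erase_of_mem (mem_range.mpr (Nat.mod_lt _ hp.pos)), card_range]
    have := hp.pos
    omega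
  · exact lt_of_le_of_lt ((nu_le_card D p).trans hc) (by omega)

end Pool.Agent.Lib.MP_092512_nt.QC
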