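import Pool.Agent.Lib.MP_092512_nt.QC.Av

/-!
# Reg: energy increment (Lemma R of the text)

PROOF. `refine c B y = 2 c y + (1 if y ∈ B)`: `cells (refine c B) ≤ 2 cells c`. `reg_step`: for `f : Y → ℝ`, `c' = refine c B`,
`((1/N) ∑ f (ind B - av c (ind B)))^2 ≤ nrm c' f - nrm c f`: `g = ind B - av c (ind B)` is constant on the cells of `c'` and `av c g = 0`, so
`∑ f g = ∑ (av c' f) g = ∑ (av c' f - av c f) g` (`sum_av_mul`, `av c (ind B)` and `av c f` are constant on the cells of `c`), `|g| ≤ 1`, Cauchy-Schwarz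
and `(1/N)∑ (av c' f - av c f)^2 = nrm c' f - nrm c f` (Pythagoras: `av c (av c' f) = av c f` since the cells of `c'` refine those of `c`).
`reg`: start with `c = 0` (one cell) and refine as long as some `B` violates the claim; after `i` steps the total energy is `≥ i τ^2 |J|` and there are
`≤ 2^i` cells; so it stops before step `I`.
-/

set_option autoImplicit false

open Finset

namespace Pool.Agent.Lib.MP_092512_nt.QC

variable {Y : Type} [Fintype Y]

open Classical in
/-- refinement of the partition by `B` -/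
noncomputable def rfn (c : Y → ℕ) (B : Finset Y) (y : Y) : ℕ := 2 * c y + if y ∈ B then 1 else 0

theorem cells_rfn (c : Y → ℕ) (B : Finset Y) : cells (rfn c B) ≤ 2 * cells c := by
  classical
  unfold cells
  have h : univ.image (rfn c B) ⊆ ((univ.image c) ×ˢ (range 2)).image
      (fun p : ℕ × ℕ => 2 * p.1 + p.2) := by
    intro x hx
    obtain ⟨y, -, rfl⟩ := mem_image.1 hx
    refine mem_image.2 ⟨(c y, if y ∈ B then 1 else 0), ?_, rfl⟩
    refine mem_product.2 ⟨mem_image_of_mem _ (mem_univ _), ?_⟩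
    show (if y ∈ B then 1 else 0) ∈ range 2
    split_ifs <;> simp
  refine (card_le_card h).trans (card_image_le.trans ?_)
  rw [card_product, card_range, mul_comm]

private theorem reg_self (c : Y → ℕ) (g : Y → ℝ) (hg : ∀ y z, c y = c z → g y = g z) (y : Y) :
    av c g y = g y := by
  unfold av
  have h : ∀ z ∈ cell c y, g z = g y := fun z hz => by
    refine hg z y ?_
    simpa [cell] using hz
  rw [sum_congr rfl h, sum_const, nsmul_eq_mul]
  have := cell_card_pos c y
  field_simp

private theorem reg_rfn (c : Y → ℕ) (B : Finset Y) {y z : Y} (h : rfn c B y = rfn c B z) :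
    c y = c z ∧ ind B y = ind B z := by
  classical
  unfold rfn at h
  unfold ind
  by_cases h1 : y ∈ B
  · by_cases h2 : z ∈ B
    · simp only [h1, h2, if_true] at h ⊢
      exact ⟨by omega, trivial⟩
    · simp only [h1, h2, if_true, if_false] at h
      omega
  · by_cases h2 : z ∈ B
    · simp only [h1, h2, if_true, if_false] at h
      omega
    · simp only [h1, h2, if_false] at h ⊢
      exact ⟨by omega, trivial⟩

theorem reg_step (c : Y → ℕ) (B : Finset Y) (f : Y → ℝ) :
    ((∑ y, f y * (ind B y - av c (ind B) y)) / Fintype.card Y) ^ 2 ≤ nrm (rfn c B) f - nrm c f := by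
  classical
  set g : Y → ℝ := fun y => ind B y - av c (ind B) y with hg
  set F : Y → ℝ := av (rfn c B) f with hF
  set G : Y → ℝ := av c f with hG
  have hg1 : ∀ y, av (rfn c B) g y = g y := fun y => by
    refine reg_self _ g (fun y z h => ?_) y
    obtain ⟨h1, h2⟩ := reg_rfn c B h
    show ind B y - av c (ind B) y = ind B z - av c (ind B) z
    rw [h2, av_congr c _ h1]
  have hG1 : ∀ y, av (rfn c B) G y = G y := fun y => by
    refine reg_self _ G (fun y z h => ?_) y
    exact av_congr c _ (reg_rfn c B h).1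
  have hG2 : ∀ y, av c G y = G y := fun y => av_av c f y
  have hg2 : ∀ y, av c g y = 0 := fun y => by
    have h1 : g = fun y => ind B y + (-1) * av c (ind B) y := by
      funext y; rw [hg]; ring
    rw [h1, av_add, av_smul, av_av]
    ring
  have e1 : ∑ y, f y * g y = ∑ y, F y * g y := by
    rw [hF, sum_av_mul]
    exact sum_congr rfl fun y _ => by rw [hg1]
  have e2 : ∑ y, G y * g y = 0 := by
    rw [hG, sum_av_mul]
    exact sum_eq_zero fun y _ => by rw [hg2, mul_zero]
  have e3 : ∑ y, f y * g y = ∑ y, (F y - G y) * g y := by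
    rw [e1]
    have : ∑ y, (F y - G y) * g y = ∑ y, F y * g y - ∑ y, G y * g y := by
      rw [← sum_sub_distrib]
      exact sum_congr rfl fun y _ => by ring
    rw [this, e2, sub_zero]
  have e4 : ∑ y, F y * G y = ∑ y, G y ^ 2 := by
    have h1 : ∑ y, F y * G y = ∑ y, f y * G y := by
      rw [hF, sum_av_mul]
      exact sum_congr rfl fun y _ => by rw [hG1]
    have h2 : ∑ y, G y ^ 2 = ∑ y, f y * G y := by
      have h3 : ∑ y, G y ^ 2 = ∑ y, av c f y * G y :=
        sum_congr rfl fun y _ => by rw [hG]; ring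
      rw [h3, sum_av_mul]
      exact sum_congr rfl fun y _ => by rw [hG2]
    rw [h1, h2]
  have e5 : ∑ y, (F y - G y) ^ 2 = ∑ y, F y ^ 2 - ∑ y, G y ^ 2 := by
    have h1 : ∑ y, (F y - G y) ^ 2 = ∑ y, F y ^ 2 - 2 * ∑ y, F y * G y + ∑ y, G y ^ 2 := by
      rw [mul_sum, ← sum_sub_distrib, ← sum_add_distrib]
      exact sum_congr rfl fun y _ => by ring
    rw [h1, e4]; ring
  have hind : ∀ y, 0 ≤ ind B y ∧ ind B y ≤ 1 := fun y => by
    unfold ind
    split_ifs <;> norm_num
  have habs : ∀ y, g y ^ 2 ≤ 1 := fun y => by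
    have h1 : 0 ≤ av c (ind B) y := av_nonneg c _ (fun z => (hind z).1) y
    have h2 : |av c (ind B) y| ≤ 1 := av_abs_le c _ 1 (fun z => by
      rw [abs_of_nonneg (hind z).1]; exact (hind z).2) y
    have h3 := (abs_le.1 h2).2
    have h4 := hind y
    have h5 : g y ≤ 1 := by show ind B y - av c (ind B) y ≤ 1; linarith
    have h6 : -1 ≤ g y := by show -1 ≤ ind B y - av c (ind B) y; linarith
    nlinarith
  have hgs : ∑ y, g y ^ 2 ≤ (Fintype.card Y : ℝ) := by
    refine (sum_le_sum fun y _ => habs y).trans_eq ?_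
    rw [sum_const, nsmul_eq_mul, mul_one, card_univ]
  have hCS : (∑ y, (F y - G y) * g y) ^ 2 ≤ (∑ y, (F y - G y) ^ 2) * ∑ y, g y ^ 2 :=
    sum_mul_sq_le_sq_mul_sq univ _ _
  have hnn : 0 ≤ ∑ y, (F y - G y) ^ 2 := sum_nonneg fun y _ => sq_nonneg _
  show ((∑ y, f y * g y) / (Fintype.card Y : ℝ)) ^ 2 ≤
    (∑ y, F y ^ 2) / (Fintype.card Y : ℝ) - (∑ y, G y ^ 2) / (Fintype.card Y : ℝ)
  rw [← sub_div, ← e5, e3, div_pow]
  rcases (Nat.cast_nonneg (α := ℝ) (Fintype.card Y)).eq_or_lt with h0 | h0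
  · rw [← h0]; simp
  · rw [div_le_div_iff₀ (by positivity) h0]
    have h1 : (∑ y, (F y - G y) * g y) ^ 2 ≤ (∑ y, (F y - G y) ^ 2) * (Fintype.card Y : ℝ) :=
      hCS.trans (mul_le_mul_of_nonneg_left hgs hnn)
    calc (∑ y, (F y - G y) * g y) ^ 2 * (Fintype.card Y : ℝ)
        ≤ ((∑ y, (F y - G y) ^ 2) * (Fintype.card Y : ℝ)) * (Fintype.card Y : ℝ) :=
          mul_le_mul_of_nonneg_right h1 h0.le
      _ = (∑ y, (F y - G y) ^ 2) * (Fintype.card Y : ℝ) ^ 2 := by ring

theorem reg {ι : Type} (J : Finset ι) (f : ι → Y → ℝ) (C3 τ : ℝ) (hτ : 0 < τ) (I : ℕ)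
    (hI : C3 < I * τ ^ 2) (hJ : J.Nonempty)
    (hE : ∀ c : Y → ℕ, cells c ≤ 2 ^ I → ∑ n ∈ J, nrm c (f n) ≤ C3 * J.card) :
    ∃ c : Y → ℕ, cells c ≤ 2 ^ I ∧ ∀ B : Finset Y,
      ∑ n ∈ J, ((∑ y, f n y * (ind B y - av c (ind B) y)) / Fintype.card Y) ^ 2 ≤
        τ ^ 2 * J.card := by
  by_contra hcon
  push Not at hcon
  have key : ∀ i : ℕ, i ≤ I → ∃ c : Y → ℕ, cells c ≤ 2 ^ i ∧
      i * τ ^ 2 * J.card ≤ ∑ n ∈ J, nrm c (f n) := by
    intro i
    induction i with
    | zero =>
      intro _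
      refine ⟨fun _ => 0, ?_, ?_⟩
      · unfold cells
        refine (card_le_card (t := {0}) ?_).trans ?_
        · intro x hx
          obtain ⟨y, -, rfl⟩ := mem_image.1 hx
          exact mem_singleton_self _
        · simp
      · have : 0 ≤ ∑ n ∈ J, nrm (fun _ : Y => 0) (f n) := sum_nonneg fun n _ => nrm_nonneg _ _
        simpa using this
    | succ i ih =>
      intro hi
      obtain ⟨c, hc, hs⟩ := ih (by omega)
      obtain ⟨B, hB⟩ := hcon c (hc.trans (Nat.pow_le_pow_right (by norm_num) (by omega)))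
      refine ⟨rfn c B, ?_, ?_⟩
      · refine (cells_rfn c B).trans ?_
        rw [pow_succ]
        omega
      · have h1 : ∑ n ∈ J, ((∑ y, f n y * (ind B y - av c (ind B) y)) / Fintype.card Y) ^ 2 ≤
            ∑ n ∈ J, nrm (rfn c B) (f n) - ∑ n ∈ J, nrm c (f n) := by
          rw [← sum_sub_distrib]
          exact sum_le_sum fun n _ => reg_step c B (f n)
        push_cast
        nlinarith
  obtain ⟨c, hc, hs⟩ := key I le_rfl
  have h1 := hE c hc
  have h2 : (0 : ℝ) < J.card := by exact_mod_cast hJ.card_pos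
  nlinarith

end Pool.Agent.Lib.MP_092512_nt.QC
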