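import Pool.Agent.Lib.MP_092512_nt.QC.LemL
import Pool.Agent.Lib.MP_092512_nt.QC.LemM
import Pool.Agent.Lib.MP_092512_nt.QC.Pick

/-!
# ThmA: Theorem A of the text

PROOF (1.3 of the text). `e = ε/8` or smaller, `δ1 = e`, so that `(1 - δ1 - e)^2/(C2' (1+e)) ≥ (1-ε)/C2` with `C2' = C2 (1+e)`; `κ = ε δ1^k`; `hB` of `pick` asks for
`κ e/(16 (k+1))`: choose `δ > 0` with `√(2 k δ)` at most half of it and with `2 √(2 δ) ≤ e^2/64`; `K0` from `pigeon` twice: first block length `k`, giving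
`K1 ≤ L1 k` with `hh (K1+k) - hh K1 ≤ δ`; then block length `max K1 1 ≤ L1 k + 1`: one `L2` for each possible value (finitely many, take the maximum), giving
`K2` with `hh (K2 + K1) - hh K2 ≤ δ` (if `K1 = 0` trivial). `K0 ≥` all `2 L l` and `K1 + K2`; then `δ2 = e^2/128`, then `τ, ms` so small / large that
`√(GG (K1+K2) (32 τ^2 + 32 K2^2/ms^2)/δ2) ≤ e^2/64` (bound of `GG` by the hypothesis), `(ms/(ms - K1))^2 ≤ 1 + e/16`, `ms ≥ 2 K0 + k + 4`.
Use `α = Fin K1`, `β = Fin K2` (`Fintype.card_fin`). `hB`: `∑_u mu u ∑_{y ∈ BB j} ∏ qq u (y i) ≤ ∑_{y ∈ BB j} mu y + √(2 j δ)` (`tv_prod`, `sum_mu_filter`); for `j ≤ k`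
`hh (K1 + j) - hh K1 ≤ hh (K1 + k) - hh K1 ≤ δ` (`hh_mono`).
-/

set_option autoImplicit false
set_option linter.unusedSectionVars false

open Finset

namespace Pool.Agent.Lib.MP_092512_nt.QC

variable {ι Y α : Type} [Fintype Y] [Fintype α] [DecidableEq α]

private theorem thmA_mono (J : Finset ι) (hJ : J.Nonempty) (R : ι → Finset Y) (K j : ℕ)
    (h : ∀ n ∈ J, K + j + 1 ≤ (R n).card) : hh J R K ≤ hh J R (K + j) := by
  induction j with
  | zero => exact le_rfl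
  | succ j ih =>
    refine (ih fun n hn => ?_).trans ?_
    · have := h n hn
      omega
    · exact hh_mono J hJ R (K + j) fun n hn => by
        have := h n hn
        omega

private theorem thmA_ratio (e m K : ℝ) (he : 0 < e) (he1 : e ≤ 1) (hK : 0 ≤ K) (hm : 0 < m)
    (h : 32 * K ≤ e * m) : (m / (m - K)) ^ 2 ≤ 1 + e / 8 := by
  have h1 : 0 < m - K := by nlinarith
  have h2 : m ^ 2 ≤ (1 + e / 8) * (m - K) ^ 2 := by
    have h3 : m - K ≥ (1 - e / 32) * m := by linarith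
    have h4 : 0 ≤ (1 - e / 32) * m := by
      apply mul_nonneg _ hm.le
      linarith
    have h5 : ((1 - e / 32) * m) ^ 2 ≤ (m - K) ^ 2 := by
      apply pow_le_pow_left₀ h4 h3
    have h6 : (1 : ℝ) ≤ (1 + e / 8) * (1 - e / 32) ^ 2 := by nlinarith [sq_nonneg e, mul_pos he he]
    calc m ^ 2 = 1 * m ^ 2 := by ring
      _ ≤ ((1 + e / 8) * (1 - e / 32) ^ 2) * m ^ 2 := by
          apply mul_le_mul_of_nonneg_right h6 (sq_nonneg _)
      _ = (1 + e / 8) * ((1 - e / 32) * m) ^ 2 := by ring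
      _ ≤ (1 + e / 8) * (m - K) ^ 2 := by
          apply mul_le_mul_of_nonneg_left h5
          positivity
  rw [div_pow, div_le_iff₀ (by positivity)]
  exact h2

private theorem thmA_B (J : Finset ι) (hJ : J.Nonempty) (R : ι → Finset Y) (K1 j k : ℕ)
    (hj : j ≤ k) (δ τ : ℝ) (hδ0 : 0 ≤ δ) (h : ∀ n ∈ J, K1 + k + 2 ≤ (R n).card)
    (hδ : hh J R (K1 + k) - hh J R K1 ≤ δ) (B : Finset (Fin j → Y))
    (hB : ∑ y ∈ B, mu J R y ≤ τ) :
    ∑ u : Fin K1 → Y, mu J R u * ∑ y ∈ B, ∏ i, qq J R u (y i) ≤ τ + √(2 * k * δ) := by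
  have h1 : hh J R (Fintype.card (Fin K1) + j) - hh J R (Fintype.card (Fin K1)) ≤ δ := by
    rw [Fintype.card_fin]
    have h2 := thmA_mono J hJ R (K1 + j) (k - j) (fun n hn => by
      have := h n hn
      omega)
    rw [show K1 + j + (k - j) = K1 + k by omega] at h2
    linarith
  have h3 := tv_prod (α := Fin K1) J hJ R j δ (fun n hn => by
    have := h n hn
    rw [Fintype.card_fin]
    omega) h1
  have h4 := sum_mu_filter (α := Fin K1) (β := Fin j) J R (fun n hn => by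
    have := h n hn
    rw [Fintype.card_fin, Fintype.card_fin]
    omega) B
  have h5 : √(2 * j * δ) ≤ √(2 * k * δ) := by
    apply Real.sqrt_le_sqrt
    have : (j : ℝ) ≤ k := by exact_mod_cast hj
    nlinarith
  calc ∑ u : Fin K1 → Y, mu J R u * ∑ y ∈ B, ∏ i, qq J R u (y i)
      ≤ ∑ u : Fin K1 → Y, ∑ y ∈ B, (mu J R (Sum.elim u y) +
          |mu J R (Sum.elim u y) - mu J R u * ∏ i, qq J R u (y i)|) := by
        apply sum_le_sum
        intro u _
        rw [mul_sum]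
        apply sum_le_sum
        intro y _
        have := neg_abs_le (mu J R (Sum.elim u y) - mu J R u * ∏ i, qq J R u (y i))
        linarith
    _ = ∑ y ∈ B, mu J R y + ∑ u : Fin K1 → Y, ∑ y ∈ B,
          |mu J R (Sum.elim u y) - mu J R u * ∏ i, qq J R u (y i)| := by
        rw [← h4, ← sum_add_distrib]
        apply sum_congr rfl
        intro u _
        rw [sum_add_distrib]
    _ ≤ τ + √(2 * k * δ) := by
        apply add_le_add hB
        refine le_trans ?_ (h3.trans h5)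
        apply sum_le_sum
        intro u _
        apply sum_le_sum_of_subset_of_nonneg (subset_univ _)
        intro y _ _
        exact abs_nonneg _

theorem thmA (k : ℕ) (hk : 1 ≤ k) (ε C1 C2 : ℝ) (hε : 0 < ε) (hε1 : ε < 1) (hC1 : 1 ≤ C1)
    (hC2 : 1 ≤ C2) :
    ∃ K0 : ℕ, ∃ ms τ : ℝ, 0 < ms ∧ 0 < τ ∧ ∀ (ι Y : Type) [Fintype Y] (J : Finset ι)
      (R : ι → Finset Y) (c : Y → ℕ) (BB : (j : ℕ) → Finset (Fin j → Y)), J.Nonempty →
      (∀ n ∈ J, ms ≤ (R n).card) →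
      (∀ K : ℕ, K ≤ K0 → GG J R K ≤ Real.exp (C1 * K * Real.log (K + 1) + C1)) →
      (∀ B : Finset Y, ∑ n ∈ J, (pav (R n) (fun y => ind B y - av c (ind B) y)) ^ 2 ≤
        τ ^ 2 * J.card) →
      (∑ n ∈ J, nrm c (dens (R n)) ≤ C2 * J.card) →
      (∀ j, 1 ≤ j → j ≤ k → ∑ y ∈ BB j, mu J R y ≤ τ) →
      ∃ T : Finset Y, (1 - ε) / C2 * Fintype.card Y ≤ T.card ∧
        ∀ j, 1 ≤ j → j ≤ k → (inT (BB j) T : ℝ) ≤
          ε * (Fintype.card Y : ℝ) ^ j := by
  classical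
  set e : ℝ := ε / 8 with he_def
  have he : 0 < e := by positivity
  have he8 : e ≤ 1 / 8 := by
    rw [he_def]
    linarith
  have he1 : e ≤ 1 := by linarith
  set κ : ℝ := ε * e ^ k with hκ_def
  have hκ : 0 < κ := by positivity
  have hk0 : (0 : ℝ) < k := by exact_mod_cast hk
  set b0 : ℝ := κ * e / (32 * (k + 1)) with hb0_def
  have hb0 : 0 < b0 := by positivity
  set δ : ℝ := min (e ^ 4 / 32768) (b0 ^ 2 / (2 * k)) with hδ_def
  have hδ : 0 < δ := by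
    rw [hδ_def]
    apply lt_min <;> positivity
  have hδa : 2 * √(2 * δ) ≤ e ^ 2 / 64 := by
    have h1 : √(2 * δ) ≤ √((e ^ 2 / 128) ^ 2) := by
      apply Real.sqrt_le_sqrt
      have : δ ≤ e ^ 4 / 32768 := min_le_left _ _
      have h2 : (e ^ 2 / 128) ^ 2 = e ^ 4 / 16384 := by ring
      rw [h2]
      linarith
    rw [Real.sqrt_sq (by positivity)] at h1
    linarith
  have hδb : √(2 * k * δ) ≤ b0 := by
    have h1 : √(2 * k * δ) ≤ √(b0 ^ 2) := by
      apply Real.sqrt_le_sqrt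
      have : δ ≤ b0 ^ 2 / (2 * k) := min_le_right _ _
      rw [le_div_iff₀ (by positivity)] at this
      linarith
    rwa [Real.sqrt_sq hb0.le] at h1
  obtain ⟨L1, hL1, P1⟩ := pigeon C1 δ hδ k hk
  have hex : ∀ l : ℕ, ∃ L : ℕ, 1 ≤ l → (1 ≤ L ∧ ∀ (ι Y : Type) [Fintype Y] (J : Finset ι)
      (R : ι → Finset Y), J.Nonempty →
      (∀ n ∈ J, 2 * L * l + 2 ≤ (R n).card) →
      GG J R (2 * L * l) ≤
        Real.exp (C1 * ((2 * L * l : ℕ) : ℝ) * Real.log ((2 * L * l : ℕ) + 1) + C1) →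
      ∃ K : ℕ, K ≤ L * l ∧ hh J R (K + l) - hh J R K ≤ δ) := by
    intro l
    by_cases hl : 1 ≤ l
    · obtain ⟨L, hL⟩ := pigeon C1 δ hδ l hl
      exact ⟨L, fun _ => hL⟩
    · exact ⟨0, fun h => absurd h hl⟩
  choose L2 P2 using hex
  set K0 : ℕ := 2 * L1 * k + ∑ l ∈ range (L1 * k + 2), 2 * L2 l * l + 1 with hK0_def
  have hK0a : 2 * L1 * k ≤ K0 := by omega
  have hK0b : ∀ l ∈ range (L1 * k + 2), 2 * L2 l * l ≤ ∑ l ∈ range (L1 * k + 2), 2 * L2 l * l :=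
    fun l hl => single_le_sum (f := fun l => 2 * L2 l * l) (fun _ _ => Nat.zero_le _) hl
  set G0 : ℝ := Real.exp (C1 * K0 * Real.log (K0 + 1) + C1) with hG0_def
  have hG0 : 0 < G0 := Real.exp_pos _
  set δ2 : ℝ := e ^ 2 / 128 with hδ2_def
  have hδ2 : 0 < δ2 := by positivity
  set ρ : ℝ := (e ^ 2 / 64) ^ 2 * δ2 / (64 * G0) with hρ_def
  have hρ : 0 < ρ := by positivity
  set τ : ℝ := min (√ρ) b0 with hτ_def
  have hτ : 0 < τ := lt_min (Real.sqrt_pos.mpr hρ) hb0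
  have hτ2 : τ ^ 2 ≤ ρ := by
    have h1 : τ ≤ √ρ := min_le_left _ _
    calc τ ^ 2 ≤ (√ρ) ^ 2 := pow_le_pow_left₀ hτ.le h1 2
      _ = ρ := Real.sq_sqrt hρ.le
  set ms : ℝ := 3 * K0 + 2 * k + 10 + 32 * K0 / e + K0 / √ρ with hms_def
  have hK0r : (0 : ℝ) ≤ K0 := Nat.cast_nonneg _
  have hsρ : 0 < √ρ := Real.sqrt_pos.mpr hρ
  have hms1 : 3 * (K0 : ℝ) + 2 * k + 10 ≤ ms := by
    have h1 : 0 ≤ 32 * (K0 : ℝ) / e := by positivity
    have h2 : 0 ≤ (K0 : ℝ) / √ρ := by positivity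
    linarith
  have hms2 : 32 * (K0 : ℝ) ≤ e * ms := by
    have h1 : 32 * (K0 : ℝ) / e ≤ ms := by
      have h2 : 0 ≤ (K0 : ℝ) / √ρ := by positivity
      linarith
    rw [div_le_iff₀ he] at h1
    linarith
  have hms3 : (K0 : ℝ) ≤ √ρ * ms := by
    have h1 : (K0 : ℝ) / √ρ ≤ ms := by
      have h2 : 0 ≤ 32 * (K0 : ℝ) / e := by positivity
      linarith
    rw [div_le_iff₀ hsρ] at h1
    linarith
  have hms0 : 0 < ms := by linarith
  refine ⟨K0, ms, τ, hms0, hτ, ?_⟩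
  intro ι Y _ J R c BB hJ hR hG hP hE hB
  have hRn : ∀ n ∈ J, 3 * K0 + 2 * k + 10 ≤ (R n).card := by
    intro n hn
    have h1 := hms1.trans (hR n hn)
    exact_mod_cast h1
  -- the two sample sizes
  obtain ⟨K1, hK1, hK1δ⟩ := P1 ι Y J R hJ (fun n hn => by
    have := hRn n hn
    omega) (hG (2 * L1 * k) hK0a)
  have hl1 : 1 ≤ max K1 1 := le_max_right _ _
  have hl2 : max K1 1 ∈ range (L1 * k + 2) := by
    rw [mem_range]
    omega
  have hl3 := hK0b _ hl2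
  obtain ⟨_, P2'⟩ := P2 (max K1 1) hl1
  obtain ⟨K2, hK2, hK2δ⟩ := P2' ι Y J R hJ (fun n hn => by
    have := hRn n hn
    omega) (hG _ (by omega))
  have hK2' : K2 ≤ ∑ l ∈ range (L1 * k + 2), 2 * L2 l * l := by
    have : L2 (max K1 1) * max K1 1 ≤ 2 * L2 (max K1 1) * max K1 1 := by
      rw [mul_assoc]
      omega
    omega
  have hK12 : K1 + K2 ≤ K0 := by
    have : L1 * k ≤ 2 * L1 * k := by
      rw [mul_assoc]
      omega
    omega
  have hδ' : hh J R (K2 + K1) - hh J R K2 ≤ δ := by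
    rcases Nat.eq_zero_or_pos K1 with h0 | h0
    · rw [h0, add_zero, sub_self]
      exact hδ.le
    · rwa [max_eq_left h0] at hK2δ
  -- Lemma L
  have hL := lemL (α := Fin K1) (β := Fin K2) J hJ R c τ ms δ δ2 hδ2 (by linarith) hR
    (fun n hn => by
      have := hRn n hn
      rw [Fintype.card_fin, Fintype.card_fin]
      omega) (by rw [Fintype.card_fin, Fintype.card_fin]; exact hδ') hP
  rw [Fintype.card_fin, Fintype.card_fin] at hL
  have hGG : GG J R (K1 + K2) ≤ G0 := by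
    refine (hG _ hK12).trans ?_
    rw [hG0_def]
    apply Real.exp_le_exp.mpr
    have h1 : ((K1 + K2 : ℕ) : ℝ) ≤ K0 := by exact_mod_cast hK12
    have h2 : (0 : ℝ) ≤ ((K1 + K2 : ℕ) : ℝ) := Nat.cast_nonneg _
    have h3 : Real.log (((K1 + K2 : ℕ) : ℝ) + 1) ≤ Real.log (K0 + 1) :=
      Real.log_le_log (by linarith) (by linarith)
    have h4 : 0 ≤ Real.log (((K1 + K2 : ℕ) : ℝ) + 1) := Real.log_nonneg (by linarith)
    have h5 : C1 * ((K1 + K2 : ℕ) : ℝ) * Real.log (((K1 + K2 : ℕ) : ℝ) + 1) ≤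
        C1 * K0 * Real.log (K0 + 1) := by
      apply mul_le_mul _ h3 h4 (by positivity)
      exact mul_le_mul_of_nonneg_left h1 (by linarith)
    linarith
  have hK2r : (K2 : ℝ) ≤ K0 := by
    have : K2 ≤ K0 := by omega
    exact_mod_cast this
  have hθ : 32 * τ ^ 2 + 32 * (K2 : ℝ) ^ 2 / ms ^ 2 ≤ 64 * ρ := by
    have h1 : (K2 : ℝ) ^ 2 / ms ^ 2 ≤ ρ := by
      rw [div_le_iff₀ (by positivity)]
      calc (K2 : ℝ) ^ 2 ≤ (√ρ * ms) ^ 2 :=
            pow_le_pow_left₀ (Nat.cast_nonneg _) (hK2r.trans hms3) 2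
        _ = ρ * ms ^ 2 := by rw [mul_pow, Real.sq_sqrt hρ.le]
    have h2 : 32 * (K2 : ℝ) ^ 2 / ms ^ 2 = 32 * ((K2 : ℝ) ^ 2 / ms ^ 2) := by ring
    rw [h2]
    linarith
  have hGG0 : 0 ≤ GG J R (K1 + K2) := by
    unfold GG
    positivity
  have hsq : √(GG J R (K1 + K2) * (32 * τ ^ 2 + 32 * (K2 : ℝ) ^ 2 / ms ^ 2) / δ2) ≤
      e ^ 2 / 64 := by
    rw [Real.sqrt_le_left (by positivity), div_le_iff₀ hδ2]
    calc GG J R (K1 + K2) * (32 * τ ^ 2 + 32 * (K2 : ℝ) ^ 2 / ms ^ 2)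
        ≤ G0 * (64 * ρ) := by
          apply mul_le_mul hGG hθ (by positivity) hG0.le
      _ = (e ^ 2 / 64) ^ 2 * δ2 := by
          rw [hρ_def]
          field_simp
  have hL' : ∑ u : Fin K1 → Y, mu J R u *
      ((∑ y, |phi J R u y - av c (phi J R u) y|) / Fintype.card Y) ≤ e * (e / 16) := by
    refine hL.trans ?_
    have h1 : 2 * δ2 = e ^ 2 / 64 := by rw [hδ2_def]; ring
    have h2 : e * (e / 16) = 4 * (e ^ 2 / 64) := by ring
    rw [h1, h2]
    have h3 : 0 ≤ e ^ 2 / 64 := by positivity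
    linarith
  -- Lemma M
  have hK1r : (K1 : ℝ) ≤ K0 := by
    have : K1 ≤ K0 := by omega
    exact_mod_cast this
  have hM := lemM (α := Fin K1) J hJ R c ms C2 (by
    rw [Fintype.card_fin]
    have : (0 : ℝ) ≤ k := hk0.le
    linarith) hR hE
  rw [Fintype.card_fin] at hM
  have hM' : ∑ u : Fin K1 → Y, mu J R u * nrm c (phi J R u) ≤ C2 * (1 + e / 8) := by
    refine hM.trans ?_
    rw [mul_comm C2]
    apply mul_le_mul_of_nonneg_right _ (by linarith)
    apply thmA_ratio e ms K1 he he1 (Nat.cast_nonneg _) hms0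
    linarith
  -- bad families
  have hB' : ∀ j, 1 ≤ j → j ≤ k → ∑ u : Fin K1 → Y, mu J R u *
      ∑ y ∈ BB j, ∏ i, qq J R u (y i) ≤ κ * (e / (16 * (k + 1))) := by
    intro j hj1 hjk
    have h1 := thmA_B J hJ R K1 j k hjk δ τ hδ.le (fun n hn => by
      have := hRn n hn
      omega) hK1δ (BB j) (hB j hj1 hjk)
    have h2 : τ ≤ b0 := min_le_right _ _
    have h3 : κ * (e / (16 * (k + 1))) = b0 + b0 := by
      rw [hb0_def]
      field_simp
      ring
    rw [h3]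
    linarith
  obtain ⟨T, hT1, hT2⟩ := pick (α := Fin K1) J hJ R c k C2 e κ e hC2 he he1 he hκ
    (by linarith) (fun n hn => by
      have := hRn n hn
      rw [Fintype.card_fin]
      omega) hM' hL' BB hB'
  refine ⟨T, ?_, ?_⟩
  · refine le_trans ?_ hT1
    apply mul_le_mul_of_nonneg_right _ (Nat.cast_nonneg _)
    rw [div_le_div_iff₀ (by linarith) (by positivity)]
    have h1 : (1 - ε) * (1 + e) ≤ (1 - e - e) ^ 2 := by
      rw [he_def]
      nlinarith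
    nlinarith
  · intro j hj1 hjk
    have h1 := hT2 j hj1 hjk
    have h2 : e ^ k ≤ e ^ j := pow_le_pow_of_le_one he.le he1 hjk
    have h3 : e ^ j * (inT (BB j) T : ℝ) ≤ e ^ j * (ε * (Fintype.card Y : ℝ) ^ j) := by
      refine h1.trans ?_
      rw [hκ_def]
      have h4 : (0 : ℝ) ≤ (Fintype.card Y : ℝ) ^ j := by positivity
      calc ε * e ^ k * (Fintype.card Y : ℝ) ^ j ≤ ε * e ^ j * (Fintype.card Y : ℝ) ^ j := by
            apply mul_le_mul_of_nonneg_right _ h4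
            exact mul_le_mul_of_nonneg_left h2 hε.le
        _ = e ^ j * (ε * (Fintype.card Y : ℝ) ^ j) := by ring
    exact le_of_mul_le_mul_left h3 (by positivity)

end Pool.Agent.Lib.MP_092512_nt.QC
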