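import Pool.Agent.Lib.MP_092512_nt.QC.ThmA
import Pool.Agent.Lib.MP_092512_nt.QC.Reg
import Pool.Agent.Lib.MP_092512_nt.QC.Enr
import Pool.Agent.Lib.MP_092512_nt.QC.Cls
import Pool.Agent.Lib.MP_092512_nt.QC.MuPr

/-!
# ThmB: Theorem B of the text

PROOF (1.5). `N = card Y`, `nu n y = (N/m) ind (R n) y`, `s n = |R n|/m`, `E n = nrm c (nu n)`. Order: `e` small; `level` for `C = 4 (1+e)`:
`a, p0, η1`. `thmA` with `C2 = 4 (1+e)^2`, `C1` = (from `C4, a, p0`): `K0, ms, τ`. `τ' = τ a √p0` (or smaller), `I` with `I τ'^2 > 4 (1+e)`. Then `η, β` small.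
`Enr.energy_le` with `C = 4 (1+η)`: energy `≤ 4 (1+e)` for `cells ≤ 2^I`. `Reg.reg`: the partition `c`. `level`: `J'`. For `n ∈ J'`:
`dens (R n) = nu n/s n`; `nrm c (dens (R n)) = E n/s n^2`; `pav (R n) g = (∑ nu n g)/(N s n)`, so
`∑_{J'} (pav (R n) g)^2 ≤ a^{-2} τ'^2 |J| ≤ τ^2 |J'|`; `|R n| ≥ a m ≥ ms`. `mu J' R v ≤ p0^{-1} pr J R v (2/(a m))^K` for injective `v` with
`K ≤ a m/2` (`descFactorial ≥ (a m/2)^K`), `mu = 0` for the others; hence the `GG` bound from (B3) and `∑_{BB j} mu ≤ p0^{-1} (2/a)^j β ≤ τ`.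
`s n^2 ≤ E n`: Cauchy-Schwarz (`∑ av c (nu n) = ∑ nu n = N s n`).
-/

set_option autoImplicit false

open Finset

namespace Pool.Agent.Lib.MP_092512_nt.QC

private lemma thmb_exp (C4 a p0 : ℝ) (hC4 : 1 ≤ C4) (ha : 0 < a) (hp0 : 0 < p0) :
    ∃ C1 : ℝ, 1 ≤ C1 ∧ ∀ K : ℕ, 1 ≤ K →
      C4 / p0 ^ 2 * (2 * C4 * K / a) ^ (2 * K) ≤ Real.exp (C1 * K * Real.log (K + 1) + C1) := by
  set L1 : ℝ := |Real.log (C4 / p0 ^ 2)| with hL1
  set L2 : ℝ := |Real.log (2 * C4 / a)| with hL2
  have hL1n : 0 ≤ L1 := abs_nonneg _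
  have hL2n : 0 ≤ L2 := abs_nonneg _
  refine ⟨3 + L1 + 4 * L2, by linarith, fun K hK => ?_⟩
  have hK1 : (1 : ℝ) ≤ K := by exact_mod_cast hK
  have hK0 : (0 : ℝ) < K := by linarith
  have h0 : (0 : ℝ) < C4 / p0 ^ 2 := by positivity
  have h1 : (0 : ℝ) < 2 * C4 / a := by positivity
  have e1 : 2 * C4 * K / a = (2 * C4 / a) * K := by ring
  have hlogK : Real.log K ≤ Real.log (K + 1) := Real.log_le_log hK0 (by linarith)
  have hlog2 : (1 / 2 : ℝ) ≤ Real.log (K + 1) := by
    have h2 : Real.log 2 ≤ Real.log (K + 1) := Real.log_le_log (by norm_num) (by linarith)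
    have h3 := Real.log_two_gt_d9
    linarith
  have hpos : 0 < C4 / p0 ^ 2 * (2 * C4 * K / a) ^ (2 * K) := by positivity
  rw [← Real.log_le_iff_le_exp hpos, Real.log_mul h0.ne' (by positivity), Real.log_pow, e1,
    Real.log_mul h1.ne' hK0.ne']
  push_cast
  have g1 : Real.log (C4 / p0 ^ 2) ≤ L1 := le_abs_self _
  have g2 : Real.log (2 * C4 / a) ≤ L2 := le_abs_self _
  have g3 : 2 * (K : ℝ) * (Real.log (2 * C4 / a) + Real.log K) ≤
      2 * K * L2 + 2 * K * Real.log (K + 1) := by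
    have : Real.log (2 * C4 / a) + Real.log K ≤ L2 + Real.log (K + 1) := by linarith
    nlinarith
  have g4 : 2 * (K : ℝ) * L2 ≤ 4 * L2 * K * Real.log (K + 1) := by
    have h5 : 0 ≤ (K : ℝ) * L2 := by positivity
    nlinarith
  have g5 : 0 ≤ (K : ℝ) * Real.log (K + 1) := by
    have : 0 ≤ Real.log ((K : ℝ) + 1) := by linarith
    positivity
  have g6 : (3 + L1 + 4 * L2) * K * Real.log (K + 1) =
      3 * (K * Real.log (K + 1)) + L1 * (K * Real.log (K + 1)) + 4 * L2 * K * Real.log (K + 1) := by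
    ring
  have g7 : 0 ≤ L1 * (K * Real.log (K + 1)) := mul_nonneg hL1n g5
  rw [g6]
  linarith

private lemma thmb_ind {Y : Type} [Fintype Y] (B : Finset Y) (t : ℝ) (g : Y → ℝ) :
    ∑ y, (t * ind B y) * g y = t * ∑ y ∈ B, g y := by
  classical
  have h1 : ∀ y, (t * ind B y) * g y = t * (if y ∈ B then g y else 0) := by
    intro y
    unfold ind
    split_ifs <;> ring
  simp only [h1]
  rw [← mul_sum, ← sum_filter]
  congr 2
  ext y
  simp

private lemma thmb_sum {ι Y : Type} [Fintype Y] (J : Finset ι) (hJ : J.Nonempty) (R : ι → Finset Y) :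
    ∑ n ∈ J, ((R n).card : ℝ) = J.card * ∑ y, pr J R (fun _ : Unit => y) := by
  classical
  have hJ0 : (J.card : ℝ) ≠ 0 := by exact_mod_cast hJ.card_pos.ne'
  unfold pr
  rw [← sum_div, mul_div_cancel₀ _ hJ0]
  have h1 : ∀ n ∈ J, ((R n).card : ℝ) = ∑ y : Y, if y ∈ R n then (1 : ℝ) else 0 := by
    intro n _
    rw [← sum_filter, sum_const, nsmul_eq_mul, mul_one]
    congr 2
    ext y
    simp
  rw [sum_congr rfl h1, sum_comm]
  refine sum_congr rfl fun y _ => ?_
  rw [← sum_filter, sum_const, nsmul_eq_mul, mul_one]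
  congr 2
  ext n
  simp

private lemma thmb_cs {Y : Type} [Fintype Y] [Nonempty Y] (c : Y → ℕ) (g : Y → ℝ) :
    ((∑ y, g y) / Fintype.card Y) ^ 2 ≤ nrm c g := by
  have hN : (0 : ℝ) < Fintype.card Y := by exact_mod_cast Fintype.card_pos
  unfold nrm
  rw [← sum_av c g, div_pow, div_le_div_iff₀ (by positivity) hN]
  have h := sum_mul_sq_le_sq_mul_sq univ (fun _ => (1 : ℝ)) (av c g)
  simp only [one_mul, one_pow, sum_const, nsmul_eq_mul, mul_one, card_univ] at h
  nlinarith

theorem thmB (k : ℕ) (hk : 1 ≤ k) (ε C4 : ℝ) (hε : 0 < ε) (hε1 : ε < 1) (hC4 : 1 ≤ C4) :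
    ∃ K0 : ℕ, ∃ η β : ℝ, 0 < η ∧ 0 < β ∧ ∀ (ι Y : Type) [Fintype Y] [Nonempty Y] (J : Finset ι)
      (R : ι → Finset Y) (m : ℝ) (s : Y → Y → ℝ) (BB : (j : ℕ) → Finset (Fin j → Y)),
      J.Nonempty → 1 / η ≤ m →
      (∀ y : Y, (1 - η) * m / Fintype.card Y ≤ pr J R (fun _ : Unit => y) ∧
        pr J R (fun _ : Unit => y) ≤ (1 + η) * m / Fintype.card Y) →
      (∀ y z : Y, y ≠ z → pr J R ![y, z] ≤
        4 * (1 + η) * s y z * m ^ 2 / (Fintype.card Y : ℝ) ^ 2) →
      (∀ F : Finset (Y × Y), (∀ p ∈ F, p.1 ≠ p.2) →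
        ∑ p ∈ F, (s p.1 p.2 - 1) ^ 2 ≤ η ^ 2 * (Fintype.card Y : ℝ) ^ 2) →
      (∀ K : ℕ, 1 ≤ K → K ≤ K0 → ∀ F : Finset (Fin K → Y), (∀ v ∈ F, Function.Injective v) →
        (Fintype.card Y : ℝ) ^ K * ∑ v ∈ F, (pr J R v) ^ 2 ≤ C4 * (C4 * K) ^ (2 * K) * m ^ (2 * K)) →
      (∀ j, 1 ≤ j → j ≤ k → (∀ v ∈ BB j, Function.Injective v) ∧
        ∑ v ∈ BB j, pr J R v ≤ β * m ^ j) →
      ∃ T : Finset Y, (1 / 4 - ε) * Fintype.card Y ≤ T.card ∧
        ∀ j, 1 ≤ j → j ≤ k → (inT (BB j) T : ℝ) ≤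
          ε * (Fintype.card Y : ℝ) ^ j := by
  classical
  obtain ⟨a, p0, η1, ha, hp0, hη1, hlevel⟩ := level (4 * (1 + ε)) ε (by linarith) hε
  obtain ⟨C1, hC1, hexp⟩ := thmb_exp C4 a p0 hC4 ha hp0
  obtain ⟨K0, ms, τ, hms, hτ, hA⟩ := thmA k hk ε C1 (4 * (1 + ε) ^ 2) hε hε1 hC1 (by nlinarith)
  set τ' : ℝ := τ * a * Real.sqrt p0 with hτ'd
  have hτ' : 0 < τ' := by positivity
  have hτ'sq : τ' ^ 2 = τ ^ 2 * a ^ 2 * p0 := by
    rw [hτ'd, mul_pow, mul_pow, Real.sq_sqrt hp0.le]
  obtain ⟨I, hI⟩ := exists_nat_gt (4 * (1 + ε) / τ' ^ 2)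
  have hI' : 4 * (1 + ε) < I * τ' ^ 2 := by
    rwa [div_lt_iff₀ (by positivity)] at hI
  set D : ℝ := 1 + 2 / a with hD
  have hD1 : 1 ≤ D := by
    rw [hD]
    have : 0 < 2 / a := by positivity
    linarith
  set η : ℝ := min (min η1 (a / (2 * K0 + 1))) (min (ε / (4 * 2 ^ I))
    (min (a / ms) (min (a / (2 * k + 1)) 1))) with hηd
  have hη : 0 < η := by
    rw [hηd]
    have h1 : 0 < a / (2 * (K0 : ℝ) + 1) := by positivity
    have h2 : 0 < ε / (4 * (2 : ℝ) ^ I) := by positivity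
    have h3 : 0 < a / ms := by positivity
    have h4 : 0 < a / (2 * (k : ℝ) + 1) := by positivity
    exact lt_min (lt_min hη1 h1) (lt_min h2 (lt_min h3 (lt_min h4 one_pos)))
  have b1 : η ≤ η1 := (min_le_left _ _).trans (min_le_left _ _)
  have b2 : η ≤ a / (2 * K0 + 1) := (min_le_left _ _).trans (min_le_right _ _)
  have b3 : η ≤ ε / (4 * 2 ^ I) := (min_le_right _ _).trans (min_le_left _ _)
  have b4 : η ≤ a / ms := (min_le_right _ _).trans ((min_le_right _ _).trans (min_le_left _ _))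
  have b5 : η ≤ a / (2 * k + 1) := (min_le_right _ _).trans ((min_le_right _ _).trans
    ((min_le_right _ _).trans (min_le_left _ _)))
  have b6 : η ≤ 1 := (min_le_right _ _).trans ((min_le_right _ _).trans
    ((min_le_right _ _).trans (min_le_right _ _)))
  refine ⟨K0, η, τ * p0 / D ^ k, hη, by positivity, ?_⟩
  intro ι Y _ _ J R m s BB hJ hηm hB1 hB2 hs hB3 hB4
  have hN : (0 : ℝ) < Fintype.card Y := by exact_mod_cast Fintype.card_pos
  set N : ℝ := (Fintype.card Y : ℝ) with hNd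
  have hm : 0 < m := lt_of_lt_of_le (by positivity) hηm
  have hJ0 : (0 : ℝ) < J.card := by exact_mod_cast hJ.card_pos
  have hηm1 : 1 ≤ η * m := by
    rw [div_le_iff₀ hη] at hηm
    linarith
  have hbig : ∀ x : ℝ, 0 < x → η ≤ a / x → x ≤ a * m := by
    intro x hx h
    rw [le_div_iff₀ hx] at h
    nlinarith
  have m2 : 2 * (K0 : ℝ) + 1 ≤ a * m := hbig _ (by positivity) b2
  have m4 : ms ≤ a * m := hbig _ hms b4
  have m5 : 2 * (k : ℝ) + 1 ≤ a * m := hbig _ (by positivity) b5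
  -- the energies
  set f : ι → Y → ℝ := fun n y => (N / m) * ind (R n) y with hf
  have hen : ∀ c : Y → ℕ, cells c ≤ 2 ^ I → ∑ n ∈ J, nrm c (f n) ≤ 4 * (1 + ε) * J.card := by
    intro c hc
    have h1 := energy_le J hJ R m (4 * (1 + η)) η s hm (by positivity) hη.le (fun y => by
      refine (hB1 y).2.trans ?_
      gcongr
      linarith) hB2 hs c
    refine h1.trans ?_
    refine mul_le_mul_of_nonneg_right ?_ hJ0.le
    have hc' : (cells c : ℝ) ≤ 2 ^ I := by exact_mod_cast hc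
    have h2 : η * 2 ^ I ≤ ε / 4 := by
      calc η * 2 ^ I ≤ ε / (4 * 2 ^ I) * 2 ^ I := by gcongr
        _ = ε / 4 := by field_simp
    have h3 : (1 : ℝ) ≤ 2 ^ I := one_le_pow₀ (by norm_num)
    have h4 : η ≤ η * 2 ^ I := le_mul_of_one_le_right hη.le h3
    have h5 : (cells c : ℝ) * η ≤ η * 2 ^ I := by
      rw [mul_comm]
      gcongr
    have h6 : 2 * (cells c : ℝ) / m ≤ 2 * (η * 2 ^ I) := by
      rw [div_le_iff₀ hm]
      nlinarith
    have h7 : 0 ≤ (cells c : ℝ) * η := by positivity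
    have h8 : 4 * (1 + η) * (1 + cells c * η) ≤ 4 * (1 + η) * (1 + η * 2 ^ I) := by
      gcongr
    nlinarith
  obtain ⟨c, hc, hreg⟩ := reg J f (4 * (1 + ε)) τ' hτ' I hI' hJ hen
  -- the level
  have hs0 : ∀ n ∈ J, 0 ≤ ((R n).card : ℝ) / m := fun n _ => by positivity
  have hfsum : ∀ n, ∑ y, f n y = (N / m) * (R n).card := by
    intro n
    have h1 := thmb_ind (R n) (N / m) (fun _ => (1 : ℝ))
    simp only [mul_one, sum_const, nsmul_eq_mul] at h1
    exact h1
  have hcs : ∀ n ∈ J, (((R n).card : ℝ) / m) ^ 2 ≤ nrm c (f n) := by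
    intro n _
    have h1 := thmb_cs c (f n)
    rw [hfsum n] at h1
    have h2 : N / m * ((R n).card : ℝ) / (Fintype.card Y : ℝ) = ((R n).card : ℝ) / m := by
      rw [← hNd]
      field_simp
    rw [h2] at h1
    exact h1
  have hmass : (1 - η1) * J.card ≤ ∑ n ∈ J, ((R n).card : ℝ) / m := by
    rw [← sum_div, thmb_sum J hJ R, le_div_iff₀ hm]
    have h1 : (1 - η) * m ≤ ∑ y, pr J R (fun _ : Unit => y) := by
      calc (1 - η) * m = ∑ _y : Y, (1 - η) * m / Fintype.card Y := by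
            rw [sum_const, nsmul_eq_mul, card_univ, ← hNd]
            field_simp
        _ ≤ _ := sum_le_sum fun y _ => (hB1 y).1
    have h2 : (1 - η1) * m ≤ (1 - η) * m := by gcongr
    calc (1 - η1) * J.card * m = J.card * ((1 - η1) * m) := by ring
      _ ≤ J.card * ∑ y, pr J R (fun _ : Unit => y) :=
          mul_le_mul_of_nonneg_left (h2.trans h1) hJ0.le
  obtain ⟨J', hJ'J, hJ'p, hJ'a, hJ'E⟩ := hlevel ι J (fun n => ((R n).card : ℝ) / m)
    (fun n => nrm c (f n)) hJ hs0 hcs hmass (hen c hc)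
  have hJ'0 : (0 : ℝ) < J'.card := lt_of_lt_of_le (by positivity) hJ'p
  have hJ'ne : J'.Nonempty := by
    rw [← card_pos]
    exact_mod_cast hJ'0
  have hRa : ∀ n ∈ J', a * m ≤ (R n).card := by
    intro n hn
    have h1 := hJ'a n hn
    rwa [le_div_iff₀ hm] at h1
  have ham : 0 < a * m := by positivity
  have hRpos : ∀ n ∈ J', (0 : ℝ) < (R n).card := fun n hn => lt_of_lt_of_le ham (hRa n hn)
  -- the laws
  have hmu : ∀ K : ℕ, 2 * (K : ℝ) ≤ a * m → ∀ v : Fin K → Y,
      mu J' R v ≤ pr J R v * (2 / (a * m)) ^ K / p0 := by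
    intro K hK v
    have h1 := mu_le_pr J J' hJ'J R p0 a m hp0 ha hm hJ'p hJ'ne hRa
      (by rw [Fintype.card_fin]; exact hK) v
    rwa [Fintype.card_fin] at h1
  have hGG : ∀ K : ℕ, K ≤ K0 → GG J' R K ≤ Real.exp (C1 * K * Real.log (K + 1) + C1) := by
    intro K hK
    have hK' : (K : ℝ) ≤ K0 := by exact_mod_cast hK
    have hKm : 2 * (K : ℝ) ≤ a * m := by linarith
    rcases Nat.eq_zero_or_pos K with h0 | h0
    · subst h0
      have h1 : ∀ v : Fin 0 → Y, mu J' R v = 1 := by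
        intro v
        unfold mu
        have h2 : ∀ n ∈ J', wt (R n) v = 1 := by
          intro n _
          unfold wt
          rw [if_pos ⟨fun i => i.elim0, fun i => i.elim0⟩]
          simp
        rw [sum_congr rfl h2, sum_const, nsmul_eq_mul, mul_one, div_self hJ'0.ne']
      unfold GG
      simp only [h1]
      simp only [pow_zero, one_pow, sum_const, card_univ, Fintype.card_fun, Fintype.card_fin,
        one_mul, nsmul_eq_mul, mul_one, Nat.cast_one, Nat.cast_zero, mul_zero, zero_mul, zero_add]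
      rw [← Real.exp_zero]
      exact Real.exp_le_exp.2 (by linarith)
    · have hF := hB3 K h0 hK (univ.filter fun v : Fin K → Y => Function.Injective v)
        (fun v hv => (mem_filter.1 hv).2)
      have h1 : ∑ v : Fin K → Y, (mu J' R v) ^ 2 =
          ∑ v ∈ univ.filter (fun v : Fin K → Y => Function.Injective v), (mu J' R v) ^ 2 := by
        rw [sum_filter]
        refine sum_congr rfl fun v _ => ?_
        split_ifs with h
        · rfl
        · rw [mu_not_inj J' R v h]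
          norm_num
      have h2 : ∑ v ∈ univ.filter (fun v : Fin K → Y => Function.Injective v), (mu J' R v) ^ 2 ≤
          ((2 / (a * m)) ^ K / p0) ^ 2 *
            ∑ v ∈ univ.filter (fun v : Fin K → Y => Function.Injective v), (pr J R v) ^ 2 := by
        rw [mul_sum]
        refine sum_le_sum fun v _ => ?_
        have h3 := hmu K hKm v
        have h4 : 0 ≤ mu J' R v := by
          unfold mu
          refine div_nonneg (sum_nonneg fun n _ => ?_) (Nat.cast_nonneg _)
          unfold wt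
          split_ifs <;> positivity
        calc (mu J' R v) ^ 2 ≤ (pr J R v * (2 / (a * m)) ^ K / p0) ^ 2 := pow_le_pow_left₀ h4 h3 2
          _ = ((2 / (a * m)) ^ K / p0) ^ 2 * (pr J R v) ^ 2 := by ring
      unfold GG
      rw [h1]
      calc (Fintype.card Y : ℝ) ^ K *
            ∑ v ∈ univ.filter (fun v : Fin K → Y => Function.Injective v), (mu J' R v) ^ 2
          ≤ (Fintype.card Y : ℝ) ^ K * (((2 / (a * m)) ^ K / p0) ^ 2 *
            ∑ v ∈ univ.filter (fun v : Fin K → Y => Function.Injective v), (pr J R v) ^ 2) :=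
            mul_le_mul_of_nonneg_left h2 (by positivity)
        _ = ((2 / (a * m)) ^ K / p0) ^ 2 * ((Fintype.card Y : ℝ) ^ K *
            ∑ v ∈ univ.filter (fun v : Fin K → Y => Function.Injective v), (pr J R v) ^ 2) := by
            ring
        _ ≤ ((2 / (a * m)) ^ K / p0) ^ 2 * (C4 * (C4 * K) ^ (2 * K) * m ^ (2 * K)) :=
            mul_le_mul_of_nonneg_left hF (by positivity)
        _ = C4 / p0 ^ 2 * (2 * C4 * K / a) ^ (2 * K) := by
            have e1 : ((2 / (a * m)) ^ K / p0) ^ 2 = (2 / (a * m)) ^ (2 * K) / p0 ^ 2 := by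
              rw [div_pow, ← pow_mul, mul_comm K 2]
            have e2 : (2 * C4 * K / a) ^ (2 * K) =
                (2 / (a * m)) ^ (2 * K) * ((C4 * K) ^ (2 * K) * m ^ (2 * K)) := by
              rw [← mul_pow, ← mul_pow]
              congr 1
              field_simp
            rw [e1, e2]
            ring
        _ ≤ _ := hexp K h0
  obtain ⟨T, hT1, hT2⟩ := hA ι Y J' R c BB hJ'ne (fun n hn => m4.trans (hRa n hn)) hGG
    (by
      -- regularity
      intro B
      have h1 : ∀ n ∈ J', (pav (R n) (fun y => ind B y - av c (ind B) y)) ^ 2 ≤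
          (a⁻¹) ^ 2 * ((∑ y, f n y * (ind B y - av c (ind B) y)) / Fintype.card Y) ^ 2 := by
        intro n hn
        have h2 := thmb_ind (R n) (N / m) (fun y => ind B y - av c (ind B) y)
        have h3 : ∑ y, f n y * (ind B y - av c (ind B) y) =
            N / m * ∑ y ∈ R n, (ind B y - av c (ind B) y) := h2
        have hr := hRpos n hn
        have h4 : (∑ y, f n y * (ind B y - av c (ind B) y)) / Fintype.card Y =
            (((R n).card : ℝ) / m) * pav (R n) (fun y => ind B y - av c (ind B) y) := by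
          rw [h3, ← hNd]
          unfold pav
          field_simp
        rw [h4, mul_pow, ← mul_assoc]
        have h5 : 1 ≤ (a⁻¹) ^ 2 * (((R n).card : ℝ) / m) ^ 2 := by
          rw [← mul_pow]
          apply one_le_pow₀
          have h6 : a ≤ ((R n).card : ℝ) / m := hJ'a n hn
          calc (1 : ℝ) = a⁻¹ * a := (inv_mul_cancel₀ ha.ne').symm
            _ ≤ a⁻¹ * (((R n).card : ℝ) / m) := by gcongr
        exact le_mul_of_one_le_left (sq_nonneg _) h5
      calc ∑ n ∈ J', (pav (R n) (fun y => ind B y - av c (ind B) y)) ^ 2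
          ≤ ∑ n ∈ J', (a⁻¹) ^ 2 *
            ((∑ y, f n y * (ind B y - av c (ind B) y)) / Fintype.card Y) ^ 2 := sum_le_sum h1
        _ ≤ ∑ n ∈ J, (a⁻¹) ^ 2 *
            ((∑ y, f n y * (ind B y - av c (ind B) y)) / Fintype.card Y) ^ 2 :=
            sum_le_sum_of_subset_of_nonneg hJ'J fun _ _ _ => by positivity
        _ = (a⁻¹) ^ 2 * ∑ n ∈ J,
            ((∑ y, f n y * (ind B y - av c (ind B) y)) / Fintype.card Y) ^ 2 := by rw [mul_sum]
        _ ≤ (a⁻¹) ^ 2 * (τ' ^ 2 * J.card) :=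
            mul_le_mul_of_nonneg_left (hreg B) (by positivity)
        _ = τ ^ 2 * (p0 * J.card) := by
            rw [hτ'sq]
            field_simp
        _ ≤ τ ^ 2 * J'.card := mul_le_mul_of_nonneg_left hJ'p (by positivity))
    (by
      -- energy
      have h1 : ∀ n ∈ J', nrm c (dens (R n)) = nrm c (f n) / (((R n).card : ℝ) / m) ^ 2 := by
        intro n hn
        have hr := hRpos n hn
        have h2 : dens (R n) = fun y => (m / (R n).card) * f n y := by
          funext y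
          rw [hf]
          unfold dens
          simp only
          rw [← hNd]
          field_simp
        rw [h2, nrm_smul, div_pow, div_pow]
        field_simp
      rw [sum_congr rfl h1]
      refine hJ'E.trans (le_of_eq ?_)
      ring)
    (by
      -- the bad tuples
      intro j hj hjk
      have hjk' : (j : ℝ) ≤ k := by exact_mod_cast hjk
      have h1 := (hB4 j hj hjk).2
      have hD0 : (0 : ℝ) < D ^ k := by positivity
      calc ∑ y ∈ BB j, mu J' R y ≤ ∑ y ∈ BB j, pr J R y * (2 / (a * m)) ^ j / p0 :=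
            sum_le_sum fun y _ => hmu j (by linarith) y
        _ = (2 / (a * m)) ^ j / p0 * ∑ y ∈ BB j, pr J R y := by
            rw [mul_sum]
            refine sum_congr rfl fun y _ => ?_
            ring
        _ ≤ (2 / (a * m)) ^ j / p0 * (τ * p0 / D ^ k * m ^ j) :=
            mul_le_mul_of_nonneg_left h1 (by positivity)
        _ = τ * ((2 / a) ^ j / D ^ k) := by
            have e1 : (2 / (a * m)) ^ j * m ^ j = (2 / a) ^ j := by
              rw [← mul_pow]
              congr 1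
              field_simp
            rw [← e1]
            field_simp
        _ ≤ τ * 1 := by
            refine mul_le_mul_of_nonneg_left ?_ hτ.le
            rw [div_le_one hD0]
            calc (2 / a) ^ j ≤ D ^ j := by
                  refine pow_le_pow_left₀ (by positivity) ?_ j
                  rw [hD]
                  linarith
              _ ≤ D ^ k := pow_le_pow_right₀ hD1 hjk
        _ = τ := mul_one _)
  refine ⟨T, le_trans ?_ hT1, hT2⟩
  refine mul_le_mul_of_nonneg_right ?_ hN.le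
  rw [le_div_iff₀ (by positivity)]
  nlinarith [mul_pos hε hε, mul_pos hε (mul_pos hε hε)]

end Pool.Agent.Lib.MP_092512_nt.QC
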