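import Pool.Agent.Lib.MP_092512_nt.QC.Fin
import Pool.Agent.Lib.MP_092512_nt.QC.Pos

/-!
# Top: Theorem Q with the proportion of the subsets and positivity of the singular series
-/

set_option autoImplicit false

open Finset Filter Topology

namespace Pool.Agent.Lib.MP_092512_nt.QC

open Pool.Agent.Lib.MP_092512_nt.KSets

private theorem top_choose (t k j : ℕ) (hj : j ≤ k) (ht : 2 * k ≤ t) :
    (t : ℝ) ^ j ≤ 2 ^ k * (k.factorial : ℝ) * (t.choose j : ℝ) := by
  have h1 : (t - j) ^ j ≤ t.descFactorial j := by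
    calc (t - j) ^ j ≤ (t + 1 - j) ^ j := Nat.pow_le_pow_left (by omega) _
      _ ≤ t.descFactorial j := Nat.pow_sub_le_descFactorial t j
  have h2 : t.descFactorial j = j.factorial * t.choose j := Nat.descFactorial_eq_factorial_mul_choose t j
  have h3 : t ≤ 2 * (t - j) := by omega
  have h4 : t ^ j ≤ 2 ^ j * (j.factorial * t.choose j) := by
    calc t ^ j ≤ (2 * (t - j)) ^ j := Nat.pow_le_pow_left h3 _
      _ = 2 ^ j * (t - j) ^ j := mul_pow _ _ _
      _ ≤ 2 ^ j * (j.factorial * t.choose j) := Nat.mul_le_mul_left _ (h1.trans h2.le)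
  have h5 : 2 ^ j * (j.factorial * t.choose j) ≤ 2 ^ k * k.factorial * t.choose j := by
    calc 2 ^ j * (j.factorial * t.choose j) ≤ 2 ^ k * (k.factorial * t.choose j) :=
          Nat.mul_le_mul (Nat.pow_le_pow_right (by norm_num) hj)
            (Nat.mul_le_mul_right _ (Nat.factorial_le hj))
      _ = 2 ^ k * k.factorial * t.choose j := by ring
  exact_mod_cast h4.trans h5

open Classical in
theorem top (S : Finset ℕ → ℝ) (hS : ∀ D, Tendsto (Sp D) atTop (𝓝 (S D))) (k : ℕ) (hk : 1 ≤ k)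
    (ε : ℝ) (hε : 0 < ε) :
    ∃ w0 : ℕ, ∀ w : ℕ, w0 ≤ w → ∃ A c : ℝ, 0 < A ∧ 0 < c ∧ ∃ x0 : ℕ, ∀ x : ℕ, x0 ≤ x → ∀ H : ℕ,
      A * Real.log x ≤ H → (H : ℝ) ≤ c * x → ∀ b : ℕ, ∀ V : Finset ℕ, V ⊆ Icc 1 H →
      (∀ v ∈ V, (b + v).Coprime (primorial w)) →
      ε * ((Nat.totient (primorial w) : ℝ) / (primorial w : ℝ)) * H ≤ V.card →
      ∃ T ⊆ V, (1 / 4 - ε) * (V.card : ℝ) ≤ T.card ∧
        (∀ D ⊆ T, D.card ≤ k → 0 < S D) ∧ ∀ j : ℕ, 1 ≤ j → j ≤ k →
        (((powersetCard j T).filter (fun D => (tc x D : ℝ) <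
          c * S D * (x / (Real.log x) ^ j))).card : ℝ) ≤ ε * (powersetCard j T).card := by
  set e : ℝ := min (ε / (2 ^ k * k.factorial)) (1 / 8) with he_def
  have hfac : (0 : ℝ) < k.factorial := by exact_mod_cast Nat.factorial_pos k
  have hfac1 : (1 : ℝ) ≤ k.factorial := by exact_mod_cast Nat.factorial_pos k
  have hpow1 : (1 : ℝ) ≤ 2 ^ k := one_le_pow₀ (by norm_num)
  have he : 0 < e := lt_min (by positivity) (by norm_num)
  have he1 : e ≤ ε / (2 ^ k * k.factorial) := min_le_left _ _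
  have he2 : e ≤ 1 / 8 := min_le_right _ _
  have he3 : e * (2 ^ k * k.factorial) ≤ ε := by
    rwa [le_div_iff₀ (by positivity)] at he1
  have heε : e ≤ ε := by
    refine le_trans ?_ he3
    have : (1 : ℝ) ≤ 2 ^ k * k.factorial := by nlinarith
    nlinarith
  obtain ⟨w0, hw0⟩ := thmQ S hS k hk e he
  refine ⟨max w0 k, fun w hw => ?_⟩
  have hwk : k ≤ w := (le_max_right _ _).trans hw
  obtain ⟨A, c, hA, hc, x0, h0⟩ := hw0 w ((le_max_left _ _).trans hw)
  set r : ℝ := (Nat.totient (primorial w) : ℝ) / (primorial w : ℝ) with hr_def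
  have hr : 0 < r := by
    have h1 : (0 : ℝ) < Nat.totient (primorial w) := by
      exact_mod_cast Nat.totient_pos.mpr (primorial_pos w)
    have h2 : (0 : ℝ) < primorial w := by exact_mod_cast primorial_pos w
    positivity
  -- x large so that T is large
  obtain ⟨x1, hx1⟩ := (Real.tendsto_log_atTop.comp tendsto_natCast_atTop_atTop).eventually_ge_atTop
    (2 * k * 8 / (ε * r * A)) |>.exists_forall_of_atTop
  refine ⟨A, c, hA, hc, max x0 (max x1 2), fun x hx H hH1 hH2 b V hV hb hcard => ?_⟩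
  have hx0 : x0 ≤ x := (le_max_left _ _).trans hx
  have hx1' : x1 ≤ x := (le_max_left _ _).trans ((le_max_right _ _).trans hx)
  have hx2 : 2 ≤ x := (le_max_right _ _).trans ((le_max_right _ _).trans hx)
  obtain ⟨T, hTV, hT1, hT2⟩ := h0 x hx0 H hH1 hH2 b V hV hb (by
    refine le_trans ?_ hcard
    have hH0 : (0 : ℝ) ≤ H := Nat.cast_nonneg _
    apply mul_le_mul_of_nonneg_right _ hH0
    exact mul_le_mul_of_nonneg_right heε hr.le)
  have hVT : (1 / 8 : ℝ) * V.card ≤ T.card := by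
    refine le_trans ?_ hT1
    apply mul_le_mul_of_nonneg_right _ (Nat.cast_nonneg _)
    linarith
  have hbig : 2 * k ≤ T.card := by
    have h1 := hx1 x hx1'
    simp only [Function.comp_apply] at h1
    rw [div_le_iff₀ (by positivity)] at h1
    have h2 : ε * r * (A * Real.log x) ≤ ε * r * H :=
      mul_le_mul_of_nonneg_left hH1 (by positivity)
    have h3 : (2 * k : ℝ) ≤ T.card := by
      have : (2 * (k : ℝ) * 8) ≤ V.card := by
        calc (2 * (k : ℝ) * 8) ≤ Real.log x * (ε * r * A) := h1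
          _ = ε * r * (A * Real.log x) := by ring
          _ ≤ ε * r * H := h2
          _ ≤ V.card := hcard
      linarith
    exact_mod_cast h3
  refine ⟨T, hTV, ?_, ?_, ?_⟩
  · refine le_trans ?_ hT1
    apply mul_le_mul_of_nonneg_right _ (Nat.cast_nonneg _)
    linarith
  · intro D hD hDk
    apply S_pos S hS D
    intro p hp
    exact adm_of w b D (hDk.trans hwk) (fun d hd => hb d (hTV (hD hd))) p hp
  · intro j hj1 hjk
    refine (hT2 j hj1 hjk).trans ?_
    rw [card_powersetCard]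
    calc e * (T.card : ℝ) ^ j ≤ e * (2 ^ k * (k.factorial : ℝ) * (T.card.choose j : ℝ)) :=
          mul_le_mul_of_nonneg_left (top_choose T.card k j hjk hbig) he.le
      _ = (e * (2 ^ k * k.factorial)) * (T.card.choose j : ℝ) := by ring
      _ ≤ ε * (T.card.choose j : ℝ) := mul_le_mul_of_nonneg_right he3 (Nat.cast_nonneg _)

end Pool.Agent.Lib.MP_092512_nt.QC
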